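import Pool.Agent.ANM.GeoSurf

/-!
# ANM / GeoTorus: the supremum distance on the torus `(ZMod N)^m`

`td x y` is the supremum over the coordinates of the distance in `ZMod N`. It satisfies the
hypotheses `NMet`, `Geo`, `Sep` of the abstract geometry, and balls of radius `r` have at most
`(2 r + 1)^m` points.
-/

set_option autoImplicit false

namespace Pool.Agent.ANM

/-- The absolute value in `ZMod N`. -/
def za {N : ℕ} (a : ZMod N) : ℕ := a.valMinAbs.natAbs

/-- The supremum distance on the torus. -/
def td {N m : ℕ} (x y : Fin m → ZMod N) : ℕ := Finset.univ.sup fun i => za (x i - y i)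

variable {N m : ℕ}

lemma za_zero : za (0 : ZMod N) = 0 := by simp [za]

lemma za_eq_zero {a : ZMod N} (h : za a = 0) : a = 0 := by
  simpa [za] using h

lemma za_neg (a : ZMod N) : za (-a) = za a := by
  unfold za
  exact ZMod.natAbs_valMinAbs_neg a

lemma td_le {x y : Fin m → ZMod N} {r : ℕ} : td x y ≤ r ↔ ∀ i, za (x i - y i) ≤ r := by
  simp [td]

lemma za_le_td (x y : Fin m → ZMod N) (i : Fin m) : za (x i - y i) ≤ td x y :=
  Finset.le_sup (f := fun i => za (x i - y i)) (Finset.mem_univ i)

variable [NeZero N]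

lemma za_cast_le (b : ℤ) : za (b : ZMod N) ≤ b.natAbs := by
  unfold za
  exact ZMod.natAbs_min_of_le_div_two N _ b (by rw [ZMod.coe_valMinAbs])
    (ZMod.natAbs_valMinAbs_le _)

lemma za_add (a b : ZMod N) : za (a + b) ≤ za a + za b := by
  have h : a + b = ((a.valMinAbs + b.valMinAbs : ℤ) : ZMod N) := by
    rw [Int.cast_add, ZMod.coe_valMinAbs, ZMod.coe_valMinAbs]
  rw [h]
  exact (za_cast_le _).trans (Int.natAbs_add_le _ _)

theorem td_met : NMet (td : (Fin m → ZMod N) → (Fin m → ZMod N) → ℕ) where
  self x := by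
    have : td x x ≤ 0 := td_le.2 fun i => by simp [za_zero]
    omega
  symm x y := by
    unfold td
    refine Finset.sup_congr rfl fun i _ => ?_
    rw [← za_neg, neg_sub]
  tri x y z := td_le.2 fun i => by
    have h : x i - z i = (x i - y i) + (y i - z i) := by ring
    rw [h]
    exact (za_add _ _).trans (Nat.add_le_add (za_le_td x y i) (za_le_td y z i))

omit [NeZero N] in
theorem td_sep : Sep (td : (Fin m → ZMod N) → (Fin m → ZMod N) → ℕ) := by
  intro x y h
  funext i
  have := za_le_td x y i
  have h1 : x i - y i = 0 := za_eq_zero (by omega)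
  exact sub_eq_zero.1 h1

lemma int_split (a : ℤ) (p q : ℕ) (h : a.natAbs ≤ p + q) :
    ∃ b : ℤ, b.natAbs ≤ p ∧ (a - b).natAbs ≤ q := by
  rcases le_total 0 a with ha | ha
  · exact ⟨min a p, by omega, by omega⟩
  · exact ⟨max a (-p), by omega, by omega⟩

theorem td_geo : Geo (td : (Fin m → ZMod N) → (Fin m → ZMod N) → ℕ) := by
  intro x y p q h
  rw [td_le] at h
  have h1 : ∀ i, ∃ b : ℤ, b.natAbs ≤ p ∧ ((x i - y i).valMinAbs - b).natAbs ≤ q :=
    fun i => int_split _ p q (h i)
  choose b hb hb' using h1
  refine ⟨fun i => x i - (b i : ZMod N), td_le.2 fun i => ?_, td_le.2 fun i => ?_⟩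
  · have : x i - (x i - (b i : ZMod N)) = ((b i : ℤ) : ZMod N) := by ring
    rw [this]
    exact (za_cast_le _).trans (hb i)
  · have : x i - (b i : ZMod N) - y i = (((x i - y i).valMinAbs - b i : ℤ) : ZMod N) := by
      rw [Int.cast_sub, ZMod.coe_valMinAbs]
      ring
    rw [this]
    exact (za_cast_le _).trans (hb' i)

/-- Balls of radius `r` have at most `(2 r + 1)^m` points. -/
theorem card_ball (x : Fin m → ZMod N) (r : ℕ) :
    (Finset.univ.filter fun y => td x y ≤ r).card ≤ (2 * r + 1) ^ m := by
  classical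
  let T : Finset (Fin m → ℤ) := Fintype.piFinset fun _ => Finset.Icc (-(r : ℤ)) r
  have hT : T.card = (2 * r + 1) ^ m := by
    rw [Fintype.card_piFinset]
    simp only [Int.card_Icc, Finset.prod_const, Finset.card_univ, Fintype.card_fin]
    congr 1
    omega
  rw [← hT]
  refine Finset.card_le_card_of_injOn (fun y i => (x i - y i).valMinAbs) ?_ ?_
  · intro y hy
    simp only [Finset.coe_filter, Finset.mem_univ, true_and] at hy
    have hy' : td x y ≤ r := hy
    rw [td_le] at hy'
    rw [Finset.mem_coe, Fintype.mem_piFinset]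
    intro i
    have h0 := hy' i
    unfold za at h0
    show (x i - y i).valMinAbs ∈ Finset.Icc (-(r : ℤ)) r
    rw [Finset.mem_Icc]
    omega
  · intro y _ z _ hyz
    funext i
    have h1 := congrFun hyz i
    simp only at h1
    have h2 := ZMod.injective_valMinAbs h1
    exact sub_right_injective h2

end Pool.Agent.ANM
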