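import Pool.Agent.ANM.GeoMix

/-!
# ANM / GeoMix2: points and sparse holes, without a relation between the scales

Two kinds of pieces: points `D1 k` (diameter `0`) such that every chain through different points
uses few of them (`2 * number ≤ paid + b`), and a sparse family `E`, with one more factor `2` in
`large`. Then both families together have the chain property `4, 2 cst + 2 b`. There is no relation
between `b` and the lengths `L i`. Proof: the holes are replaced by paid paths, hence
`T ≤ 2 (P + ∑ n_i (ρ_i + 2)) + b` for the total length `T` of a chain; and `J + 1` holes of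
generation `i` span at least `L i` of the total length.
-/

set_option autoImplicit false

namespace Pool.Agent.ANM

section cnt

variable {X ι : Type*} {d : X → X → ℕ} {D : ι → Set X} {gen : ι → ℕ} {J Li : ℕ} {ρ : ℕ → ℕ} {i : ℕ}

/-- pieces of bounded diameter, those of the generation `i` are sparse -/
structure SpW (d : X → X → ℕ) (D : ι → Set X) (gen : ι → ℕ) (J : ℕ) (ρ : ℕ → ℕ) (Li i : ℕ) :
    Prop where
  diam : ∀ k, ∀ x ∈ D k, ∀ y ∈ D k, d x y ≤ ρ (gen k)
  count : ∀ (x : X) (s : Finset ι), (∀ k ∈ s, gen k = i ∧ ∃ y ∈ D k, d x y ≤ Li) → s.card ≤ J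

lemma Near_distW (hd : NMet d) (h : ∀ k, ∀ x ∈ D k, ∀ y ∈ D k, d x y ≤ ρ (gen k)) {k : ι} {x y : X}
    (hx : Near d (D k) x) (hy : Near d (D k) y) : d x y ≤ ρ (gen k) + 2 := by
  obtain ⟨a, ha, hxa⟩ := hx
  obtain ⟨b, hb, hyb⟩ := hy
  have h1 := hd.tri x a y
  have h2 := hd.tri a b y
  have h3 := h k a ha b hb
  have h4 := hd.symm b y
  omega

lemma Ch_distW (hd : NMet d) (h : ∀ k, ∀ x ∈ D k, ∀ y ∈ D k, d x y ≤ ρ (gen k)) {x y : X}
    {l : List (Option ι)} (hl : Ch d D x y l) : d x y ≤ TT gen ρ l := by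
  induction l generalizing x with
  | nil => simp only [Ch] at hl; subst hl; simp [TT, hd.self]
  | cons a l ih =>
    cases a with
    | none =>
      obtain ⟨z, h1, h2⟩ := hl
      have := ih h2
      have := hd.tri x z y
      simp only [TT]
      omega
    | some k =>
      obtain ⟨z, h1, h1', h2⟩ := hl
      have := ih h2
      have := hd.tri x z y
      have := Near_distW hd h h1 h1'
      simp only [TT]
      omega

lemma spanW (hd : NMet d) (h : SpW d D gen J ρ Li i) {x y : X} {l : List (Option ι)}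
    (hl : Ch d D x y l) (hn : (pcs l).Nodup) (hi : J + 1 ≤ cnt gen i l) : Li ≤ TT gen ρ l := by
  classical
  by_contra hc
  push Not at hc
  rw [cnt_le_card i l hn] at hi
  have := h.count x ((pcs l).toFinset.filter fun k => gen k = i) ?_
  · omega
  · intro k hk
    rw [Finset.mem_filter, List.mem_toFinset] at hk
    refine ⟨hk.2, ?_⟩
    obtain ⟨l1, l2, z, h1, h2, ⟨w, hw, hzw⟩⟩ := Ch_piece hl hk.1
    refine ⟨w, hw, ?_⟩
    have h3 := Ch_distW hd h.diam h2
    have h4 := hd.tri x z w
    have h5 : TT gen ρ l = TT gen ρ l1 + ((ρ (gen k) + 2) + TT gen ρ l2) := by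
      rw [h1, TT_append]; rfl
    omega

lemma cnt_mulW (hd : NMet d) (h : SpW d D gen J ρ Li i) (n : ℕ) {x y : X}
    {l : List (Option ι)} (hl : Ch d D x y l) (hn : (pcs l).Nodup)
    (hc : n * (J + 1) ≤ cnt gen i l) : n * Li ≤ TT gen ρ l := by
  induction n generalizing x l with
  | zero => simp
  | succ n ih =>
    have hc' : (n + 1) * (J + 1) = n * (J + 1) + (J + 1) := by ring
    obtain ⟨l1, l2, h1, h2⟩ := split_cnt (gen := gen) i (J + 1) l (by omega)
    subst h1
    rw [Ch_append] at hl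
    obtain ⟨z, h3, h4⟩ := hl
    rw [pcs_append, List.nodup_append] at hn
    rw [cnt_append] at hc
    have h5 := spanW hd h h3 hn.1 (by omega)
    have h6 := ih h4 hn.2.1 (by omega)
    rw [TT_append]
    have : (n + 1) * Li = n * Li + Li := by ring
    omega

lemma cnt_bdW (hd : NMet d) (h : SpW d D gen J ρ Li i) {x y : X}
    {l : List (Option ι)} (hl : Ch d D x y l) (hn : (pcs l).Nodup) :
    cnt gen i l * Li ≤ (J + 1) * (TT gen ρ l + Li) := by
  have h1 := cnt_mulW hd h (cnt gen i l / (J + 1)) hl hn (Nat.div_mul_le_self _ _)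
  have h2 : cnt gen i l ≤ (cnt gen i l / (J + 1) + 1) * (J + 1) := by
    have := Nat.lt_succ_iff.1 (Nat.lt_succ_of_le (Nat.lt_mul_div_succ (cnt gen i l)
      (Nat.succ_pos J)).le)
    calc cnt gen i l ≤ (J + 1) * (cnt gen i l / (J + 1) + 1) := this
      _ = _ := by ring
  calc cnt gen i l * Li ≤ (cnt gen i l / (J + 1) + 1) * (J + 1) * Li :=
        Nat.mul_le_mul_right _ h2
    _ = (J + 1) * (cnt gen i l / (J + 1) * Li + Li) := by ring
    _ ≤ _ := by gcongr

/-- the share of one generation -/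
lemma cnt_share (hd : NMet d) (h : SpW d D gen J ρ Li i) {x y : X} {l : List (Option ι)}
    (hl : Ch d D x y l) (hn : (pcs l).Nodup) {r : ℕ}
    (hL : 2 ^ (i + 3) * (J + 1) * (r + 2) ≤ Li) :
    (cnt gen i l * (r + 2) : ℝ) ≤ (J + 1) * (r + 2) + (TT gen ρ l : ℝ) / 2 ^ (i + 3) := by
  have h2 := cnt_bdW hd h hl hn
  have h2' : ((cnt gen i l : ℝ)) * Li ≤ (J + 1) * (TT gen ρ l + Li) := by exact_mod_cast h2
  have h3' : (2 : ℝ) ^ (i + 3) * (J + 1) * (r + 2) ≤ Li := by exact_mod_cast hL
  have hLpos : (0 : ℝ) < Li := by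
    have : (0 : ℝ) < 2 ^ (i + 3) * (J + 1) * (r + 2) := by positivity
    linarith
  have h2p : (0 : ℝ) < 2 ^ (i + 3) := by positivity
  have h4 : (cnt gen i l : ℝ) ≤ (J + 1) + (J + 1) * TT gen ρ l / Li := by
    rw [← sub_nonneg]
    have : (J + 1 : ℝ) + (J + 1) * TT gen ρ l / Li - cnt gen i l =
        ((J + 1) * (TT gen ρ l + Li) - cnt gen i l * Li) / Li := by
      field_simp
      ring
    rw [this]
    exact div_nonneg (by linarith) hLpos.le
  have h5 : (J + 1 : ℝ) * TT gen ρ l / Li * (r + 2) ≤ (TT gen ρ l : ℝ) / 2 ^ (i + 3) := by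
    rw [div_mul_eq_mul_div, div_le_div_iff₀ hLpos h2p]
    have h0 : (0 : ℝ) ≤ TT gen ρ l := by positivity
    calc (J + 1 : ℝ) * TT gen ρ l * (r + 2) * 2 ^ (i + 3) =
          TT gen ρ l * (2 ^ (i + 3) * (J + 1) * (r + 2)) := by ring
      _ ≤ TT gen ρ l * Li := by gcongr
  calc (cnt gen i l * (r + 2) : ℝ) ≤ ((J + 1) + (J + 1) * TT gen ρ l / Li) * (r + 2) := by
        gcongr
    _ ≤ _ := by rw [add_mul]; linarith

end cnt

section mix

variable {X ι κ : Type*} {d : X → X → ℕ} {D : ι → Set X} {E : κ → Set X} {gen : κ → ℕ} {g J : ℕ}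
  {ρ L : ℕ → ℕ} {b : ℕ}

lemma exists_unit' (hg : Geo d) (hs : Sep d) (n : ℕ) (x y : X) (h : d x y ≤ n) :
    ∃ l : List (Option ι), Ch d D x y l ∧ pcs l = [] ∧ paid l ≤ n := by
  induction n generalizing x with
  | zero => exact ⟨[], hs x y (by omega), rfl, le_rfl⟩
  | succ n ih =>
    obtain ⟨z, h1, h2⟩ := hg x y 1 n (by omega)
    obtain ⟨l, h3, h5, h4⟩ := ih z h2
    exact ⟨none :: l, ⟨z, h1, h3⟩, h5, by simp only [paid]; omega⟩

/-- the number of paid steps after the holes `E` have been replaced by paths -/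
def P1 (gen : κ → ℕ) (ρ : ℕ → ℕ) : List (Option (ι ⊕ κ)) → ℕ
  | [] => 0
  | none :: l => 1 + P1 gen ρ l
  | some (Sum.inl _) :: l => P1 gen ρ l
  | some (Sum.inr k) :: l => (ρ (gen k) + 2) + P1 gen ρ l

/-- the pieces of the first kind -/
def lf (l : List (Option (ι ⊕ κ))) : List ι := (pcs l).filterMap Sum.getLeft?

lemma conv (hd : NMet d) (hg : Geo d) (hs : Sep d)
    (hE : ∀ k, ∀ x ∈ E k, ∀ y ∈ E k, d x y ≤ ρ (gen k)) {x y : X} {l : List (Option (ι ⊕ κ))}
    (hl : Ch d (Sum.elim D E) x y l) :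
    ∃ l1, Ch d D x y l1 ∧ pcs l1 = lf l ∧ paid l1 ≤ P1 gen ρ l := by
  induction l generalizing x with
  | nil => exact ⟨[], hl, rfl, le_rfl⟩
  | cons o l ih =>
    cases o with
    | none =>
      obtain ⟨z, h1, h2⟩ := hl
      obtain ⟨l1, h3, h4, h5⟩ := ih h2
      exact ⟨none :: l1, ⟨z, h1, h3⟩, h4, by simp only [paid, P1]; omega⟩
    | some k =>
      cases k with
      | inl k =>
        obtain ⟨z, h1, h2, h3⟩ := hl
        obtain ⟨l1, h4, h5, h6⟩ := ih h3
        refine ⟨some k :: l1, ⟨z, h1, h2, h4⟩, ?_, by simpa only [paid, P1] using h6⟩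
        simp only [pcs, h5, lf, List.filterMap_cons, Sum.getLeft?_inl]
      | inr k =>
        obtain ⟨z, h1, h2, h3⟩ := hl
        obtain ⟨l1, h4, h5, h6⟩ := ih h3
        obtain ⟨l0, h7, h8, h9⟩ := exists_unit' (D := D) hg hs _ x z
          (Near_distW (D := E) hd hE h1 h2)
        refine ⟨l0 ++ l1, (Ch_append x y l0 l1).2 ⟨z, h7, h4⟩, ?_, ?_⟩
        · rw [pcs_append, h8, h5, List.nil_append]
          simp only [pcs, lf, List.filterMap_cons, Sum.getLeft?_inr]
        · rw [paid_append]
          simp only [P1]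
          omega

lemma P1_eq (hgen : ∀ k, gen k < g) (l : List (Option (ι ⊕ κ))) :
    P1 gen ρ l = paid l + ∑ i ∈ Finset.range g,
      cnt (Sum.elim (fun _ => g) gen) i l * (ρ i + 2) := by
  induction l with
  | nil => simp [P1, paid, cnt]
  | cons a l ih =>
    cases a with
    | none => simp only [P1, paid, cnt, ih]; ring
    | some k =>
      cases k with
      | inl k =>
        have e : ∀ i ∈ Finset.range g, cnt (Sum.elim (fun _ => g) gen) i
            (some (Sum.inl k : ι ⊕ κ) :: l) * (ρ i + 2) =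
            cnt (Sum.elim (fun _ => g) gen) i l * (ρ i + 2) := by
          intro i hi
          have e1 : cnt (Sum.elim (fun _ : ι => g) gen) i (some (Sum.inl k : ι ⊕ κ) :: l) =
            (if Sum.elim (fun _ : ι => g) gen (Sum.inl k) = i then 1 else 0) +
              cnt (Sum.elim (fun _ : ι => g) gen) i l := rfl
          rw [e1, if_neg, zero_add]
          have := Finset.mem_range.1 hi
          change ¬ g = i
          omega
        rw [Finset.sum_congr rfl e]
        exact ih
      | inr k =>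
        have e : ∀ i ∈ Finset.range g, cnt (Sum.elim (fun _ => g) gen) i
            (some (Sum.inr k : ι ⊕ κ) :: l) * (ρ i + 2) =
            (if gen k = i then (ρ i + 2) else 0) +
              cnt (Sum.elim (fun _ => g) gen) i l * (ρ i + 2) := by
          intro i hi
          have e1 : cnt (Sum.elim (fun _ : ι => g) gen) i (some (Sum.inr k : ι ⊕ κ) :: l) =
            (if Sum.elim (fun _ : ι => g) gen (Sum.inr k) = i then 1 else 0) +
              cnt (Sum.elim (fun _ : ι => g) gen) i l := rfl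
          rw [e1, add_mul]
          congr 1
          by_cases hk : gen k = i
          · rw [if_pos hk, if_pos (show Sum.elim (fun _ : ι => g) gen (Sum.inr k) = i from hk),
              one_mul]
          · rw [if_neg hk, if_neg (show ¬ Sum.elim (fun _ : ι => g) gen (Sum.inr k) = i from hk),
              zero_mul]
        rw [Finset.sum_congr rfl e, Finset.sum_add_distrib, Finset.sum_ite_eq,
          if_pos (Finset.mem_range.2 (hgen k))]
        change (ρ (gen k) + 2) + P1 gen ρ l = paid l + _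
        rw [ih]
        ring

/-- the total length -/
lemma TT_P1 (hgen : ∀ k, gen k < g) (l : List (Option (ι ⊕ κ))) :
    TT (Sum.elim (fun _ => g) gen) (fun i => if i < g then ρ i else 0) l =
      P1 gen ρ l + 2 * (lf l).length := by
  induction l with
  | nil => simp [TT, P1, lf, pcs]
  | cons a l ih =>
    cases a with
    | none =>
      have e : lf ((none : Option (ι ⊕ κ)) :: l) = lf l := rfl
      simp only [TT, P1, ih, e]
      ring
    | some k =>
      cases k with
      | inl k =>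
        have e : lf (some (Sum.inl k : ι ⊕ κ) :: l) = k :: lf l := by
          simp only [lf, pcs, List.filterMap_cons, Sum.getLeft?_inl]
        simp only [TT, P1, ih, e, Sum.elim_inl, lt_irrefl, if_false, List.length_cons]
        ring
      | inr k =>
        have e : lf (some (Sum.inr k : ι ⊕ κ) :: l) = lf l := by
          simp only [lf, pcs, List.filterMap_cons, Sum.getLeft?_inr]
        simp only [TT, P1, ih, e, Sum.elim_inr, hgen k, if_true]
        ring

/-- POINTS AND SPARSE HOLES -/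
theorem cp_mix2 (hd : NMet d) (hg : Geo d) (hs : Sep d)
    (hD : ∀ k, ∀ x ∈ D k, ∀ y ∈ D k, d x y ≤ 0)
    (hw : ∀ x y l, Ch d D x y l → (pcs l).Nodup → 2 * (pcs l).length ≤ paid l + b)
    (hgen : ∀ k, gen k < g) (hE : ∀ k, ∀ x ∈ E k, ∀ y ∈ E k, d x y ≤ ρ (gen k))
    (hcount : ∀ (i : ℕ) (x : X) (s : Finset κ),
      (∀ k ∈ s, gen k = i ∧ ∃ y ∈ E k, d x y ≤ L i) → s.card ≤ J)
    (hL : ∀ i < g, 2 ^ (i + 3) * (J + 1) * (ρ i + 2) ≤ L i) :
    CP d (Sum.elim D E) 4 (2 * cst g J ρ + 2 * b) := by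
  classical
  intro x y l0 hl0
  obtain ⟨l, hl, hn, hpl⟩ := exists_nodup hl0
  set gen' : ι ⊕ κ → ℕ := Sum.elim (fun _ => g) gen with hgen'
  set ρ' : ℕ → ℕ := fun i => if i < g then ρ i else 0 with hρ'
  have hdiam : ∀ k, ∀ x ∈ Sum.elim D E k, ∀ y ∈ Sum.elim D E k, d x y ≤ ρ' (gen' k) := by
    rintro (k | k) x hx y hy
    · exact (hD k x hx y hy).trans (Nat.zero_le _)
    · have h1 : ρ' (gen' (Sum.inr k)) = ρ (gen k) := by simp [hgen', hρ', hgen k]
      rw [h1]
      exact hE k x hx y hy
  have hSp : ∀ i < g, SpW d (Sum.elim D E) gen' J ρ' (L i) i := by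
    intro i hi
    refine ⟨hdiam, fun x s hsk => ?_⟩
    -- all members of `s` are of the second kind
    have h1 : ∀ k ∈ s, ∃ k', k = Sum.inr k' := by
      rintro (k | k) hk
      · have h2 := (hsk _ hk).1
        simp only [hgen', Sum.elim_inl] at h2
        omega
      · exact ⟨k, rfl⟩
    have h2 : s.card = (s.preimage Sum.inr (Sum.inr_injective.injOn)).card := by
      rw [← Finset.card_image_of_injective (s.preimage Sum.inr (Sum.inr_injective.injOn))
        (Sum.inr_injective (α := ι))]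
      congr 1
      ext k
      simp only [Finset.mem_image, Finset.mem_preimage]
      constructor
      · intro hk
        obtain ⟨k', rfl⟩ := h1 k hk
        exact ⟨k', hk, rfl⟩
      · rintro ⟨k', hk', rfl⟩
        exact hk'
    rw [h2]
    refine hcount i x _ fun k hk => ?_
    rw [Finset.mem_preimage] at hk
    exact hsk _ hk
  -- the points
  obtain ⟨l1, h1, h2, h3⟩ := conv (D := D) (ρ := ρ) (gen := gen) hd hg hs hE hl
  have hnl : (lf l).Nodup := by
    refine List.Nodup.filterMap ?_ hn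
    rintro (a | a) (a' | a') c hc hc'
    · simp only [Sum.getLeft?_inl, Option.mem_def, Option.some.injEq] at hc hc'
      rw [hc, hc']
    · simp at hc'
    · simp at hc
    · simp at hc
  have h4 := hw x y l1 h1 (by rw [h2]; exact hnl)
  rw [h2] at h4
  have hT := TT_P1 (ρ := ρ) hgen l
  have hP := P1_eq (ρ := ρ) hgen l
  rw [← hgen'] at hT hP
  rw [← hρ'] at hT
  have hdist := Ch_distW hd hdiam hl
  -- the holes
  have h5 : ∑ i ∈ Finset.range g, (cnt gen' i l * (ρ i + 2) : ℝ) ≤
      (J + 1) * ∑ i ∈ Finset.range g, ((ρ i : ℝ) + 2) + (TT gen' ρ' l : ℝ) / 4 := by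
    calc ∑ i ∈ Finset.range g, (cnt gen' i l * (ρ i + 2) : ℝ)
        ≤ ∑ i ∈ Finset.range g, ((J + 1) * ((ρ i : ℝ) + 2) + (TT gen' ρ' l : ℝ) / 2 ^ (i + 3)) := by
          refine Finset.sum_le_sum fun i hi => ?_
          have hi' := Finset.mem_range.1 hi
          exact cnt_share hd (hSp i hi') hl hn (hL i hi')
      _ = (J + 1) * ∑ i ∈ Finset.range g, ((ρ i : ℝ) + 2) +
          (TT gen' ρ' l : ℝ) * ∑ i ∈ Finset.range g, (1 : ℝ) / 2 ^ (i + 3) := by
          rw [Finset.sum_add_distrib, ← Finset.mul_sum, Finset.mul_sum (Finset.range g)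
            (fun i => (1 : ℝ) / 2 ^ (i + 3))]
          congr 1
          exact Finset.sum_congr rfl fun i _ => by ring
      _ ≤ _ := by
          have h6 : ∀ n : ℕ, ∑ i ∈ Finset.range n, (1 : ℝ) / 2 ^ (i + 3) =
              1 / 4 - 1 / 2 ^ (n + 2) := by
            intro n
            induction n with
            | zero => norm_num
            | succ n ih => rw [Finset.sum_range_succ, ih]; field_simp; ring
          rw [h6]
          have h7 : (0 : ℝ) < 1 / 2 ^ (g + 2) := by positivity
          have h8 : (0 : ℝ) ≤ TT gen' ρ' l := by positivity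
          nlinarith
  have hP' : (P1 gen ρ l : ℝ) = paid l + ∑ i ∈ Finset.range g, (cnt gen' i l * (ρ i + 2) : ℝ) := by
    exact_mod_cast hP
  have hT' : (TT gen' ρ' l : ℝ) = P1 gen ρ l + 2 * (lf l).length := by exact_mod_cast hT
  have h4' : (2 : ℝ) * (lf l).length ≤ P1 gen ρ l + b := by
    have : 2 * (lf l).length ≤ P1 gen ρ l + b := by omega
    exact_mod_cast this
  have h9 : (TT gen' ρ' l : ℝ) ≤ 4 * paid l + ((2 * cst g J ρ + 2 * b : ℕ) : ℝ) := by
    unfold cst
    push_cast
    linarith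
  have h10 : TT gen' ρ' l ≤ 4 * paid l + (2 * cst g J ρ + 2 * b) := by exact_mod_cast h9
  have h11 : 4 * paid l ≤ 4 * paid l0 := Nat.mul_le_mul_left _ hpl
  omega

end mix

end Pool.Agent.ANM
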