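import Pool.Agent.ANM.LocRow

/-! # ANM FDec: decay of ALL entries of the resolvent (read and inert sites included).

* `Diss.cut`: `(χ_y - χ_x) G_xy = ∑_u ∑_v G_xu (χ_u - χ_v) H0_uv G_vy`.
* `Diss.dec_all`: for an admissible weight `μ φ` with `φ x = 0`, `1 ≤ m ≤ φ y`:
  `|G_xy| ≤ (2 |G_xx| + Im G_yy) / (4 μ) e^{-μ (m - 1)}`; no absorption at `y` is needed.
* `dec_all`: on the torus, `c < td x y`: `|G_xy| ≤ 3 Γ e^μ / (4 μ) e^{μ c / a} e^{-μ td x y / a}`.
-/

open Matrix Finset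

noncomputable section

namespace Pool.Agent.ANM

open Pool.Agent.Kin Pool.Agent.APS

section gen

variable {ι : Type} [Fintype ι] [DecidableEq ι] {H0 : Matrix ι ι ℂ} {b : ι → ℂ}

/-- the commutator identity -/
theorem Diss.cut (h : Diss H0 b) (χ : ι → ℂ) (x y : ι) :
    (χ y - χ x) * rsc H0 b x y =
      ∑ u, ∑ v, rsc H0 b x u * ((χ u - χ v) * H0 u v) * rsc H0 b v y := by
  set G := rsc H0 b with hG
  have h1 : (H0 + diagonal b) * G = 1 := h.mulr
  have h2 : G * (H0 + diagonal b) = 1 := h.mull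
  have h3 : G * (diagonal χ * (H0 + diagonal b) - (H0 + diagonal b) * diagonal χ) * G =
      G * diagonal χ - diagonal χ * G := by
    rw [Matrix.mul_sub, Matrix.sub_mul, ← Matrix.mul_assoc G (diagonal χ), Matrix.mul_assoc _ _ G,
      h1, Matrix.mul_one, ← Matrix.mul_assoc G, h2, Matrix.one_mul]
  have h4 := congrFun (congrFun h3 x) y
  rw [Matrix.sub_apply, Matrix.mul_diagonal, Matrix.diagonal_mul, Matrix.mul_apply] at h4
  have h5 : (χ y - χ x) * G x y = G x y * χ y - χ x * G x y := by ring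
  rw [h5, ← h4, Finset.sum_comm]
  refine Finset.sum_congr rfl fun v _ => ?_
  rw [Matrix.mul_apply, Finset.sum_mul]
  refine Finset.sum_congr rfl fun u _ => ?_
  rw [Matrix.sub_apply, Matrix.diagonal_mul, Matrix.mul_diagonal, Matrix.add_apply]
  congr 2
  by_cases huv : u = v
  · subst huv
    simp
    ring
  · rw [Matrix.diagonal_apply_ne _ huv]
    ring

/-- decay of every entry -/
theorem Diss.dec_all (h : Diss H0 b) {φ : ι → ℕ} {μ : ℝ} (hμ : 0 < μ)
    (hw : AdmW H0 b (fun x => μ * φ x)) (hL : ∀ u v, H0 u v ≠ 0 → φ u ≤ φ v + 1) {x y : ι}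
    (hx : φ x = 0) {m : ℕ} (hm : 1 ≤ m) (hy : m ≤ φ y) :
    ‖rsc H0 b x y‖ ≤ (2 * ‖rsc H0 b x x‖ + (rsc H0 b y y).im) / (4 * μ) *
      Real.exp (-(μ * ((m : ℝ) - 1))) := by
  have hsymH : ∀ u v, H0 u v = H0 v u := fun u v => h.hH.symm u v
  have hGs : ∀ u v, rsc H0 b u v = rsc H0 b v u := fun u v => h.symm u v
  set G := rsc H0 b with hG
  set χ : ι → ℂ := fun u => if m ≤ φ u then 1 else 0 with hχ
  set J : ι → ι → ℝ := fun u v => ‖χ u - χ v‖ * ‖H0 u v‖ with hJ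
  have hJ0 : ∀ u v, 0 ≤ J u v := fun u v => by positivity
  have hJs : ∀ u v, J u v = J v u := fun u v => by
    simp only [hJ]
    rw [norm_sub_rev, hsymH u v]
  -- pointwise bound of `J`
  have hJ1 : ∀ u v, μ * J u v ≤ ‖H0 u v‖ * |Real.sinh (μ * φ u - μ * φ v)| ∧
      (J u v ≠ 0 → m ≤ φ u + 1) := by
    intro u v
    by_cases huv : J u v = 0
    · rw [huv]
      refine ⟨by rw [mul_zero]; positivity, fun h => absurd rfl h⟩
    · have e1 : H0 u v ≠ 0 := fun h0 => huv (by simp only [hJ]; rw [h0]; simp)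
      have e2 : χ u ≠ χ v := fun h0 => huv (by simp only [hJ]; rw [h0]; simp)
      have e1' : H0 v u ≠ 0 := by rw [← hsymH u v]; exact e1
      have l1 := hL u v e1
      have l2 := hL v u e1'
      have e3 : (m ≤ φ u ∧ ¬ m ≤ φ v) ∨ (¬ m ≤ φ u ∧ m ≤ φ v) := by
        by_cases h1 : m ≤ φ u <;> by_cases h2 : m ≤ φ v
        · exact absurd (by simp [hχ, h1, h2]) e2
        · exact Or.inl ⟨h1, h2⟩
        · exact Or.inr ⟨h1, h2⟩
        · exact absurd (by simp [hχ, h1, h2]) e2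
      have e4 : ‖χ u - χ v‖ = 1 := by
        rcases e3 with ⟨h1, h2⟩ | ⟨h1, h2⟩
        · simp [hχ, h1, h2]
        · simp [hχ, h1, h2]
      have e5 : (1 : ℝ) ≤ |(φ u : ℝ) - φ v| := by
        rcases e3 with ⟨h1, h2⟩ | ⟨h1, h2⟩
        · have : φ v + 1 ≤ φ u := by omega
          have : (φ v : ℝ) + 1 ≤ φ u := by exact_mod_cast this
          rw [abs_of_nonneg (by linarith)]
          linarith
        · have : φ u + 1 ≤ φ v := by omega
          have : (φ u : ℝ) + 1 ≤ φ v := by exact_mod_cast this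
          rw [abs_of_nonpos (by linarith)]
          linarith
      refine ⟨?_, fun _ => by rcases e3 with h1 | h1 <;> omega⟩
      have e6 : μ ≤ |Real.sinh (μ * φ u - μ * φ v)| := by
        have e7 : μ ≤ |μ * φ u - μ * φ v| := by
          rw [← mul_sub, abs_mul, abs_of_pos hμ]
          nlinarith
        refine e7.trans ?_
        rw [Real.abs_sinh]
        exact Real.self_le_sinh_iff.2 (abs_nonneg _)
      simp only [hJ]
      rw [e4, one_mul, mul_comm]
      exact mul_le_mul_of_nonneg_left e6 (norm_nonneg _)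
  have hη : ∀ u, ∑ v, J u v ≤ -(b u).im / (2 * μ) := by
    intro u
    have e1 := hw u
    have e2 : μ * ∑ v, J u v ≤ -(b u).im / 2 := by
      rw [Finset.mul_sum]
      exact (Finset.sum_le_sum fun v _ => (hJ1 u v).1).trans e1
    rw [le_div_iff₀ (by positivity)]
    linarith
  have hη' : ∀ u, ∑ v, J u v ≤ Real.exp (-(2 * μ * ((m : ℝ) - 1))) / (2 * μ) *
      (-(b u).im * Real.exp (2 * (μ * φ u))) := by
    intro u
    have hn := h.nn' u
    by_cases hu : m ≤ φ u + 1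
    · refine (hη u).trans ?_
      have e1 : 1 ≤ Real.exp (-(2 * μ * ((m : ℝ) - 1))) * Real.exp (2 * (μ * φ u)) := by
        rw [← Real.exp_add]
        apply Real.one_le_exp
        have e2 : (m : ℝ) ≤ φ u + 1 := by exact_mod_cast hu
        nlinarith
      calc -(b u).im / (2 * μ) = -(b u).im / (2 * μ) * 1 := by ring
        _ ≤ -(b u).im / (2 * μ) *
            (Real.exp (-(2 * μ * ((m : ℝ) - 1))) * Real.exp (2 * (μ * φ u))) :=
            mul_le_mul_of_nonneg_left e1 (by positivity)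
        _ = _ := by ring
    · have e1 : ∑ v, J u v = 0 := by
        refine Finset.sum_eq_zero fun v _ => ?_
        by_contra hne
        exact hu ((hJ1 u v).2 hne)
      rw [e1]
      positivity
  -- the identity
  have hid := h.cut χ x y
  have hχy : χ y = 1 := by simp [hχ, hy]
  have hχx : χ x = 0 := by
    simp only [hχ]
    rw [if_neg]
    omega
  rw [← hG, hχy, hχx, sub_zero, one_mul] at hid
  set θ : ℝ := Real.exp (μ * ((m : ℝ) - 1)) with hθ
  have hθ0 : 0 < θ := Real.exp_pos _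
  have key : ∀ u v, ‖G x u * ((χ u - χ v) * H0 u v) * G v y‖ ≤
      θ / 2 * (J u v * ‖G x u‖ ^ 2) + θ⁻¹ / 2 * (J u v * ‖G v y‖ ^ 2) := by
    intro u v
    rw [norm_mul, norm_mul, norm_mul]
    have e1 : ‖G x u‖ * (‖χ u - χ v‖ * ‖H0 u v‖) * ‖G v y‖ =
        J u v * (‖G x u‖ * ‖G v y‖) := by simp only [hJ]; ring
    rw [e1]
    have e2 : ‖G x u‖ * ‖G v y‖ ≤ θ / 2 * ‖G x u‖ ^ 2 + θ⁻¹ / 2 * ‖G v y‖ ^ 2 := by
      have e3 : θ / 2 * ‖G x u‖ ^ 2 + θ⁻¹ / 2 * ‖G v y‖ ^ 2 - ‖G x u‖ * ‖G v y‖ =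
          θ⁻¹ / 2 * (θ * ‖G x u‖ - ‖G v y‖) ^ 2 := by
        field_simp
        ring
      have e4 : 0 ≤ θ⁻¹ / 2 * (θ * ‖G x u‖ - ‖G v y‖) ^ 2 := by positivity
      linarith
    calc J u v * (‖G x u‖ * ‖G v y‖)
        ≤ J u v * (θ / 2 * ‖G x u‖ ^ 2 + θ⁻¹ / 2 * ‖G v y‖ ^ 2) :=
          mul_le_mul_of_nonneg_left e2 (hJ0 u v)
      _ = _ := by ring
  have s1 : ‖G x y‖ ≤ θ / 2 * ∑ u, ∑ v, J u v * ‖G x u‖ ^ 2 +
      θ⁻¹ / 2 * ∑ u, ∑ v, J u v * ‖G v y‖ ^ 2 := by
    rw [hid]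
    refine (norm_sum_le _ _).trans ?_
    rw [Finset.mul_sum, Finset.mul_sum, ← Finset.sum_add_distrib]
    refine Finset.sum_le_sum fun u _ => ?_
    refine (norm_sum_le _ _).trans ?_
    rw [Finset.mul_sum, Finset.mul_sum, ← Finset.sum_add_distrib]
    exact Finset.sum_le_sum fun v _ => key u v
  have s2 : ∑ u, ∑ v, J u v * ‖G x u‖ ^ 2 ≤
      Real.exp (-(2 * μ * ((m : ℝ) - 1))) / (2 * μ) * (2 * ‖G x x‖) := by
    have e1 := h.agmon_row hw x
    simp only [hx, Nat.cast_zero, mul_zero, Real.exp_zero, one_mul] at e1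
    have e2 : ∑ u, ∑ v, J u v * ‖G x u‖ ^ 2 ≤ Real.exp (-(2 * μ * ((m : ℝ) - 1))) / (2 * μ) *
        ∑ u, -(b u).im * (Real.exp (2 * (μ * φ u)) * ‖G x u‖ ^ 2) := by
      rw [Finset.mul_sum]
      refine Finset.sum_le_sum fun u _ => ?_
      rw [← Finset.sum_mul]
      have e3 := mul_le_mul_of_nonneg_right (hη' u) (sq_nonneg ‖G x u‖)
      refine e3.trans (le_of_eq ?_)
      ring
    exact e2.trans (mul_le_mul_of_nonneg_left e1 (by positivity))
  have s3 : ∑ u, ∑ v, J u v * ‖G v y‖ ^ 2 ≤ 1 / (2 * μ) * (G y y).im := by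
    rw [Finset.sum_comm]
    have e1 := h.ward y
    rw [← hG] at e1
    rw [e1, Finset.mul_sum]
    refine Finset.sum_le_sum fun v _ => ?_
    rw [← Finset.sum_mul]
    have e2 : ∑ u, J u v = ∑ u, J v u := Finset.sum_congr rfl fun u _ => hJs u v
    rw [e2, hGs v y]
    have e3 := mul_le_mul_of_nonneg_right (hη v) (sq_nonneg ‖G y v‖)
    refine e3.trans (le_of_eq ?_)
    ring
  have s4 : ‖G x y‖ ≤ θ / 2 * (Real.exp (-(2 * μ * ((m : ℝ) - 1))) / (2 * μ) * (2 * ‖G x x‖)) +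
      θ⁻¹ / 2 * (1 / (2 * μ) * (G y y).im) := by
    refine s1.trans (add_le_add ?_ ?_)
    · exact mul_le_mul_of_nonneg_left s2 (by positivity)
    · exact mul_le_mul_of_nonneg_left s3 (by positivity)
  have e1 : θ * Real.exp (-(2 * μ * ((m : ℝ) - 1))) = Real.exp (-(μ * ((m : ℝ) - 1))) := by
    rw [hθ, ← Real.exp_add]
    congr 1
    ring
  have e2 : θ⁻¹ = Real.exp (-(μ * ((m : ℝ) - 1))) := by
    rw [hθ, ← Real.exp_neg]
  refine s4.trans (le_of_eq ?_)
  rw [e2]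
  calc θ / 2 * (Real.exp (-(2 * μ * ((m : ℝ) - 1))) / (2 * μ) * (2 * ‖G x x‖)) +
        Real.exp (-(μ * ((m : ℝ) - 1))) / 2 * (1 / (2 * μ) * (G y y).im)
      = (θ * Real.exp (-(2 * μ * ((m : ℝ) - 1)))) * ‖G x x‖ / (2 * μ) +
        Real.exp (-(μ * ((m : ℝ) - 1))) * (G y y).im / (4 * μ) := by
        field_simp
        ring
    _ = _ := by
        rw [e1]
        field_simp
        ring

end gen

section tor

variable {d L : ℕ} [NeZero L] {b : Tor d L → ℂ} {F : Set (Tor d L)} {μ : ℝ} {a c : ℕ}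

/-- decay of every entry on the torus, inert and read sites included -/
theorem dec_all (hb : Diss (H0T d L) b) (ha : 1 ≤ a) (hμ : 0 < μ) (hw : HasW b F μ a c)
    {x y : Tor d L} (hxy : c < td x y) {Γ : ℝ} (hx : ‖rsc (H0T d L) b x x‖ ≤ Γ)
    (hy : (rsc (H0T d L) b y y).im ≤ Γ) :
    ‖rsc (H0T d L) b x y‖ ≤ 3 * Γ * Real.exp μ / (4 * μ) * Real.exp (μ * c / a) *
      Real.exp (-(μ * td x y / a)) := by
  obtain ⟨φ, h1, h2, h3, -, h5⟩ := hw x
  have hm : 1 ≤ φ y := by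
    have := h5 y
    by_contra hc
    have h0 : φ y = 0 := by omega
    rw [h0] at this
    omega
  have h6 := hb.dec_all hμ h2 (fun u v huv => h3 u v (H0T_near huv)) h1 hm le_rfl
  refine h6.trans ?_
  have h7 := wgt_ge ha (h5 y) hμ.le
  have h8 : Real.exp (-(μ * ((φ y : ℝ) - 1))) ≤
      Real.exp μ * Real.exp (μ * c / a) * Real.exp (-(μ * td x y / a)) := by
    rw [← Real.exp_add, ← Real.exp_add]
    apply Real.exp_le_exp.2
    have h9 : μ * ((td x y : ℝ) - c) / a = μ * td x y / a - μ * c / a := by ring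
    rw [h9] at h7
    linarith
  have h10 : 2 * ‖rsc (H0T d L) b x x‖ + (rsc (H0T d L) b y y).im ≤ 3 * Γ := by linarith
  have h11 : 0 ≤ 2 * ‖rsc (H0T d L) b x x‖ + (rsc (H0T d L) b y y).im := by
    have := hb.im_nn y
    positivity
  calc (2 * ‖rsc (H0T d L) b x x‖ + (rsc (H0T d L) b y y).im) / (4 * μ) *
        Real.exp (-(μ * ((φ y : ℝ) - 1)))
      ≤ 3 * Γ / (4 * μ) *
        (Real.exp μ * Real.exp (μ * c / a) * Real.exp (-(μ * td x y / a))) := by
        refine mul_le_mul ?_ h8 (Real.exp_pos _).le ?_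
        · exact div_le_div_of_nonneg_right h10 (by positivity)
        · have : 0 ≤ 3 * Γ := h11.trans h10
          positivity
    _ = _ := by ring

end tor

end Pool.Agent.ANM
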