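import Pool.Agent.APS.SCWard

/-! # ANM Agmon: Agmon (Combes-Thomas) bounds for resolvents `G = (H0 + diag b)⁻¹`, `Im b_x < 0`.

Everything is for a finite index set and a weight function `w : ι → ℝ` with
`AdmW H0 b w : ∑_y |H0_xy| |sinh(w_x - w_y)| ≤ -Im b_x / 2` for all `x`.  Geometry enters only through the
existence of `w` (the weight is constant near sites with small absorption).

* `agmon`: `∑_x η_x e^{2 w_x} |g_x|² ≤ 2 |∑_x e^{2 w_x} conj g_x ((H0 + b) g)_x|`, `η_x = -Im b_x`.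
* `agmon_row`: `∑_y η_y e^{2 w_y} |G_xy|² ≤ 2 e^{2 w_x} |G_xx|`.
* `agmon_two`: `∑_y η_y e^{2 |w_x - w_y|} |G_xy|² ≤ 4 |G_xx|`.
* `agmon_ent`: `η_y |G_xy|² ≤ 2 |G_xx| e^{2 (w_x - w_y)}`.
-/

open Matrix Finset

noncomputable section

namespace Pool.Agent.ANM

open Pool.Agent.Kin Pool.Agent.APS

variable {ι : Type} [Fintype ι] [DecidableEq ι] {H0 : Matrix ι ι ℂ} {b : ι → ℂ} {w : ι → ℝ}

/-- admissible weight functions -/
def AdmW (H0 : Matrix ι ι ℂ) (b : ι → ℂ) (w : ι → ℝ) : Prop :=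
  ∀ x, ∑ y, ‖H0 x y‖ * |Real.sinh (w x - w y)| ≤ -(b x).im / 2

omit [DecidableEq ι] in
theorem AdmW.neg (h : AdmW H0 b w) : AdmW H0 b (fun x => -w x) := by
  intro x
  refine le_trans (le_of_eq ?_) (h x)
  refine Finset.sum_congr rfl fun y _ => ?_
  rw [show -w x - -w y = -(w x - w y) by ring, Real.sinh_neg, abs_neg]

/-- the imaginary part of the weighted quadratic form -/
theorem agmon_form (hH : RealSym H0) (b g : ι → ℂ) (w : ι → ℝ) :
    (∑ x, ((Real.exp (2 * w x) : ℝ) : ℂ) * (star (g x) * ((H0 + diagonal b) *ᵥ g) x)).im =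
      ∑ x, Real.exp (2 * w x) * ‖g x‖ ^ 2 * (b x).im +
        ∑ x, ∑ y, (H0 x y).re * (Real.exp (2 * w x) * (star (g x) * g y).im) := by
  have h1 : ∀ x, ((H0 + diagonal b) *ᵥ g) x = (∑ y, H0 x y * g y) + b x * g x := by
    intro x
    rw [Matrix.add_mulVec, Pi.add_apply, Matrix.mulVec_diagonal]
    rfl
  rw [Complex.im_sum, ← Finset.sum_add_distrib]
  refine Finset.sum_congr rfl fun x _ => ?_
  rw [Complex.im_ofReal_mul, h1, mul_add, Finset.mul_sum, Complex.add_im, Complex.im_sum, mul_add,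
    Finset.mul_sum, add_comm]
  congr 1
  · have e3 : star (g x) * (b x * g x) = ((‖g x‖ ^ 2 : ℝ) : ℂ) * b x := by
      rw [show star (g x) * (b x * g x) = (star (g x) * g x) * b x by ring, RCLike.star_def,
        Complex.conj_mul']
      push_cast
      ring
    rw [e3, Complex.im_ofReal_mul]
    ring
  · refine Finset.sum_congr rfl fun y _ => ?_
    have e2 : H0 x y = (((H0 x y).re : ℝ) : ℂ) := by
      apply Complex.ext
      · simp
      · simpa using hH.real x y
    rw [show star (g x) * (H0 x y * g y) = H0 x y * (star (g x) * g y) by ring]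
    rw [e2, Complex.im_ofReal_mul, Complex.ofReal_re]
    ring

/-- the commutator term -/
theorem agmon_comm (hH : RealSym H0) (g : ι → ℂ) (w : ι → ℝ) :
    |∑ x, ∑ y, (H0 x y).re * (Real.exp (2 * w x) * (star (g x) * g y).im)| ≤
      ∑ x, Real.exp (2 * w x) * ‖g x‖ ^ 2 * ∑ y, ‖H0 x y‖ * |Real.sinh (w x - w y)| := by
  have hre : ∀ x y, |(H0 x y).re| ≤ ‖H0 x y‖ := fun x y => Complex.abs_re_le_norm _
  have hsym : ∀ x y, (H0 x y).re = (H0 y x).re := fun x y => by rw [hH.symm x y]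
  have hanti : ∀ x y, (star (g x) * g y).im = -(star (g y) * g x).im := by
    intro x y
    simp only [RCLike.star_def, Complex.mul_im, Complex.conj_re, Complex.conj_im]
    ring
  -- antisymmetrisation
  have h1 : ∑ x, ∑ y, (H0 x y).re * (Real.exp (2 * w x) * (star (g x) * g y).im) =
      ∑ x, ∑ y, (H0 x y).re * ((Real.exp (2 * w x) - Real.exp (2 * w y)) / 2 *
        (star (g x) * g y).im) := by
    have h2 : ∑ x, ∑ y, (H0 x y).re * (Real.exp (2 * w x) * (star (g x) * g y).im) =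
        ∑ x, ∑ y, (H0 x y).re * (-Real.exp (2 * w y) * (star (g x) * g y).im) := by
      rw [Finset.sum_comm]
      refine Finset.sum_congr rfl fun x _ => Finset.sum_congr rfl fun y _ => ?_
      rw [hsym y x, hanti y x]
      ring
    have h3 : 2 * ∑ x, ∑ y, (H0 x y).re * (Real.exp (2 * w x) * (star (g x) * g y).im) =
        2 * ∑ x, ∑ y, (H0 x y).re * ((Real.exp (2 * w x) - Real.exp (2 * w y)) / 2 *
        (star (g x) * g y).im) := by
      calc 2 * ∑ x, ∑ y, (H0 x y).re * (Real.exp (2 * w x) * (star (g x) * g y).im)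
          = ∑ x, ∑ y, (H0 x y).re * (Real.exp (2 * w x) * (star (g x) * g y).im) +
            ∑ x, ∑ y, (H0 x y).re * (-Real.exp (2 * w y) * (star (g x) * g y).im) := by
              rw [← h2]; ring
        _ = _ := by
          rw [← Finset.sum_add_distrib, Finset.mul_sum]
          refine Finset.sum_congr rfl fun x _ => ?_
          rw [← Finset.sum_add_distrib, Finset.mul_sum]
          refine Finset.sum_congr rfl fun y _ => ?_
          ring
    linarith
  rw [h1]
  have h4 : ∀ x y, |(H0 x y).re * ((Real.exp (2 * w x) - Real.exp (2 * w y)) / 2 *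
        (star (g x) * g y).im)| ≤ ‖H0 x y‖ * |Real.sinh (w x - w y)| *
          ((Real.exp (2 * w x) * ‖g x‖ ^ 2 + Real.exp (2 * w y) * ‖g y‖ ^ 2) / 2) := by
    intro x y
    have e1 : (Real.exp (2 * w x) - Real.exp (2 * w y)) / 2 =
        Real.exp (w x) * Real.exp (w y) * Real.sinh (w x - w y) := by
      have a1 : Real.exp (2 * w x) = Real.exp (w x) * Real.exp (w y) * Real.exp (w x - w y) := by
        rw [← Real.exp_add, ← Real.exp_add]; congr 1; ring
      have a2 : Real.exp (2 * w y) =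
          Real.exp (w x) * Real.exp (w y) * Real.exp (-(w x - w y)) := by
        rw [← Real.exp_add, ← Real.exp_add]; congr 1; ring
      rw [Real.sinh_eq, a1, a2]
      ring
    have e2 : |(star (g x) * g y).im| ≤ ‖g x‖ * ‖g y‖ := by
      refine (Complex.abs_im_le_norm _).trans ?_
      rw [norm_mul, norm_star]
    rw [abs_mul, abs_mul, e1, abs_mul, abs_of_pos (by positivity : 0 < Real.exp (w x) *
      Real.exp (w y))]
    have e3 : Real.exp (2 * w x) = Real.exp (w x) * Real.exp (w x) := by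
      rw [← Real.exp_add]; congr 1; ring
    have e4 : Real.exp (2 * w y) = Real.exp (w y) * Real.exp (w y) := by
      rw [← Real.exp_add]; congr 1; ring
    rw [e3, e4]
    have e5 : Real.exp (w x) * Real.exp (w y) * (‖g x‖ * ‖g y‖) ≤
        (Real.exp (w x) * Real.exp (w x) * ‖g x‖ ^ 2 +
          Real.exp (w y) * Real.exp (w y) * ‖g y‖ ^ 2) / 2 := by
      nlinarith [sq_nonneg (Real.exp (w x) * ‖g x‖ - Real.exp (w y) * ‖g y‖)]
    calc |(H0 x y).re| * (Real.exp (w x) * Real.exp (w y) * |Real.sinh (w x - w y)| *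
          |(star (g x) * g y).im|)
        ≤ ‖H0 x y‖ * (Real.exp (w x) * Real.exp (w y) * |Real.sinh (w x - w y)| *
          (‖g x‖ * ‖g y‖)) := by
          refine mul_le_mul (hre x y) ?_ (by positivity) (norm_nonneg _)
          exact mul_le_mul_of_nonneg_left e2 (by positivity)
      _ = ‖H0 x y‖ * |Real.sinh (w x - w y)| *
          (Real.exp (w x) * Real.exp (w y) * (‖g x‖ * ‖g y‖)) := by ring
      _ ≤ _ := mul_le_mul_of_nonneg_left e5 (by positivity)
  calc |∑ x, ∑ y, (H0 x y).re * ((Real.exp (2 * w x) - Real.exp (2 * w y)) / 2 *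
        (star (g x) * g y).im)|
      ≤ ∑ x, ∑ y, ‖H0 x y‖ * |Real.sinh (w x - w y)| *
          ((Real.exp (2 * w x) * ‖g x‖ ^ 2 + Real.exp (2 * w y) * ‖g y‖ ^ 2) / 2) := by
        refine (Finset.abs_sum_le_sum_abs _ _).trans ?_
        refine Finset.sum_le_sum fun x _ => ?_
        refine (Finset.abs_sum_le_sum_abs _ _).trans ?_
        exact Finset.sum_le_sum fun y _ => h4 x y
    _ = ∑ x, ∑ y, ‖H0 x y‖ * |Real.sinh (w x - w y)| * (Real.exp (2 * w x) * ‖g x‖ ^ 2 / 2) +
        ∑ x, ∑ y, ‖H0 x y‖ * |Real.sinh (w x - w y)| * (Real.exp (2 * w y) * ‖g y‖ ^ 2 / 2) := by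
        rw [← Finset.sum_add_distrib]
        refine Finset.sum_congr rfl fun x _ => ?_
        rw [← Finset.sum_add_distrib]
        refine Finset.sum_congr rfl fun y _ => ?_
        ring
    _ = ∑ x, ∑ y, ‖H0 x y‖ * |Real.sinh (w x - w y)| * (Real.exp (2 * w x) * ‖g x‖ ^ 2 / 2) +
        ∑ x, ∑ y, ‖H0 x y‖ * |Real.sinh (w x - w y)| * (Real.exp (2 * w x) * ‖g x‖ ^ 2 / 2) := by
        congr 1
        rw [Finset.sum_comm]
        refine Finset.sum_congr rfl fun x _ => Finset.sum_congr rfl fun y _ => ?_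
        rw [hH.symm y x, show w y - w x = -(w x - w y) by ring, Real.sinh_neg, abs_neg]
    _ = _ := by
        rw [← Finset.sum_add_distrib]
        refine Finset.sum_congr rfl fun x _ => ?_
        rw [← Finset.sum_add_distrib, Finset.mul_sum]
        refine Finset.sum_congr rfl fun y _ => ?_
        ring

/-- the Agmon inequality -/
theorem agmon (hH : RealSym H0) (hw : AdmW H0 b w) (g : ι → ℂ) :
    ∑ x, -(b x).im * (Real.exp (2 * w x) * ‖g x‖ ^ 2) ≤
      2 * ‖∑ x, ((Real.exp (2 * w x) : ℝ) : ℂ) * (star (g x) * ((H0 + diagonal b) *ᵥ g) x)‖ := by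
  have h1 := agmon_form hH b g w
  have h2 := agmon_comm hH g w
  have h3 : ∑ x, Real.exp (2 * w x) * ‖g x‖ ^ 2 * ∑ y, ‖H0 x y‖ * |Real.sinh (w x - w y)| ≤
      ∑ x, Real.exp (2 * w x) * ‖g x‖ ^ 2 * (-(b x).im / 2) :=
    Finset.sum_le_sum fun x _ => mul_le_mul_of_nonneg_left (hw x) (by positivity)
  have h4 := Complex.abs_im_le_norm (∑ x, ((Real.exp (2 * w x) : ℝ) : ℂ) *
    (star (g x) * ((H0 + diagonal b) *ᵥ g) x))
  rw [h1] at h4
  have h5 : ∑ x, Real.exp (2 * w x) * ‖g x‖ ^ 2 * (-(b x).im / 2) =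
      (∑ x, -(b x).im * (Real.exp (2 * w x) * ‖g x‖ ^ 2)) / 2 := by
    rw [Finset.sum_div]
    exact Finset.sum_congr rfl fun x _ => by ring
  have h6 : ∑ x, Real.exp (2 * w x) * ‖g x‖ ^ 2 * (b x).im =
      -∑ x, -(b x).im * (Real.exp (2 * w x) * ‖g x‖ ^ 2) := by
    rw [← Finset.sum_neg_distrib]
    exact Finset.sum_congr rfl fun x _ => by ring
  rw [h5] at h3
  rw [h6] at h4
  have h7 := abs_le.1 h2
  have h8 := abs_le.1 h4
  linarith [h7.1, h7.2, h8.1, h8.2]

/-- weighted row sums of the resolvent -/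
theorem agmon_row (hH : RealSym H0) (hb : ∀ x, (b x).im < 0) (hw : AdmW H0 b w) (x : ι) :
    ∑ y, -(b y).im * (Real.exp (2 * w y) * ‖rsc H0 b x y‖ ^ 2) ≤
      2 * (Real.exp (2 * w x) * ‖rsc H0 b x x‖) := by
  have hu := rsc_unit hH hb
  have h1 := agmon hH hw (fun y => rsc H0 b y x)
  have h2 : (H0 + diagonal b) *ᵥ (fun y => rsc H0 b y x) = Pi.single x 1 := by
    have e1 : (fun y => rsc H0 b y x) = rsc H0 b *ᵥ Pi.single x 1 := by
      ext y
      rw [Matrix.mulVec_single_one]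
      rfl
    rw [e1, Matrix.mulVec_mulVec]
    have e2 : (H0 + diagonal b) * rsc H0 b = 1 := by
      unfold rsc
      exact Matrix.mul_nonsing_inv _ hu
    rw [e2, Matrix.one_mulVec]
  rw [h2] at h1
  have h3 : ∑ y, ((Real.exp (2 * w y) : ℝ) : ℂ) * (star (rsc H0 b y x) *
      (Pi.single x 1 : ι → ℂ) y) = ((Real.exp (2 * w x) : ℝ) : ℂ) * star (rsc H0 b x x) := by
    rw [Finset.sum_eq_single x]
    · rw [Pi.single_eq_same, mul_one]
    · intro y _ hy
      rw [Pi.single_eq_of_ne hy, mul_zero, mul_zero]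
    · intro hx
      exact absurd (Finset.mem_univ x) hx
  rw [h3, norm_mul, norm_star, Complex.norm_real, Real.norm_eq_abs, abs_of_pos (Real.exp_pos _)]
    at h1
  refine le_trans (le_of_eq ?_) h1
  refine Finset.sum_congr rfl fun y _ => ?_
  rw [rsc_symm hH b x y]

/-- one entry -/
theorem agmon_ent (hH : RealSym H0) (hb : ∀ x, (b x).im < 0) (hw : AdmW H0 b w) (x y : ι) :
    -(b y).im * ‖rsc H0 b x y‖ ^ 2 ≤
      2 * ‖rsc H0 b x x‖ * Real.exp (2 * (w x - w y)) := by
  have h1 := agmon_row hH hb hw x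
  have h2 : -(b y).im * (Real.exp (2 * w y) * ‖rsc H0 b x y‖ ^ 2) ≤
      ∑ y, -(b y).im * (Real.exp (2 * w y) * ‖rsc H0 b x y‖ ^ 2) :=
    Finset.single_le_sum (f := fun y => -(b y).im * (Real.exp (2 * w y) * ‖rsc H0 b x y‖ ^ 2))
      (fun z _ => mul_nonneg (by have := hb z; linarith) (by positivity)) (Finset.mem_univ y)
  have h3 := h2.trans h1
  have h4 : Real.exp (2 * (w x - w y)) = Real.exp (2 * w x) / Real.exp (2 * w y) := by
    rw [← Real.exp_sub]; congr 1; ring
  rw [h4, mul_div_assoc', le_div_iff₀ (Real.exp_pos _)]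
  nlinarith [h3]

/-- two sided weights -/
theorem agmon_two (hH : RealSym H0) (hb : ∀ x, (b x).im < 0) (hw : AdmW H0 b w) (x : ι) :
    ∑ y, -(b y).im * (Real.exp (2 * |w x - w y|) * ‖rsc H0 b x y‖ ^ 2) ≤
      4 * ‖rsc H0 b x x‖ := by
  have h1 := agmon_row hH hb hw x
  have h2 := agmon_row hH hb hw.neg x
  have e1 : ∀ y, -(b y).im * (Real.exp (2 * |w x - w y|) * ‖rsc H0 b x y‖ ^ 2) ≤
      Real.exp (-(2 * w x)) * (-(b y).im * (Real.exp (2 * w y) * ‖rsc H0 b x y‖ ^ 2)) +
      Real.exp (2 * w x) * (-(b y).im * (Real.exp (2 * -w y) * ‖rsc H0 b x y‖ ^ 2)) := by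
    intro y
    have h3 : 0 ≤ -(b y).im := by have := hb y; linarith
    have h4 : Real.exp (2 * |w x - w y|) ≤ Real.exp (-(2 * w x)) * Real.exp (2 * w y) +
        Real.exp (2 * w x) * Real.exp (2 * -w y) := by
      rw [← Real.exp_add, ← Real.exp_add]
      rcases abs_cases (w x - w y) with ⟨h, _⟩ | ⟨h, _⟩
      · rw [h]
        have : Real.exp (2 * (w x - w y)) = Real.exp (2 * w x + 2 * -w y) := by congr 1; ring
        rw [this]
        linarith [Real.exp_pos (-(2 * w x) + 2 * w y)]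
      · rw [h]
        have : Real.exp (2 * -(w x - w y)) = Real.exp (-(2 * w x) + 2 * w y) := by congr 1; ring
        rw [this]
        linarith [Real.exp_pos (2 * w x + 2 * -w y)]
    calc -(b y).im * (Real.exp (2 * |w x - w y|) * ‖rsc H0 b x y‖ ^ 2)
        ≤ -(b y).im * ((Real.exp (-(2 * w x)) * Real.exp (2 * w y) +
        Real.exp (2 * w x) * Real.exp (2 * -w y)) * ‖rsc H0 b x y‖ ^ 2) :=
          mul_le_mul_of_nonneg_left (mul_le_mul_of_nonneg_right h4 (sq_nonneg _)) h3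
      _ = _ := by ring
  refine (Finset.sum_le_sum fun y _ => e1 y).trans ?_
  rw [Finset.sum_add_distrib, ← Finset.mul_sum, ← Finset.mul_sum]
  have h5 : Real.exp (-(2 * w x)) * Real.exp (2 * w x) = 1 := by
    rw [← Real.exp_add]; simp
  have h6 : Real.exp (2 * w x) * Real.exp (2 * -w x) = 1 := by
    rw [← Real.exp_add]; simp
  have h7 := mul_le_mul_of_nonneg_left h1 (Real.exp_pos (-(2 * w x))).le
  have h8 := mul_le_mul_of_nonneg_left h2 (Real.exp_pos (2 * w x)).le
  calc _ ≤ Real.exp (-(2 * w x)) * (2 * (Real.exp (2 * w x) * ‖rsc H0 b x x‖)) +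
      Real.exp (2 * w x) * (2 * (Real.exp (2 * -w x) * ‖rsc H0 b x x‖)) := add_le_add h7 h8
    _ = 2 * ‖rsc H0 b x x‖ * (Real.exp (-(2 * w x)) * Real.exp (2 * w x)) +
      2 * ‖rsc H0 b x x‖ * (Real.exp (2 * w x) * Real.exp (2 * -w x)) := by ring
    _ = 4 * ‖rsc H0 b x x‖ := by rw [h5, h6]; ring

end Pool.Agent.ANM
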