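import Pool.Agent.ANM.GeoChain

/-!
# ANM / GeoPhi: the weight function of the Combes-Thomas estimate with holes

`exists_phi`: for every nonempty set `A` there is a function `φ` which vanishes on `A`, changes by
at most one along the edges, is constant on the closed neighbourhood of every piece of the holes,
and is at least half the distance to `A` up to a constant.
-/

set_option autoImplicit false

namespace Pool.Agent.ANM

variable {X ι : Type*} {d : X → X → ℕ} {D : ι → Set X} {gen : ι → ℕ} {g J : ℕ} {ρ L : ℕ → ℕ}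

/-- The distance is a length: points at distance `m + n` have an intermediate point. -/
def Geo (d : X → X → ℕ) : Prop := ∀ x y m n, d x y ≤ m + n → ∃ z, d x z ≤ m ∧ d z y ≤ n

/-- The distance vanishes only on the diagonal. -/
def Sep (d : X → X → ℕ) : Prop := ∀ x y, d x y = 0 → x = y

lemma Ch_snoc_none {x y z : X} {l : List (Option ι)} (h : Ch d D x y l) (hz : d y z ≤ 1) :
    Ch d D x z (l ++ [none]) := by
  rw [Ch_append]
  exact ⟨y, h, z, hz, rfl⟩

lemma Ch_snoc_some {x y z : X} {k : ι} {l : List (Option ι)} (h : Ch d D x y l)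
    (hy : Near d (D k) y) (hz : Near d (D k) z) : Ch d D x z (l ++ [some k]) := by
  rw [Ch_append]
  exact ⟨y, h, z, hy, hz, rfl⟩

lemma exists_Ch (hg : Geo d) (hs : Sep d) (x y : X) : ∃ l : List (Option ι), Ch d D x y l := by
  induction hn : d x y generalizing x with
  | zero => exact ⟨[], hs x y hn⟩
  | succ n ih =>
    obtain ⟨z, h1, h2⟩ := hg x y 1 n (by omega)
    have key : ∀ (m : ℕ) (x : X), d x y ≤ m → ∃ l : List (Option ι), Ch d D x y l := by
      intro m
      induction m with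
      | zero => exact fun x hx => ⟨[], hs x y (by omega)⟩
      | succ m ihm =>
        intro x hx
        obtain ⟨z, h3, h4⟩ := hg x y 1 m (by omega)
        obtain ⟨l, hl⟩ := ihm z h4
        exact ⟨none :: l, z, h3, hl⟩
    exact key (n + 1) x (by omega)

/-- The numbers of paid steps of the chains from `A` to `y`. -/
def costs (d : X → X → ℕ) (D : ι → Set X) (A : Set X) (y : X) : Set ℕ :=
  {n | ∃ x ∈ A, ∃ l, Ch d D x y l ∧ paid l = n}

theorem exists_phi (hd : NMet d) (h : Sparse d D gen g J ρ L) (hg : Geo d) (hs : Sep d)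
    (A : Set X) (hA : A.Nonempty) :
    ∃ φ : X → ℕ, (∀ x ∈ A, φ x = 0) ∧ (∀ x y, d x y ≤ 1 → φ x ≤ φ y + 1) ∧
      (∀ k x y, Near d (D k) x → Near d (D k) y → φ x = φ y) ∧
      (∀ x y, d x y ≤ 1 → (∃ k, x ∈ D k ∨ y ∈ D k) → φ x = φ y) ∧
      ∀ y, ∃ x ∈ A, d x y ≤ 2 * φ y + cst g J ρ := by
  obtain ⟨a, ha⟩ := hA
  have hne : ∀ y, (costs d D A y).Nonempty := by
    intro y
    obtain ⟨l, hl⟩ := exists_Ch (D := D) hg hs a y
    exact ⟨paid l, a, ha, l, hl, rfl⟩
  have h1 : ∀ x y, d x y ≤ 1 → sInf (costs d D A x) ≤ sInf (costs d D A y) + 1 := by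
    intro x y hxy
    obtain ⟨a', ha', l, hl, hp⟩ := Nat.sInf_mem (hne y)
    refine Nat.sInf_le ⟨a', ha', l ++ [none], Ch_snoc_none hl (by rw [hd.symm]; exact hxy), ?_⟩
    rw [paid_append, hp]
    rfl
  have h2 : ∀ k x y, Near d (D k) x → Near d (D k) y →
      sInf (costs d D A x) ≤ sInf (costs d D A y) := by
    intro k x y hx hy
    obtain ⟨a', ha', l, hl, hp⟩ := Nat.sInf_mem (hne y)
    refine Nat.sInf_le ⟨a', ha', l ++ [some k], Ch_snoc_some hl hy hx, ?_⟩
    rw [paid_append, hp]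
    rfl
  have h3 : ∀ k x y, Near d (D k) x → Near d (D k) y →
      sInf (costs d D A x) = sInf (costs d D A y) :=
    fun k x y hx hy => le_antisymm (h2 k x y hx hy) (h2 k y x hy hx)
  refine ⟨fun y => sInf (costs d D A y), ?_, h1, h3, ?_, ?_⟩
  · intro x hx
    exact Nat.le_zero.1 (Nat.sInf_le ⟨x, hx, [], rfl, rfl⟩)
  · rintro x y hxy ⟨k, hk | hk⟩
    · exact h3 k x y ⟨x, hk, by rw [hd.self]; omega⟩ ⟨x, hk, by rw [hd.symm]; exact hxy⟩
    · exact h3 k x y ⟨y, hk, hxy⟩ ⟨y, hk, by rw [hd.self]; omega⟩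
  · intro y
    obtain ⟨a', ha', l, hl, hp⟩ := Nat.sInf_mem (hne y)
    refine ⟨a', ha', ?_⟩
    have := Ch_paid hd h hl
    rw [hp] at this
    exact this

end Pool.Agent.ANM
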