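import Pool.Agent.ANM.GeoTorus
import Pool.Agent.ANM.GeoPhi
import Pool.Agent.ANM.Agmon
import Pool.Agent.Kin.TDefs
import Pool.Agent.ANI.Schur

/-! # ANM Wgt: the weights of the Agmon estimates on the torus, for the free operator and for the effective operator.

* `admW_torus`: `φ : Tor d L → ℕ` changes by at most one along the edges and is constant on the closed neighbourhood of
  every point of `F`; off `F` the absorption is at least `ηm`; then `μ φ` is admissible if `8 d μ ≤ ηm`.
* `admW_eff`: an admissible weight of `H` which is constant across every edge with an endpoint off `X` is admissible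
  for the effective operator `ANI.Heff H b X`.
* `exists_admW`: the weights of helper31's geometry: `φ = 0` on `S`, `td ≤ 2 φ + cst` for some point of `S`.
* `card_wball`: number of points with `μ φ ≤ r`.
-/

open Matrix Finset

noncomputable section

namespace Pool.Agent.ANM

open Pool.Agent.Kin Pool.Agent.APS

theorem sinh_le_two {μ : ℝ} (h0 : 0 ≤ μ) (h1 : μ ≤ 1) : Real.sinh μ ≤ 2 * μ := by
  have e1 := Real.abs_exp_sub_one_sub_id_le (x := μ) (by rw [abs_of_nonneg h0]; exact h1)
  have e2 := Real.add_one_le_exp (-μ)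
  have e3 := (abs_le.1 e1).2
  rw [Real.sinh_eq]
  nlinarith

section tor

variable {d L : ℕ} [NeZero L]

theorem td_single (x : Tor d L) (j : Fin d) : td x (x + Pi.single j 1) ≤ 1 := by
  rw [td_le]
  intro i
  have e1 : x i - (x + (Pi.single j 1 : Tor d L)) i = -(Pi.single j (1 : ZMod L) : Tor d L) i := by
    rw [Pi.add_apply]
    ring
  rw [e1, za_neg]
  by_cases hij : i = j
  · subst hij
    rw [Pi.single_eq_same]
    have := za_cast_le (N := L) 1
    simpa using this
  · rw [Pi.single_eq_of_ne hij, za_zero]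
    omega

theorem td_single' (x : Tor d L) (j : Fin d) : td x (x - Pi.single j 1) ≤ 1 := by
  have h := td_single (x - Pi.single j 1) j
  rw [sub_add_cancel, td_met.symm] at h
  exact h

theorem H0T_near {x y : Tor d L} (h : H0T d L x y ≠ 0) : td x y ≤ 1 := by
  by_contra hc
  apply h
  have hxy : x ≠ y := by
    rintro rfl
    rw [td_met.self] at hc
    omega
  unfold H0T
  rw [if_neg hxy, zero_sub, neg_eq_zero]
  refine Finset.sum_eq_zero fun j _ => ?_
  rw [if_neg, if_neg, add_zero]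
  · rintro rfl
    exact hc (td_single' x j)
  · rintro rfl
    exact hc (td_single x j)

/-- the off-diagonal row sums of the free operator -/
theorem H0T_row (x : Tor d L) : ∑ y, (if x = y then 0 else ‖H0T d L x y‖) ≤ 2 * d := by
  have h1 : ∀ y, (if x = y then 0 else ‖H0T d L x y‖) ≤
      ∑ j : Fin d, ((if y = x + Pi.single j 1 then (1 : ℝ) else 0) +
        (if y = x - Pi.single j 1 then 1 else 0)) := by
    intro y
    split_ifs with hxy
    · refine Finset.sum_nonneg fun j _ => ?_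
      split_ifs <;> norm_num
    · unfold H0T
      rw [if_neg hxy, zero_sub, norm_neg]
      refine (norm_sum_le _ _).trans (Finset.sum_le_sum fun j _ => ?_)
      refine (norm_add_le _ _).trans (add_le_add ?_ ?_)
      · split_ifs <;> simp
      · split_ifs <;> simp
  refine (Finset.sum_le_sum fun y _ => h1 y).trans (le_of_eq ?_)
  rw [Finset.sum_comm]
  have h2 : ∀ j : Fin d, ∑ y : Tor d L, ((if y = x + Pi.single j 1 then (1 : ℝ) else 0) +
        (if y = x - Pi.single j 1 then 1 else 0)) = 2 := by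
    intro j
    rw [Finset.sum_add_distrib, Finset.sum_ite_eq' univ, Finset.sum_ite_eq' univ]
    simp only [Finset.mem_univ, if_true]
    norm_num
  rw [Finset.sum_congr rfl fun j _ => h2 j, Finset.sum_const, Finset.card_univ, Fintype.card_fin,
    nsmul_eq_mul, mul_comm]

/-- an admissible weight -/
theorem admW_torus {φ : Tor d L → ℕ} {F : Set (Tor d L)} {b : Tor d L → ℂ} {μ ηm : ℝ}
    (hμ : 0 ≤ μ) (hμ1 : μ ≤ 1) (hs : ∀ x y, td x y ≤ 1 → φ x ≤ φ y + 1)
    (hf : ∀ x ∈ F, ∀ y, td x y ≤ 1 → φ x = φ y) (h0 : ∀ x, 0 ≤ -(b x).im)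
    (hη : ∀ x, x ∉ F → ηm ≤ -(b x).im) (hη' : 8 * d * μ ≤ ηm) :
    AdmW (H0T d L) b (fun x => μ * φ x) := by
  intro x
  by_cases hx : x ∈ F
  · have h1 : ∑ y, ‖H0T d L x y‖ * |Real.sinh (μ * φ x - μ * φ y)| = 0 := by
      refine Finset.sum_eq_zero fun y _ => ?_
      by_cases hxy : H0T d L x y = 0
      · rw [hxy, norm_zero, zero_mul]
      · rw [hf x hx y (H0T_near hxy), sub_self, Real.sinh_zero, abs_zero, mul_zero]
    rw [h1]
    have := h0 x
    linarith
  · have h1 : ∀ y, ‖H0T d L x y‖ * |Real.sinh (μ * φ x - μ * φ y)| ≤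
        (if x = y then 0 else ‖H0T d L x y‖) * (2 * μ) := by
      intro y
      split_ifs with hxy
      · subst hxy
        rw [sub_self, Real.sinh_zero, abs_zero, mul_zero, zero_mul]
      · by_cases hH : H0T d L x y = 0
        · rw [hH, norm_zero, zero_mul, zero_mul]
        · refine mul_le_mul_of_nonneg_left ?_ (norm_nonneg _)
          have h2 := hs x y (H0T_near hH)
          have h3 := hs y x (by rw [td_met.symm]; exact H0T_near hH)
          have h2' : (φ x : ℝ) ≤ φ y + 1 := by exact_mod_cast h2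
          have h3' : (φ y : ℝ) ≤ φ x + 1 := by exact_mod_cast h3
          rw [Real.abs_sinh, ← mul_sub, abs_mul, abs_of_nonneg hμ]
          refine le_trans (Real.sinh_le_sinh.2 ?_) (sinh_le_two hμ hμ1)
          have h4 : |(φ x : ℝ) - φ y| ≤ 1 := abs_le.2 ⟨by linarith, by linarith⟩
          nlinarith
    refine (Finset.sum_le_sum fun y _ => h1 y).trans ?_
    rw [← Finset.sum_mul]
    have h2 := mul_le_mul_of_nonneg_right (H0T_row x) (show 0 ≤ 2 * μ by linarith)
    have h3 := hη x hx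
    nlinarith

/-- the weights of helper31's geometry, for every nonempty set `S` -/
theorem exists_admW {κ : Type*} {D : κ → Set (Tor d L)} {gen : κ → ℕ} {g J : ℕ} {ρ Ls : ℕ → ℕ}
    (h : Sparse (td : Tor d L → Tor d L → ℕ) D gen g J ρ Ls) {b : Tor d L → ℂ} {μ ηm : ℝ}
    (hμ : 0 ≤ μ) (hμ1 : μ ≤ 1) (h0 : ∀ x, 0 ≤ -(b x).im)
    (hη : ∀ x, (∀ k, x ∉ D k) → ηm ≤ -(b x).im) (hη' : 8 * d * μ ≤ ηm)
    (S : Set (Tor d L)) (hS : S.Nonempty) :
    ∃ φ : Tor d L → ℕ, (∀ x ∈ S, φ x = 0) ∧ AdmW (H0T d L) b (fun x => μ * φ x) ∧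
      (∀ x y, td x y ≤ 1 → φ x ≤ φ y + 1) ∧
      (∀ k x y, Near td (D k) x → Near td (D k) y → φ x = φ y) ∧
      (∀ x y, td x y ≤ 1 → (∃ k, x ∈ D k ∨ y ∈ D k) → φ x = φ y) ∧
      ∀ y, ∃ x ∈ S, td x y ≤ 2 * φ y + cst g J ρ := by
  obtain ⟨φ, h1, h2, h3, h4, h5⟩ := exists_phi td_met h td_geo td_sep S hS
  refine ⟨φ, h1, ?_, h2, h3, h4, h5⟩
  refine admW_torus (F := {x | ∃ k, x ∈ D k}) hμ hμ1 h2 ?_ h0 ?_ hη'
  · rintro x ⟨k, hk⟩ y hxy
    exact h4 x y hxy ⟨k, Or.inl hk⟩
  · intro x hx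
    exact hη x fun k hk => hx ⟨k, hk⟩

/-- the number of points with small weight -/
theorem card_wball {φ : Tor d L → ℕ} {x0 : Tor d L} {c : ℕ} (h : ∀ y, td x0 y ≤ 2 * φ y + c)
    {μ r : ℝ} (hμ : 0 < μ) :
    (((univ : Finset (Tor d L)).filter fun y => μ * φ y ≤ r).card : ℝ) ≤
      (2 * (2 * (r / μ) + c) + 1) ^ d ∨ r < 0 := by
  rcases lt_or_ge r 0 with hr | hr
  · exact Or.inr hr
  left
  have h1 : ((univ : Finset (Tor d L)).filter fun y => μ * φ y ≤ r).card ≤
      (2 * (2 * ⌊r / μ⌋₊ + c) + 1) ^ d := by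
    refine le_trans (Finset.card_le_card ?_) (card_ball x0 (2 * ⌊r / μ⌋₊ + c))
    intro y hy
    rw [Finset.mem_filter] at hy ⊢
    refine ⟨Finset.mem_univ _, (h y).trans ?_⟩
    have h2 : φ y ≤ ⌊r / μ⌋₊ := by
      refine Nat.le_floor ?_
      rw [le_div_iff₀ hμ]
      linarith [hy.2]
    omega
  have h2 : (((univ : Finset (Tor d L)).filter fun y => μ * φ y ≤ r).card : ℝ) ≤
      ((2 * (2 * ⌊r / μ⌋₊ + c) + 1 : ℕ) : ℝ) ^ d := by exact_mod_cast h1
  refine h2.trans (pow_le_pow_left₀ (by positivity) ?_ d)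
  push_cast
  have := Nat.floor_le (div_nonneg hr hμ.le)
  linarith

end tor

section eff

variable {ι : Type} [Fintype ι] [DecidableEq ι] {H : Matrix ι ι ℂ} {b : ι → ℂ} {w : ι → ℝ}
  {X : Finset ι}

/-- the inverse on the holes does not connect points with different weights -/
theorem mbb_inv_flat (hB : IsUnit (ANI.MBB H b X).det)
    (hf : ∀ x y, x ∉ X → y ∉ X → H x y ≠ 0 → w x = w y) (z z' : {x // x ∉ X})
    (hz : (ANI.MBB H b X)⁻¹ z z' ≠ 0) : w z = w z' := by
  set M := ANI.MBB H b X with hM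
  set W : Matrix {x // x ∉ X} {x // x ∉ X} ℂ := diagonal fun z => ((w z : ℝ) : ℂ) with hW
  have h1 : W * M = M * W := by
    ext i j
    rw [hW, Matrix.diagonal_mul, Matrix.mul_diagonal, mul_comm]
    by_cases hij : i = j
    · subst hij; rfl
    · have hne : (i : ι) ≠ j := fun h => hij (Subtype.ext h)
      have e1 : M i j = H i j := by
        rw [hM, ANI.MBB, Matrix.submatrix_apply, Matrix.add_apply, Matrix.diagonal_apply_ne _ hne,
          add_zero]
      by_cases hH : H i j = 0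
      · rw [e1, hH, zero_mul, zero_mul]
      · rw [hf i j i.2 j.2 hH]
  have h2 : M⁻¹ * W = W * M⁻¹ := by
    calc M⁻¹ * W = M⁻¹ * (W * (M * M⁻¹)) := by rw [Matrix.mul_nonsing_inv _ hB, Matrix.mul_one]
      _ = M⁻¹ * ((W * M) * M⁻¹) := by rw [Matrix.mul_assoc W]
      _ = M⁻¹ * ((M * W) * M⁻¹) := by rw [h1]
      _ = (M⁻¹ * M) * W * M⁻¹ := by simp only [Matrix.mul_assoc]
      _ = W * M⁻¹ := by rw [Matrix.nonsing_inv_mul _ hB, Matrix.one_mul]
  have h3 := congrFun (congrFun h2 z) z'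
  rw [hW, Matrix.mul_diagonal, Matrix.diagonal_mul, mul_comm] at h3
  have h4 := mul_right_cancel₀ hz h3
  exact_mod_cast h4.symm

/-- the weight is admissible for the effective operator -/
theorem admW_eff (hB : IsUnit (ANI.MBB H b X).det) (hw : AdmW H b w)
    (hf : ∀ x y, (x ∉ X ∨ y ∉ X) → H x y ≠ 0 → w x = w y) :
    AdmW (ANI.Heff H b X) (fun y : {x // x ∈ X} => b y) (fun y : {x // x ∈ X} => w y) := by
  intro x
  have h1 : ∀ y : {x // x ∈ X}, ‖ANI.Heff H b X x y‖ * |Real.sinh (w x - w y)| ≤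
      ‖H x y‖ * |Real.sinh (w x - w y)| := by
    intro y
    by_cases hxy : w x = w y
    · rw [hxy, sub_self, Real.sinh_zero, abs_zero, mul_zero, mul_zero]
    · have h2 : ANI.Heff H b X x y = H x y := by
        unfold ANI.Heff
        rw [sub_eq_self]
        refine Finset.sum_eq_zero fun z _ => Finset.sum_eq_zero fun z' _ => ?_
        by_contra hne
        apply hxy
        have e1 : H x z ≠ 0 := fun h => hne (by rw [h, zero_mul, zero_mul])
        have e2 : (ANI.MBB H b X)⁻¹ z z' ≠ 0 := fun h => hne (by rw [h, mul_zero, zero_mul])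
        have e3 : H z' y ≠ 0 := fun h => hne (by rw [h, mul_zero])
        rw [hf x z (Or.inr z.2) e1, mbb_inv_flat hB (fun x y hx _ => hf x y (Or.inl hx)) z z' e2,
          hf z' y (Or.inl z'.2) e3]
      rw [h2]
  refine (Finset.sum_le_sum fun y _ => h1 y).trans (le_trans ?_ (hw x))
  rw [Finset.sum_coe_sort X (fun y => ‖H x y‖ * |Real.sinh (w x - w y)|)]
  exact Finset.sum_le_sum_of_subset_of_nonneg (Finset.subset_univ X) fun _ _ _ => by positivity

end eff

end Pool.Agent.ANM
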