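import Pool.Agent.ANM.GeoPhi

/-!
# ANM / GeoSum: sums of exponentially decaying weights

If the balls of radius `r` around `x0` have at most `(2 r + 1)^m` points and
`d x0 y ≤ 2 φ y + c`, then the sums of `exp (-μ φ)` are bounded by powers of `1 / μ`.
-/

set_option autoImplicit false

namespace Pool.Agent.ANM

open Finset

variable {X : Type*} [Fintype X]

lemma pow_le_exp (m : ℕ) {x : ℝ} (hx : 0 ≤ x) : x ^ m ≤ m.factorial * Real.exp x := by
  have h := Real.pow_div_factorial_le_exp x hx m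
  have hm : (0 : ℝ) < m.factorial := by positivity
  rw [div_le_iff₀ hm] at h
  linarith

/-- The number of points with `φ y = n`. -/
lemma card_level (d : X → X → ℕ) (φ : X → ℕ) (x0 : X) (m c : ℕ)
    (hb : ∀ r, (univ.filter fun y => d x0 y ≤ r).card ≤ (2 * r + 1) ^ m)
    (hφ : ∀ y, d x0 y ≤ 2 * φ y + c) (n : ℕ) :
    ((univ.filter fun y => φ y = n).card : ℝ) ≤ (2 * c + 1) ^ m * (4 * (n + 1)) ^ m := by
  have h1 : (univ.filter fun y => φ y = n).card ≤ (2 * (2 * n + c) + 1) ^ m := by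
    refine le_trans (card_le_card ?_) (hb (2 * n + c))
    intro y hy
    simp only [mem_filter, mem_univ, true_and] at hy ⊢
    have := hφ y
    rw [hy] at this
    exact this
  have h2 : (2 * (2 * n + c) + 1) ^ m ≤ ((2 * c + 1) * (4 * (n + 1))) ^ m := by
    apply Nat.pow_le_pow_left
    nlinarith
  have h3 : (univ.filter fun y => φ y = n).card ≤ (2 * c + 1) ^ m * (4 * (n + 1)) ^ m := by
    rw [← mul_pow]
    exact h1.trans h2
  exact_mod_cast h3

/-- The constant of the sums. -/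
noncomputable def sumC (m c : ℕ) (μ : ℝ) : ℝ :=
  (2 * c + 1) ^ m * (8 ^ m * m.factorial * 8) / μ ^ (m + 1)

theorem sum_exp_le (d : X → X → ℕ) (φ : X → ℕ) (x0 : X) (m c : ℕ)
    (hb : ∀ r, (univ.filter fun y => d x0 y ≤ r).card ≤ (2 * r + 1) ^ m)
    (hφ : ∀ y, d x0 y ≤ 2 * φ y + c) {μ : ℝ} (hμ : 0 < μ) (hμ1 : μ ≤ 1) :
    ∑ y, Real.exp (-(μ * φ y)) ≤ sumC m c μ := by
  classical
  -- group the points by the value of φ
  have h1 : ∑ y, Real.exp (-(μ * φ y)) =
      ∑ n ∈ univ.image φ, ((univ.filter fun y => φ y = n).card : ℝ) * Real.exp (-(μ * n)) := by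
    rw [← sum_fiberwise_of_maps_to (g := φ) (t := univ.image φ) (fun y _ => mem_image_of_mem φ
      (mem_univ y))]
    refine sum_congr rfl fun n _ => ?_
    rw [sum_congr rfl (g := fun _ => Real.exp (-(μ * n)))]
    · rw [sum_const, nsmul_eq_mul]
    · intro y hy
      rw [(mem_filter.1 hy).2]
  have h2 : ∀ n : ℕ, ((univ.filter fun y => φ y = n).card : ℝ) * Real.exp (-(μ * n)) ≤
      (2 * c + 1) ^ m * (8 ^ m * m.factorial) / μ ^ m * Real.exp (μ / 2) *
        Real.exp (-(μ / 2)) ^ n := by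
    intro n
    have h3 := card_level d φ x0 m c hb hφ n
    have h4 : (4 * ((n : ℝ) + 1)) ^ m ≤ 8 ^ m * m.factorial / μ ^ m *
        Real.exp (μ * (n + 1) / 2) := by
      have h5 := pow_le_exp m (x := μ * (n + 1) / 2) (by positivity)
      have h6 : (4 * ((n : ℝ) + 1)) ^ m = 8 ^ m / μ ^ m * (μ * (n + 1) / 2) ^ m := by
        rw [← div_pow, ← mul_pow]
        congr 1
        field_simp
        ring
      rw [h6]
      calc 8 ^ m / μ ^ m * (μ * (n + 1) / 2) ^ m ≤
            8 ^ m / μ ^ m * (m.factorial * Real.exp (μ * (n + 1) / 2)) := by gcongr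
        _ = _ := by ring
    calc ((univ.filter fun y => φ y = n).card : ℝ) * Real.exp (-(μ * n)) ≤
          ((2 * c + 1) ^ m * (8 ^ m * m.factorial / μ ^ m * Real.exp (μ * (n + 1) / 2))) *
            Real.exp (-(μ * n)) := by
          gcongr
          exact h3.trans (by gcongr)
      _ = (2 * c + 1) ^ m * (8 ^ m * m.factorial) / μ ^ m *
          (Real.exp (μ * (n + 1) / 2) * Real.exp (-(μ * n))) := by ring
      _ = (2 * c + 1) ^ m * (8 ^ m * m.factorial) / μ ^ m *
          (Real.exp (μ / 2) * Real.exp (-(μ / 2)) ^ n) := by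
          congr 1
          rw [← Real.exp_nat_mul, ← Real.exp_add, ← Real.exp_add]
          congr 1
          ring
      _ = _ := by ring
  have hq0 : 0 ≤ Real.exp (-(μ / 2)) := (Real.exp_pos _).le
  have hq1 : Real.exp (-(μ / 2)) < 1 := by
    rw [Real.exp_lt_one_iff]
    linarith
  have h7 : ∑ n ∈ univ.image φ, Real.exp (-(μ / 2)) ^ n ≤ (1 - Real.exp (-(μ / 2)))⁻¹ := by
    rw [← tsum_geometric_of_lt_one hq0 hq1]
    exact (summable_geometric_of_lt_one hq0 hq1).sum_le_tsum _ (fun n _ => by positivity)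
  have h8 : (1 - Real.exp (-(μ / 2)))⁻¹ ≤ 4 / μ := by
    have h9 : Real.exp (-(μ / 2)) ≤ 1 / (1 + μ / 2) := by
      rw [Real.exp_neg, ← one_div]
      exact one_div_le_one_div_of_le (by positivity) (by
        have := Real.add_one_le_exp (μ / 2)
        linarith)
    have h10 : μ / 4 ≤ 1 - Real.exp (-(μ / 2)) := by
      have : 1 / (1 + μ / 2) ≤ 1 - μ / 4 := by
        rw [div_le_iff₀ (by positivity)]
        nlinarith
      linarith
    calc (1 - Real.exp (-(μ / 2)))⁻¹ ≤ (μ / 4)⁻¹ := inv_anti₀ (by positivity) h10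
      _ = 4 / μ := by rw [inv_div]
  have h11 : Real.exp (μ / 2) ≤ 2 := by
    have h12 : Real.exp (μ / 2) ≤ Real.exp (1 / 2) := Real.exp_le_exp.2 (by linarith)
    have h13 : Real.exp (1 / 2) ≤ 2 := by
      have h14 := Real.exp_one_lt_d9
      have h15 : Real.exp (1 / 2) * Real.exp (1 / 2) = Real.exp 1 := by
        rw [← Real.exp_add]
        norm_num
      nlinarith [Real.exp_pos (1 / 2)]
    exact h12.trans h13
  rw [h1]
  calc ∑ n ∈ univ.image φ, ((univ.filter fun y => φ y = n).card : ℝ) * Real.exp (-(μ * n)) ≤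
        ∑ n ∈ univ.image φ, (2 * c + 1) ^ m * (8 ^ m * m.factorial) / μ ^ m * Real.exp (μ / 2) *
        Real.exp (-(μ / 2)) ^ n := sum_le_sum fun n _ => h2 n
    _ = (2 * c + 1) ^ m * (8 ^ m * m.factorial) / μ ^ m * Real.exp (μ / 2) *
        ∑ n ∈ univ.image φ, Real.exp (-(μ / 2)) ^ n := by rw [mul_sum]
    _ ≤ (2 * c + 1) ^ m * (8 ^ m * m.factorial) / μ ^ m * 2 * (4 / μ) := by
        gcongr
        exact h7.trans h8
    _ = sumC m c μ := by
        unfold sumC
        field_simp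
        ring

/-- The part of the sum with `φ y ≥ n` is exponentially small. -/
theorem sum_exp_tail (d : X → X → ℕ) (φ : X → ℕ) (x0 : X) (m c : ℕ)
    (hb : ∀ r, (univ.filter fun y => d x0 y ≤ r).card ≤ (2 * r + 1) ^ m)
    (hφ : ∀ y, d x0 y ≤ 2 * φ y + c) {μ : ℝ} (hμ : 0 < μ) (hμ1 : μ ≤ 1) (n : ℕ) :
    ∑ y ∈ univ.filter (fun y => n ≤ φ y), Real.exp (-(μ * φ y)) ≤
      Real.exp (-(μ / 2 * n)) * sumC m c (μ / 2) := by
  have h1 := sum_exp_le d φ x0 m c hb hφ (μ := μ / 2) (by positivity) (by linarith)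
  calc ∑ y ∈ univ.filter (fun y => n ≤ φ y), Real.exp (-(μ * φ y)) ≤
        ∑ y ∈ univ.filter (fun y => n ≤ φ y),
          Real.exp (-(μ / 2 * n)) * Real.exp (-(μ / 2 * φ y)) := by
        refine sum_le_sum fun y hy => ?_
        rw [← Real.exp_add]
        apply Real.exp_le_exp.2
        have h2 : (n : ℝ) ≤ φ y := by exact_mod_cast (mem_filter.1 hy).2
        nlinarith
    _ ≤ ∑ y, Real.exp (-(μ / 2 * n)) * Real.exp (-(μ / 2 * φ y)) :=
        sum_le_sum_of_subset_of_nonneg (filter_subset _ _) fun _ _ _ => by positivity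
    _ = Real.exp (-(μ / 2 * n)) * ∑ y, Real.exp (-(μ / 2 * φ y)) := by rw [mul_sum]
    _ ≤ _ := by gcongr

end Pool.Agent.ANM
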