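import Pool.Agent.ANM.GeoLeak

/-!
# ANM / GeoGen: geometry from the chain property

`CP d D a c`: every chain has `d x y ≤ a * paid l + c`. This is the only property of the holes
which is used for the weight functions and for the surfaces. It follows from `Sparse`
(`Sparse.cp`), and for weak sites of small density it holds with large probability
(`Pool/Agent/ANB/Cover.lean`).
-/

set_option autoImplicit false

namespace Pool.Agent.ANM

section abs

variable {X ι : Type*} {d : X → X → ℕ} {D : ι → Set X} {gen : ι → ℕ} {g J : ℕ} {ρ L : ℕ → ℕ}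
  {a c : ℕ}

/-- The chain property. -/
def CP (d : X → X → ℕ) (D : ι → Set X) (a c : ℕ) : Prop :=
  ∀ x y l, Ch d D x y l → d x y ≤ a * paid l + c

lemma Sparse.cp (h : Sparse d D gen g J ρ L) (hd : NMet d) : CP d D 2 (cst g J ρ) :=
  fun _ _ _ hl => Ch_paid hd h hl

lemma CP.mono {a' c' : ℕ} (h : CP d D a c) (ha : a ≤ a') (hc : c ≤ c') : CP d D a' c' := by
  intro x y l hl
  have h1 := h x y l hl
  have h2 : a * paid l ≤ a' * paid l := Nat.mul_le_mul_right _ ha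
  omega

/-- Chains of a smaller family of smaller pieces. -/
lemma Ch_map {κ : Type*} {D' : κ → Set X} {f : ι → κ} (hf : ∀ k, D k ⊆ D' (f k)) {x y : X}
    {l : List (Option ι)} (hl : Ch d D x y l) : Ch d D' x y (l.map (Option.map f)) := by
  induction l generalizing x with
  | nil => exact hl
  | cons o l ih =>
    cases o with
    | none =>
      obtain ⟨z, h1, h2⟩ := hl
      exact ⟨z, h1, ih h2⟩
    | some k =>
      obtain ⟨z, ⟨u, hu, h1⟩, ⟨v, hv, h2⟩, h3⟩ := hl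
      exact ⟨z, ⟨u, hf k hu, h1⟩, ⟨v, hf k hv, h2⟩, ih h3⟩

lemma paid_map {κ : Type*} {f : ι → κ} (l : List (Option ι)) :
    paid (l.map (Option.map f)) = paid l := by
  induction l with
  | nil => rfl
  | cons o l ih => cases o <;> simp [paid, ih]

lemma CP.of_le {κ : Type*} {D' : κ → Set X} {f : ι → κ} (hf : ∀ k, D k ⊆ D' (f k))
    (h : CP d D' a c) : CP d D a c := by
  intro x y l hl
  have := h x y _ (Ch_map hf hl)
  rwa [paid_map] at this

theorem phi_cp (hd : NMet d) (h : CP d D a c) (hg : Geo d) (hs : Sep d)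
    (A : Set X) (hA : A.Nonempty) :
    ∃ φ : X → ℕ, (∀ x ∈ A, φ x = 0) ∧ (∀ x y, d x y ≤ 1 → φ x ≤ φ y + 1) ∧
      (∀ k x y, Near d (D k) x → Near d (D k) y → φ x = φ y) ∧
      (∀ x y, d x y ≤ 1 → (∃ k, x ∈ D k ∨ y ∈ D k) → φ x = φ y) ∧
      ∀ y, ∃ x ∈ A, d x y ≤ a * φ y + c := by
  obtain ⟨a0, ha⟩ := hA
  have hne : ∀ y, (costs d D A y).Nonempty := by
    intro y
    obtain ⟨l, hl⟩ := exists_Ch (D := D) hg hs a0 y
    exact ⟨paid l, a0, ha, l, hl, rfl⟩
  have h1 : ∀ x y, d x y ≤ 1 → sInf (costs d D A x) ≤ sInf (costs d D A y) + 1 := by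
    intro x y hxy
    obtain ⟨a', ha', l, hl, hp⟩ := Nat.sInf_mem (hne y)
    refine Nat.sInf_le ⟨a', ha', l ++ [none], Ch_snoc_none hl (by rw [hd.symm]; exact hxy), ?_⟩
    rw [paid_append, hp]
    rfl
  have h2 : ∀ k x y, Near d (D k) x → Near d (D k) y →
      sInf (costs d D A x) ≤ sInf (costs d D A y) := by
    intro k x y hx hy
    obtain ⟨a', ha', l, hl, hp⟩ := Nat.sInf_mem (hne y)
    refine Nat.sInf_le ⟨a', ha', l ++ [some k], Ch_snoc_some hl hy hx, ?_⟩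
    rw [paid_append, hp]
    rfl
  have h3 : ∀ k x y, Near d (D k) x → Near d (D k) y →
      sInf (costs d D A x) = sInf (costs d D A y) :=
    fun k x y hx hy => le_antisymm (h2 k x y hx hy) (h2 k y x hy hx)
  refine ⟨fun y => sInf (costs d D A y), ?_, h1, h3, ?_, ?_⟩
  · intro x hx
    exact Nat.le_zero.1 (Nat.sInf_le ⟨x, hx, [], rfl, rfl⟩)
  · rintro x y hxy ⟨k, hk | hk⟩
    · exact h3 k x y ⟨x, hk, by rw [hd.self]; omega⟩ ⟨x, hk, by rw [hd.symm]; exact hxy⟩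
    · exact h3 k x y ⟨y, hk, hxy⟩ ⟨y, hk, by rw [hd.self]; omega⟩
  · intro y
    obtain ⟨a', ha', l, hl, hp⟩ := Nat.sInf_mem (hne y)
    refine ⟨a', ha', ?_⟩
    have := h a' y l hl
    rw [hp] at this
    exact this

lemma sw_dist_cp (h : CP d D a c) {S : Set X} {y : X}
    (hy : y ∈ sw d D S) : ∃ x ∈ S, d x y ≤ c := by
  obtain ⟨x, hx, l, hl, hp⟩ := hy
  have := h x y l hl
  rw [hp] at this
  exact ⟨x, hx, by omega⟩

lemma sw_subset_nb_cp (h : CP d D a c) (S : Set X) :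
    sw d D S ⊆ nb d c S := fun _ hy => sw_dist_cp h hy

/-- The domains are contained in neighbourhoods of `S`. -/
theorem Dn_subset_cp (hd : NMet d) (h : CP d D a c) (Δ : ℕ) (S : Set X) (i : ℕ) :
    Dn d D Δ S i ⊆ nb d (i * (Δ + c) + c) S := by
  induction i with
  | zero => simpa [Dn] using sw_subset_nb_cp h S
  | succ i ih =>
    intro y hy
    obtain ⟨x, hx, hxy⟩ := sw_dist_cp h hy
    obtain ⟨z, hz, hzx⟩ := hx
    obtain ⟨w, hw, hwz⟩ := ih hz
    refine ⟨w, hw, ?_⟩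
    have h1 := hd.tri w z y
    have h2 := hd.tri z x y
    have h3 : (i + 1) * (Δ + c) = i * (Δ + c) + (Δ + c) := by ring
    omega

/-- The boundaries are contained in neighbourhoods of `S`. -/
theorem bdy_subset_cp (hd : NMet d) (h : CP d D a c) {adj : X → X → Prop}
    (ha : ∀ x y, adj x y → d x y ≤ 1) (Δ : ℕ) (S : Set X) (i : ℕ) :
    bdyS adj (Dn d D Δ S i) ⊆ nb d (i * (Δ + c) + c + 1) S := by
  intro x hx
  have h1 : ∃ a ∈ Dn d D Δ S i, d a x ≤ 1 := by
    rcases hx with ⟨h, _⟩ | ⟨_, a, h, h'⟩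
    · exact ⟨x, h, by rw [hd.self]; omega⟩
    · exact ⟨a, h, by rw [hd.symm]; exact ha x a h'⟩
  obtain ⟨a, ha1, ha2⟩ := h1
  obtain ⟨w, hw, hwa⟩ := Dn_subset_cp hd h Δ S i ha1
  have := hd.tri w a x
  exact ⟨w, hw, by omega⟩

end abs

section leak

open Finset Pool.Agent.Kin Pool.Agent.ANL

variable {ι κ : Type} [Fintype ι] {d : ι → ι → ℕ} {D : κ → Set ι} {a c : ℕ}

theorem DF_near_cp (hd : NMet d) (h : CP d D a c) {Δ : ℕ} {F : Finset ι} {i : ℕ} {x : ι}
    (hx : x ∈ DF d D Δ F i) : ∃ y ∈ F, d y x ≤ i * (Δ + c) + c := by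
  obtain ⟨y, hy, h1⟩ := Dn_subset_cp hd h Δ _ i (mem_DF.1 hx)
  exact ⟨y, mem_coe.1 hy, h1⟩

variable [DecidableEq ι]

theorem bdy_DF_near_cp (hd : NMet d) (h : CP d D a c) {H : Matrix ι ι ℂ}
    (hH : ∀ x y, H x y ≠ 0 → d x y ≤ 1) {Δ : ℕ} {F : Finset ι} {i : ℕ} {x : ι}
    (hx : x ∈ bdy H (DF d D Δ F i)) :
    ∃ y ∈ F, d y x ≤ i * (Δ + c) + c + 1 := by
  obtain ⟨y, hy, h1⟩ := bdy_subset_cp hd h hH Δ _ i (mem_bdy_DF hx)
  exact ⟨y, mem_coe.1 hy, h1⟩

/-- Cardinality of the boundaries. -/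
theorem bdy_DF_card_cp (hd : NMet d) (h : CP d D a c) {H : Matrix ι ι ℂ}
    (hH : ∀ x y, H x y ≠ 0 → d x y ≤ 1) {Δ : ℕ} {F : Finset ι} {i n V : ℕ}
    (hi : i ≤ n) (hV : ∀ x, (univ.filter fun y => d x y ≤ n * (Δ + c) + c + 1).card
      ≤ V) : (bdy H (DF d D Δ F i)).card ≤ F.card * V := by
  classical
  refine card_nb (n * (Δ + c) + c + 1) V F (fun x _ => hV x) _ ?_
  intro x hx
  obtain ⟨y, hy, h1⟩ := bdy_DF_near_cp hd h hH (mem_coe.1 hx)
  have h2 : i * (Δ + c) ≤ n * (Δ + c) := Nat.mul_le_mul_right _ hi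
  exact ⟨y, mem_coe.2 hy, by omega⟩

/-- The geometric hypotheses of the leak theorem. -/
theorem lgeo_cp (hd : NMet d) (h : CP d D a c) {H : Matrix ι ι ℂ}
    (hH : ∀ x y, H x y ≠ 0 → d x y ≤ 1) (hs : RealSym H) {h0 : ℝ} (hop : HopLe H h0)
    (h01 : 1 ≤ h0) {Δ : ℕ} (hΔ : 2 ≤ Δ) {F : Finset ι} {N V : ℕ} (hN : 1 ≤ N)
    (hV : ∀ x, (univ.filter fun y => d x y ≤ (N + 1) * (Δ + c) + c + 1).card
      ≤ V) :
    LGeo H F (DF d D Δ F 0) (fun i : Fin N => DF d D Δ F (i + 1)) h0 (F.card * V) where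
  sym := hs
  hop := hop
  h01 := h01
  N1 := hN
  F0 := subset_DF hd Δ F 0
  FD i := subset_DF hd Δ F _
  out i := by
    rw [Finset.disjoint_left]
    intro x hx
    exact bdy_DF_notMem hd hH hΔ (Nat.succ_pos _) hx
  dis i j hij := by
    rw [Finset.disjoint_left]
    intro x hx hx'
    -- the boundary with the larger index does not meet the smaller domain or its neighbours
    have key : ∀ a b : ℕ, a < b → x ∈ bdy H (DF d D Δ F a) → x ∈ bdy H (DF d D Δ F b) → False := by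
      intro a b hab h1 h2
      obtain ⟨n, rfl⟩ : ∃ n, b = n + 1 := ⟨b - 1, by omega⟩
      have h3 : x ∉ DF d D Δ F n := bdy_DF_notMem hd hH hΔ (Nat.lt_succ_self n) h2
      have h4 : x ∉ DF d D Δ F a := fun h => h3 (DF_mono hd Δ F (by omega) h)
      rcases mem_bdy_DF h1 with ⟨h5, _⟩ | ⟨_, y, hy, hxy⟩
      · exact h4 (mem_DF.2 h5)
      · have h6 := Dn_mono (D := D) hd Δ (F : Set ι) (show a ≤ n by omega) hy
        have h8 := hH x y hxy
        rw [hd.symm] at h8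
        rcases mem_bdy_DF h2 with ⟨_, z, hz, hxz⟩ | ⟨h9, _⟩
        · apply hz
          apply subset_sw
          exact ⟨y, h6, by have := hd.tri y x z; have := hH x z hxz; omega⟩
        · exact h9 (subset_sw _ ⟨y, h6, by omega⟩)
    rcases lt_or_gt_of_ne (fun e => hij (Fin.ext e) : (i : ℕ) ≠ j) with hlt | hlt
    · exact key _ _ (by omega) hx hx'
    · exact key _ _ (by omega) hx' hx
  card i := bdy_DF_card_cp hd h hH (by omega) hV

end leak

end Pool.Agent.ANM
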