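import Pool.Agent.ANM.FLocW
import Pool.Agent.ANM.Wgt
import Pool.Agent.ANM.GeoGen

/-! # ANM LocTor: locality on the torus, explicit exponential bounds.

* `HasW b F μ a c`: for every point `x0` there is a weight `φ : Tor d L → ℕ`, `φ x0 = 0`, steps at most one, flat across the edges
  with an endpoint in `F`, `td x0 y ≤ a φ y + c`, `μ φ` admissible for `b`.
* `hasW_cp`, `hasW_sparse`: from helper31's geometry (`a = 2` for `Sparse`, `a = 4` with random weak sites).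
* `dec_ent`: `η_y |G_xy|² ≤ 2 |G_xx| e^{2 μ c / a} e^{-2 μ td x y / a}`.
* `TwoMed`: two media which are self-consistent with the same data off `C`, both good (`C` = the cell that is read).
  `TwoMed.ent`: `|G_xy - G'_xy| ≤ K0 e^{-ν r}`, `TwoMed.row`: `∑_y η'_y |G_xy - G'_xy|² ≤ (K0 e^{-ν r})²`, where `r` is the
  distance of `x` to `C`, `ν = nuL μ a t = t μ / (2 a)`, `K0 = KL d μ a c K t`.  `TwoMed.ker`: the kernels `η_x |G_xy|² η_y`.
-/

open Matrix Finset

noncomputable section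

namespace Pool.Agent.ANM

open Pool.Agent.Kin Pool.Agent.APS

variable {d L : ℕ} [NeZero L]

/-- Agmon weights for all base points -/
def HasW (b : Tor d L → ℂ) (F : Set (Tor d L)) (μ : ℝ) (a c : ℕ) : Prop :=
  ∀ x0 : Tor d L, ∃ φ : Tor d L → ℕ, φ x0 = 0 ∧ AdmW (H0T d L) b (fun x => μ * φ x) ∧
    (∀ x y, td x y ≤ 1 → φ x ≤ φ y + 1) ∧
    (∀ x y, td x y ≤ 1 → (x ∈ F ∨ y ∈ F) → φ x = φ y) ∧
    ∀ y, td x0 y ≤ a * φ y + c

theorem hasW_cp {κ : Type*} {D : κ → Set (Tor d L)} {a c : ℕ}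
    (h : CP (td : Tor d L → Tor d L → ℕ) D a c) {b : Tor d L → ℂ} {μ ηm : ℝ}
    (hμ : 0 ≤ μ) (hμ1 : μ ≤ 1) (h0 : ∀ x, 0 ≤ -(b x).im)
    (hη : ∀ x, (∀ k, x ∉ D k) → ηm ≤ -(b x).im) (hη' : 8 * d * μ ≤ ηm) :
    HasW b {x | ∃ k, x ∈ D k} μ a c := by
  intro x0
  obtain ⟨φ, h1, h2, h3, h4, h5⟩ := phi_cp td_met h td_geo td_sep {x0} ⟨x0, rfl⟩
  have hflat : ∀ x y, td x y ≤ 1 → (x ∈ {x | ∃ k, x ∈ D k} ∨ y ∈ {x | ∃ k, x ∈ D k}) →
      φ x = φ y := by
    rintro x y hxy (⟨k, hk⟩ | ⟨k, hk⟩)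
    · exact h4 x y hxy ⟨k, Or.inl hk⟩
    · exact h4 x y hxy ⟨k, Or.inr hk⟩
  refine ⟨φ, h1 x0 rfl, ?_, h2, hflat, ?_⟩
  · refine admW_torus (F := {x | ∃ k, x ∈ D k}) hμ hμ1 h2
      (fun x hx y hxy => hflat x y hxy (Or.inl hx)) h0 ?_ hη'
    intro x hx
    exact hη x fun k hk => hx ⟨k, hk⟩
  · intro y
    obtain ⟨x, hx, h7⟩ := h5 y
    rw [Set.mem_singleton_iff] at hx
    rw [← hx]
    exact h7

theorem hasW_sparse {κ : Type*} {D : κ → Set (Tor d L)} {gen : κ → ℕ} {g J : ℕ} {ρ Ls : ℕ → ℕ}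
    (h : Sparse (td : Tor d L → Tor d L → ℕ) D gen g J ρ Ls) {b : Tor d L → ℂ} {μ ηm : ℝ}
    (hμ : 0 ≤ μ) (hμ1 : μ ≤ 1) (h0 : ∀ x, 0 ≤ -(b x).im)
    (hη : ∀ x, (∀ k, x ∉ D k) → ηm ≤ -(b x).im) (hη' : 8 * d * μ ≤ ηm) :
    HasW b {x | ∃ k, x ∈ D k} μ 2 (cst g J ρ) :=
  hasW_cp (h.cp td_met) hμ hμ1 h0 hη hη'

theorem HasW.mono {b b' : Tor d L → ℂ} {F F' : Set (Tor d L)} {μ : ℝ} {a c : ℕ}
    (h : HasW b F μ a c) (hF : F' ⊆ F) (hb : ∀ x, -(b x).im ≤ -(b' x).im) : HasW b' F' μ a c := by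
  intro x0
  obtain ⟨φ, h1, h2, h3, h4, h5⟩ := h x0
  exact ⟨φ, h1, h2.congr hb, h3, fun x y hxy hF' => h4 x y hxy
    (hF'.imp (fun h => hF h) fun h => hF h), h5⟩

/-- the distance is bounded by the weight -/
theorem wgt_ge {a c : ℕ} (ha : 1 ≤ a) {n m : ℕ} (h : n ≤ a * m + c) {μ : ℝ} (hμ : 0 ≤ μ) :
    μ * ((n : ℝ) - c) / a ≤ μ * m := by
  have ha' : (0 : ℝ) < a := by exact_mod_cast ha
  rw [div_le_iff₀ ha']
  have h1 : (n : ℝ) ≤ a * m + c := by exact_mod_cast h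
  nlinarith

/-- exponential decay of the entries -/
theorem dec_ent {b : Tor d L → ℂ} (hb : Diss (H0T d L) b) {F : Set (Tor d L)} {μ : ℝ} {a c : ℕ}
    (ha : 1 ≤ a) (hμ : 0 ≤ μ) (hw : HasW b F μ a c) (x y : Tor d L) :
    -(b y).im * ‖rsc (H0T d L) b x y‖ ^ 2 ≤
      2 * ‖rsc (H0T d L) b x x‖ *
        (Real.exp (2 * μ * c / a) * Real.exp (-(2 * μ * td x y / a))) := by
  obtain ⟨φ, h1, h2, -, -, h5⟩ := hw x
  refine (hb.agmon_ent h2 x y).trans ?_
  refine mul_le_mul_of_nonneg_left ?_ (by positivity)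
  rw [← Real.exp_add]
  apply Real.exp_le_exp.2
  have h6 := wgt_ge ha (h5 y) hμ
  have h7 : 2 * μ * c / a + -(2 * μ * td x y / a) = -(2 * (μ * ((td x y : ℝ) - c) / a)) := by ring
  rw [h1, h7, Nat.cast_zero, mul_zero]
  linarith

theorem pow_le_exp' (m : ℕ) {s x : ℝ} (hs : 0 < s) (hx : 0 ≤ x) :
    x ^ m ≤ m.factorial * (1 / s) ^ m * Real.exp (s * x) := by
  have h1 : (s * x) ^ m ≤ m.factorial * Real.exp (s * x) := by
    have h2 := Real.pow_div_factorial_le_exp (x := s * x) (by positivity) m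
    rw [div_le_iff₀ (by positivity)] at h2
    linarith
  calc x ^ m = (1 / s) ^ m * (s * x) ^ m := by
        rw [← mul_pow]; congr 1; field_simp
    _ ≤ (1 / s) ^ m * (m.factorial * Real.exp (s * x)) :=
        mul_le_mul_of_nonneg_left h1 (by positivity)
    _ = _ := by ring

/-- the rate of the locality estimates -/
def nuL (μ : ℝ) (a : ℕ) (t : ℝ) : ℝ := t * μ / (2 * a)

/-- the constant of the locality estimates -/
def KL (d : ℕ) (μ : ℝ) (a c : ℕ) (K t : ℝ) : ℝ :=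
  4 * K ^ 6 * ((6 * d).factorial * (4 * a / (t * μ)) ^ (6 * d)) * Real.exp (t * μ * c / a + 1)

/-- two media, self-consistent with the same data off `C`, both good -/
structure TwoMed (b b' : Tor d L → ℂ) (k : Tor d L → ℝ) (A C : Finset (Tor d L))
    (Wk : Finset (Tor d L)) (om : ℝ) (Y : Set (Tor d L))
    (F : Set (Tor d L)) (μ : ℝ) (a c : ℕ) (K C1 c1 t l ε : ℝ) : Prop where
  /-- the absorption of the second medium may disappear on `Wk ⊆ C` -/
  hW : WtOK (H0T d L) b' Wk om Y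
  hWC : Wk ⊆ C
  hAY : ∀ x ∈ A, x ∈ Y
  ha : 1 ≤ a
  hb : Diss (H0T d L) b
  hb' : Diss (H0T d L) b'
  hμ : 0 < μ
  hμ1 : μ ≤ 1
  hw : HasW b F μ a c
  hk0 : ∀ x, x ∉ A → k x = 0
  hκ : ∀ x ∈ A, 1 / K ≤ k x
  hκ1 : ∀ x ∈ A, k x ≤ 1
  hk : ∀ x ∈ A, k x * (rsc (H0T d L) b x x).im ≤ -(b x).im
  hk' : ∀ x ∈ A, x ∉ C → k x * (rsc (H0T d L) b' x x).im ≤ -(b' x).im
  /-- self-consistent with the same data off `C` -/
  hdif : ∀ x, x ∉ C → b' x - b x = (k x : ℂ) * (rsc (H0T d L) b x x - rsc (H0T d L) b' x x)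
  hC : ∀ x ∈ C, ‖b' x - b x‖ ^ 2 ≤ K ^ 2 * (-(b x).im * omW b' Wk om x)
  /-- (H3) for the first medium -/
  h3 : ∀ x ∈ A, ∑ y ∈ A, k y * ((rsc (H0T d L) b y y).im * (rsc (H0T d L) b x y).re ^ 2) ≤
    l ^ 2 * (rsc (H0T d L) b x x).im
  hC1 : ∀ x ∈ A, ‖rsc (H0T d L) b x x‖ ≤ C1
  hc1 : ∀ x ∈ A, c1 ≤ (rsc (H0T d L) b x x).im
  hC1' : ∀ x ∈ A, x ∉ C → ‖rsc (H0T d L) b' x x‖ ≤ C1
  hc1' : ∀ x ∈ A, x ∉ C → c1 ≤ (rsc (H0T d L) b' x x).im
  ht : 0 < t
  ht1 : t ≤ 1
  hl : 0 ≤ l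
  hε : 0 ≤ ε
  htε : 4 * t ^ 2 * C1 ≤ ε ^ 2 * c1
  hK : 1 ≤ K
  hKl : 1 / K ≤ 1 - l - ε
  hKc : 1 / K ≤ c1
  hKC : 2 * C1 ≤ K * c1
  hKC' : C1 ≤ K

namespace TwoMed

variable {b b' : Tor d L → ℂ} {k : Tor d L → ℝ} {A C : Finset (Tor d L)}
  {Wk : Finset (Tor d L)} {om : ℝ} {Y : Set (Tor d L)} {F : Set (Tor d L)}
  {μ : ℝ} {a c : ℕ} {K C1 c1 t l ε : ℝ}

/-- the local comparison around `x` -/
theorem toFLoc (h : TwoMed b b' k A C Wk om Y F μ a c K C1 c1 t l ε) (x : Tor d L) {r : ℕ}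
    (hr : ∀ z ∈ C, r ≤ td x z) :
    ∃ φ : Tor d L → ℕ, φ x = 0 ∧
      FLocW (H0T d L) b b' (fun z => μ * φ z) k
        (A.filter fun z => μ * φ z < μ * (((r - c : ℕ) : ℝ) / a)) Wk om Y
        (K * (2 * r + 1) ^ d) C1 c1 t l ε (μ * (((r - c : ℕ) : ℝ) / a)) := by
  obtain ⟨φ, h1, h2, h3, h4, h5⟩ := h.hw x
  have ha' : (0 : ℝ) < a := by exact_mod_cast h.ha
  have hK0 : 0 < K := by linarith [h.hK]
  have hV : (1 : ℝ) ≤ (2 * r + 1) ^ d := one_le_pow₀ (by linarith [Nat.cast_nonneg (α := ℝ) r])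
  set V : ℝ := (2 * r + 1) ^ d with hVd
  have hKV : K ≤ K * V := by nlinarith
  have hKV0 : 0 < K * V := by positivity
  have hiK : 1 / (K * V) ≤ 1 / K := one_div_le_one_div_of_le hK0 hKV
  have hrc : (r : ℝ) ≤ ((r - c : ℕ) : ℝ) + c := by
    have : r ≤ (r - c) + c := by omega
    exact_mod_cast this
  -- points of `C` are far
  have hfar : ∀ z ∈ C, μ * (((r - c : ℕ) : ℝ) / a) ≤ μ * φ z := by
    intro z hz
    refine mul_le_mul_of_nonneg_left ?_ h.hμ.le
    have e1 := h5 z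
    have e2 := hr z hz
    have e3 : r - c ≤ a * φ z := by omega
    have e4 : ((r - c : ℕ) : ℝ) ≤ a * φ z := by exact_mod_cast e3
    rw [div_le_iff₀ ha']
    linarith
  have hAC : ∀ z ∈ A.filter (fun z => μ * φ z < μ * (((r - c : ℕ) : ℝ) / a)), z ∉ C := by
    intro z hz hzC
    rw [Finset.mem_filter] at hz
    exact absurd (hfar z hzC) (not_le.2 hz.2)
  have hsub : A.filter (fun z => μ * φ z < μ * (((r - c : ℕ) : ℝ) / a)) ⊆ A :=
    Finset.filter_subset _ _
  refine ⟨φ, h1, ?_⟩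
  constructor
  case hb => exact h.hb
  case hb' => exact h.hb'
  case hW => exact h.hW
  case hAY => exact fun z hz => h.hAY z (hsub hz)
  case hAW => exact fun z hz hzW => hAC z hz (h.hWC hzW)
  case hw => exact h2
  case hwA =>
    intro z hz
    rw [Finset.mem_filter] at hz
    exact hz.2.le
  case hcard =>
    have e1 : (A.filter (fun z => μ * φ z < μ * (((r - c : ℕ) : ℝ) / a))).card ≤
        (2 * r + 1) ^ d := by
      refine le_trans (Finset.card_le_card ?_) (card_ball x r)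
      intro z hz
      rw [Finset.mem_filter] at hz ⊢
      refine ⟨Finset.mem_univ _, ?_⟩
      have e2 := lt_of_mul_lt_mul_left hz.2 h.hμ.le
      rw [lt_div_iff₀ ha'] at e2
      have e3 : ((a * φ z : ℕ) : ℝ) < ((r - c : ℕ) : ℝ) := by push_cast; linarith
      have e4 : a * φ z < r - c := by exact_mod_cast e3
      have e5 := h5 z
      omega
    have e2 : ((A.filter (fun z => μ * φ z < μ * (((r - c : ℕ) : ℝ) / a))).card : ℝ) ≤ V := by
      rw [hVd]
      exact_mod_cast e1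
    nlinarith [h.hK]
  case hκ => exact fun z hz => hiK.trans (h.hκ z (hsub hz))
  case hκ1 => exact fun z hz => h.hκ1 z (hsub hz)
  case hk => exact fun z hz => h.hk z (hsub hz)
  case hk' => exact fun z hz => h.hk' z (hsub hz) (hAC z hz)
  case hdif => exact fun z hz => h.hdif z (hAC z hz)
  case hout =>
    intro z hz
    by_cases hzC : z ∈ C
    · exact Or.inr (hfar z hzC)
    · by_cases hzA : z ∈ A
      · right
        by_contra hc
        exact hz (Finset.mem_filter.2 ⟨hzA, not_le.1 hc⟩)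
      · left
        have e1 := h.hdif z hzC
        rw [h.hk0 z hzA, Complex.ofReal_zero, zero_mul] at e1
        exact sub_eq_zero.1 e1
  case hB =>
    intro z hz
    have hn0 : 0 ≤ -(b z).im * omW b' Wk om z := mul_nonneg (h.hb.nn' z) (h.hW.nn h.hb' z)
    have hmono : K ^ 2 * (-(b z).im * omW b' Wk om z) ≤
        (K * V) ^ 2 * (-(b z).im * omW b' Wk om z) :=
      mul_le_mul_of_nonneg_right (pow_le_pow_left₀ hK0.le hKV 2) hn0
    refine le_trans ?_ hmono
    by_cases hzC : z ∈ C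
    · exact h.hC z hzC
    · have hn : 0 ≤ -(b z).im * -(b' z).im := mul_nonneg (h.hb.nn' z) (h.hb'.nn' z)
      rw [omW_out fun hzW => hzC (h.hWC hzW), h.hdif z hzC]
      by_cases hzA : z ∈ A
      · have e1 : ‖rsc (H0T d L) b z z - rsc (H0T d L) b' z z‖ ≤ 2 * C1 := by
          refine (norm_sub_le _ _).trans ?_
          linarith [h.hC1 z hzA, h.hC1' z hzA hzC]
        have hc0 : 0 < c1 := lt_of_lt_of_le (by positivity) h.hKc
        have hkz : 0 < k z := lt_of_lt_of_le (by positivity) (h.hκ z hzA)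
        have e2 : k z * c1 ≤ -(b z).im :=
          (mul_le_mul_of_nonneg_left (h.hc1 z hzA) hkz.le).trans (h.hk z hzA)
        have e3 : k z * c1 ≤ -(b' z).im :=
          (mul_le_mul_of_nonneg_left (h.hc1' z hzA hzC) hkz.le).trans (h.hk' z hzA hzC)
        rw [norm_mul, mul_pow, Complex.norm_real, Real.norm_eq_abs, sq_abs]
        calc k z ^ 2 * ‖rsc (H0T d L) b z z - rsc (H0T d L) b' z z‖ ^ 2
            ≤ k z ^ 2 * (K * c1) ^ 2 := by
              refine mul_le_mul_of_nonneg_left ?_ (sq_nonneg _)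
              exact pow_le_pow_left₀ (norm_nonneg _) (e1.trans h.hKC) 2
          _ = K ^ 2 * ((k z * c1) * (k z * c1)) := by ring
          _ ≤ K ^ 2 * (-(b z).im * -(b' z).im) := by
              refine mul_le_mul_of_nonneg_left ?_ (sq_nonneg _)
              exact mul_le_mul e2 e3 (by positivity) (h.hb.nn' z)
      · rw [h.hk0 z hzA, Complex.ofReal_zero, zero_mul, norm_zero]
        have e0 : (0 : ℝ) ^ 2 = 0 := by norm_num
        rw [e0]
        exact mul_nonneg (sq_nonneg _) hn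
  case h3 =>
    intro z hz
    refine le_trans (Finset.sum_le_sum_of_subset_of_nonneg hsub fun y hy _ => ?_)
      (h.h3 z (hsub hz))
    have e1 := h.hκ y hy
    have e2 : 0 ≤ k y := le_trans (by positivity) e1
    exact mul_nonneg e2 (mul_nonneg (h.hb.im_nn y) (sq_nonneg _))
  case hC1 => exact fun z hz => h.hC1 z (hsub hz)
  case hc1 => exact fun z hz => h.hc1 z (hsub hz)
  case hC1' =>
    intro z hz
    exact ((le_abs_self _).trans (Complex.abs_im_le_norm _)).trans (h.hC1' z (hsub hz) (hAC z hz))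
  case hc1' => exact fun z hz => h.hc1' z (hsub hz) (hAC z hz)
  case ht => exact h.ht.le
  case ht1 => exact h.ht1
  case hl => exact h.hl
  case hε => exact h.hε
  case htε => exact h.htε
  case hK => exact h.hK.trans hKV
  case hKl => exact hiK.trans h.hKl
  case hKC => exact h.hKC'.trans hKV
  case hKc => exact hiK.trans h.hKc

/-- the polynomial factor is absorbed -/
theorem absorb (h : TwoMed b b' k A C Wk om Y F μ a c K C1 c1 t l ε) (r : ℕ) :
    4 * (K * (2 * r + 1) ^ d) ^ 6 * Real.exp (t * (0 - μ * (((r - c : ℕ) : ℝ) / a))) ≤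
      KL d μ a c K t * Real.exp (-(nuL μ a t * r)) := by
  have hK0 : 0 < K := by linarith [h.hK]
  have ht := h.ht
  have hμ := h.hμ
  have ha' : (0 : ℝ) < a := by exact_mod_cast h.ha
  have ha1 : (1 : ℝ) ≤ a := by exact_mod_cast h.ha
  have htμ : 0 < t * μ := by positivity
  have hs : 0 < t * μ / (4 * a) := by positivity
  have h1 := pow_le_exp' (6 * d) hs (show (0 : ℝ) ≤ 2 * r + 1 by positivity)
  have hrc : (r : ℝ) ≤ ((r - c : ℕ) : ℝ) + c := by
    have : r ≤ (r - c) + c := by omega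
    exact_mod_cast this
  have e1 : (K * (2 * (r : ℝ) + 1) ^ d) ^ 6 = K ^ 6 * (2 * (r : ℝ) + 1) ^ (6 * d) := by
    rw [mul_pow, ← pow_mul, mul_comm d 6]
  have e2 : (1 / (t * μ / (4 * a)) : ℝ) = 4 * a / (t * μ) := by field_simp
  rw [e2] at h1
  rw [e1]
  calc 4 * (K ^ 6 * (2 * (r : ℝ) + 1) ^ (6 * d)) *
        Real.exp (t * (0 - μ * (((r - c : ℕ) : ℝ) / a)))
      ≤ 4 * (K ^ 6 * ((6 * d).factorial * (4 * a / (t * μ)) ^ (6 * d) *
          Real.exp (t * μ / (4 * a) * (2 * r + 1)))) *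
        Real.exp (t * (0 - μ * (((r - c : ℕ) : ℝ) / a))) := by
        refine mul_le_mul_of_nonneg_right ?_ (Real.exp_pos _).le
        refine mul_le_mul_of_nonneg_left ?_ (by norm_num)
        exact mul_le_mul_of_nonneg_left h1 (by positivity)
    _ = 4 * K ^ 6 * ((6 * d).factorial * (4 * a / (t * μ)) ^ (6 * d)) *
        (Real.exp (t * μ / (4 * a) * (2 * r + 1)) *
          Real.exp (t * (0 - μ * (((r - c : ℕ) : ℝ) / a)))) := by ring
    _ ≤ 4 * K ^ 6 * ((6 * d).factorial * (4 * a / (t * μ)) ^ (6 * d)) *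
        (Real.exp (t * μ * c / a + 1) * Real.exp (-(nuL μ a t * r))) := by
        refine mul_le_mul_of_nonneg_left ?_ (by positivity)
        rw [← Real.exp_add, ← Real.exp_add]
        apply Real.exp_le_exp.2
        have e3 : t * μ ≤ 1 := by nlinarith [h.hμ1, h.ht1]
        have e4 : t * μ / (4 * a) ≤ 1 := by
          rw [div_le_one (by positivity)]
          linarith
        have e5 : 0 ≤ t * μ / a := by positivity
        have e6 := mul_le_mul_of_nonneg_left hrc e5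
        have e7 : t * μ / (4 * a) * (2 * r + 1) = t * μ / a * r / 2 + t * μ / (4 * a) := by
          field_simp
          ring
        have e8 : t * (0 - μ * (((r - c : ℕ) : ℝ) / a)) = -(t * μ / a * ((r - c : ℕ) : ℝ)) := by ring
        have e9 : nuL μ a t * r = t * μ / a * r / 2 := by unfold nuL; ring
        have e10 : t * μ * c / a = t * μ / a * c := by ring
        rw [e7, e8, e9, e10]
        linarith
    _ = _ := by unfold KL; ring

/-- entries: `r` is at most the distance of `x` to `C` -/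
theorem ent (h : TwoMed b b' k A C Wk om Y F μ a c K C1 c1 t l ε) {x y : Tor d L} {r : ℕ}
    (hr : ∀ z ∈ C, r ≤ td x z) (hx : ‖rsc (H0T d L) b x x‖ ≤ K) (hyY : y ∈ Y)
    (hy : (rsc (H0T d L) b' y y).im ≤ K) :
    ‖rsc (H0T d L) b x y - rsc (H0T d L) b' x y‖ ≤
      KL d μ a c K t * Real.exp (-(nuL μ a t * r)) := by
  obtain ⟨φ, h1, h2⟩ := h.toFLoc x hr
  have hK0 : 0 < K := by linarith [h.hK]
  have hV : (1 : ℝ) ≤ (2 * r + 1) ^ d := one_le_pow₀ (by linarith [Nat.cast_nonneg (α := ℝ) r])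
  have hKV : K ≤ K * (2 * r + 1) ^ d := by nlinarith
  have h3 := h2.ent (x := x) (y := y) (hx.trans hKV) hyY (hy.trans hKV)
  simp only [h1, Nat.cast_zero, mul_zero] at h3
  exact h3.trans (h.absorb r)

/-- rows: `r` is at most the distance of `x` to `C` -/
theorem row (h : TwoMed b b' k A C Wk om Y F μ a c K C1 c1 t l ε) {x : Tor d L} {r : ℕ}
    (hr : ∀ z ∈ C, r ≤ td x z) (hx : ‖rsc (H0T d L) b x x‖ ≤ K) :
    ∑ y, -(b' y).im * ‖rsc (H0T d L) b x y - rsc (H0T d L) b' x y‖ ^ 2 ≤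
      (KL d μ a c K t * Real.exp (-(nuL μ a t * r))) ^ 2 := by
  obtain ⟨φ, h1, h2⟩ := h.toFLoc x hr
  have hK0 : 0 < K := by linarith [h.hK]
  have hV : (1 : ℝ) ≤ (2 * r + 1) ^ d := one_le_pow₀ (by linarith [Nat.cast_nonneg (α := ℝ) r])
  have hKV : K ≤ K * (2 * r + 1) ^ d := by nlinarith
  have h3 := h2.row (x := x) (hx.trans hKV)
  simp only [h1, Nat.cast_zero, mul_zero] at h3
  set V := K * (2 * (r : ℝ) + 1) ^ d with hVd
  have hV1 : 1 ≤ V := h.hK.trans hKV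
  have h4 := h.absorb r
  rw [← hVd] at h4
  have h5 : 0 ≤ 4 * V ^ 6 * Real.exp (t * (0 - μ * (((r - c : ℕ) : ℝ) / a))) := by positivity
  refine h3.trans (le_trans ?_ (pow_le_pow_left₀ h5 h4 2))
  have e1 : Real.exp (2 * t * (0 - μ * (((r - c : ℕ) : ℝ) / a))) =
      Real.exp (t * (0 - μ * (((r - c : ℕ) : ℝ) / a))) ^ 2 := by
    rw [sq, ← Real.exp_add]; congr 1; ring
  set Ex := Real.exp (t * (0 - μ * (((r - c : ℕ) : ℝ) / a))) with hEx
  have e2 : V ^ 11 ≤ V ^ 12 := pow_le_pow_right₀ hV1 (by norm_num)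
  have e3 : 0 ≤ V ^ 11 := by positivity
  have e4 : 16 * V ^ 11 ≤ 16 * V ^ 12 := by linarith
  calc 16 * V ^ 11 * Real.exp (2 * t * (0 - μ * (((r - c : ℕ) : ℝ) / a)))
      = 16 * V ^ 11 * Ex ^ 2 := by rw [e1]
    _ ≤ 16 * V ^ 12 * Ex ^ 2 := mul_le_mul_of_nonneg_right e4 (sq_nonneg Ex)
    _ = (4 * V ^ 6 * Ex) ^ 2 := by ring

/-- entries, symmetric in `x`, `y` -/
theorem ent' (h : TwoMed b b' k A C Wk om Y F μ a c K C1 c1 t l ε) {x y : Tor d L} {r : ℕ}
    (hr : ∀ z ∈ C, r ≤ td y z) (hxY : x ∈ Y) (hx : (rsc (H0T d L) b' x x).im ≤ K)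
    (hy : ‖rsc (H0T d L) b y y‖ ≤ K) :
    ‖rsc (H0T d L) b x y - rsc (H0T d L) b' x y‖ ≤
      KL d μ a c K t * Real.exp (-(nuL μ a t * r)) := by
  rw [h.hb.symm x y, h.hb'.symm x y]
  exact h.ent hr hy hxY hx

/-- the constant is at least one -/
theorem one_le_KL (h : TwoMed b b' k A C Wk om Y F μ a c K C1 c1 t l ε) : 1 ≤ KL d μ a c K t := by
  have ht := h.ht
  have hμ := h.hμ
  have htμ : 0 < t * μ := by positivity
  have htμ1 : t * μ ≤ 1 := by nlinarith [h.hμ1, h.ht1]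
  have e1 : (1 : ℝ) ≤ K ^ 6 := one_le_pow₀ h.hK
  have e2 : (1 : ℝ) ≤ (6 * d).factorial := by exact_mod_cast Nat.factorial_pos (6 * d)
  have ha1 : (1 : ℝ) ≤ a := by exact_mod_cast h.ha
  have e3 : (1 : ℝ) ≤ (4 * a / (t * μ)) ^ (6 * d) := by
    refine one_le_pow₀ ?_
    rw [le_div_iff₀ htμ]
    linarith
  have e4 : (1 : ℝ) ≤ Real.exp (t * μ * c / a + 1) := Real.one_le_exp (by positivity)
  unfold KL
  have e5 : (1 : ℝ) ≤ (6 * d).factorial * (4 * a / (t * μ)) ^ (6 * d) := one_le_mul_of_one_le_of_one_le e2 e3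
  have e6 : (1 : ℝ) ≤ 4 * K ^ 6 := by linarith
  exact one_le_mul_of_one_le_of_one_le (one_le_mul_of_one_le_of_one_le e6 e5) e4

/-- difference of the absorptions -/
theorem eta_sub (h : TwoMed b b' k A C Wk om Y F μ a c K C1 c1 t l ε) {x : Tor d L} {r : ℕ}
    (hr : ∀ z ∈ C, r ≤ td x z) (hx : ‖rsc (H0T d L) b x x‖ ≤ K)
    (hx' : (rsc (H0T d L) b' x x).im ≤ K) (he : -(b x).im ≤ 1) (he' : -(b' x).im ≤ 1) :
    |(-(b' x).im) - (-(b x).im)| ≤ KL d μ a c K t * Real.exp (-(nuL μ a t * r)) := by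
  by_cases hC : x ∈ C
  · have h0 : r = 0 := by
      have h1 := hr x hC
      rw [td_met.self] at h1
      omega
    have h2 := h.one_le_KL
    have h3 := h.hb.nn' x
    have h4 := h.hb'.nn' x
    rw [h0, Nat.cast_zero, mul_zero, neg_zero, Real.exp_zero, mul_one]
    exact (abs_sub_le_iff.2 ⟨by linarith, by linarith⟩)
  · have h1 : |(-(b' x).im) - (-(b x).im)| ≤ ‖b' x - b x‖ := by
      have h2 := Complex.abs_im_le_norm (b' x - b x)
      rw [Complex.sub_im] at h2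
      rw [show (-(b' x).im) - (-(b x).im) = -((b' x).im - (b x).im) by ring, abs_neg]
      exact h2
    refine h1.trans ?_
    rw [h.hdif x hC]
    by_cases hA : x ∈ A
    · rw [norm_mul, Complex.norm_real, Real.norm_eq_abs]
      have h2 := h.ent hr hx (h.hAY x hA) hx'
      have h3 : |k x| ≤ 1 := by
        have h4 := h.hκ x hA
        have h5 : (0 : ℝ) < 1 / K := by have := h.hK; positivity
        rw [abs_of_pos (h5.trans_le h4)]
        exact h.hκ1 x hA
      calc |k x| * ‖rsc (H0T d L) b x x - rsc (H0T d L) b' x x‖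
          ≤ 1 * ‖rsc (H0T d L) b x x - rsc (H0T d L) b' x x‖ :=
            mul_le_mul_of_nonneg_right h3 (norm_nonneg _)
        _ ≤ _ := by rw [one_mul]; exact h2
    · rw [h.hk0 x hA, Complex.ofReal_zero, zero_mul, norm_zero]
      have := h.one_le_KL
      positivity

/-- the kernels `η_x |G_xy|² η_y`; `r` is a `1`-Lipschitz lower bound of the distance to `C` -/
theorem ker (h : TwoMed b b' k A C Wk om Y F μ a c K C1 c1 t l ε) (hw' : HasW b' F μ a c)
    (he : ∀ x, -(b x).im ≤ 1) (he' : ∀ x, -(b' x).im ≤ 1) {r : Tor d L → ℕ}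
    (hr : ∀ x, ∀ z ∈ C, r x ≤ td x z) (hL : ∀ x y, r x ≤ r y + td x y) {x y : Tor d L}
    (hxY : x ∈ Y) (hyY : y ∈ Y) (hx : ‖rsc (H0T d L) b x x‖ ≤ K) (hy : ‖rsc (H0T d L) b y y‖ ≤ K)
    (hx' : ‖rsc (H0T d L) b' x x‖ ≤ K) (hy' : ‖rsc (H0T d L) b' y y‖ ≤ K) :
    |-(b' x).im * ‖rsc (H0T d L) b' x y‖ ^ 2 * -(b' y).im -
        -(b x).im * ‖rsc (H0T d L) b x y‖ ^ 2 * -(b y).im| ≤
      6 * K * KL d μ a c K t * Real.exp (2 * μ * c / a) *
        Real.exp (-(nuL μ a t * (max (r x) (r y) : ℕ))) := by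
  have hK0 : 0 < K := by linarith [h.hK]
  have hK1 := h.one_le_KL
  have hμ := h.hμ
  have ht := h.ht
  have ha' : (0 : ℝ) < a := by exact_mod_cast h.ha
  have hν : nuL μ a t ≤ 2 * μ / a := by
    unfold nuL
    rw [div_le_div_iff₀ (by positivity) ha']
    nlinarith [h.ht1, mul_pos hμ ha']
  have hν0 : 0 ≤ nuL μ a t := by unfold nuL; positivity
  have him : ∀ z : ℂ, z.im ≤ ‖z‖ := fun z => (le_abs_self _).trans (Complex.abs_im_le_norm z)
  set G := rsc (H0T d L) b with hG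
  set G' := rsc (H0T d L) b' with hG'
  set Q := KL d μ a c K t with hQ
  set ex := -(b x).im with hex
  set ey := -(b y).im with hey
  set ex' := -(b' x).im with hex'
  set ey' := -(b' y).im with hey'
  have ex0 : 0 ≤ ex := h.hb.nn' x
  have ey0 : 0 ≤ ey := h.hb.nn' y
  have ex0' : 0 ≤ ex' := h.hb'.nn' x
  have ey0' : 0 ≤ ey' := h.hb'.nn' y
  have hE1 : 1 ≤ Real.exp (2 * μ * c / a) := Real.one_le_exp (by positivity)
  set m : ℕ := max (r x) (r y) with hm
  set W := Real.exp (-(nuL μ a t * (m : ℕ))) with hW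
  have hW0 : 0 < W := Real.exp_pos _
  -- entries
  have hD : ‖G x y - G' x y‖ ≤ Q * W := by
    rcases le_total (r x) (r y) with hxy | hxy
    · have e1 : m = r y := max_eq_right hxy
      rw [hW, e1]
      exact h.ent' (hr y) hxY ((him _).trans hx') hy
    · have e1 : m = r x := max_eq_left hxy
      rw [hW, e1]
      exact h.ent (hr x) hx hyY ((him _).trans hy')
  -- a priori bounds of the entries
  have hsx : ex * ‖G x y‖ ^ 2 ≤ K := by
    have := h.hb.ent y x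
    rw [h.hb.symm y x] at this
    exact this.trans ((him _).trans hy)
  have hsy' : ey' * ‖G' x y‖ ^ 2 ≤ K := (h.hb'.ent x y).trans ((him _).trans hx')
  -- absorption
  have hdx : |ex' - ex| ≤ Q * Real.exp (-(nuL μ a t * r x)) :=
    h.eta_sub (hr x) hx ((him _).trans hx') (he x) (he' x)
  have hdy : |ey' - ey| ≤ Q * Real.exp (-(nuL μ a t * r y)) :=
    h.eta_sub (hr y) hy ((him _).trans hy') (he y) (he' y)
  have hdec' : ey' * ‖G' x y‖ ^ 2 ≤ 2 * K * (Real.exp (2 * μ * c / a) * Real.exp (-(2 * μ * td x y / a))) := by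
    refine (dec_ent h.hb' h.ha hμ.le hw' x y).trans ?_
    refine mul_le_mul_of_nonneg_right ?_ (by positivity)
    linarith
  have hdec : ex * ‖G x y‖ ^ 2 ≤ 2 * K * (Real.exp (2 * μ * c / a) * Real.exp (-(2 * μ * td x y / a))) := by
    have e1 := dec_ent h.hb h.ha hμ.le h.hw y x
    rw [h.hb.symm y x, td_met.symm y x] at e1
    refine e1.trans ?_
    refine mul_le_mul_of_nonneg_right ?_ (by positivity)
    linarith
  -- exponentials
  have hexp : ∀ p q : Tor d L, m = max (r p) (r q) → td p q = td x y →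
      Real.exp (-(nuL μ a t * r p)) * Real.exp (-(2 * μ * td x y / a)) ≤ W ∨
        Real.exp (-(nuL μ a t * r p)) ≤ W := by
    intro p q hpq htd
    rcases le_total (r q) (r p) with h1 | h1
    · right
      rw [max_eq_left h1] at hpq
      rw [hW, hpq]
    · left
      rw [max_eq_right h1] at hpq
      rw [hW, hpq, ← Real.exp_add]
      apply Real.exp_le_exp.2
      have h2 : (r q : ℝ) ≤ r p + td x y := by
        have h3 := hL q p
        rw [td_met.symm q p, htd] at h3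
        exact_mod_cast h3
      have h4 : (0 : ℝ) ≤ td x y := Nat.cast_nonneg _
      have h5 := mul_le_mul_of_nonneg_left h2 hν0
      have h6 := mul_le_mul_of_nonneg_right hν h4
      have h7 : 2 * μ / a * td x y = 2 * μ * td x y / a := by ring
      linarith
  have hT1 : |(ex' - ex) * (ey' * ‖G' x y‖ ^ 2)| ≤ 2 * K * Q * Real.exp (2 * μ * c / a) * W := by
    rw [abs_mul, abs_of_nonneg (by positivity : 0 ≤ ey' * ‖G' x y‖ ^ 2)]
    rcases hexp x y hm rfl with h1 | h1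
    · calc |ex' - ex| * (ey' * ‖G' x y‖ ^ 2)
          ≤ (Q * Real.exp (-(nuL μ a t * r x))) *
            (2 * K * (Real.exp (2 * μ * c / a) * Real.exp (-(2 * μ * td x y / a)))) :=
            mul_le_mul hdx hdec' (by positivity) (by positivity)
        _ = 2 * K * Q * Real.exp (2 * μ * c / a) *
            (Real.exp (-(nuL μ a t * r x)) * Real.exp (-(2 * μ * td x y / a))) := by ring
        _ ≤ _ := mul_le_mul_of_nonneg_left h1 (by positivity)
    · calc |ex' - ex| * (ey' * ‖G' x y‖ ^ 2)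
          ≤ (Q * Real.exp (-(nuL μ a t * r x))) * K :=
            mul_le_mul hdx hsy' (by positivity) (by positivity)
        _ ≤ (Q * W) * K :=
            mul_le_mul_of_nonneg_right (mul_le_mul_of_nonneg_left h1 (by positivity)) hK0.le
        _ = K * Q * W * 1 := by ring
        _ ≤ K * Q * W * (2 * Real.exp (2 * μ * c / a)) :=
            mul_le_mul_of_nonneg_left (by linarith) (by positivity)
        _ = _ := by ring
  have hT3 : |(ey' - ey) * (ex * ‖G x y‖ ^ 2)| ≤ 2 * K * Q * Real.exp (2 * μ * c / a) * W := by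
    rw [abs_mul, abs_of_nonneg (by positivity : 0 ≤ ex * ‖G x y‖ ^ 2)]
    rcases hexp y x (by rw [hm, max_comm]) (td_met.symm y x) with h1 | h1
    · calc |ey' - ey| * (ex * ‖G x y‖ ^ 2)
          ≤ (Q * Real.exp (-(nuL μ a t * r y))) *
            (2 * K * (Real.exp (2 * μ * c / a) * Real.exp (-(2 * μ * td x y / a)))) :=
            mul_le_mul hdy hdec (by positivity) (by positivity)
        _ = 2 * K * Q * Real.exp (2 * μ * c / a) *
            (Real.exp (-(nuL μ a t * r y)) * Real.exp (-(2 * μ * td x y / a))) := by ring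
        _ ≤ _ := mul_le_mul_of_nonneg_left h1 (by positivity)
    · calc |ey' - ey| * (ex * ‖G x y‖ ^ 2)
          ≤ (Q * Real.exp (-(nuL μ a t * r y))) * K :=
            mul_le_mul hdy hsx (by positivity) (by positivity)
        _ ≤ (Q * W) * K :=
            mul_le_mul_of_nonneg_right (mul_le_mul_of_nonneg_left h1 (by positivity)) hK0.le
        _ = K * Q * W * 1 := by ring
        _ ≤ K * Q * W * (2 * Real.exp (2 * μ * c / a)) :=
            mul_le_mul_of_nonneg_left (by linarith) (by positivity)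
        _ = _ := by ring
  have hT2 : |ex * (‖G' x y‖ ^ 2 - ‖G x y‖ ^ 2) * ey'| ≤ 2 * K * Q * W := by
    have e1 : |‖G' x y‖ - ‖G x y‖| ≤ Q * W := by
      rw [abs_sub_comm]
      exact (abs_norm_sub_norm_le _ _).trans hD
    have e2 : ex * ‖G x y‖ ≤ K := by
      have h1 : (ex * ‖G x y‖) ^ 2 ≤ K ^ 2 := by
        calc (ex * ‖G x y‖) ^ 2 = ex * (ex * ‖G x y‖ ^ 2) := by ring
          _ ≤ 1 * K := mul_le_mul (he x) hsx (by positivity) (by norm_num)
          _ ≤ K ^ 2 := by nlinarith [h.hK]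
      exact (pow_le_pow_iff_left₀ (by positivity) hK0.le (by norm_num)).1 h1
    have e3 : ey' * ‖G' x y‖ ≤ K := by
      have h1 : (ey' * ‖G' x y‖) ^ 2 ≤ K ^ 2 := by
        calc (ey' * ‖G' x y‖) ^ 2 = ey' * (ey' * ‖G' x y‖ ^ 2) := by ring
          _ ≤ 1 * K := mul_le_mul (he' y) hsy' (by positivity) (by norm_num)
          _ ≤ K ^ 2 := by nlinarith [h.hK]
      exact (pow_le_pow_iff_left₀ (by positivity) hK0.le (by norm_num)).1 h1
    have e4 : ex * ey' * (‖G' x y‖ + ‖G x y‖) ≤ 2 * K := by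
      have h1 : ex * ey' * (‖G' x y‖ + ‖G x y‖) =
          ex * (ey' * ‖G' x y‖) + ey' * (ex * ‖G x y‖) := by ring
      rw [h1]
      have h2 : ex * (ey' * ‖G' x y‖) ≤ 1 * K := mul_le_mul (he x) e3 (by positivity) (by norm_num)
      have h3 : ey' * (ex * ‖G x y‖) ≤ 1 * K := mul_le_mul (he' y) e2 (by positivity) (by norm_num)
      linarith
    have e5 : |ex * (‖G' x y‖ ^ 2 - ‖G x y‖ ^ 2) * ey'| =
        |‖G' x y‖ - ‖G x y‖| * (ex * ey' * (‖G' x y‖ + ‖G x y‖)) := by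
      rw [show ex * (‖G' x y‖ ^ 2 - ‖G x y‖ ^ 2) * ey' =
        (‖G' x y‖ - ‖G x y‖) * (ex * ey' * (‖G' x y‖ + ‖G x y‖)) by ring, abs_mul,
        abs_of_nonneg (by positivity : 0 ≤ ex * ey' * (‖G' x y‖ + ‖G x y‖))]
    rw [e5]
    calc |‖G' x y‖ - ‖G x y‖| * (ex * ey' * (‖G' x y‖ + ‖G x y‖)) ≤ (Q * W) * (2 * K) :=
          mul_le_mul e1 e4 (by positivity) (by positivity)
      _ = _ := by ring
  have hsplit : ex' * ‖G' x y‖ ^ 2 * ey' - ex * ‖G x y‖ ^ 2 * ey =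
      (ex' - ex) * (ey' * ‖G' x y‖ ^ 2) + ex * (‖G' x y‖ ^ 2 - ‖G x y‖ ^ 2) * ey' +
        (ey' - ey) * (ex * ‖G x y‖ ^ 2) := by ring
  rw [hsplit]
  refine (abs_add_three _ _ _).trans ?_
  have hlast : 2 * K * Q * W ≤ 2 * K * Q * Real.exp (2 * μ * c / a) * W := by
    calc 2 * K * Q * W = 2 * K * Q * W * 1 := by ring
      _ ≤ 2 * K * Q * W * Real.exp (2 * μ * c / a) := mul_le_mul_of_nonneg_left hE1 (by positivity)
      _ = _ := by ring
  calc _ ≤ 2 * K * Q * Real.exp (2 * μ * c / a) * W + 2 * K * Q * W +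
      2 * K * Q * Real.exp (2 * μ * c / a) * W := add_le_add (add_le_add hT1 hT2) hT3
    _ ≤ _ := by linarith

end TwoMed

end Pool.Agent.ANM
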