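import Pool.Agent.ANM.LocTor

/-! # ANM LocRow: weighted Ward sums on the torus.

* `dec_row`: `∑_y η_y e^{2 μ td x y / a} |G_xy|² ≤ 2 |G_xx| e^{2 μ c / a}`.
* `far_sum`: `∑_y η_y |G_xy|² e^{-ν r y} ≤ 2 |G_xx| e^{2 μ c / a} e^{-ν r x}` for `r` 1-Lipschitz, `ν ≤ 2 μ / a`.
* `tail_sum`: `∑_{td x y ≥ R} η_y |G_xy|² ≤ 2 |G_xx| e^{2 μ c / a} e^{-2 μ R / a}`.
-/

open Matrix Finset

noncomputable section

namespace Pool.Agent.ANM

open Pool.Agent.Kin Pool.Agent.APS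

variable {d L : ℕ} [NeZero L] {b : Tor d L → ℂ} {F : Set (Tor d L)} {μ : ℝ} {a c : ℕ}

/-- exponentially weighted Ward sum -/
theorem dec_row (hb : Diss (H0T d L) b) (ha : 1 ≤ a) (hμ : 0 ≤ μ) (hw : HasW b F μ a c)
    (x : Tor d L) :
    ∑ y, -(b y).im * (Real.exp (2 * μ * td x y / a) * ‖rsc (H0T d L) b x y‖ ^ 2) ≤
      2 * ‖rsc (H0T d L) b x x‖ * Real.exp (2 * μ * c / a) := by
  obtain ⟨φ, h1, h2, -, -, h5⟩ := hw x
  have h3 := hb.agmon_row h2 x
  simp only [h1, Nat.cast_zero, mul_zero, Real.exp_zero, one_mul] at h3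
  have h4 : ∀ y, -(b y).im * (Real.exp (2 * μ * td x y / a) * ‖rsc (H0T d L) b x y‖ ^ 2) ≤
      Real.exp (2 * μ * c / a) *
        (-(b y).im * (Real.exp (2 * (μ * φ y)) * ‖rsc (H0T d L) b x y‖ ^ 2)) := by
    intro y
    have e1 := wgt_ge ha (h5 y) hμ
    have e2 : Real.exp (2 * μ * td x y / a) ≤
        Real.exp (2 * μ * c / a) * Real.exp (2 * (μ * φ y)) := by
      rw [← Real.exp_add]
      apply Real.exp_le_exp.2
      have e3 : 2 * μ * td x y / a = 2 * μ * c / a + 2 * (μ * ((td x y : ℝ) - c) / a) := by ring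
      rw [e3]
      linarith
    calc -(b y).im * (Real.exp (2 * μ * td x y / a) * ‖rsc (H0T d L) b x y‖ ^ 2)
        ≤ -(b y).im * ((Real.exp (2 * μ * c / a) * Real.exp (2 * (μ * φ y))) *
          ‖rsc (H0T d L) b x y‖ ^ 2) :=
          mul_le_mul_of_nonneg_left (mul_le_mul_of_nonneg_right e2 (sq_nonneg _)) (hb.nn' y)
      _ = _ := by ring
  refine (Finset.sum_le_sum fun y _ => h4 y).trans ?_
  rw [← Finset.mul_sum]
  calc Real.exp (2 * μ * c / a) *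
        ∑ y, -(b y).im * (Real.exp (2 * (μ * φ y)) * ‖rsc (H0T d L) b x y‖ ^ 2)
      ≤ Real.exp (2 * μ * c / a) * (2 * ‖rsc (H0T d L) b x x‖) :=
        mul_le_mul_of_nonneg_left h3 (Real.exp_pos _).le
    _ = _ := by ring

/-- the mass of a row near a far set -/
theorem far_sum (hb : Diss (H0T d L) b) (ha : 1 ≤ a) (hμ : 0 ≤ μ) (hw : HasW b F μ a c)
    {ν : ℝ} (hν : 0 ≤ ν) (hνμ : ν ≤ 2 * μ / a) {r : Tor d L → ℕ}
    (hL : ∀ x y, r x ≤ r y + td x y) (x : Tor d L) :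
    ∑ y, -(b y).im * (Real.exp (-(ν * r y)) * ‖rsc (H0T d L) b x y‖ ^ 2) ≤
      2 * ‖rsc (H0T d L) b x x‖ * Real.exp (2 * μ * c / a) * Real.exp (-(ν * r x)) := by
  have h1 := dec_row hb ha hμ hw x
  have h2 : ∀ y, -(b y).im * (Real.exp (-(ν * r y)) * ‖rsc (H0T d L) b x y‖ ^ 2) ≤
      Real.exp (-(ν * r x)) *
        (-(b y).im * (Real.exp (2 * μ * td x y / a) * ‖rsc (H0T d L) b x y‖ ^ 2)) := by
    intro y
    have e1 : Real.exp (-(ν * r y)) ≤ Real.exp (-(ν * r x)) * Real.exp (2 * μ * td x y / a) := by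
      rw [← Real.exp_add]
      apply Real.exp_le_exp.2
      have e2 : (r x : ℝ) ≤ r y + td x y := by exact_mod_cast hL x y
      have e3 : (0 : ℝ) ≤ td x y := Nat.cast_nonneg _
      have e4 := mul_le_mul_of_nonneg_left e2 hν
      have e5 := mul_le_mul_of_nonneg_right hνμ e3
      have e6 : 2 * μ / a * td x y = 2 * μ * td x y / a := by ring
      linarith
    calc -(b y).im * (Real.exp (-(ν * r y)) * ‖rsc (H0T d L) b x y‖ ^ 2)
        ≤ -(b y).im * ((Real.exp (-(ν * r x)) * Real.exp (2 * μ * td x y / a)) *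
          ‖rsc (H0T d L) b x y‖ ^ 2) :=
          mul_le_mul_of_nonneg_left (mul_le_mul_of_nonneg_right e1 (sq_nonneg _)) (hb.nn' y)
      _ = _ := by ring
  refine (Finset.sum_le_sum fun y _ => h2 y).trans ?_
  rw [← Finset.mul_sum]
  refine (mul_le_mul_of_nonneg_left h1 (Real.exp_pos _).le).trans (le_of_eq (by ring))

/-- the mass of a row far from its point -/
theorem tail_sum (hb : Diss (H0T d L) b) (ha : 1 ≤ a) (hμ : 0 ≤ μ) (hw : HasW b F μ a c)
    (x : Tor d L) (S : Finset (Tor d L)) {R : ℝ} (hS : ∀ y ∈ S, R ≤ td x y) :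
    ∑ y ∈ S, -(b y).im * ‖rsc (H0T d L) b x y‖ ^ 2 ≤
      2 * ‖rsc (H0T d L) b x x‖ * Real.exp (2 * μ * c / a) * Real.exp (-(2 * μ * R / a)) := by
  have ha' : (0 : ℝ) < a := by exact_mod_cast ha
  have h1 := dec_row hb ha hμ hw x
  have h2 : ∀ y ∈ S, -(b y).im * ‖rsc (H0T d L) b x y‖ ^ 2 ≤
      Real.exp (-(2 * μ * R / a)) *
        (-(b y).im * (Real.exp (2 * μ * td x y / a) * ‖rsc (H0T d L) b x y‖ ^ 2)) := by
    intro y hy
    have e1 : 1 ≤ Real.exp (-(2 * μ * R / a)) * Real.exp (2 * μ * td x y / a) := by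
      rw [← Real.exp_add]
      apply Real.one_le_exp
      have e2 : 2 * μ * R / a ≤ 2 * μ * td x y / a := by
        apply div_le_div_of_nonneg_right _ ha'.le
        exact mul_le_mul_of_nonneg_left (hS y hy) (by linarith)
      linarith
    have e3 : 0 ≤ -(b y).im * ‖rsc (H0T d L) b x y‖ ^ 2 := mul_nonneg (hb.nn' y) (sq_nonneg _)
    calc -(b y).im * ‖rsc (H0T d L) b x y‖ ^ 2
        = -(b y).im * ‖rsc (H0T d L) b x y‖ ^ 2 * 1 := by ring
      _ ≤ -(b y).im * ‖rsc (H0T d L) b x y‖ ^ 2 *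
          (Real.exp (-(2 * μ * R / a)) * Real.exp (2 * μ * td x y / a)) :=
          mul_le_mul_of_nonneg_left e1 e3
      _ = _ := by ring
  refine (Finset.sum_le_sum h2).trans ?_
  rw [← Finset.mul_sum]
  have h3 : ∑ y ∈ S, -(b y).im * (Real.exp (2 * μ * td x y / a) * ‖rsc (H0T d L) b x y‖ ^ 2) ≤
      ∑ y, -(b y).im * (Real.exp (2 * μ * td x y / a) * ‖rsc (H0T d L) b x y‖ ^ 2) :=
    Finset.sum_le_sum_of_subset_of_nonneg (Finset.subset_univ S) fun y _ _ =>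
      mul_nonneg (hb.nn' y) (by positivity)
  refine (mul_le_mul_of_nonneg_left (h3.trans h1) (Real.exp_pos _).le).trans (le_of_eq (by ring))

end Pool.Agent.ANM
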