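import Pool.Agent.ANM.Agmon
import Pool.Agent.GSC.Cmp

/-! # ANM FBase: dissipative operators on the full torus, with read sites.

`Diss H0 b`: `H0` real symmetric, `Im b_x ≤ 0` for all `x` (`= 0` on the read sites), `H0 + diag b` invertible.  The same
statements as in `SCWard`, `Agmon` for `Im b_x < 0`, so that everything can be used for the resolvent of the full
torus, no effective operator is needed.
-/

open Matrix Finset

noncomputable section

namespace Pool.Agent.ANM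

open Pool.Agent.Kin Pool.Agent.APS

variable {ι : Type} [Fintype ι] [DecidableEq ι] {H0 : Matrix ι ι ℂ} {b b' : ι → ℂ} {w : ι → ℝ}

/-- dissipative and invertible -/
structure Diss (H0 : Matrix ι ι ℂ) (b : ι → ℂ) : Prop where
  hH : RealSym H0
  nn : ∀ x, (b x).im ≤ 0
  unit : IsUnit (H0 + diagonal b).det

theorem Diss.of_neg (hH : RealSym H0) (hb : ∀ x, (b x).im < 0) : Diss H0 b :=
  ⟨hH, fun x => (hb x).le, rsc_unit hH hb⟩

theorem Diss.nn' (h : Diss H0 b) (x : ι) : 0 ≤ -(b x).im := by have := h.nn x; linarith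

theorem Diss.symm (h : Diss H0 b) (i j : ι) : rsc H0 b i j = rsc H0 b j i := rsc_symm h.hH b i j

theorem Diss.mulr (h : Diss H0 b) : (H0 + diagonal b) * rsc H0 b = 1 :=
  Matrix.mul_nonsing_inv _ h.unit

theorem Diss.mull (h : Diss H0 b) : rsc H0 b * (H0 + diagonal b) = 1 :=
  Matrix.nonsing_inv_mul _ h.unit

/-- Ward identity for all entries: `Im G_xy = ∑_z η_z conj G_xz G_yz` -/
theorem Diss.imm (h : Diss H0 b) (x y : ι) :
    (((rsc H0 b x y).im : ℝ) : ℂ) =
      ∑ z, ((-(b z).im : ℝ) : ℂ) * (star (rsc H0 b x z) * rsc H0 b y z) := by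
  have hH := h.hH
  set G := rsc H0 b with hG
  have hs : ∀ i j, G i j = G j i := fun i j => rsc_symm hH b i j
  have h1 : (H0 + diagonal b) * G = 1 := h.mulr
  have h3 : Gᴴ * (H0 + diagonal b)ᴴ = 1 := by
    rw [← Matrix.conjTranspose_mul, h1, Matrix.conjTranspose_one]
  have hHs : H0ᴴ = H0 := by
    ext i j
    rw [Matrix.conjTranspose_apply, hH.symm j i]
    exact Complex.conj_eq_iff_im.2 (hH.real i j)
  have h4 : (H0 + diagonal b)ᴴ = H0 + diagonal (fun x => star (b x)) := by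
    rw [Matrix.conjTranspose_add, hHs, Matrix.diagonal_conjTranspose]
    rfl
  have h5 : Gᴴ - G = Gᴴ * diagonal (fun x => b x - star (b x)) * G := by
    have : Gᴴ * (H0 + diagonal b) * G - Gᴴ * (H0 + diagonal b)ᴴ * G =
        Gᴴ * diagonal (fun x => b x - star (b x)) * G := by
      rw [← Matrix.sub_mul, ← Matrix.mul_sub, h4, add_sub_add_left_eq_sub, Matrix.diagonal_sub]
    rw [← this, Matrix.mul_assoc Gᴴ, h1, Matrix.mul_one, h3, Matrix.one_mul]
  have h6 := congrFun (congrFun h5 x) y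
  rw [Matrix.sub_apply, Matrix.conjTranspose_apply, Matrix.mul_apply] at h6
  have h7 : ∀ z, (Gᴴ * diagonal (fun x => b x - star (b x))) x z * G z y =
      -(2 * Complex.I) * (((-(b z).im : ℝ) : ℂ) * (star (G x z) * G y z)) := by
    intro z
    rw [Matrix.mul_diagonal, Matrix.conjTranspose_apply, hs z x, hs z y]
    have : b z - star (b z) = 2 * Complex.I * ((b z).im : ℂ) := by
      apply Complex.ext <;> simp
      ring
    rw [this]
    push_cast
    ring
  simp_rw [h7] at h6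
  rw [← Finset.mul_sum, hs y x] at h6
  have h8 : star (G x y) - G x y = -(2 * Complex.I) * (((G x y).im : ℝ) : ℂ) := by
    apply Complex.ext <;> simp
    ring
  rw [h8] at h6
  have h10 : (-(2 * Complex.I) : ℂ) ≠ 0 := by simp
  exact mul_left_cancel₀ h10 h6

/-- Ward identity -/
theorem Diss.ward (h : Diss H0 b) (x : ι) :
    (rsc H0 b x x).im = ∑ y, ‖rsc H0 b x y‖ ^ 2 * -(b y).im := by
  have h1 := h.imm x x
  have h2 : ∑ z, ((-(b z).im : ℝ) : ℂ) * (star (rsc H0 b x z) * rsc H0 b x z) =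
      ((∑ y, ‖rsc H0 b x y‖ ^ 2 * -(b y).im : ℝ) : ℂ) := by
    push_cast
    refine Finset.sum_congr rfl fun z _ => ?_
    rw [RCLike.star_def, Complex.conj_mul']
    ring
  rw [h2] at h1
  exact Complex.ofReal_injective h1

theorem Diss.im_nn (h : Diss H0 b) (x : ι) : 0 ≤ (rsc H0 b x x).im := by
  rw [h.ward x]
  exact Finset.sum_nonneg fun y _ => mul_nonneg (sq_nonneg _) (h.nn' y)

/-- Ward bound for one entry -/
theorem Diss.ent (h : Diss H0 b) (x y : ι) :
    -(b y).im * ‖rsc H0 b x y‖ ^ 2 ≤ (rsc H0 b x x).im := by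
  rw [h.ward x]
  have := Finset.single_le_sum (f := fun y => ‖rsc H0 b x y‖ ^ 2 * -(b y).im)
    (fun z _ => mul_nonneg (sq_nonneg _) (h.nn' z)) (Finset.mem_univ y)
  simpa [mul_comm] using this

/-- difference of two resolvents -/
theorem Diss.sub_ent (h : Diss H0 b) (h' : Diss H0 b') (x y : ι) :
    rsc H0 b x y - rsc H0 b' x y = ∑ z, rsc H0 b x z * (b' z - b z) * rsc H0 b' z y := by
  have h1 : rsc H0 b - rsc H0 b' = rsc H0 b * diagonal (fun x => b' x - b x) * rsc H0 b' := by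
    have h1 : diagonal (fun x => b' x - b x) = (H0 + diagonal b') - (H0 + diagonal b) := by
      rw [add_sub_add_left_eq_sub, Matrix.diagonal_sub]
    rw [h1, mul_sub, sub_mul, h.mull, one_mul, mul_assoc, h'.mulr, mul_one]
  have h2 := congrFun (congrFun h1 x) y
  rw [Matrix.sub_apply] at h2
  rw [h2, Matrix.mul_apply]
  refine Finset.sum_congr rfl fun z _ => ?_
  rw [Matrix.mul_diagonal]

/-- the weighted resolvent is a contraction -/
theorem Diss.wop (h : Diss H0 b) (hw0 : ∀ x, 0 ≤ w x) (hw : ∀ x, w x ≤ -(b x).im) (u : ι → ℂ) :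
    ∑ y, w y * ‖∑ z, rsc H0 b y z * ((√(w z) : ℂ) * u z)‖ ^ 2 ≤ ∑ z, ‖u z‖ ^ 2 := by
  set f : ι → ℂ := fun z => (√(w z) : ℂ) * u z with hf
  set v : ι → ℂ := rsc H0 b *ᵥ f with hv
  have h1 : (H0 + diagonal b) *ᵥ v = f := by
    rw [hv, Matrix.mulVec_mulVec, h.mulr, Matrix.one_mulVec]
  have h2 := agmon_form h.hH b v (fun _ => 0)
  have h2' : (∑ x, ∑ y, (H0 x y).re * (Real.exp (2 * (0 : ℝ)) * (star (v x) * v y).im)) = 0 := by
    have h3 := agmon_comm h.hH v (fun _ => 0)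
    simp only [sub_self, Real.sinh_zero, abs_zero, mul_zero, Finset.sum_const_zero] at h3
    have h4 := abs_nonpos_iff.1 h3
    simpa using h4
  rw [h2', add_zero, h1] at h2
  simp only [mul_zero, Real.exp_zero, one_mul, Complex.ofReal_one] at h2
  have h3 : ∑ x, w x * ‖v x‖ ^ 2 ≤ -(∑ x, star (v x) * f x).im := by
    rw [h2, ← Finset.sum_neg_distrib]
    refine Finset.sum_le_sum fun x _ => ?_
    have h4 := mul_le_mul_of_nonneg_left (hw x) (show 0 ≤ ‖v x‖ ^ 2 by positivity)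
    linarith
  have h5 : -(∑ x, star (v x) * f x).im ≤ ∑ x, (√(w x) * ‖v x‖) * ‖u x‖ := by
    calc -(∑ x, star (v x) * f x).im ≤ |(∑ x, star (v x) * f x).im| := neg_le_abs _
      _ ≤ ‖∑ x, star (v x) * f x‖ := Complex.abs_im_le_norm _
      _ ≤ ∑ x, ‖star (v x) * f x‖ := norm_sum_le _ _
      _ = ∑ x, (√(w x) * ‖v x‖) * ‖u x‖ := by
          refine Finset.sum_congr rfl fun x _ => ?_
          rw [norm_mul, norm_star, hf]
          simp only [norm_mul, Complex.norm_real, Real.norm_of_nonneg (Real.sqrt_nonneg _)]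
          ring
  have h6 : ∑ x, (√(w x) * ‖v x‖) * ‖u x‖ ≤
      √(∑ x, (√(w x) * ‖v x‖) ^ 2) * √(∑ x, ‖u x‖ ^ 2) :=
    Real.sum_mul_le_sqrt_mul_sqrt _ _ _
  have h7 : ∑ x, (√(w x) * ‖v x‖) ^ 2 = ∑ x, w x * ‖v x‖ ^ 2 := by
    refine Finset.sum_congr rfl fun x _ => ?_
    rw [mul_pow, Real.sq_sqrt (hw0 x)]
  set A := ∑ x, w x * ‖v x‖ ^ 2 with hA
  set B := ∑ x, ‖u x‖ ^ 2 with hB
  have hA0 : 0 ≤ A := Finset.sum_nonneg fun x _ => mul_nonneg (hw0 x) (sq_nonneg _)
  have hB0 : 0 ≤ B := Finset.sum_nonneg fun x _ => sq_nonneg _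
  have h8 : A ≤ √A * √B := by
    rw [h7] at h6
    linarith
  have h9 : √A * √A = A := Real.mul_self_sqrt hA0
  have h10 : √B * √B = B := Real.mul_self_sqrt hB0
  have h11 : √A ≤ √B := by
    rcases (Real.sqrt_nonneg A).eq_or_lt with h12 | h12
    · rw [← h12]
      exact Real.sqrt_nonneg _
    · refine le_of_mul_le_mul_left ?_ h12
      linarith
  have h12 : A ≤ B := by
    rw [← h9, ← h10]
    exact mul_self_le_mul_self (Real.sqrt_nonneg _) h11
  exact h12

/-- weighted row sums of the resolvent -/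
theorem Diss.agmon_row (h : Diss H0 b) (hw : AdmW H0 b w) (x : ι) :
    ∑ y, -(b y).im * (Real.exp (2 * w y) * ‖rsc H0 b x y‖ ^ 2) ≤
      2 * (Real.exp (2 * w x) * ‖rsc H0 b x x‖) := by
  have h1 := agmon h.hH hw (fun y => rsc H0 b y x)
  have h2 : (H0 + diagonal b) *ᵥ (fun y => rsc H0 b y x) = Pi.single x 1 := by
    have e1 : (fun y => rsc H0 b y x) = rsc H0 b *ᵥ Pi.single x 1 := by
      ext y
      rw [Matrix.mulVec_single_one]
      rfl
    rw [e1, Matrix.mulVec_mulVec, h.mulr, Matrix.one_mulVec]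
  rw [h2] at h1
  have h3 : ∑ y, ((Real.exp (2 * w y) : ℝ) : ℂ) * (star (rsc H0 b y x) *
      (Pi.single x 1 : ι → ℂ) y) = ((Real.exp (2 * w x) : ℝ) : ℂ) * star (rsc H0 b x x) := by
    rw [Finset.sum_eq_single x]
    · rw [Pi.single_eq_same, mul_one]
    · intro y _ hy
      rw [Pi.single_eq_of_ne hy, mul_zero, mul_zero]
    · intro hx
      exact absurd (Finset.mem_univ x) hx
  rw [h3, norm_mul, norm_star, Complex.norm_real, Real.norm_eq_abs, abs_of_pos (Real.exp_pos _)]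
    at h1
  refine le_trans (le_of_eq ?_) h1
  refine Finset.sum_congr rfl fun y _ => ?_
  rw [rsc_symm h.hH b x y]

/-- one entry -/
theorem Diss.agmon_ent (h : Diss H0 b) (hw : AdmW H0 b w) (x y : ι) :
    -(b y).im * ‖rsc H0 b x y‖ ^ 2 ≤
      2 * ‖rsc H0 b x x‖ * Real.exp (2 * (w x - w y)) := by
  have h1 := h.agmon_row hw x
  have h2 : -(b y).im * (Real.exp (2 * w y) * ‖rsc H0 b x y‖ ^ 2) ≤
      ∑ y, -(b y).im * (Real.exp (2 * w y) * ‖rsc H0 b x y‖ ^ 2) :=
    Finset.single_le_sum (f := fun y => -(b y).im * (Real.exp (2 * w y) * ‖rsc H0 b x y‖ ^ 2))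
      (fun z _ => mul_nonneg (h.nn' z) (by positivity)) (Finset.mem_univ y)
  have h3 := h2.trans h1
  have h4 : Real.exp (2 * (w x - w y)) = Real.exp (2 * w x) / Real.exp (2 * w y) := by
    rw [← Real.exp_sub]; congr 1; ring
  rw [h4, mul_div_assoc', le_div_iff₀ (Real.exp_pos _)]
  nlinarith [h3]

/-- two sided weights -/
theorem Diss.agmon_two (h : Diss H0 b) (hw : AdmW H0 b w) (x : ι) :
    ∑ y, -(b y).im * (Real.exp (2 * |w x - w y|) * ‖rsc H0 b x y‖ ^ 2) ≤
      4 * ‖rsc H0 b x x‖ := by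
  have h1 := h.agmon_row hw x
  have h2 := h.agmon_row hw.neg x
  have e1 : ∀ y, -(b y).im * (Real.exp (2 * |w x - w y|) * ‖rsc H0 b x y‖ ^ 2) ≤
      Real.exp (-(2 * w x)) * (-(b y).im * (Real.exp (2 * w y) * ‖rsc H0 b x y‖ ^ 2)) +
      Real.exp (2 * w x) * (-(b y).im * (Real.exp (2 * -w y) * ‖rsc H0 b x y‖ ^ 2)) := by
    intro y
    have h3 : 0 ≤ -(b y).im := h.nn' y
    have h4 : Real.exp (2 * |w x - w y|) ≤ Real.exp (-(2 * w x)) * Real.exp (2 * w y) +
        Real.exp (2 * w x) * Real.exp (2 * -w y) := by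
      rw [← Real.exp_add, ← Real.exp_add]
      rcases abs_cases (w x - w y) with ⟨h, _⟩ | ⟨h, _⟩
      · rw [h]
        have : Real.exp (2 * (w x - w y)) = Real.exp (2 * w x + 2 * -w y) := by congr 1; ring
        rw [this]
        linarith [Real.exp_pos (-(2 * w x) + 2 * w y)]
      · rw [h]
        have : Real.exp (2 * -(w x - w y)) = Real.exp (-(2 * w x) + 2 * w y) := by congr 1; ring
        rw [this]
        linarith [Real.exp_pos (2 * w x + 2 * -w y)]
    calc -(b y).im * (Real.exp (2 * |w x - w y|) * ‖rsc H0 b x y‖ ^ 2)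
        ≤ -(b y).im * ((Real.exp (-(2 * w x)) * Real.exp (2 * w y) +
        Real.exp (2 * w x) * Real.exp (2 * -w y)) * ‖rsc H0 b x y‖ ^ 2) :=
          mul_le_mul_of_nonneg_left (mul_le_mul_of_nonneg_right h4 (sq_nonneg _)) h3
      _ = _ := by ring
  refine (Finset.sum_le_sum fun y _ => e1 y).trans ?_
  rw [Finset.sum_add_distrib, ← Finset.mul_sum, ← Finset.mul_sum]
  have h5 : Real.exp (-(2 * w x)) * Real.exp (2 * w x) = 1 := by
    rw [← Real.exp_add]; simp
  have h6 : Real.exp (2 * w x) * Real.exp (2 * -w x) = 1 := by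
    rw [← Real.exp_add]; simp
  have h7 := mul_le_mul_of_nonneg_left h1 (Real.exp_pos (-(2 * w x))).le
  have h8 := mul_le_mul_of_nonneg_left h2 (Real.exp_pos (2 * w x)).le
  calc _ ≤ Real.exp (-(2 * w x)) * (2 * (Real.exp (2 * w x) * ‖rsc H0 b x x‖)) +
      Real.exp (2 * w x) * (2 * (Real.exp (2 * -w x) * ‖rsc H0 b x x‖)) := add_le_add h7 h8
    _ = 2 * ‖rsc H0 b x x‖ * (Real.exp (-(2 * w x)) * Real.exp (2 * w x)) +
      2 * ‖rsc H0 b x x‖ * (Real.exp (2 * w x) * Real.exp (2 * -w x)) := by ring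
    _ = 4 * ‖rsc H0 b x x‖ := by rw [h5, h6]; ring

end Pool.Agent.ANM
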