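import Pool.Agent.ANM.FLocal

/-! # ANM FRefr: exponential decay of the effect of a re-freezing, on the full torus (read sites allowed).

`G1 = rsc H0 b1` is a frozen medium (self-energies `κ_x gt_x` with given numbers `gt_x`), `G2 = rsc H0 b2` is
self-consistent: `b2_x - b1_x = -κ_x (G2_xx - gt_x)` on `A`, `b2 = b1` off `A` (static, inert, read sites).  The source is
`s_x = G1_xx - gt_x`.

* `FRefr.l2`: `(1 - l - ε)² ∑_A κ e^{2 t w} |G2_xx - gt_x|² ≤ ∑_A κ e^{2 t w} |s_x|²`.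
* `FRefr.diag`: `|G2_xx - gt_x|² ≤ K³ e^{-2 t w_x} S²`, `S²` a bound of the right side of `l2`.
* `FRefr.row`, `FRefr.ent`: the same decay for the rows and the entries of `G1 - G2`.
-/

open Matrix Finset

noncomputable section

namespace Pool.Agent.ANM

open Pool.Agent.Kin Pool.Agent.APS

variable {ι : Type} [Fintype ι] [DecidableEq ι] {H0 : Matrix ι ι ℂ} {b1 b2 : ι → ℂ} {w : ι → ℝ}

/-- a frozen medium `b1` and its re-freezing `b2` -/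
structure FRefr (H0 : Matrix ι ι ℂ) (b1 b2 gt : ι → ℂ) (w κ ρ : ι → ℝ) (A : Finset ι)
    (K C1 c1 t l ε : ℝ) : Prop where
  hb : Diss H0 b1
  hb' : Diss H0 b2
  hw : AdmW H0 b1 w
  hκ : ∀ x ∈ A, 1 / K ≤ κ x
  /-- the frozen medium; `ρ_x` is for example `Im gt_x` -/
  hk : ∀ x ∈ A, κ x * ρ x ≤ -(b1 x).im
  /-- the self-consistent medium -/
  hk' : ∀ x ∈ A, κ x * (rsc H0 b2 x x).im ≤ -(b2 x).im
  hdif : ∀ x ∈ A, b2 x - b1 x = -((κ x : ℂ) * (rsc H0 b2 x x - gt x))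
  hout : ∀ z, z ∉ A → b2 z = b1 z
  /-- (H3) for the frozen medium -/
  h3 : ∀ x ∈ A, ∑ y ∈ A, κ y * (ρ y * (rsc H0 b1 x y).re ^ 2) ≤ l ^ 2 * ρ x
  hC1 : ∀ x ∈ A, ‖rsc H0 b1 x x‖ ≤ C1
  hc1 : ∀ x ∈ A, c1 ≤ ρ x
  hc1' : ∀ x ∈ A, c1 ≤ (rsc H0 b2 x x).im
  ht : 0 ≤ t
  ht1 : t ≤ 1
  hl : 0 ≤ l
  hε : 0 ≤ ε
  htε : 4 * t ^ 2 * C1 ≤ ε ^ 2 * c1
  hK : 1 ≤ K
  hKl : 1 / K ≤ 1 - l - ε
  hKc : 1 / K ≤ c1

variable {gt : ι → ℂ} {κ ρ : ι → ℝ} {A : Finset ι} {K C1 c1 t l ε : ℝ}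

/-- weighted `l²` bound -/
theorem FRefr.l2 (h : FRefr H0 b1 b2 gt w κ ρ A K C1 c1 t l ε) :
    (1 - l - ε) ^ 2 * ∑ x ∈ A, κ x * (Real.exp (2 * (t * w x)) *
        ‖rsc H0 b2 x x - gt x‖ ^ 2) ≤
      ∑ x ∈ A, κ x * (Real.exp (2 * (t * w x)) * ‖rsc H0 b1 x x - gt x‖ ^ 2) := by
  have hK0 : 0 < K := by linarith [h.hK]
  have hiK : 0 < 1 / K := by positivity
  have hc0 : 0 < c1 := hiK.trans_le h.hKc
  have hb := h.hb
  have hb' := h.hb'
  refine Diss.accr hb hb' A (κ := κ) (ρ := ρ) (ρ' := fun x => (rsc H0 b2 x x).im)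
    (φ := fun x => t * w x) (fun x hx => hiK.trans_le (h.hκ x hx))
    (fun x hx => hc0.trans_le (h.hc1 x hx)) (fun x hx => hc0.trans_le (h.hc1' x hx))
    h.hl h.hε (by linarith [h.hKl]) h.h3 (fun x _ => hb'.wardA A h.hk' x)
    (fun x hx => hb.wgt h.hw A h.hk h.ht h.ht1 h.htε (h.hC1 x hx) (h.hc1 x hx))
    (δ := fun x => rsc H0 b2 x x - gt x) (f := fun x => rsc H0 b1 x x - gt x) ?_
  intro x hx
  have h1 := Diss.sub_ent hb' hb x x
  have h2 : ∑ z, rsc H0 b2 x z * (b1 z - b2 z) * rsc H0 b1 z x =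
      ∑ y ∈ A, rsc H0 b1 x y * rsc H0 b2 x y * ((κ y : ℂ) * (rsc H0 b2 y y - gt y)) := by
    rw [← Finset.sum_subset (Finset.subset_univ A)]
    · refine Finset.sum_congr rfl fun y hy => ?_
      have h3 := h.hdif y hy
      rw [show b1 y - b2 y = (κ y : ℂ) * (rsc H0 b2 y y - gt y) by
        rw [← neg_sub (b2 y), h3, neg_neg], hb.symm y x]
      ring
    · intro z _ hz
      rw [h.hout z hz, sub_self, mul_zero, zero_mul]
  rw [h2] at h1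
  change rsc H0 b2 x x - gt x = _ + (rsc H0 b1 x x - gt x)
  rw [← h1]
  ring

/-- diagonal entries -/
theorem FRefr.diag (h : FRefr H0 b1 b2 gt w κ ρ A K C1 c1 t l ε) {S : ℝ}
    (hS : ∑ x ∈ A, κ x * (Real.exp (2 * (t * w x)) * ‖rsc H0 b1 x x - gt x‖ ^ 2) ≤ S)
    {x : ι} (hx : x ∈ A) :
    ‖rsc H0 b2 x x - gt x‖ ^ 2 ≤ K ^ 3 * S * Real.exp (-(2 * (t * w x))) := by
  have hK0 : 0 < K := by linarith [h.hK]
  have hiK : 0 < 1 / K := by positivity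
  have h1 := h.l2
  have h2 : κ x * (Real.exp (2 * (t * w x)) * ‖rsc H0 b2 x x - gt x‖ ^ 2) ≤
      ∑ x ∈ A, κ x * (Real.exp (2 * (t * w x)) * ‖rsc H0 b2 x x - gt x‖ ^ 2) :=
    Finset.single_le_sum (f := fun z => κ z * (Real.exp (2 * (t * w z)) *
      ‖rsc H0 b2 z z - gt z‖ ^ 2)) (fun z hz => mul_nonneg (hiK.le.trans (h.hκ z hz))
      (by positivity)) hx
  set δ := ‖rsc H0 b2 x x - gt x‖ ^ 2 with hδ
  have hδ0 : 0 ≤ δ := by positivity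
  have b1' : (1 / K) ^ 2 ≤ (1 - l - ε) ^ 2 := pow_le_pow_left₀ hiK.le h.hKl 2
  have b2' : (1 / K) ^ 2 * (1 / K * (Real.exp (2 * (t * w x)) * δ)) ≤ S := by
    calc (1 / K) ^ 2 * (1 / K * (Real.exp (2 * (t * w x)) * δ))
        ≤ (1 - l - ε) ^ 2 * (κ x * (Real.exp (2 * (t * w x)) * δ)) := by
          refine mul_le_mul b1' ?_ (by positivity) (sq_nonneg _)
          exact mul_le_mul_of_nonneg_right (h.hκ x hx) (by positivity)
      _ ≤ _ := mul_le_mul_of_nonneg_left h2 (sq_nonneg _)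
      _ ≤ _ := h1
      _ ≤ S := hS
  have e2 : Real.exp (-(2 * (t * w x))) * Real.exp (2 * (t * w x)) = 1 := by
    rw [← Real.exp_add]; simp
  calc δ = K ^ 3 * Real.exp (-(2 * (t * w x))) *
        ((1 / K) ^ 2 * (1 / K * (Real.exp (2 * (t * w x)) * δ))) := by
        have : K ^ 3 * Real.exp (-(2 * (t * w x))) *
            ((1 / K) ^ 2 * (1 / K * (Real.exp (2 * (t * w x)) * δ))) =
            (K ^ 3 * (1 / K) ^ 2 * (1 / K)) *
              (Real.exp (-(2 * (t * w x))) * Real.exp (2 * (t * w x))) * δ := by ring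
        rw [this, e2]
        have : K ^ 3 * (1 / K) ^ 2 * (1 / K) = 1 := by field_simp
        rw [this]
        ring
    _ ≤ K ^ 3 * Real.exp (-(2 * (t * w x))) * S := mul_le_mul_of_nonneg_left b2' (by positivity)
    _ = _ := by ring

/-- relative difference of the diagonal data -/
theorem FRefr.rel (h : FRefr H0 b1 b2 gt w κ ρ A K C1 c1 t l ε) {S : ℝ}
    (hS : ∑ x ∈ A, κ x * (Real.exp (2 * (t * w x)) * ‖rsc H0 b1 x x - gt x‖ ^ 2) ≤ S ^ 2)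
    (z : ι) : ‖b2 z - b1 z‖ ^ 2 ≤
      (K ^ 3 * S) ^ 2 * Real.exp (2 * t * (-w z - 0)) * (-(b1 z).im * -(b2 z).im) := by
  have hK0 : 0 < K := by linarith [h.hK]
  have hiK : 0 < 1 / K := by positivity
  have hn : 0 ≤ -(b1 z).im := h.hb.nn' z
  have hn' : 0 ≤ -(b2 z).im := h.hb'.nn' z
  by_cases hz : z ∈ A
  · have h1 := h.diag hS hz
    have hκz : 0 < κ z := hiK.trans_le (h.hκ z hz)
    rw [h.hdif z hz, norm_neg, norm_mul, mul_pow, Complex.norm_real, Real.norm_eq_abs, sq_abs]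
    have h2 : κ z * (1 / K) ≤ -(b1 z).im :=
      (mul_le_mul_of_nonneg_left (h.hKc.trans (h.hc1 z hz)) hκz.le).trans (h.hk z hz)
    have h3 : κ z * (1 / K) ≤ -(b2 z).im :=
      (mul_le_mul_of_nonneg_left (h.hKc.trans (h.hc1' z hz)) hκz.le).trans (h.hk' z hz)
    have h4 : κ z ^ 2 ≤ K ^ 2 * (-(b1 z).im * -(b2 z).im) := by
      calc κ z ^ 2 = K ^ 2 * ((κ z * (1 / K)) * (κ z * (1 / K))) := by field_simp
        _ ≤ _ := by
          refine mul_le_mul_of_nonneg_left ?_ (sq_nonneg _)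
          exact mul_le_mul h2 h3 (by positivity) hn
    have e1 : Real.exp (2 * t * (-w z - 0)) = Real.exp (-(2 * (t * w z))) := by congr 1; ring
    calc κ z ^ 2 * ‖rsc H0 b2 z z - gt z‖ ^ 2
        ≤ (K ^ 2 * (-(b1 z).im * -(b2 z).im)) * (K ^ 3 * S ^ 2 * Real.exp (-(2 * (t * w z)))) :=
          mul_le_mul h4 h1 (sq_nonneg _) (by positivity)
      _ = (K ^ 5 * S ^ 2) * Real.exp (-(2 * (t * w z))) * (-(b1 z).im * -(b2 z).im) := by ring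
      _ ≤ _ := by
          rw [e1]
          refine mul_le_mul_of_nonneg_right ?_ (by positivity)
          refine mul_le_mul_of_nonneg_right ?_ (Real.exp_pos _).le
          rw [mul_pow, ← pow_mul]
          refine mul_le_mul_of_nonneg_right ?_ (sq_nonneg _)
          exact pow_le_pow_right₀ h.hK (by norm_num)
  · rw [h.hout z hz, sub_self, norm_zero]
    have e2 : (0 : ℝ) ^ 2 = 0 := by norm_num
    rw [e2]
    exact mul_nonneg (mul_nonneg (sq_nonneg _) (Real.exp_pos _).le) (mul_nonneg hn hn)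

/-- rows -/
theorem FRefr.row (h : FRefr H0 b1 b2 gt w κ ρ A K C1 c1 t l ε) {S : ℝ}
    (hS : ∑ x ∈ A, κ x * (Real.exp (2 * (t * w x)) * ‖rsc H0 b1 x x - gt x‖ ^ 2) ≤ S ^ 2)
    (x : ι) :
    ∑ y, -(b2 y).im * ‖rsc H0 b1 x y - rsc H0 b2 x y‖ ^ 2 ≤
      2 * (K ^ 3 * S) ^ 2 * ‖rsc H0 b1 x x‖ * Real.exp (-(2 * (t * w x))) := by
  refine (Diss.rel_row h.hb h.hb' h.hw.neg h.ht h.ht1 (h.rel hS) x).trans (le_of_eq ?_)
  congr 2
  ring

/-- entries -/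
theorem FRefr.ent (h : FRefr H0 b1 b2 gt w κ ρ A K C1 c1 t l ε) {S : ℝ}
    (hS : ∑ x ∈ A, κ x * (Real.exp (2 * (t * w x)) * ‖rsc H0 b1 x x - gt x‖ ^ 2) ≤ S ^ 2)
    (x y : ι) :
    ‖rsc H0 b1 x y - rsc H0 b2 x y‖ ^ 2 ≤
      2 * (K ^ 3 * S) ^ 2 * ‖rsc H0 b1 x x‖ * Real.exp (-(2 * (t * w x))) *
        (rsc H0 b2 y y).im := by
  refine (Diss.rel_ent h.hb h.hb' h.hw.neg h.ht h.ht1 (h.rel hS) x y).trans (le_of_eq ?_)
  congr 3
  ring

end Pool.Agent.ANM
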