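import Pool.Agent.APS.SCWard

/-! # ANM Accr: accretivity of `1 - (G ∘ G') κ` for two resolvents `G = rsc H0 b`, `G' = rsc H0 b'`.

* `rsc_imm`: `Im G_xy = ∑_z η_z conj G_xz G_yz` (full Ward identity).
* `had_psd`: `∑_xy Im G_xy Im G'_xy Re(conj v_x v_y) ≥ 0`.
* `had_re`: `Re ∑_xy conj v_x G_xy G'_xy v_y ≤ ∑_xy |Re G_xy| |Re G'_xy| |v_x| |v_y|`.
* `schur_two`: Schur test with weights `p`.
* `accr`: if `δ_x = ∑_{y ∈ A} G_xy G'_xy κ_y δ_y + f_x` on `A` then
  `(1 - λ - ε)² ∑_A e^{2φ} κ |δ|² ≤ ∑_A e^{2φ} κ |f|²`, where `λ` bounds the sum of `(Re G)²` and `ε` the effect of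
  the weight; nothing is assumed on `G'` except the Ward bound `∑ κ_y ρ'_y |G'_xy|² ≤ ρ'_x`.
-/

open Matrix Finset

noncomputable section

namespace Pool.Agent.ANM

open Pool.Agent.Kin Pool.Agent.APS

variable {ι : Type} [Fintype ι] [DecidableEq ι] {H0 : Matrix ι ι ℂ} {b b' : ι → ℂ}

/-- Ward identity for all entries: `Im G_xy = ∑_z η_z conj G_xz G_yz` -/
theorem rsc_imm (hH : RealSym H0) (hb : ∀ x, (b x).im < 0) (x y : ι) :
    (((rsc H0 b x y).im : ℝ) : ℂ) =
      ∑ z, ((-(b z).im : ℝ) : ℂ) * (star (rsc H0 b x z) * rsc H0 b y z) := by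
  set G := rsc H0 b with hG
  have hu := rsc_unit hH hb
  have hs : ∀ i j, G i j = G j i := fun i j => rsc_symm hH b i j
  have h1 : (H0 + diagonal b) * G = 1 := Matrix.mul_nonsing_inv _ hu
  have h2 : G * (H0 + diagonal b) = 1 := Matrix.nonsing_inv_mul _ hu
  have h3 : Gᴴ * (H0 + diagonal b)ᴴ = 1 := by
    rw [← Matrix.conjTranspose_mul, h1, Matrix.conjTranspose_one]
  have hHs : H0ᴴ = H0 := by
    ext i j
    rw [Matrix.conjTranspose_apply, hH.symm j i]
    exact Complex.conj_eq_iff_im.2 (hH.real i j)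
  have h4 : (H0 + diagonal b)ᴴ = H0 + diagonal (fun x => star (b x)) := by
    rw [Matrix.conjTranspose_add, hHs, Matrix.diagonal_conjTranspose]
    rfl
  have h5 : Gᴴ - G = Gᴴ * diagonal (fun x => b x - star (b x)) * G := by
    have : Gᴴ * (H0 + diagonal b) * G - Gᴴ * (H0 + diagonal b)ᴴ * G =
        Gᴴ * diagonal (fun x => b x - star (b x)) * G := by
      rw [← Matrix.sub_mul, ← Matrix.mul_sub, h4, add_sub_add_left_eq_sub, Matrix.diagonal_sub]
    rw [← this, Matrix.mul_assoc Gᴴ, h1, Matrix.mul_one, h3, Matrix.one_mul]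
  have h6 := congrFun (congrFun h5 x) y
  rw [Matrix.sub_apply, Matrix.conjTranspose_apply, Matrix.mul_apply] at h6
  have h7 : ∀ z, (Gᴴ * diagonal (fun x => b x - star (b x))) x z * G z y =
      -(2 * Complex.I) * (((-(b z).im : ℝ) : ℂ) * (star (G x z) * G y z)) := by
    intro z
    rw [Matrix.mul_diagonal, Matrix.conjTranspose_apply, hs z x, hs z y]
    have : b z - star (b z) = 2 * Complex.I * ((b z).im : ℂ) := by
      apply Complex.ext <;> simp
      ring
    rw [this]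
    push_cast
    ring
  simp_rw [h7] at h6
  rw [← Finset.mul_sum, hs y x] at h6
  have h8 : star (G x y) - G x y = -(2 * Complex.I) * (((G x y).im : ℝ) : ℂ) := by
    apply Complex.ext <;> simp
    ring
  rw [h8] at h6
  have h10 : (-(2 * Complex.I) : ℂ) ≠ 0 := by simp
  exact mul_left_cancel₀ h10 h6

/-- Schur product of the imaginary parts is positive -/
theorem had_psd (hH : RealSym H0) (hb : ∀ x, (b x).im < 0) (hb' : ∀ x, (b' x).im < 0)
    (v : ι → ℂ) :
    0 ≤ ∑ x, ∑ y, (rsc H0 b x y).im * (rsc H0 b' x y).im * (star (v x) * v y).re := by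
  set G := rsc H0 b with hG
  set G' := rsc H0 b' with hG'
  have h1 : ((∑ x, ∑ y, (G x y).im * (G' x y).im * (star (v x) * v y).re : ℝ) : ℂ) =
      ((∑ x, ∑ y, (((G x y).im : ℝ) : ℂ) * (((G' x y).im : ℝ) : ℂ) * (star (v x) * v y)).re : ℂ) := by
    congr 1
    rw [Complex.re_sum]
    refine Finset.sum_congr rfl fun x _ => ?_
    rw [Complex.re_sum]
    refine Finset.sum_congr rfl fun y _ => ?_
    rw [← Complex.ofReal_mul, Complex.re_ofReal_mul]
  have h2 : ∑ x, ∑ y, (((G x y).im : ℝ) : ℂ) * (((G' x y).im : ℝ) : ℂ) * (star (v x) * v y) =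
      ∑ z, ∑ z', (((-(b z).im) * (-(b' z').im) : ℝ) : ℂ) *
        (star (∑ x, G x z * G' x z' * v x) * (∑ y, G y z * G' y z' * v y)) := by
    calc ∑ x, ∑ y, (((G x y).im : ℝ) : ℂ) * (((G' x y).im : ℝ) : ℂ) * (star (v x) * v y)
        = ∑ x, ∑ y, ∑ z, ∑ z', (((-(b z).im) * (-(b' z').im) : ℝ) : ℂ) *
          (star (G x z * G' x z' * v x) * (G y z * G' y z' * v y)) := by
          refine Finset.sum_congr rfl fun x _ => Finset.sum_congr rfl fun y _ => ?_
          rw [hG, hG', rsc_imm hH hb x y, rsc_imm hH hb' x y, Finset.sum_mul_sum, Finset.sum_mul]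
          refine Finset.sum_congr rfl fun z _ => ?_
          rw [Finset.sum_mul]
          refine Finset.sum_congr rfl fun z' _ => ?_
          simp only [star_mul']
          push_cast
          ring
      _ = ∑ x, ∑ z, ∑ z', ∑ y, (((-(b z).im) * (-(b' z').im) : ℝ) : ℂ) *
          (star (G x z * G' x z' * v x) * (G y z * G' y z' * v y)) := by
          refine Finset.sum_congr rfl fun x _ => ?_
          rw [Finset.sum_comm]
          refine Finset.sum_congr rfl fun z _ => ?_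
          rw [Finset.sum_comm]
      _ = ∑ z, ∑ z', ∑ x, ∑ y, (((-(b z).im) * (-(b' z').im) : ℝ) : ℂ) *
          (star (G x z * G' x z' * v x) * (G y z * G' y z' * v y)) := by
          rw [Finset.sum_comm]
          refine Finset.sum_congr rfl fun z _ => ?_
          rw [Finset.sum_comm]
      _ = _ := by
          refine Finset.sum_congr rfl fun z _ => Finset.sum_congr rfl fun z' _ => ?_
          rw [star_sum, Finset.sum_mul_sum, Finset.mul_sum]
          refine Finset.sum_congr rfl fun x _ => ?_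
          rw [Finset.mul_sum]
  have h3 : (∑ x, ∑ y, (((G x y).im : ℝ) : ℂ) * (((G' x y).im : ℝ) : ℂ) *
      (star (v x) * v y)).re = ∑ z, ∑ z', (-(b z).im) * (-(b' z').im) *
        ‖∑ x, G x z * G' x z' * v x‖ ^ 2 := by
    rw [h2, Complex.re_sum]
    refine Finset.sum_congr rfl fun z _ => ?_
    rw [Complex.re_sum]
    refine Finset.sum_congr rfl fun z' _ => ?_
    rw [RCLike.star_def, Complex.conj_mul', ← Complex.ofReal_pow, ← Complex.ofReal_mul,
      Complex.ofReal_re]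
  have h4 := Complex.ofReal_injective h1
  rw [h4, h3]
  refine Finset.sum_nonneg fun z _ => Finset.sum_nonneg fun z' _ => ?_
  have e1 : 0 ≤ -(b z).im := by have := hb z; linarith
  have e2 : 0 ≤ -(b' z').im := by have := hb' z'; linarith
  positivity

/-- real part of the quadratic form of `G ∘ G'` -/
theorem had_re (hH : RealSym H0) (hb : ∀ x, (b x).im < 0) (hb' : ∀ x, (b' x).im < 0)
    (v : ι → ℂ) :
    (∑ x, ∑ y, star (v x) * (rsc H0 b x y * rsc H0 b' x y) * v y).re ≤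
      ∑ x, ∑ y, |(rsc H0 b x y).re| * |(rsc H0 b' x y).re| * (‖v x‖ * ‖v y‖) := by
  set G := rsc H0 b with hG
  set G' := rsc H0 b' with hG'
  have hs : ∀ x y, G x y = G y x := fun x y => rsc_symm hH b x y
  have hs' : ∀ x y, G' x y = G' y x := fun x y => rsc_symm hH b' x y
  have h1 : (∑ x, ∑ y, star (v x) * (G x y * G' x y) * v y).re =
      ∑ x, ∑ y, (G x y * G' x y).re * (star (v x) * v y).re -
        ∑ x, ∑ y, (G x y * G' x y).im * (star (v x) * v y).im := by
    rw [Complex.re_sum, ← Finset.sum_sub_distrib]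
    refine Finset.sum_congr rfl fun x _ => ?_
    rw [Complex.re_sum, ← Finset.sum_sub_distrib]
    refine Finset.sum_congr rfl fun y _ => ?_
    rw [show star (v x) * (G x y * G' x y) * v y = (G x y * G' x y) * (star (v x) * v y) by ring,
      Complex.mul_re]
  have h2 : ∑ x, ∑ y, (G x y * G' x y).im * (star (v x) * v y).im = 0 := by
    have e1 : ∑ x, ∑ y, (G x y * G' x y).im * (star (v x) * v y).im =
        -∑ x, ∑ y, (G x y * G' x y).im * (star (v x) * v y).im := by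
      conv_lhs => rw [Finset.sum_comm]
      rw [← Finset.sum_neg_distrib]
      refine Finset.sum_congr rfl fun x _ => ?_
      rw [← Finset.sum_neg_distrib]
      refine Finset.sum_congr rfl fun y _ => ?_
      rw [hs y x, hs' y x]
      simp only [RCLike.star_def, Complex.mul_im, Complex.conj_re, Complex.conj_im]
      ring
    linarith
  have h3 : ∑ x, ∑ y, (G x y * G' x y).re * (star (v x) * v y).re =
      ∑ x, ∑ y, (G x y).re * (G' x y).re * (star (v x) * v y).re -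
      ∑ x, ∑ y, (G x y).im * (G' x y).im * (star (v x) * v y).re := by
    rw [← Finset.sum_sub_distrib]
    refine Finset.sum_congr rfl fun x _ => ?_
    rw [← Finset.sum_sub_distrib]
    refine Finset.sum_congr rfl fun y _ => ?_
    rw [Complex.mul_re]
    ring
  have h4 := had_psd hH hb hb' v
  rw [h1, h2, h3, sub_zero]
  have h5 : ∑ x, ∑ y, (G x y).re * (G' x y).re * (star (v x) * v y).re ≤
      ∑ x, ∑ y, |(G x y).re| * |(G' x y).re| * (‖v x‖ * ‖v y‖) := by
    refine Finset.sum_le_sum fun x _ => Finset.sum_le_sum fun y _ => ?_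
    refine (le_abs_self _).trans ?_
    rw [abs_mul, abs_mul]
    refine mul_le_mul_of_nonneg_left ?_ (by positivity)
    refine (Complex.abs_re_le_norm _).trans ?_
    rw [norm_mul, norm_star]
  linarith

omit [Fintype ι] [DecidableEq ι] in
/-- Schur test with weights `p` -/
theorem schur_two (A : Finset ι) {M : ι → ι → ℝ} (hM : ∀ x y, 0 ≤ M x y)
    (hs : ∀ x y, M x y = M y x) {p q α : ι → ℝ} (hp : ∀ x ∈ A, 0 < p x) {t : ℝ}
    (h : ∀ x ∈ A, ∑ y ∈ A, M x y * p y ≤ t * q x) :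
    ∑ x ∈ A, ∑ y ∈ A, M x y * (α x * α y) ≤ t * ∑ x ∈ A, α x ^ 2 * (q x / p x) := by
  have h1 : ∀ x ∈ A, ∀ y ∈ A, M x y * (α x * α y) ≤
      (M x y * (α x ^ 2 / p x * p y) + M x y * (α y ^ 2 / p y * p x)) / 2 := by
    intro x hx y hy
    have e1 := hp x hx
    have e2 := hp y hy
    have e3 : α x * α y ≤ (α x ^ 2 / p x * p y + α y ^ 2 / p y * p x) / 2 := by
      have e4 : α x ^ 2 / p x * p y + α y ^ 2 / p y * p x - 2 * (α x * α y) =
          (α x * p y - α y * p x) ^ 2 / (p x * p y) := by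
        field_simp
        ring
      have e5 : 0 ≤ (α x * p y - α y * p x) ^ 2 / (p x * p y) := by positivity
      linarith
    calc M x y * (α x * α y) ≤ M x y * ((α x ^ 2 / p x * p y + α y ^ 2 / p y * p x) / 2) :=
          mul_le_mul_of_nonneg_left e3 (hM x y)
      _ = _ := by ring
  calc ∑ x ∈ A, ∑ y ∈ A, M x y * (α x * α y)
      ≤ ∑ x ∈ A, ∑ y ∈ A,
        (M x y * (α x ^ 2 / p x * p y) + M x y * (α y ^ 2 / p y * p x)) / 2 :=
        Finset.sum_le_sum fun x hx => Finset.sum_le_sum fun y hy => h1 x hx y hy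
    _ = (∑ x ∈ A, ∑ y ∈ A, M x y * (α x ^ 2 / p x * p y)) / 2 +
        (∑ x ∈ A, ∑ y ∈ A, M x y * (α y ^ 2 / p y * p x)) / 2 := by
        rw [Finset.sum_div, Finset.sum_div, ← Finset.sum_add_distrib]
        refine Finset.sum_congr rfl fun x _ => ?_
        rw [Finset.sum_div, Finset.sum_div, ← Finset.sum_add_distrib]
        refine Finset.sum_congr rfl fun y _ => ?_
        ring
    _ = (∑ x ∈ A, ∑ y ∈ A, M x y * (α x ^ 2 / p x * p y)) / 2 +
        (∑ x ∈ A, ∑ y ∈ A, M x y * (α x ^ 2 / p x * p y)) / 2 := by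
        congr 2
        rw [Finset.sum_comm]
        refine Finset.sum_congr rfl fun x _ => Finset.sum_congr rfl fun y _ => ?_
        rw [hs y x]
    _ = ∑ x ∈ A, α x ^ 2 / p x * ∑ y ∈ A, M x y * p y := by
        rw [add_halves]
        refine Finset.sum_congr rfl fun x _ => ?_
        rw [Finset.mul_sum]
        refine Finset.sum_congr rfl fun y _ => ?_
        ring
    _ ≤ ∑ x ∈ A, α x ^ 2 / p x * (t * q x) := by
        refine Finset.sum_le_sum fun x hx => mul_le_mul_of_nonneg_left (h x hx) ?_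
        have := hp x hx
        positivity
    _ = _ := by
        rw [Finset.mul_sum]
        refine Finset.sum_congr rfl fun x _ => ?_
        ring

omit [Fintype ι] [DecidableEq ι] in
/-- Cauchy-Schwarz with the weights `κ √(ρ ρ')` -/
theorem cs_two (A : Finset ι) {κ ρ ρ' u v : ι → ℝ} (hκ : ∀ x ∈ A, 0 ≤ κ x)
    (hρ : ∀ x ∈ A, 0 ≤ ρ x) (hρ' : ∀ x ∈ A, 0 ≤ ρ' x) {S T : ℝ}
    (hS : ∑ y ∈ A, κ y * (ρ y * u y ^ 2) ≤ S) (hT : ∑ y ∈ A, κ y * (ρ' y * v y ^ 2) ≤ T) :
    ∑ y ∈ A, |u y| * |v y| * (κ y * √(ρ y * ρ' y)) ≤ √S * √T := by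
  have h1 : ∀ y ∈ A, |u y| * |v y| * (κ y * √(ρ y * ρ' y)) =
      (√(κ y) * √(ρ y) * |u y|) * (√(κ y) * √(ρ' y) * |v y|) := by
    intro y hy
    rw [Real.sqrt_mul (hρ y hy)]
    have : κ y = √(κ y) * √(κ y) := (Real.mul_self_sqrt (hκ y hy)).symm
    calc |u y| * |v y| * (κ y * (√(ρ y) * √(ρ' y)))
        = |u y| * |v y| * ((√(κ y) * √(κ y)) * (√(ρ y) * √(ρ' y))) := by rw [← this]
      _ = _ := by ring
  rw [Finset.sum_congr rfl h1]
  refine (Real.sum_mul_le_sqrt_mul_sqrt _ _ _).trans ?_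
  refine mul_le_mul (Real.sqrt_le_sqrt ?_) (Real.sqrt_le_sqrt ?_) (Real.sqrt_nonneg _)
    (Real.sqrt_nonneg _)
  · refine le_trans (le_of_eq ?_) hS
    refine Finset.sum_congr rfl fun y hy => ?_
    rw [mul_pow, mul_pow, Real.sq_sqrt (hκ y hy), Real.sq_sqrt (hρ y hy), sq_abs]
    ring
  · refine le_trans (le_of_eq ?_) hT
    refine Finset.sum_congr rfl fun y hy => ?_
    rw [mul_pow, mul_pow, Real.sq_sqrt (hκ y hy), Real.sq_sqrt (hρ' y hy), sq_abs]
    ring

omit [Fintype ι] [DecidableEq ι] in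
theorem exp_sub_one_le (t : ℝ) : |Real.exp t - 1| ≤ Real.exp |t| - 1 := by
  rcases le_total 0 t with h | h
  · rw [abs_of_nonneg h, abs_of_nonneg (by linarith [Real.one_le_exp h])]
  · rw [abs_of_nonpos h, abs_of_nonpos (by linarith [Real.exp_le_one_iff.2 h])]
    have h1 : 2 ≤ Real.exp t + Real.exp (-t) := by
      have h2 : Real.exp t * Real.exp (-t) = 1 := by rw [← Real.exp_add]; simp
      nlinarith [sq_nonneg (Real.exp t - 1), Real.exp_pos t, Real.exp_pos (-t),
        sq_nonneg (Real.exp t - Real.exp (-t)), sq_nonneg (Real.exp t + Real.exp (-t) - 2)]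
    linarith

/-- accretivity: nothing is assumed on `G'` except `hb1` -/
theorem accr (hH : RealSym H0) (hb : ∀ x, (b x).im < 0) (hb' : ∀ x, (b' x).im < 0)
    (A : Finset ι) {κ ρ ρ' φ : ι → ℝ} (hκ : ∀ x ∈ A, 0 < κ x) (hρ : ∀ x ∈ A, 0 < ρ x)
    (hρ' : ∀ x ∈ A, 0 < ρ' x) {l ε : ℝ} (hl : 0 ≤ l) (hε : 0 ≤ ε) (hle : l + ε < 1)
    (ha : ∀ x ∈ A, ∑ y ∈ A, κ y * (ρ y * (rsc H0 b x y).re ^ 2) ≤ l ^ 2 * ρ x)
    (hb1 : ∀ x ∈ A, ∑ y ∈ A, κ y * (ρ' y * ‖rsc H0 b' x y‖ ^ 2) ≤ ρ' x)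
    (hc : ∀ x ∈ A, ∑ y ∈ A, κ y * (ρ y * (‖rsc H0 b x y‖ *
      (Real.exp |φ x - φ y| - 1)) ^ 2) ≤ ε ^ 2 * ρ x)
    {δ f : ι → ℂ} (hδ : ∀ x ∈ A, δ x =
      ∑ y ∈ A, rsc H0 b x y * rsc H0 b' x y * ((κ y : ℂ) * δ y) + f x) :
    (1 - l - ε) ^ 2 * ∑ x ∈ A, κ x * (Real.exp (2 * φ x) * ‖δ x‖ ^ 2) ≤
      ∑ x ∈ A, κ x * (Real.exp (2 * φ x) * ‖f x‖ ^ 2) := by
  set G := rsc H0 b with hG
  set G' := rsc H0 b' with hG'
  set D := ∑ x ∈ A, κ x * (Real.exp (2 * φ x) * ‖δ x‖ ^ 2) with hD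
  set F := ∑ x ∈ A, κ x * (Real.exp (2 * φ x) * ‖f x‖ ^ 2) with hF
  have hD0 : 0 ≤ D := Finset.sum_nonneg fun x hx => mul_nonneg (hκ x hx).le (by positivity)
  have hF0 : 0 ≤ F := Finset.sum_nonneg fun x hx => mul_nonneg (hκ x hx).le (by positivity)
  set V : ι → ℂ := fun x => if x ∈ A then ((Real.exp (φ x) * κ x : ℝ) : ℂ) * δ x else 0 with hV
  have hVA : ∀ x ∈ A, V x = ((Real.exp (φ x) * κ x : ℝ) : ℂ) * δ x := fun x hx => if_pos hx
  have hVn : ∀ x, x ∉ A → V x = 0 := fun x hx => if_neg hx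
  have hee : ∀ x, Real.exp (2 * φ x) = Real.exp (φ x) * Real.exp (φ x) := by
    intro x; rw [← Real.exp_add]; congr 1; ring
  have hVsq : ∀ x ∈ A, ‖V x‖ ^ 2 / κ x = κ x * (Real.exp (2 * φ x) * ‖δ x‖ ^ 2) := by
    intro x hx
    have h0 := hκ x hx
    rw [hVA x hx, norm_mul, Complex.norm_real, Real.norm_eq_abs,
      abs_of_pos (by positivity), hee]
    field_simp
  -- weights
  have hp : ∀ x ∈ A, 0 < κ x * √(ρ x * ρ' x) := fun x hx =>
    mul_pos (hκ x hx) (Real.sqrt_pos.2 (mul_pos (hρ x hx) (hρ' x hx)))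
  have hqp : ∀ x ∈ A, ‖V x‖ ^ 2 * (√(ρ x * ρ' x) / (κ x * √(ρ x * ρ' x))) =
      κ x * (Real.exp (2 * φ x) * ‖δ x‖ ^ 2) := by
    intro x hx
    rw [← hVsq x hx]
    have h1 : 0 < √(ρ x * ρ' x) := Real.sqrt_pos.2 (mul_pos (hρ x hx) (hρ' x hx))
    have h2 := hκ x hx
    field_simp
  have hG's : ∀ x ∈ A, ∑ y ∈ A, κ y * (ρ' y * (G' x y).re ^ 2) ≤ ρ' x := by
    intro x hx
    refine le_trans (Finset.sum_le_sum fun y hy => ?_) (hb1 x hx)
    refine mul_le_mul_of_nonneg_left (mul_le_mul_of_nonneg_left ?_ (hρ' y hy).le) (hκ y hy).le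
    rw [← sq_abs]
    exact pow_le_pow_left₀ (abs_nonneg _) (Complex.abs_re_le_norm _) 2
  -- the main part
  have hmain : (∑ x ∈ A, ∑ y ∈ A, star (V x) * (G x y * G' x y) * V y).re ≤ l * D := by
    have e1 : ∑ x ∈ A, ∑ y ∈ A, star (V x) * (G x y * G' x y) * V y =
        ∑ x, ∑ y, star (V x) * (G x y * G' x y) * V y := by
      rw [← Finset.sum_subset (Finset.subset_univ A)]
      · refine Finset.sum_congr rfl fun x _ => ?_
        rw [← Finset.sum_subset (Finset.subset_univ A)]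
        intro y _ hy
        rw [hVn y hy, mul_zero]
      · intro x _ hx
        refine Finset.sum_eq_zero fun y _ => ?_
        rw [hVn x hx, star_zero, zero_mul, zero_mul]
    have e2 : ∑ x, ∑ y, |(G x y).re| * |(G' x y).re| * (‖V x‖ * ‖V y‖) =
        ∑ x ∈ A, ∑ y ∈ A, |(G x y).re| * |(G' x y).re| * (‖V x‖ * ‖V y‖) := by
      rw [← Finset.sum_subset (Finset.subset_univ A)]
      · refine Finset.sum_congr rfl fun x _ => ?_
        rw [← Finset.sum_subset (Finset.subset_univ A)]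
        intro y _ hy
        rw [hVn y hy, norm_zero, mul_zero, mul_zero]
      · intro x _ hx
        refine Finset.sum_eq_zero fun y _ => ?_
        rw [hVn x hx, norm_zero, zero_mul, mul_zero]
    rw [e1]
    refine (had_re hH hb hb' V).trans ?_
    rw [← hG, ← hG', e2]
    refine (schur_two A (M := fun x y => |(G x y).re| * |(G' x y).re|)
      (fun x y => by positivity) (fun x y => by
        simp only [hG, hG', rsc_symm hH b x y, rsc_symm hH b' x y])
      (p := fun x => κ x * √(ρ x * ρ' x)) (q := fun x => √(ρ x * ρ' x))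
      (α := fun x => ‖V x‖) hp (t := l) ?_).trans (le_of_eq ?_)
    · intro x hx
      refine (cs_two A (fun y hy => (hκ y hy).le) (fun y hy => (hρ y hy).le)
        (fun y hy => (hρ' y hy).le) (ha x hx) (hG's x hx)).trans (le_of_eq ?_)
      rw [Real.sqrt_mul (sq_nonneg l), Real.sqrt_sq hl, Real.sqrt_mul (hρ x hx).le]
      ring
    · congr 1
      exact Finset.sum_congr rfl fun x hx => hqp x hx
  -- the weight error
  have herr : ‖∑ x ∈ A, ∑ y ∈ A, star (V x) * (G x y * G' x y) * V y *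
      ((Real.exp (φ x - φ y) - 1 : ℝ) : ℂ)‖ ≤ ε * D := by
    have e1 : ‖∑ x ∈ A, ∑ y ∈ A, star (V x) * (G x y * G' x y) * V y *
        ((Real.exp (φ x - φ y) - 1 : ℝ) : ℂ)‖ ≤
        ∑ x ∈ A, ∑ y ∈ A, ‖G x y‖ * (Real.exp |φ x - φ y| - 1) * ‖G' x y‖ *
          (‖V x‖ * ‖V y‖) := by
      refine (norm_sum_le _ _).trans (Finset.sum_le_sum fun x _ => ?_)
      refine (norm_sum_le _ _).trans (Finset.sum_le_sum fun y _ => ?_)
      rw [norm_mul, norm_mul, norm_mul, norm_mul, norm_star, Complex.norm_real, Real.norm_eq_abs]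
      calc ‖V x‖ * (‖G x y‖ * ‖G' x y‖) * ‖V y‖ * |Real.exp (φ x - φ y) - 1|
          ≤ ‖V x‖ * (‖G x y‖ * ‖G' x y‖) * ‖V y‖ * (Real.exp |φ x - φ y| - 1) :=
            mul_le_mul_of_nonneg_left (exp_sub_one_le _) (by positivity)
        _ = _ := by ring
    refine e1.trans ?_
    have e0 : ∀ x y, 0 ≤ Real.exp |φ x - φ y| - 1 := fun x y => by
      linarith [Real.one_le_exp (abs_nonneg (φ x - φ y))]
    refine (schur_two A (M := fun x y => ‖G x y‖ * (Real.exp |φ x - φ y| - 1) * ‖G' x y‖)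
      (fun x y => mul_nonneg (mul_nonneg (norm_nonneg _) (e0 x y)) (norm_nonneg _))
      (fun x y => by
        simp only [hG, hG', rsc_symm hH b x y, rsc_symm hH b' x y, abs_sub_comm (φ x) (φ y)])
      (p := fun x => κ x * √(ρ x * ρ' x)) (q := fun x => √(ρ x * ρ' x))
      (α := fun x => ‖V x‖) hp (t := ε) ?_).trans (le_of_eq ?_)
    · intro x hx
      have h5 := cs_two A (fun y hy => (hκ y hy).le) (fun y hy => (hρ y hy).le)
        (fun y hy => (hρ' y hy).le) (u := fun y => ‖G x y‖ * (Real.exp |φ x - φ y| - 1))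
        (v := fun y => ‖G' x y‖) (hc x hx) (hb1 x hx)
      refine le_trans (le_of_eq ?_) (h5.trans (le_of_eq ?_))
      · refine Finset.sum_congr rfl fun y _ => ?_
        rw [abs_of_nonneg (mul_nonneg (norm_nonneg _) (e0 x y)), abs_of_nonneg (norm_nonneg _)]
      · rw [Real.sqrt_mul (sq_nonneg ε), Real.sqrt_sq hε, Real.sqrt_mul (hρ x hx).le]
        ring
    · congr 1
      exact Finset.sum_congr rfl fun x hx => hqp x hx
  -- the source
  have hsrc : ‖∑ x ∈ A, ((κ x * Real.exp (2 * φ x) : ℝ) : ℂ) * (star (δ x) * f x)‖ ≤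
      √D * √F := by
    refine (norm_sum_le _ _).trans ?_
    have e1 : ∀ x ∈ A, ‖((κ x * Real.exp (2 * φ x) : ℝ) : ℂ) * (star (δ x) * f x)‖ =
        (√(κ x) * Real.exp (φ x) * ‖δ x‖) * (√(κ x) * Real.exp (φ x) * ‖f x‖) := by
      intro x hx
      rw [norm_mul, norm_mul, norm_star, Complex.norm_real, Real.norm_eq_abs,
        abs_of_pos (mul_pos (hκ x hx) (Real.exp_pos _)), hee]
      have : κ x = √(κ x) * √(κ x) := (Real.mul_self_sqrt (hκ x hx).le).symm
      calc κ x * (Real.exp (φ x) * Real.exp (φ x)) * (‖δ x‖ * ‖f x‖)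
          = (√(κ x) * √(κ x)) * (Real.exp (φ x) * Real.exp (φ x)) * (‖δ x‖ * ‖f x‖) := by
            rw [← this]
        _ = _ := by ring
    rw [Finset.sum_congr rfl e1]
    refine (Real.sum_mul_le_sqrt_mul_sqrt _ _ _).trans (le_of_eq ?_)
    congr 2
    · refine Finset.sum_congr rfl fun x hx => ?_
      rw [mul_pow, mul_pow, Real.sq_sqrt (hκ x hx).le, hee]
      ring
    · refine Finset.sum_congr rfl fun x hx => ?_
      rw [mul_pow, mul_pow, Real.sq_sqrt (hκ x hx).le, hee]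
      ring
  -- the identity
  have hid : ((D : ℝ) : ℂ) = ∑ x ∈ A, ∑ y ∈ A, star (V x) * (G x y * G' x y) * V y +
      ∑ x ∈ A, ∑ y ∈ A, star (V x) * (G x y * G' x y) * V y *
        ((Real.exp (φ x - φ y) - 1 : ℝ) : ℂ) +
      ∑ x ∈ A, ((κ x * Real.exp (2 * φ x) : ℝ) : ℂ) * (star (δ x) * f x) := by
    rw [← Finset.sum_add_distrib, ← Finset.sum_add_distrib, hD, Complex.ofReal_sum]
    refine Finset.sum_congr rfl fun x hx => ?_
    have e1 : ((κ x * (Real.exp (2 * φ x) * ‖δ x‖ ^ 2) : ℝ) : ℂ) =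
        ((κ x * Real.exp (2 * φ x) : ℝ) : ℂ) * (star (δ x) * δ x) := by
      rw [RCLike.star_def, Complex.conj_mul']
      push_cast
      ring
    have e5 : star (δ x) * δ x = star (δ x) * (∑ y ∈ A, G x y * G' x y * ((κ y : ℂ) * δ y) +
        f x) := by rw [← hδ x hx]
    rw [e1, e5, mul_add, mul_add]
    congr 1
    rw [Finset.mul_sum, Finset.mul_sum, ← Finset.sum_add_distrib]
    refine Finset.sum_congr rfl fun y hy => ?_
    rw [hVA x hx, hVA y hy, star_mul', hee]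
    have e2 : star ((Real.exp (φ x) * κ x : ℝ) : ℂ) = ((Real.exp (φ x) * κ x : ℝ) : ℂ) := by
      rw [RCLike.star_def, Complex.conj_ofReal]
    rw [e2]
    have e3 : Real.exp (φ x) = Real.exp (φ y) * Real.exp (φ x - φ y) := by
      rw [← Real.exp_add]; congr 1; ring
    have e4 : ((Real.exp (φ x) : ℝ) : ℂ) =
        ((Real.exp (φ y) : ℝ) : ℂ) * ((Real.exp (φ x - φ y) : ℝ) : ℂ) := by
      rw [← Complex.ofReal_mul, ← e3]
    push_cast
    push_cast at e4
    calc (κ x : ℂ) * (Complex.exp (φ x) * Complex.exp (φ x)) *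
          (star (δ x) * (G x y * G' x y * ((κ y : ℂ) * δ y)))
        = (κ x : ℂ) * (Complex.exp (φ x) * (Complex.exp (φ y) * Complex.exp (φ x - φ y))) *
          (star (δ x) * (G x y * G' x y * ((κ y : ℂ) * δ y))) := by rw [← e4]
      _ = _ := by ring
  have hre : D ≤ l * D + ε * D + √D * √F := by
    have h1 := congrArg Complex.re hid
    rw [Complex.ofReal_re, Complex.add_re, Complex.add_re] at h1
    have h2 := (Complex.re_le_norm _).trans herr
    have h3 := (Complex.re_le_norm _).trans hsrc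
    linarith
  have h1 : (1 - l - ε) * D ≤ √D * √F := by nlinarith
  have h2 : 0 < 1 - l - ε := by linarith
  rcases hD0.lt_or_eq with h3 | h3
  · have h4 : 0 < √D := Real.sqrt_pos.2 h3
    have h5 : (1 - l - ε) * √D ≤ √F := by
      have : (1 - l - ε) * √D * √D ≤ √F * √D := by
        rw [mul_assoc, Real.mul_self_sqrt hD0]
        linarith
      exact le_of_mul_le_mul_right this h4
    have h6 := pow_le_pow_left₀ (by positivity) h5 2
    rw [mul_pow, Real.sq_sqrt hD0, Real.sq_sqrt hF0] at h6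
    exact h6
  · rw [← h3, mul_zero]
    exact hF0

end Pool.Agent.ANM
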