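import Pool.Agent.ANM.Agmon
import Pool.Agent.ANM.Accr

/-! # ANM Compare: two self-consistent media with the same data near a point are exponentially close.

`G = rsc H0 b`, `G' = rsc H0 b'`.  On the set `A` (active sites near the point) `b' - b = κ (G_xx - G'_xx)` (both are
self-consistent with the same potential), off `A` either `b' = b` or the weight `w` is at least `L`.
Only `G` is assumed to be good; `G'` is arbitrary (dissipative).

* `compare`: `(1-l-ε)² ∑_A κ e^{-2 t w} |G_xx - G'_xx|² ≤ 2 C1 Cb² e^{-2 t L} ∑_A κ Im G'_xx`.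
* `kap_sc`: `κ_z |G'_zz|² ≤ 1` on `A`.
* `compare_ent`: entries `G'_xy - G_xy`.
-/

open Matrix Finset

noncomputable section

namespace Pool.Agent.ANM

open Pool.Agent.Kin Pool.Agent.APS

variable {ι : Type} [Fintype ι] [DecidableEq ι] {H0 : Matrix ι ι ℂ} {b b' : ι → ℂ} {w : ι → ℝ}

/-- difference of two resolvents, entrywise -/
theorem rsc_sub_ent (hH : RealSym H0) (hb : ∀ x, (b x).im < 0) (hb' : ∀ x, (b' x).im < 0)
    (x y : ι) : rsc H0 b x y - rsc H0 b' x y =
      ∑ z, rsc H0 b x z * (b' z - b z) * rsc H0 b' z y := by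
  have h1 := rsc_sub hH hb hb'
  have h2 := congrFun (congrFun h1 x) y
  rw [Matrix.sub_apply] at h2
  rw [h2, Matrix.mul_apply]
  refine Finset.sum_congr rfl fun z _ => ?_
  rw [Matrix.mul_diagonal]

omit [Fintype ι] [DecidableEq ι] in
theorem exp_mul_sub_one_le {t s : ℝ} (ht : 0 ≤ t) (ht1 : t ≤ 1) :
    Real.exp (t * s) - 1 ≤ t * Real.exp s := by
  have h := convexOn_exp.2 (Set.mem_univ s) (Set.mem_univ 0) ht (by linarith : 0 ≤ 1 - t)
    (by ring)
  simp only [smul_eq_mul, mul_zero, add_zero, Real.exp_zero, mul_one] at h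
  linarith

/-- Ward bound for one entry -/
theorem ward_ent (hH : RealSym H0) (hb : ∀ x, (b x).im < 0) (x y : ι) :
    -(b y).im * ‖rsc H0 b x y‖ ^ 2 ≤ (rsc H0 b x x).im := by
  rw [rsc_ward hH hb x]
  have := Finset.single_le_sum (f := fun y => ‖rsc H0 b x y‖ ^ 2 * -(b y).im)
    (fun z _ => mul_nonneg (sq_nonneg _) (by have := hb z; linarith)) (Finset.mem_univ y)
  simpa [mul_comm] using this

/-- the source coming from outside: general bilinear bound -/
theorem out_le (hH : RealSym H0) (hb : ∀ x, (b x).im < 0) (hb' : ∀ x, (b' x).im < 0)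
    (hw : AdmW H0 b w) {L Cb : ℝ} (hCb : 0 ≤ Cb) (B : Finset ι)
    (hout : ∀ z ∈ B, b' z = b z ∨ L ≤ w z)
    (hB : ∀ z ∈ B, ‖b' z - b z‖ ^ 2 ≤ Cb ^ 2 * (-(b z).im * -(b' z).im)) (x y : ι) :
    ‖∑ z ∈ B, rsc H0 b x z * (b' z - b z) * rsc H0 b' z y‖ ≤
      Cb * (√(2 * ‖rsc H0 b x x‖) * Real.exp (w x - L) * √((rsc H0 b' y y).im)) := by
  have hn : ∀ z, 0 ≤ -(b z).im := fun z => by have := hb z; linarith
  have hn' : ∀ z, 0 ≤ -(b' z).im := fun z => by have := hb' z; linarith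
  have h1 : ∀ z ∈ B, ‖rsc H0 b x z * (b' z - b z) * rsc H0 b' z y‖ ≤
      Cb * Real.exp (-L) * ((√(-(b z).im) * Real.exp (w z) * ‖rsc H0 b x z‖) *
        (√(-(b' z).im) * ‖rsc H0 b' y z‖)) := by
    intro z hz
    rw [norm_mul, norm_mul, rsc_symm hH b' z y]
    rcases hout z hz with h | h
    · rw [h, sub_self, norm_zero, mul_zero, zero_mul]
      positivity
    · have e1 : ‖b' z - b z‖ ≤ Cb * (√(-(b z).im) * √(-(b' z).im)) := by
        rw [← Real.sqrt_mul (hn z)]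
        have := Real.sqrt_le_sqrt (hB z hz)
        rwa [Real.sqrt_sq (norm_nonneg _), Real.sqrt_mul (sq_nonneg _), Real.sqrt_sq hCb] at this
      have e2 : 1 ≤ Real.exp (-L) * Real.exp (w z) := by
        rw [← Real.exp_add]
        exact Real.one_le_exp (by linarith)
      calc ‖rsc H0 b x z‖ * ‖b' z - b z‖ * ‖rsc H0 b' y z‖
          ≤ ‖rsc H0 b x z‖ * (Cb * (√(-(b z).im) * √(-(b' z).im))) * ‖rsc H0 b' y z‖ := by
            gcongr
        _ = Cb * ((√(-(b z).im) * ‖rsc H0 b x z‖) * (√(-(b' z).im) * ‖rsc H0 b' y z‖)) * 1 := by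
            ring
        _ ≤ Cb * ((√(-(b z).im) * ‖rsc H0 b x z‖) * (√(-(b' z).im) * ‖rsc H0 b' y z‖)) *
            (Real.exp (-L) * Real.exp (w z)) := by
            refine mul_le_mul_of_nonneg_left e2 (by positivity)
        _ = _ := by ring
  refine (norm_sum_le _ _).trans ((Finset.sum_le_sum h1).trans ?_)
  rw [← Finset.mul_sum]
  have h2 : ∑ z ∈ B, (√(-(b z).im) * Real.exp (w z) * ‖rsc H0 b x z‖) *
      (√(-(b' z).im) * ‖rsc H0 b' y z‖) ≤
      √(2 * (Real.exp (2 * w x) * ‖rsc H0 b x x‖)) * √((rsc H0 b' y y).im) := by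
    refine (Real.sum_mul_le_sqrt_mul_sqrt _ _ _).trans ?_
    refine mul_le_mul (Real.sqrt_le_sqrt ?_) (Real.sqrt_le_sqrt ?_) (Real.sqrt_nonneg _)
      (Real.sqrt_nonneg _)
    · refine le_trans ?_ (agmon_row hH hb hw x)
      refine le_trans (Finset.sum_le_sum_of_subset_of_nonneg (Finset.subset_univ B)
        fun z _ _ => sq_nonneg _) (Finset.sum_le_sum fun z _ => le_of_eq ?_)
      rw [mul_pow, mul_pow, Real.sq_sqrt (hn z)]
      have : Real.exp (2 * w z) = Real.exp (w z) ^ 2 := by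
        rw [sq, ← Real.exp_add]; congr 1; ring
      rw [this]
      ring
    · rw [rsc_ward hH hb' y]
      refine le_trans (Finset.sum_le_sum_of_subset_of_nonneg (Finset.subset_univ B)
        fun z _ _ => sq_nonneg _) (Finset.sum_le_sum fun z _ => le_of_eq ?_)
      rw [mul_pow, Real.sq_sqrt (hn' z)]
      ring
  have h3 : √(2 * (Real.exp (2 * w x) * ‖rsc H0 b x x‖)) =
      Real.exp (w x) * √(2 * ‖rsc H0 b x x‖) := by
    have : 2 * (Real.exp (2 * w x) * ‖rsc H0 b x x‖) =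
        Real.exp (w x) ^ 2 * (2 * ‖rsc H0 b x x‖) := by
      have : Real.exp (2 * w x) = Real.exp (w x) ^ 2 := by
        rw [sq, ← Real.exp_add]; congr 1; ring
      rw [this]; ring
    rw [this, Real.sqrt_mul (sq_nonneg _), Real.sqrt_sq (Real.exp_pos _).le]
  rw [h3] at h2
  calc Cb * Real.exp (-L) * ∑ z ∈ B, (√(-(b z).im) * Real.exp (w z) * ‖rsc H0 b x z‖) *
      (√(-(b' z).im) * ‖rsc H0 b' y z‖)
      ≤ Cb * Real.exp (-L) * (Real.exp (w x) * √(2 * ‖rsc H0 b x x‖) *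
        √((rsc H0 b' y y).im)) := mul_le_mul_of_nonneg_left h2 (by positivity)
    _ = _ := by
      rw [show w x - L = w x + -L by ring, Real.exp_add]
      ring

/-- `κ |G'_zz|² ≤ 1` if the absorption at `z` is at least `κ Im G'_zz` -/
theorem kap_sc (hH : RealSym H0) (hb' : ∀ x, (b' x).im < 0) {k : ℝ} {z : ι}
    (hk : k * (rsc H0 b' z z).im ≤ -(b' z).im) : k * ‖rsc H0 b' z z‖ ^ 2 ≤ 1 := by
  have h1 := ward_ent hH hb' z z
  have h2 := rsc_im hH hb' z
  have h3 : (k * ‖rsc H0 b' z z‖ ^ 2) * (rsc H0 b' z z).im ≤ 1 * (rsc H0 b' z z).im := by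
    rw [one_mul]
    refine le_trans ?_ h1
    calc (k * ‖rsc H0 b' z z‖ ^ 2) * (rsc H0 b' z z).im
        = (k * (rsc H0 b' z z).im) * ‖rsc H0 b' z z‖ ^ 2 := by ring
      _ ≤ _ := mul_le_mul_of_nonneg_right hk (sq_nonneg _)
  exact le_of_mul_le_mul_right h3 h2

/-- comparison of two self-consistent media -/
theorem compare (hH : RealSym H0) (hb : ∀ x, (b x).im < 0) (hb' : ∀ x, (b' x).im < 0)
    (hw : AdmW H0 b w) (A : Finset ι) {κ : ι → ℝ} (hκ : ∀ x ∈ A, 0 < κ x)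
    (hk : ∀ x ∈ A, κ x * (rsc H0 b x x).im ≤ -(b x).im)
    (hk' : ∀ x ∈ A, κ x * (rsc H0 b' x x).im ≤ -(b' x).im)
    (hdif : ∀ x ∈ A, b' x - b x = (κ x : ℂ) * (rsc H0 b x x - rsc H0 b' x x))
    {L Cb C1 c1 t l ε : ℝ} (hCb : 0 ≤ Cb) (hC0 : 0 ≤ C1)
    (hout : ∀ z, z ∉ A → b' z = b z ∨ L ≤ w z)
    (hB : ∀ z, z ∉ A → ‖b' z - b z‖ ^ 2 ≤ Cb ^ 2 * (-(b z).im * -(b' z).im))
    (hwA : ∀ x ∈ A, w x ≤ L) (ht : 0 ≤ t) (ht1 : t ≤ 1)
    (h3 : ∀ x ∈ A, ∑ y ∈ A, κ y * ((rsc H0 b y y).im * (rsc H0 b x y).re ^ 2) ≤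
      l ^ 2 * (rsc H0 b x x).im)
    (hC1 : ∀ x ∈ A, ‖rsc H0 b x x‖ ≤ C1) (hc1 : ∀ x ∈ A, c1 ≤ (rsc H0 b x x).im)
    (hl : 0 ≤ l) (hε : 0 ≤ ε) (hle : l + ε < 1) (htε : 4 * t ^ 2 * C1 ≤ ε ^ 2 * c1) :
    (1 - l - ε) ^ 2 * ∑ x ∈ A, κ x * (Real.exp (-(2 * t * w x)) *
        ‖rsc H0 b x x - rsc H0 b' x x‖ ^ 2) ≤
      2 * C1 * Cb ^ 2 * Real.exp (-(2 * t * L)) * ∑ x ∈ A, κ x * (rsc H0 b' x x).im := by
  set G := rsc H0 b with hG
  set G' := rsc H0 b' with hG'
  set f : ι → ℂ := fun x => ∑ z ∈ univ \ A, G x z * (b' z - b z) * G' z x with hf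
  have hδ : ∀ x ∈ A, (fun x => G x x - G' x x) x =
      ∑ y ∈ A, G x y * G' x y * ((κ y : ℂ) * (fun x => G x x - G' x x) y) + f x := by
    intro x hx
    have h1 := rsc_sub_ent hH hb hb' x x
    simp only [← hG, ← hG'] at h1
    change G x x - G' x x = _
    rw [h1, hf, ← Finset.sum_sdiff (Finset.subset_univ A), add_comm]
    congr 1
    refine Finset.sum_congr rfl fun y hy => ?_
    rw [hdif y hy]
    simp only [hG', rsc_symm hH b' y x]
    ring
  have hfb : ∀ x, ‖f x‖ ^ 2 ≤ Cb ^ 2 * (2 * ‖G x x‖ * Real.exp (2 * (w x - L)) * (G' x x).im) := by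
    intro x
    have h1 := out_le hH hb hb' hw hCb (univ \ A) (fun z hz => hout z (by simpa using hz))
      (fun z hz => hB z (by simpa using hz)) x x
    have h2 := pow_le_pow_left₀ (norm_nonneg _) h1 2
    have e1 : Real.exp (2 * (w x - L)) = Real.exp (w x - L) ^ 2 := by
      rw [sq, ← Real.exp_add]; congr 1; ring
    refine h2.trans (le_of_eq ?_)
    rw [mul_pow, mul_pow, mul_pow, Real.sq_sqrt (by positivity),
      Real.sq_sqrt (rsc_im hH hb' x).le, e1]
  have hac := accr hH hb hb' A (κ := κ) (ρ := fun x => (G x x).im) (ρ' := fun x => (G' x x).im)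
    (φ := fun x => -(t * w x)) hκ (fun x _ => rsc_im hH hb x) (fun x _ => rsc_im hH hb' x)
    hl hε hle h3 ?_ ?_ (δ := fun x => G x x - G' x x) (f := f) hδ
  · have e1 : ∀ x, Real.exp (2 * -(t * w x)) = Real.exp (-(2 * t * w x)) := by
      intro x; congr 1; ring
    simp only [e1] at hac
    refine hac.trans ?_
    rw [Finset.mul_sum]
    refine Finset.sum_le_sum fun x hx => ?_
    have h1 := hfb x
    have h2 := hC1 x hx
    have h4 := (rsc_im hH hb' x).le
    have h5 : Real.exp (-(2 * t * w x)) * Real.exp (2 * (w x - L)) ≤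
        Real.exp (-(2 * t * L)) := by
      rw [← Real.exp_add]
      apply Real.exp_le_exp.2
      nlinarith [hwA x hx, mul_nonneg (sub_nonneg.2 ht1) (sub_nonneg.2 (hwA x hx))]
    have h6 := hκ x hx
    calc κ x * (Real.exp (-(2 * t * w x)) * ‖f x‖ ^ 2)
        ≤ κ x * (Real.exp (-(2 * t * w x)) *
          (Cb ^ 2 * (2 * C1 * Real.exp (2 * (w x - L)) * (G' x x).im))) := by
          refine mul_le_mul_of_nonneg_left (mul_le_mul_of_nonneg_left (h1.trans ?_)
            (Real.exp_pos _).le) h6.le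
          refine mul_le_mul_of_nonneg_left ?_ (sq_nonneg _)
          refine mul_le_mul_of_nonneg_right ?_ h4
          exact mul_le_mul_of_nonneg_right (by linarith) (Real.exp_pos _).le
      _ = 2 * C1 * Cb ^ 2 * (κ x * (G' x x).im) *
          (Real.exp (-(2 * t * w x)) * Real.exp (2 * (w x - L))) := by ring
      _ ≤ 2 * C1 * Cb ^ 2 * (κ x * (G' x x).im) * Real.exp (-(2 * t * L)) :=
          mul_le_mul_of_nonneg_left h5 (by positivity)
      _ = _ := by ring
  · intro x hx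
    have h1 := rsc_ward hH hb' x
    rw [← hG'] at h1
    change _ ≤ (G' x x).im
    rw [h1]
    refine le_trans ?_ (Finset.sum_le_sum_of_subset_of_nonneg (Finset.subset_univ A)
      fun z _ _ => mul_nonneg (sq_nonneg _) (by have := hb' z; linarith))
    refine Finset.sum_le_sum fun y hy => ?_
    have h2 := mul_le_mul_of_nonneg_right (hk' y hy) (sq_nonneg ‖G' x y‖)
    calc κ y * ((G' y y).im * ‖G' x y‖ ^ 2) = κ y * (G' y y).im * ‖G' x y‖ ^ 2 := by ring
      _ ≤ _ := by rw [mul_comm (‖G' x y‖ ^ 2)]; exact h2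
  · intro x hx
    have h1 := agmon_two hH hb hw x
    have h2 : ∑ y ∈ A, κ y * ((G y y).im * (‖G x y‖ *
        (Real.exp |(-(t * w x)) - (-(t * w y))| - 1)) ^ 2) ≤
        t ^ 2 * ∑ y, -(b y).im * (Real.exp (2 * |w x - w y|) * ‖G x y‖ ^ 2) := by
      rw [Finset.mul_sum]
      refine le_trans ?_ (Finset.sum_le_sum_of_subset_of_nonneg (Finset.subset_univ A)
        fun z _ _ => mul_nonneg (sq_nonneg _) (mul_nonneg (by have := hb z; linarith)
          (by positivity)))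
      refine Finset.sum_le_sum fun y hy => ?_
      have e1 : |(-(t * w x)) - (-(t * w y))| = t * |w x - w y| := by
        rw [show (-(t * w x)) - (-(t * w y)) = -(t * (w x - w y)) by ring, abs_neg, abs_mul,
          abs_of_nonneg ht]
      have e2 : 0 ≤ Real.exp (t * |w x - w y|) - 1 := by
        have := Real.one_le_exp (mul_nonneg ht (abs_nonneg (w x - w y)))
        linarith
      have e3 : (Real.exp (t * |w x - w y|) - 1) ^ 2 ≤ t ^ 2 * Real.exp (2 * |w x - w y|) := by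
        have := pow_le_pow_left₀ e2 (exp_mul_sub_one_le (s := |w x - w y|) ht ht1) 2
        refine this.trans (le_of_eq ?_)
        rw [mul_pow, sq (Real.exp _), ← Real.exp_add]
        congr 2
        ring
      rw [e1, mul_pow]
      calc κ y * ((G y y).im * (‖G x y‖ ^ 2 * (Real.exp (t * |w x - w y|) - 1) ^ 2))
          = (κ y * (G y y).im) * (‖G x y‖ ^ 2 * (Real.exp (t * |w x - w y|) - 1) ^ 2) := by ring
        _ ≤ -(b y).im * (‖G x y‖ ^ 2 * (Real.exp (t * |w x - w y|) - 1) ^ 2) :=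
            mul_le_mul_of_nonneg_right (hk y hy) (by positivity)
        _ ≤ -(b y).im * (‖G x y‖ ^ 2 * (t ^ 2 * Real.exp (2 * |w x - w y|))) := by
            refine mul_le_mul_of_nonneg_left (mul_le_mul_of_nonneg_left e3 (sq_nonneg _)) ?_
            have := hb y
            linarith
        _ = _ := by ring
    refine h2.trans ?_
    calc t ^ 2 * ∑ y, -(b y).im * (Real.exp (2 * |w x - w y|) * ‖G x y‖ ^ 2)
        ≤ t ^ 2 * (4 * ‖G x x‖) := mul_le_mul_of_nonneg_left h1 (sq_nonneg _)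
      _ ≤ t ^ 2 * (4 * C1) := by
          refine mul_le_mul_of_nonneg_left ?_ (sq_nonneg _)
          linarith [hC1 x hx]
      _ = 4 * t ^ 2 * C1 := by ring
      _ ≤ ε ^ 2 * c1 := htε
      _ ≤ _ := mul_le_mul_of_nonneg_left (hc1 x hx) (sq_nonneg _)

/-- the entries of the difference -/
theorem compare_ent (hH : RealSym H0) (hb : ∀ x, (b x).im < 0) (hb' : ∀ x, (b' x).im < 0)
    (hw : AdmW H0 b w) (A : Finset ι) {κ : ι → ℝ} {km : ℝ} (hkm : 0 < km)
    (hκ : ∀ x ∈ A, km ≤ κ x)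
    (hk : ∀ x ∈ A, κ x * (rsc H0 b x x).im ≤ -(b x).im)
    (hk' : ∀ x ∈ A, κ x * (rsc H0 b' x x).im ≤ -(b' x).im)
    (hdif : ∀ x ∈ A, b' x - b x = (κ x : ℂ) * (rsc H0 b x x - rsc H0 b' x x))
    {L Cb C1 c1 t e' E : ℝ} (hCb : 0 ≤ Cb)
    (hout : ∀ z, z ∉ A → b' z = b z ∨ L ≤ w z)
    (hB : ∀ z, z ∉ A → ‖b' z - b z‖ ^ 2 ≤ Cb ^ 2 * (-(b z).im * -(b' z).im))
    (hw0 : ∀ x ∈ A, 0 ≤ w x) (ht1 : t ≤ 1)
    (hc : 0 < c1) (hc1 : ∀ x ∈ A, c1 ≤ (rsc H0 b x x).im)
    (hE : ∑ x ∈ A, κ x * (Real.exp (-(2 * t * w x)) *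
        ‖rsc H0 b x x - rsc H0 b' x x‖ ^ 2) ≤ E)
    (x y : ι) (he : 0 < e') (hy : e' ≤ -(b' y).im) (hx : ‖rsc H0 b x x‖ ≤ C1) :
    ‖rsc H0 b x y - rsc H0 b' x y‖ ≤
      √E * (Real.exp (w x) * √(2 * C1 / (c1 * e' * √km))) +
        Cb * (√(2 * ‖rsc H0 b x x‖) * Real.exp (w x - L) * √((rsc H0 b' y y).im)) := by
  set G := rsc H0 b with hG
  set G' := rsc H0 b' with hG'
  have h1 := rsc_sub_ent hH hb hb' x y
  simp only [← hG, ← hG'] at h1
  rw [h1, ← Finset.sum_sdiff (Finset.subset_univ A), add_comm]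
  refine (norm_add_le _ _).trans (add_le_add ?_ ?_)
  · have hκ0 : ∀ z ∈ A, 0 < κ z := fun z hz => hkm.trans_le (hκ z hz)
    have e1 : ∀ z ∈ A, ‖G x z * (b' z - b z) * G' z y‖ =
        (√(κ z) * Real.exp (-(t * w z)) * ‖G z z - G' z z‖) *
          (√(κ z) * Real.exp (t * w z) * ‖G x z‖ * ‖G' z y‖) := by
      intro z hz
      rw [hdif z hz, norm_mul, norm_mul, norm_mul, Complex.norm_real, Real.norm_eq_abs,
        abs_of_pos (hκ0 z hz)]
      have e2 : κ z = √(κ z) * √(κ z) := (Real.mul_self_sqrt (hκ0 z hz).le).symm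
      have e3 : Real.exp (-(t * w z)) * Real.exp (t * w z) = 1 := by
        rw [← Real.exp_add]; simp
      calc ‖G x z‖ * (κ z * ‖G z z - G' z z‖) * ‖G' z y‖
          = ‖G x z‖ * ((√(κ z) * √(κ z)) * ‖G z z - G' z z‖) * ‖G' z y‖ *
            (Real.exp (-(t * w z)) * Real.exp (t * w z)) := by rw [← e2, e3, mul_one]
        _ = _ := by ring
    refine (norm_sum_le _ _).trans ?_
    rw [Finset.sum_congr rfl e1]
    refine (Real.sum_mul_le_sqrt_mul_sqrt _ _ _).trans ?_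
    refine mul_le_mul (Real.sqrt_le_sqrt ?_) ?_ (Real.sqrt_nonneg _) (Real.sqrt_nonneg _)
    · refine le_trans (le_of_eq ?_) hE
      refine Finset.sum_congr rfl fun z hz => ?_
      have e4 : Real.exp (-(2 * t * w z)) = Real.exp (-(t * w z)) ^ 2 := by
        rw [sq, ← Real.exp_add]; congr 1; ring
      rw [mul_pow, mul_pow, Real.sq_sqrt (hκ0 z hz).le, e4]
      ring
    · have e5 : Real.exp (w x) * √(2 * C1 / (c1 * e' * √km)) =
          √(Real.exp (w x) ^ 2 * (2 * C1 / (c1 * e' * √km))) := by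
        rw [Real.sqrt_mul (sq_nonneg _), Real.sqrt_sq (Real.exp_pos _).le]
      rw [e5]
      apply Real.sqrt_le_sqrt
      have hsk : 0 < √km := Real.sqrt_pos.2 hkm
      have h2 : ∀ z ∈ A, ‖G' z y‖ ^ 2 ≤ 1 / (e' * √km) := by
        intro z hz
        have a1 := ward_ent hH hb' z y
        have a2 := kap_sc hH hb' (hk' z hz)
        have a3 : (G' z z).im ≤ 1 / √km := by
          refine (Complex.abs_im_le_norm _ |> (le_abs_self _).trans).trans ?_
          rw [le_div_iff₀ hsk]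
          have a4 : √km * √km = km := Real.mul_self_sqrt hkm.le
          have a5 : (‖G' z z‖ * √km) ^ 2 ≤ 1 := by
            calc (‖G' z z‖ * √km) ^ 2 = km * ‖G' z z‖ ^ 2 := by rw [mul_pow, sq (√km), a4]; ring
              _ ≤ κ z * ‖G' z z‖ ^ 2 := mul_le_mul_of_nonneg_right (hκ z hz) (sq_nonneg _)
              _ ≤ 1 := a2
          exact (sq_le_one_iff₀ (by positivity)).1 a5
        rw [le_div_iff₀ (by positivity)]
        have a6 : e' * ‖G' z y‖ ^ 2 ≤ 1 / √km :=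
          (mul_le_mul_of_nonneg_right hy (sq_nonneg _)).trans (a1.trans a3)
        rw [le_div_iff₀ hsk] at a6
        nlinarith
      have h3 : ∑ z ∈ A, (√(κ z) * Real.exp (t * w z) * ‖G x z‖ * ‖G' z y‖) ^ 2 ≤
          (1 / (c1 * (e' * √km))) * ∑ z, -(b z).im * (Real.exp (2 * w z) * ‖G x z‖ ^ 2) := by
        rw [Finset.mul_sum]
        refine le_trans ?_ (Finset.sum_le_sum_of_subset_of_nonneg (Finset.subset_univ A)
          fun z _ _ => mul_nonneg (by positivity) (mul_nonneg (by have := hb z; linarith)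
            (by positivity)))
        refine Finset.sum_le_sum fun z hz => ?_
        have a1 : κ z ≤ -(b z).im / c1 := by
          rw [le_div_iff₀ hc]
          exact (mul_le_mul_of_nonneg_left (hc1 z hz) (hκ0 z hz).le).trans (hk z hz)
        have a2 : Real.exp (t * w z) ^ 2 ≤ Real.exp (2 * w z) := by
          rw [sq, ← Real.exp_add]
          apply Real.exp_le_exp.2
          nlinarith [mul_le_mul_of_nonneg_right ht1 (hw0 z hz)]
        have a3 : 0 ≤ -(b z).im := by have := hb z; linarith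
        rw [mul_pow, mul_pow, mul_pow, Real.sq_sqrt (hκ0 z hz).le]
        calc κ z * Real.exp (t * w z) ^ 2 * ‖G x z‖ ^ 2 * ‖G' z y‖ ^ 2
            ≤ (-(b z).im / c1) * Real.exp (2 * w z) * ‖G x z‖ ^ 2 * (1 / (e' * √km)) := by
              refine mul_le_mul ?_ (h2 z hz) (sq_nonneg _) (by positivity)
              refine mul_le_mul_of_nonneg_right ?_ (sq_nonneg _)
              exact mul_le_mul a1 a2 (sq_nonneg _) (by positivity)
          _ = _ := by
              field_simp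
      refine h3.trans ?_
      have h4 := agmon_row hH hb hw x
      have h5 : Real.exp (2 * w x) = Real.exp (w x) ^ 2 := by
        rw [sq, ← Real.exp_add]; congr 1; ring
      calc (1 / (c1 * (e' * √km))) * ∑ z, -(b z).im * (Real.exp (2 * w z) * ‖G x z‖ ^ 2)
          ≤ (1 / (c1 * (e' * √km))) * (2 * (Real.exp (2 * w x) * ‖G x x‖)) :=
            mul_le_mul_of_nonneg_left h4 (by positivity)
        _ ≤ (1 / (c1 * (e' * √km))) * (2 * (Real.exp (2 * w x) * C1)) := by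
            refine mul_le_mul_of_nonneg_left ?_ (by positivity)
            exact mul_le_mul_of_nonneg_left (mul_le_mul_of_nonneg_left hx (Real.exp_pos _).le)
              (by norm_num)
        _ = _ := by
            rw [h5]
            field_simp
  · exact out_le hH hb hb' hw hCb (univ \ A) (fun z hz => hout z (by simpa using hz))
      (fun z hz => hB z (by simpa using hz)) x y

/-- comparison of two self-consistent media, polynomial form: all constants are bounded by `K` -/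
theorem compare_main (hH : RealSym H0) (hb : ∀ x, (b x).im < 0) (hb' : ∀ x, (b' x).im < 0)
    (hw : AdmW H0 b w) (A : Finset ι) {κ : ι → ℝ} {K : ℝ} (hK : 1 ≤ K)
    (hκ : ∀ x ∈ A, 1 / K ≤ κ x) (hκ1 : ∀ x ∈ A, κ x ≤ 1) (hA : (A.card : ℝ) ≤ K)
    (hk : ∀ x ∈ A, κ x * (rsc H0 b x x).im ≤ -(b x).im)
    (hk' : ∀ x ∈ A, κ x * (rsc H0 b' x x).im ≤ -(b' x).im)
    (hdif : ∀ x ∈ A, b' x - b x = (κ x : ℂ) * (rsc H0 b x x - rsc H0 b' x x))
    {L t l ε : ℝ} (hL : 0 ≤ L)
    (hout : ∀ z, z ∉ A → b' z = b z ∨ L ≤ w z)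
    (hB : ∀ z, z ∉ A → ‖b' z - b z‖ ^ 2 ≤ K ^ 2 * (-(b z).im * -(b' z).im))
    (hw0 : ∀ x ∈ A, 0 ≤ w x) (hwA : ∀ x ∈ A, w x ≤ L) (ht : 0 ≤ t) (ht1 : t ≤ 1)
    (h3 : ∀ x ∈ A, ∑ y ∈ A, κ y * ((rsc H0 b y y).im * (rsc H0 b x y).re ^ 2) ≤
      l ^ 2 * (rsc H0 b x x).im)
    (hC1 : ∀ x ∈ A, ‖rsc H0 b x x‖ ≤ K) (hc1 : ∀ x ∈ A, 1 / K ≤ (rsc H0 b x x).im)
    (hl : 0 ≤ l) (hε : 0 ≤ ε) (hle : 1 / K ≤ 1 - l - ε) (htε : 4 * t ^ 2 * K ≤ ε ^ 2 * (1 / K))
    (x y : ι) (hy : 1 / K ≤ -(b' y).im) (hx : ‖rsc H0 b x x‖ ≤ K) :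
    ‖rsc H0 b x y - rsc H0 b' x y‖ ≤ 4 * K ^ 5 * Real.exp (w x - t * L) := by
  have hK0 : 0 < K := by linarith
  have hiK : 0 < 1 / K := by positivity
  have hκ0 : ∀ z ∈ A, 0 < κ z := fun z hz => hiK.trans_le (hκ z hz)
  set G := rsc H0 b with hG
  set G' := rsc H0 b' with hG'
  have hG'im : ∀ z, 0 < (G' z z).im := fun z => rsc_im hH hb' z
  have hcmp := compare hH hb hb' hw A hκ0 hk hk' hdif hK0.le hK0.le hout hB hwA ht ht1 h3 hC1 hc1
    hl hε (by linarith) htε
  have hS : ∑ z ∈ A, κ z * (G' z z).im ≤ K := by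
    refine le_trans ?_ hA
    rw [Finset.card_eq_sum_ones, Nat.cast_sum]
    refine Finset.sum_le_sum fun z hz => ?_
    have a2 := kap_sc hH hb' (hk' z hz)
    have a3 : (G' z z).im ≤ ‖G' z z‖ := (le_abs_self _).trans (Complex.abs_im_le_norm _)
    have a4 : (κ z * ‖G' z z‖) ^ 2 ≤ 1 := by
      calc (κ z * ‖G' z z‖) ^ 2 = κ z * (κ z * ‖G' z z‖ ^ 2) := by ring
        _ ≤ 1 * 1 := mul_le_mul (hκ1 z hz) a2
            (mul_nonneg (hκ0 z hz).le (sq_nonneg _)) (by norm_num)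
        _ = 1 := by norm_num
    have a5 : κ z * ‖G' z z‖ ≤ 1 :=
      (sq_le_one_iff₀ (mul_nonneg (hκ0 z hz).le (norm_nonneg _))).1 a4
    push_cast
    exact (mul_le_mul_of_nonneg_left a3 (hκ0 z hz).le).trans a5
  set E := ∑ z ∈ A, κ z * (Real.exp (-(2 * t * w z)) * ‖G z z - G' z z‖ ^ 2) with hE
  have hE0 : 0 ≤ E := Finset.sum_nonneg fun z hz => mul_nonneg (hκ0 z hz).le (by positivity)
  have hent := compare_ent hH hb hb' hw A hiK hκ hk hk' hdif hK0.le hout hB hw0 ht1 hiK hc1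
    (le_refl E) x y hiK hy hx
  refine hent.trans ?_
  have hyy : (G' y y).im ≤ K := by
    have a1 := ward_ent hH hb' y y
    have a3 : (G' y y).im ≤ ‖G' y y‖ := (le_abs_self _).trans (Complex.abs_im_le_norm _)
    have a4 : 1 / K * ‖G' y y‖ ^ 2 ≤ ‖G' y y‖ :=
      (mul_le_mul_of_nonneg_right hy (sq_nonneg _)).trans (a1.trans a3)
    have a5 : ‖G' y y‖ ≤ K := by
      by_contra hcon
      rw [not_le] at hcon
      have a6 : 0 < ‖G' y y‖ := hK0.trans hcon
      have a7 : 1 < 1 / K * ‖G' y y‖ := by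
        rw [one_div, ← div_eq_inv_mul, one_lt_div hK0]
        exact hcon
      have a8 : ‖G' y y‖ < 1 / K * ‖G' y y‖ ^ 2 := by
        calc ‖G' y y‖ = 1 * ‖G' y y‖ := by ring
          _ < (1 / K * ‖G' y y‖) * ‖G' y y‖ := mul_lt_mul_of_pos_right a7 a6
          _ = _ := by ring
      linarith
    exact a3.trans a5
  have t2 : √(2 * ‖G x x‖) * √((G' y y).im) ≤ 2 * K := by
    rw [← Real.sqrt_mul (by positivity)]
    refine (Real.sqrt_le_sqrt (?_ : _ ≤ (2 * K) ^ 2)).trans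
      (le_of_eq (Real.sqrt_sq (by positivity)))
    calc 2 * ‖G x x‖ * (G' y y).im ≤ 2 * K * K :=
          mul_le_mul (by linarith) hyy (hG'im y).le (by positivity)
      _ ≤ (2 * K) ^ 2 := by nlinarith
  have hexp : Real.exp (w x - t * L) = Real.exp (w x) * Real.exp (-(t * L)) := by
    rw [← Real.exp_add]; congr 1
  have hexp2 : Real.exp (w x - L) ≤ Real.exp (w x - t * L) := by
    apply Real.exp_le_exp.2
    nlinarith
  have s1 : √E * (Real.exp (w x) * √(2 * K / (1 / K * (1 / K) * √(1 / K)))) ≤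
      2 * K ^ 5 * Real.exp (w x - t * L) := by
    have d1 : E ≤ 2 * K ^ 6 * Real.exp (-(t * L)) ^ 2 := by
      have b1 : (1 / K) ^ 2 ≤ (1 - l - ε) ^ 2 := pow_le_pow_left₀ hiK.le hle 2
      have b2 : (1 / K) ^ 2 * E ≤ 2 * K * K ^ 2 * Real.exp (-(2 * t * L)) * K := by
        refine (mul_le_mul_of_nonneg_right b1 hE0).trans (hcmp.trans ?_)
        exact mul_le_mul_of_nonneg_left hS (by positivity)
      have b3 : E ≤ 2 * K ^ 6 * Real.exp (-(2 * t * L)) := by
        have : E = K ^ 2 * ((1 / K) ^ 2 * E) := by field_simp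
        rw [this]
        refine (mul_le_mul_of_nonneg_left b2 (sq_nonneg K)).trans (le_of_eq ?_)
        ring
      have b4 : Real.exp (-(2 * t * L)) = Real.exp (-(t * L)) ^ 2 := by
        rw [sq, ← Real.exp_add]; congr 1; ring
      rwa [b4] at b3
    have d2 : 2 * K / (1 / K * (1 / K) * √(1 / K)) ≤ 2 * K ^ 4 := by
      have c0 : 1 / K ≤ √(1 / K) := by
        rw [Real.le_sqrt hiK.le hiK.le]
        have : (1 / K) ^ 2 = 1 / K * (1 / K) := by ring
        rw [this]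
        calc 1 / K * (1 / K) ≤ 1 / K * 1 := by
              refine mul_le_mul_of_nonneg_left ?_ hiK.le
              rw [div_le_one hK0]; exact hK
          _ = _ := by ring
      have c1 : 2 * K / (1 / K * (1 / K) * √(1 / K)) ≤ 2 * K / (1 / K * (1 / K) * (1 / K)) := by
        refine div_le_div_of_nonneg_left (by positivity) (by positivity) ?_
        exact mul_le_mul_of_nonneg_left c0 (by positivity)
      have c2 : 2 * K / (1 / K * (1 / K) * (1 / K)) = 2 * K ^ 4 := by field_simp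
      rwa [c2] at c1
    have d3 : √E * √(2 * K / (1 / K * (1 / K) * √(1 / K))) ≤
        2 * K ^ 5 * Real.exp (-(t * L)) := by
      rw [← Real.sqrt_mul hE0]
      refine (Real.sqrt_le_sqrt (?_ : _ ≤ (2 * K ^ 5 * Real.exp (-(t * L))) ^ 2)).trans
        (le_of_eq (Real.sqrt_sq (by positivity)))
      calc E * (2 * K / (1 / K * (1 / K) * √(1 / K)))
          ≤ (2 * K ^ 6 * Real.exp (-(t * L)) ^ 2) * (2 * K ^ 4) :=
            mul_le_mul d1 d2 (by positivity) (by positivity)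
        _ = _ := by ring
    calc √E * (Real.exp (w x) * √(2 * K / (1 / K * (1 / K) * √(1 / K))))
        = (√E * √(2 * K / (1 / K * (1 / K) * √(1 / K)))) * Real.exp (w x) := by ring
      _ ≤ (2 * K ^ 5 * Real.exp (-(t * L))) * Real.exp (w x) :=
          mul_le_mul_of_nonneg_right d3 (Real.exp_pos _).le
      _ = _ := by rw [hexp]; ring
  have s2 : K * (√(2 * ‖G x x‖) * Real.exp (w x - L) * √((G' y y).im)) ≤
      2 * K ^ 5 * Real.exp (w x - t * L) := by
    calc K * (√(2 * ‖G x x‖) * Real.exp (w x - L) * √((G' y y).im))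
        = K * ((√(2 * ‖G x x‖) * √((G' y y).im)) * Real.exp (w x - L)) := by ring
      _ ≤ K * ((2 * K) * Real.exp (w x - t * L)) := by
          refine mul_le_mul_of_nonneg_left ?_ hK0.le
          exact mul_le_mul t2 hexp2 (Real.exp_pos _).le (by positivity)
      _ = 2 * K ^ 2 * Real.exp (w x - t * L) := by ring
      _ ≤ 2 * K ^ 5 * Real.exp (w x - t * L) := by
          refine mul_le_mul_of_nonneg_right ?_ (Real.exp_pos _).le
          have : K ^ 2 ≤ K ^ 5 := pow_le_pow_right₀ hK (by norm_num)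
          linarith
  linarith

end Pool.Agent.ANM
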