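import Pool.Agent.ANM.FBase
import Pool.Agent.ANM.Accr

/-! # ANM FAccr: accretivity for two dissipative operators on the full torus (read sites allowed).

The same statements as `had_psd`, `had_re`, `accr` in `Accr.lean`, for `Diss H0 b`, `Diss H0 b'`. -/

open Matrix Finset

noncomputable section

namespace Pool.Agent.ANM

open Pool.Agent.Kin Pool.Agent.APS

variable {ι : Type} [Fintype ι] [DecidableEq ι] {H0 : Matrix ι ι ℂ} {b b' : ι → ℂ}

/-- Schur product of the imaginary parts is positive -/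
theorem Diss.had_psd (hb : Diss H0 b) (hb' : Diss H0 b')
    (v : ι → ℂ) :
    0 ≤ ∑ x, ∑ y, (rsc H0 b x y).im * (rsc H0 b' x y).im * (star (v x) * v y).re := by
  set G := rsc H0 b with hG
  set G' := rsc H0 b' with hG'
  have h1 : ((∑ x, ∑ y, (G x y).im * (G' x y).im * (star (v x) * v y).re : ℝ) : ℂ) =
      ((∑ x, ∑ y, (((G x y).im : ℝ) : ℂ) * (((G' x y).im : ℝ) : ℂ) * (star (v x) * v y)).re : ℂ) := by
    congr 1
    rw [Complex.re_sum]
    refine Finset.sum_congr rfl fun x _ => ?_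
    rw [Complex.re_sum]
    refine Finset.sum_congr rfl fun y _ => ?_
    rw [← Complex.ofReal_mul, Complex.re_ofReal_mul]
  have h2 : ∑ x, ∑ y, (((G x y).im : ℝ) : ℂ) * (((G' x y).im : ℝ) : ℂ) * (star (v x) * v y) =
      ∑ z, ∑ z', (((-(b z).im) * (-(b' z').im) : ℝ) : ℂ) *
        (star (∑ x, G x z * G' x z' * v x) * (∑ y, G y z * G' y z' * v y)) := by
    calc ∑ x, ∑ y, (((G x y).im : ℝ) : ℂ) * (((G' x y).im : ℝ) : ℂ) * (star (v x) * v y)
        = ∑ x, ∑ y, ∑ z, ∑ z', (((-(b z).im) * (-(b' z').im) : ℝ) : ℂ) *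
          (star (G x z * G' x z' * v x) * (G y z * G' y z' * v y)) := by
          refine Finset.sum_congr rfl fun x _ => Finset.sum_congr rfl fun y _ => ?_
          rw [hG, hG', hb.imm x y, hb'.imm x y, Finset.sum_mul_sum, Finset.sum_mul]
          refine Finset.sum_congr rfl fun z _ => ?_
          rw [Finset.sum_mul]
          refine Finset.sum_congr rfl fun z' _ => ?_
          simp only [star_mul']
          push_cast
          ring
      _ = ∑ x, ∑ z, ∑ z', ∑ y, (((-(b z).im) * (-(b' z').im) : ℝ) : ℂ) *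
          (star (G x z * G' x z' * v x) * (G y z * G' y z' * v y)) := by
          refine Finset.sum_congr rfl fun x _ => ?_
          rw [Finset.sum_comm]
          refine Finset.sum_congr rfl fun z _ => ?_
          rw [Finset.sum_comm]
      _ = ∑ z, ∑ z', ∑ x, ∑ y, (((-(b z).im) * (-(b' z').im) : ℝ) : ℂ) *
          (star (G x z * G' x z' * v x) * (G y z * G' y z' * v y)) := by
          rw [Finset.sum_comm]
          refine Finset.sum_congr rfl fun z _ => ?_
          rw [Finset.sum_comm]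
      _ = _ := by
          refine Finset.sum_congr rfl fun z _ => Finset.sum_congr rfl fun z' _ => ?_
          rw [star_sum, Finset.sum_mul_sum, Finset.mul_sum]
          refine Finset.sum_congr rfl fun x _ => ?_
          rw [Finset.mul_sum]
  have h3 : (∑ x, ∑ y, (((G x y).im : ℝ) : ℂ) * (((G' x y).im : ℝ) : ℂ) *
      (star (v x) * v y)).re = ∑ z, ∑ z', (-(b z).im) * (-(b' z').im) *
        ‖∑ x, G x z * G' x z' * v x‖ ^ 2 := by
    rw [h2, Complex.re_sum]
    refine Finset.sum_congr rfl fun z _ => ?_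
    rw [Complex.re_sum]
    refine Finset.sum_congr rfl fun z' _ => ?_
    rw [RCLike.star_def, Complex.conj_mul', ← Complex.ofReal_pow, ← Complex.ofReal_mul,
      Complex.ofReal_re]
  have h4 := Complex.ofReal_injective h1
  rw [h4, h3]
  refine Finset.sum_nonneg fun z _ => Finset.sum_nonneg fun z' _ => ?_
  have e1 : 0 ≤ -(b z).im := hb.nn' z
  have e2 : 0 ≤ -(b' z').im := hb'.nn' z'
  positivity

/-- real part of the quadratic form of `G ∘ G'` -/
theorem Diss.had_re (hb : Diss H0 b) (hb' : Diss H0 b')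
    (v : ι → ℂ) :
    (∑ x, ∑ y, star (v x) * (rsc H0 b x y * rsc H0 b' x y) * v y).re ≤
      ∑ x, ∑ y, |(rsc H0 b x y).re| * |(rsc H0 b' x y).re| * (‖v x‖ * ‖v y‖) := by
  set G := rsc H0 b with hG
  set G' := rsc H0 b' with hG'
  have hs : ∀ x y, G x y = G y x := fun x y => rsc_symm hb.hH b x y
  have hs' : ∀ x y, G' x y = G' y x := fun x y => rsc_symm hb.hH b' x y
  have h1 : (∑ x, ∑ y, star (v x) * (G x y * G' x y) * v y).re =
      ∑ x, ∑ y, (G x y * G' x y).re * (star (v x) * v y).re -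
        ∑ x, ∑ y, (G x y * G' x y).im * (star (v x) * v y).im := by
    rw [Complex.re_sum, ← Finset.sum_sub_distrib]
    refine Finset.sum_congr rfl fun x _ => ?_
    rw [Complex.re_sum, ← Finset.sum_sub_distrib]
    refine Finset.sum_congr rfl fun y _ => ?_
    rw [show star (v x) * (G x y * G' x y) * v y = (G x y * G' x y) * (star (v x) * v y) by ring,
      Complex.mul_re]
  have h2 : ∑ x, ∑ y, (G x y * G' x y).im * (star (v x) * v y).im = 0 := by
    have e1 : ∑ x, ∑ y, (G x y * G' x y).im * (star (v x) * v y).im =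
        -∑ x, ∑ y, (G x y * G' x y).im * (star (v x) * v y).im := by
      conv_lhs => rw [Finset.sum_comm]
      rw [← Finset.sum_neg_distrib]
      refine Finset.sum_congr rfl fun x _ => ?_
      rw [← Finset.sum_neg_distrib]
      refine Finset.sum_congr rfl fun y _ => ?_
      rw [hs y x, hs' y x]
      simp only [RCLike.star_def, Complex.mul_im, Complex.conj_re, Complex.conj_im]
      ring
    linarith
  have h3 : ∑ x, ∑ y, (G x y * G' x y).re * (star (v x) * v y).re =
      ∑ x, ∑ y, (G x y).re * (G' x y).re * (star (v x) * v y).re -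
      ∑ x, ∑ y, (G x y).im * (G' x y).im * (star (v x) * v y).re := by
    rw [← Finset.sum_sub_distrib]
    refine Finset.sum_congr rfl fun x _ => ?_
    rw [← Finset.sum_sub_distrib]
    refine Finset.sum_congr rfl fun y _ => ?_
    rw [Complex.mul_re]
    ring
  have h4 := Diss.had_psd hb hb' v
  rw [h1, h2, h3, sub_zero]
  have h5 : ∑ x, ∑ y, (G x y).re * (G' x y).re * (star (v x) * v y).re ≤
      ∑ x, ∑ y, |(G x y).re| * |(G' x y).re| * (‖v x‖ * ‖v y‖) := by
    refine Finset.sum_le_sum fun x _ => Finset.sum_le_sum fun y _ => ?_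
    refine (le_abs_self _).trans ?_
    rw [abs_mul, abs_mul]
    refine mul_le_mul_of_nonneg_left ?_ (by positivity)
    refine (Complex.abs_re_le_norm _).trans ?_
    rw [norm_mul, norm_star]
  linarith

/-- accretivity: nothing is assumed on `G'` except `hb1` -/
theorem Diss.accr (hb : Diss H0 b) (hb' : Diss H0 b')
    (A : Finset ι) {κ ρ ρ' φ : ι → ℝ} (hκ : ∀ x ∈ A, 0 < κ x) (hρ : ∀ x ∈ A, 0 < ρ x)
    (hρ' : ∀ x ∈ A, 0 < ρ' x) {l ε : ℝ} (hl : 0 ≤ l) (hε : 0 ≤ ε) (hle : l + ε < 1)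
    (ha : ∀ x ∈ A, ∑ y ∈ A, κ y * (ρ y * (rsc H0 b x y).re ^ 2) ≤ l ^ 2 * ρ x)
    (hb1 : ∀ x ∈ A, ∑ y ∈ A, κ y * (ρ' y * ‖rsc H0 b' x y‖ ^ 2) ≤ ρ' x)
    (hc : ∀ x ∈ A, ∑ y ∈ A, κ y * (ρ y * (‖rsc H0 b x y‖ *
      (Real.exp |φ x - φ y| - 1)) ^ 2) ≤ ε ^ 2 * ρ x)
    {δ f : ι → ℂ} (hδ : ∀ x ∈ A, δ x =
      ∑ y ∈ A, rsc H0 b x y * rsc H0 b' x y * ((κ y : ℂ) * δ y) + f x) :
    (1 - l - ε) ^ 2 * ∑ x ∈ A, κ x * (Real.exp (2 * φ x) * ‖δ x‖ ^ 2) ≤
      ∑ x ∈ A, κ x * (Real.exp (2 * φ x) * ‖f x‖ ^ 2) := by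
  set G := rsc H0 b with hG
  set G' := rsc H0 b' with hG'
  set D := ∑ x ∈ A, κ x * (Real.exp (2 * φ x) * ‖δ x‖ ^ 2) with hD
  set F := ∑ x ∈ A, κ x * (Real.exp (2 * φ x) * ‖f x‖ ^ 2) with hF
  have hD0 : 0 ≤ D := Finset.sum_nonneg fun x hx => mul_nonneg (hκ x hx).le (by positivity)
  have hF0 : 0 ≤ F := Finset.sum_nonneg fun x hx => mul_nonneg (hκ x hx).le (by positivity)
  set V : ι → ℂ := fun x => if x ∈ A then ((Real.exp (φ x) * κ x : ℝ) : ℂ) * δ x else 0 with hV
  have hVA : ∀ x ∈ A, V x = ((Real.exp (φ x) * κ x : ℝ) : ℂ) * δ x := fun x hx => if_pos hx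
  have hVn : ∀ x, x ∉ A → V x = 0 := fun x hx => if_neg hx
  have hee : ∀ x, Real.exp (2 * φ x) = Real.exp (φ x) * Real.exp (φ x) := by
    intro x; rw [← Real.exp_add]; congr 1; ring
  have hVsq : ∀ x ∈ A, ‖V x‖ ^ 2 / κ x = κ x * (Real.exp (2 * φ x) * ‖δ x‖ ^ 2) := by
    intro x hx
    have h0 := hκ x hx
    rw [hVA x hx, norm_mul, Complex.norm_real, Real.norm_eq_abs,
      abs_of_pos (by positivity), hee]
    field_simp
  -- weights
  have hp : ∀ x ∈ A, 0 < κ x * √(ρ x * ρ' x) := fun x hx =>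
    mul_pos (hκ x hx) (Real.sqrt_pos.2 (mul_pos (hρ x hx) (hρ' x hx)))
  have hqp : ∀ x ∈ A, ‖V x‖ ^ 2 * (√(ρ x * ρ' x) / (κ x * √(ρ x * ρ' x))) =
      κ x * (Real.exp (2 * φ x) * ‖δ x‖ ^ 2) := by
    intro x hx
    rw [← hVsq x hx]
    have h1 : 0 < √(ρ x * ρ' x) := Real.sqrt_pos.2 (mul_pos (hρ x hx) (hρ' x hx))
    have h2 := hκ x hx
    field_simp
  have hG's : ∀ x ∈ A, ∑ y ∈ A, κ y * (ρ' y * (G' x y).re ^ 2) ≤ ρ' x := by
    intro x hx
    refine le_trans (Finset.sum_le_sum fun y hy => ?_) (hb1 x hx)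
    refine mul_le_mul_of_nonneg_left (mul_le_mul_of_nonneg_left ?_ (hρ' y hy).le) (hκ y hy).le
    rw [← sq_abs]
    exact pow_le_pow_left₀ (abs_nonneg _) (Complex.abs_re_le_norm _) 2
  -- the main part
  have hmain : (∑ x ∈ A, ∑ y ∈ A, star (V x) * (G x y * G' x y) * V y).re ≤ l * D := by
    have e1 : ∑ x ∈ A, ∑ y ∈ A, star (V x) * (G x y * G' x y) * V y =
        ∑ x, ∑ y, star (V x) * (G x y * G' x y) * V y := by
      rw [← Finset.sum_subset (Finset.subset_univ A)]
      · refine Finset.sum_congr rfl fun x _ => ?_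
        rw [← Finset.sum_subset (Finset.subset_univ A)]
        intro y _ hy
        rw [hVn y hy, mul_zero]
      · intro x _ hx
        refine Finset.sum_eq_zero fun y _ => ?_
        rw [hVn x hx, star_zero, zero_mul, zero_mul]
    have e2 : ∑ x, ∑ y, |(G x y).re| * |(G' x y).re| * (‖V x‖ * ‖V y‖) =
        ∑ x ∈ A, ∑ y ∈ A, |(G x y).re| * |(G' x y).re| * (‖V x‖ * ‖V y‖) := by
      rw [← Finset.sum_subset (Finset.subset_univ A)]
      · refine Finset.sum_congr rfl fun x _ => ?_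
        rw [← Finset.sum_subset (Finset.subset_univ A)]
        intro y _ hy
        rw [hVn y hy, norm_zero, mul_zero, mul_zero]
      · intro x _ hx
        refine Finset.sum_eq_zero fun y _ => ?_
        rw [hVn x hx, norm_zero, zero_mul, mul_zero]
    rw [e1]
    refine (Diss.had_re hb hb' V).trans ?_
    rw [← hG, ← hG', e2]
    refine (schur_two A (M := fun x y => |(G x y).re| * |(G' x y).re|)
      (fun x y => by positivity) (fun x y => by
        simp only [hG, hG', rsc_symm hb.hH b x y, rsc_symm hb.hH b' x y])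
      (p := fun x => κ x * √(ρ x * ρ' x)) (q := fun x => √(ρ x * ρ' x))
      (α := fun x => ‖V x‖) hp (t := l) ?_).trans (le_of_eq ?_)
    · intro x hx
      refine (cs_two A (fun y hy => (hκ y hy).le) (fun y hy => (hρ y hy).le)
        (fun y hy => (hρ' y hy).le) (ha x hx) (hG's x hx)).trans (le_of_eq ?_)
      rw [Real.sqrt_mul (sq_nonneg l), Real.sqrt_sq hl, Real.sqrt_mul (hρ x hx).le]
      ring
    · congr 1
      exact Finset.sum_congr rfl fun x hx => hqp x hx
  -- the weight error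
  have herr : ‖∑ x ∈ A, ∑ y ∈ A, star (V x) * (G x y * G' x y) * V y *
      ((Real.exp (φ x - φ y) - 1 : ℝ) : ℂ)‖ ≤ ε * D := by
    have e1 : ‖∑ x ∈ A, ∑ y ∈ A, star (V x) * (G x y * G' x y) * V y *
        ((Real.exp (φ x - φ y) - 1 : ℝ) : ℂ)‖ ≤
        ∑ x ∈ A, ∑ y ∈ A, ‖G x y‖ * (Real.exp |φ x - φ y| - 1) * ‖G' x y‖ *
          (‖V x‖ * ‖V y‖) := by
      refine (norm_sum_le _ _).trans (Finset.sum_le_sum fun x _ => ?_)
      refine (norm_sum_le _ _).trans (Finset.sum_le_sum fun y _ => ?_)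
      rw [norm_mul, norm_mul, norm_mul, norm_mul, norm_star, Complex.norm_real, Real.norm_eq_abs]
      calc ‖V x‖ * (‖G x y‖ * ‖G' x y‖) * ‖V y‖ * |Real.exp (φ x - φ y) - 1|
          ≤ ‖V x‖ * (‖G x y‖ * ‖G' x y‖) * ‖V y‖ * (Real.exp |φ x - φ y| - 1) :=
            mul_le_mul_of_nonneg_left (exp_sub_one_le _) (by positivity)
        _ = _ := by ring
    refine e1.trans ?_
    have e0 : ∀ x y, 0 ≤ Real.exp |φ x - φ y| - 1 := fun x y => by
      linarith [Real.one_le_exp (abs_nonneg (φ x - φ y))]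
    refine (schur_two A (M := fun x y => ‖G x y‖ * (Real.exp |φ x - φ y| - 1) * ‖G' x y‖)
      (fun x y => mul_nonneg (mul_nonneg (norm_nonneg _) (e0 x y)) (norm_nonneg _))
      (fun x y => by
        simp only [hG, hG', rsc_symm hb.hH b x y, rsc_symm hb.hH b' x y, abs_sub_comm (φ x) (φ y)])
      (p := fun x => κ x * √(ρ x * ρ' x)) (q := fun x => √(ρ x * ρ' x))
      (α := fun x => ‖V x‖) hp (t := ε) ?_).trans (le_of_eq ?_)
    · intro x hx
      have h5 := cs_two A (fun y hy => (hκ y hy).le) (fun y hy => (hρ y hy).le)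
        (fun y hy => (hρ' y hy).le) (u := fun y => ‖G x y‖ * (Real.exp |φ x - φ y| - 1))
        (v := fun y => ‖G' x y‖) (hc x hx) (hb1 x hx)
      refine le_trans (le_of_eq ?_) (h5.trans (le_of_eq ?_))
      · refine Finset.sum_congr rfl fun y _ => ?_
        rw [abs_of_nonneg (mul_nonneg (norm_nonneg _) (e0 x y)), abs_of_nonneg (norm_nonneg _)]
      · rw [Real.sqrt_mul (sq_nonneg ε), Real.sqrt_sq hε, Real.sqrt_mul (hρ x hx).le]
        ring
    · congr 1
      exact Finset.sum_congr rfl fun x hx => hqp x hx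
  -- the source
  have hsrc : ‖∑ x ∈ A, ((κ x * Real.exp (2 * φ x) : ℝ) : ℂ) * (star (δ x) * f x)‖ ≤
      √D * √F := by
    refine (norm_sum_le _ _).trans ?_
    have e1 : ∀ x ∈ A, ‖((κ x * Real.exp (2 * φ x) : ℝ) : ℂ) * (star (δ x) * f x)‖ =
        (√(κ x) * Real.exp (φ x) * ‖δ x‖) * (√(κ x) * Real.exp (φ x) * ‖f x‖) := by
      intro x hx
      rw [norm_mul, norm_mul, norm_star, Complex.norm_real, Real.norm_eq_abs,
        abs_of_pos (mul_pos (hκ x hx) (Real.exp_pos _)), hee]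
      have : κ x = √(κ x) * √(κ x) := (Real.mul_self_sqrt (hκ x hx).le).symm
      calc κ x * (Real.exp (φ x) * Real.exp (φ x)) * (‖δ x‖ * ‖f x‖)
          = (√(κ x) * √(κ x)) * (Real.exp (φ x) * Real.exp (φ x)) * (‖δ x‖ * ‖f x‖) := by
            rw [← this]
        _ = _ := by ring
    rw [Finset.sum_congr rfl e1]
    refine (Real.sum_mul_le_sqrt_mul_sqrt _ _ _).trans (le_of_eq ?_)
    congr 2
    · refine Finset.sum_congr rfl fun x hx => ?_
      rw [mul_pow, mul_pow, Real.sq_sqrt (hκ x hx).le, hee]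
      ring
    · refine Finset.sum_congr rfl fun x hx => ?_
      rw [mul_pow, mul_pow, Real.sq_sqrt (hκ x hx).le, hee]
      ring
  -- the identity
  have hid : ((D : ℝ) : ℂ) = ∑ x ∈ A, ∑ y ∈ A, star (V x) * (G x y * G' x y) * V y +
      ∑ x ∈ A, ∑ y ∈ A, star (V x) * (G x y * G' x y) * V y *
        ((Real.exp (φ x - φ y) - 1 : ℝ) : ℂ) +
      ∑ x ∈ A, ((κ x * Real.exp (2 * φ x) : ℝ) : ℂ) * (star (δ x) * f x) := by
    rw [← Finset.sum_add_distrib, ← Finset.sum_add_distrib, hD, Complex.ofReal_sum]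
    refine Finset.sum_congr rfl fun x hx => ?_
    have e1 : ((κ x * (Real.exp (2 * φ x) * ‖δ x‖ ^ 2) : ℝ) : ℂ) =
        ((κ x * Real.exp (2 * φ x) : ℝ) : ℂ) * (star (δ x) * δ x) := by
      rw [RCLike.star_def, Complex.conj_mul']
      push_cast
      ring
    have e5 : star (δ x) * δ x = star (δ x) * (∑ y ∈ A, G x y * G' x y * ((κ y : ℂ) * δ y) +
        f x) := by rw [← hδ x hx]
    rw [e1, e5, mul_add, mul_add]
    congr 1
    rw [Finset.mul_sum, Finset.mul_sum, ← Finset.sum_add_distrib]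
    refine Finset.sum_congr rfl fun y hy => ?_
    rw [hVA x hx, hVA y hy, star_mul', hee]
    have e2 : star ((Real.exp (φ x) * κ x : ℝ) : ℂ) = ((Real.exp (φ x) * κ x : ℝ) : ℂ) := by
      rw [RCLike.star_def, Complex.conj_ofReal]
    rw [e2]
    have e3 : Real.exp (φ x) = Real.exp (φ y) * Real.exp (φ x - φ y) := by
      rw [← Real.exp_add]; congr 1; ring
    have e4 : ((Real.exp (φ x) : ℝ) : ℂ) =
        ((Real.exp (φ y) : ℝ) : ℂ) * ((Real.exp (φ x - φ y) : ℝ) : ℂ) := by
      rw [← Complex.ofReal_mul, ← e3]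
    push_cast
    push_cast at e4
    calc (κ x : ℂ) * (Complex.exp (φ x) * Complex.exp (φ x)) *
          (star (δ x) * (G x y * G' x y * ((κ y : ℂ) * δ y)))
        = (κ x : ℂ) * (Complex.exp (φ x) * (Complex.exp (φ y) * Complex.exp (φ x - φ y))) *
          (star (δ x) * (G x y * G' x y * ((κ y : ℂ) * δ y))) := by rw [← e4]
      _ = _ := by ring
  have hre : D ≤ l * D + ε * D + √D * √F := by
    have h1 := congrArg Complex.re hid
    rw [Complex.ofReal_re, Complex.add_re, Complex.add_re] at h1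
    have h2 := (Complex.re_le_norm _).trans herr
    have h3 := (Complex.re_le_norm _).trans hsrc
    linarith
  have h1 : (1 - l - ε) * D ≤ √D * √F := by nlinarith
  have h2 : 0 < 1 - l - ε := by linarith
  rcases hD0.lt_or_eq with h3 | h3
  · have h4 : 0 < √D := Real.sqrt_pos.2 h3
    have h5 : (1 - l - ε) * √D ≤ √F := by
      have : (1 - l - ε) * √D * √D ≤ √F * √D := by
        rw [mul_assoc, Real.mul_self_sqrt hD0]
        linarith
      exact le_of_mul_le_mul_right this h4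
    have h6 := pow_le_pow_left₀ (by positivity) h5 2
    rw [mul_pow, Real.sq_sqrt hD0, Real.sq_sqrt hF0] at h6
    exact h6
  · rw [← h3, mul_zero]
    exact hF0

end Pool.Agent.ANM
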