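import Pool.Agent.ANM.FLocal

/-! # ANM FLocW: locality of self-consistent media, the absorption may disappear on a small set `W`.

`omW b' W om z = om` for `z ∈ W`, `= -Im b'_z` otherwise.  `WtOK H0 b' W om Y`: `om |W| Im G'_zz ≤ 1` for `z ∈ W` and
`om |W| ‖G'_yz‖² ≤ Im G'_yy` for `z ∈ W`, `y ∈ Y`.  Then `omW` can be used in place of the absorption of the second
medium in the comparison of the two resolvents, with a factor `2` (`WtOK.row`, `WtOK.ent`).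

* `Diss.out_leW`, `Diss.compareW`, `Diss.rel_rowW`, `Diss.rel_entW`, `FLocW`, `FLocW.diag / rel / row / ent`:
  the theorems of `FLocal`; `W = ∅` gives them back with slightly larger constants.
-/

open Matrix Finset

noncomputable section

namespace Pool.Agent.ANM

open Pool.Agent.Kin Pool.Agent.APS

variable {ι : Type} [Fintype ι] [DecidableEq ι] {H0 : Matrix ι ι ℂ} {b b' : ι → ℂ} {w : ι → ℝ}
  {W : Finset ι} {om : ℝ} {Y : Set ι}

/-- the weight which replaces the absorption of the second medium -/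
def omW (b' : ι → ℂ) (W : Finset ι) (om : ℝ) (z : ι) : ℝ := if z ∈ W then om else -(b' z).im

theorem omW_in {z : ι} (hz : z ∈ W) : omW b' W om z = om := if_pos hz

theorem omW_out {z : ι} (hz : z ∉ W) : omW b' W om z = -(b' z).im := if_neg hz

/-- the second medium is controlled on `W` -/
structure WtOK (H0 : Matrix ι ι ℂ) (b' : ι → ℂ) (W : Finset ι) (om : ℝ) (Y : Set ι) : Prop where
  om0 : 0 < om
  row : ∀ z ∈ W, om * (W.card : ℝ) * (rsc H0 b' z z).im ≤ 1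
  ent : ∀ z ∈ W, ∀ y ∈ Y, om * (W.card : ℝ) * ‖rsc H0 b' y z‖ ^ 2 ≤ (rsc H0 b' y y).im

theorem WtOK.empty (H0 : Matrix ι ι ℂ) (b' : ι → ℂ) (Y : Set ι) : WtOK H0 b' ∅ 1 Y :=
  ⟨one_pos, fun z hz => absurd hz (Finset.notMem_empty z),
    fun z hz => absurd hz (Finset.notMem_empty z)⟩

theorem WtOK.nn (h : WtOK H0 b' W om Y) (hb' : Diss H0 b') (z : ι) : 0 ≤ omW b' W om z := by
  unfold omW
  split_ifs
  · exact h.om0.le
  · exact hb'.nn' z

/-- weighted rows -/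
theorem WtOK.rowW (h : WtOK H0 b' W om Y) (hb' : Diss H0 b') (v : ι → ℂ) :
    ∑ y, -(b' y).im * ‖∑ z, rsc H0 b' y z * ((√(omW b' W om z) : ℂ) * v z)‖ ^ 2 ≤
      2 * ∑ z, ‖v z‖ ^ 2 := by
  classical
  set G' := rsc H0 b' with hG'
  set u : ι → ℂ := fun z => if z ∈ W then 0 else v z with hu
  set u2 : ι → ℂ := fun z => if z ∈ W then v z else 0 with hu2
  have hn' : ∀ z, 0 ≤ -(b' z).im := hb'.nn'
  have hsplit : ∀ y, ∑ z, G' y z * ((√(omW b' W om z) : ℂ) * v z) =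
      ∑ z, G' y z * ((√(-(b' z).im) : ℂ) * u z) + ∑ z ∈ W, G' y z * ((√om : ℂ) * v z) := by
    intro y
    have e1 : ∑ z ∈ W, G' y z * ((√om : ℂ) * v z) =
        ∑ z, if z ∈ W then G' y z * ((√om : ℂ) * v z) else 0 := by
      rw [Finset.sum_ite_mem, Finset.univ_inter]
    rw [e1, ← Finset.sum_add_distrib]
    refine Finset.sum_congr rfl fun z _ => ?_
    by_cases hz : z ∈ W
    · simp only [hu]
      rw [omW_in hz, if_pos hz, if_pos hz]
      simp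
    · simp only [hu]
      rw [omW_out hz, if_neg hz, if_neg hz]
      simp
  have h1 := hb'.wop (w := fun z => -(b' z).im) hn' (fun z => le_refl _) u
  have h2 : ∑ y, -(b' y).im * ‖∑ z ∈ W, G' y z * ((√om : ℂ) * v z)‖ ^ 2 ≤ ∑ z ∈ W, ‖v z‖ ^ 2 := by
    have e1 : ∀ y, ‖∑ z ∈ W, G' y z * ((√om : ℂ) * v z)‖ ^ 2 ≤
        (W.card : ℝ) * ∑ z ∈ W, om * (‖G' y z‖ ^ 2 * ‖v z‖ ^ 2) := by
      intro y
      have e2 : ‖∑ z ∈ W, G' y z * ((√om : ℂ) * v z)‖ ^ 2 ≤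
          (∑ z ∈ W, ‖G' y z * ((√om : ℂ) * v z)‖) ^ 2 :=
        pow_le_pow_left₀ (norm_nonneg _) (norm_sum_le _ _) 2
      refine e2.trans ((sq_sum_le_card_mul_sum_sq).trans (le_of_eq ?_))
      congr 1
      refine Finset.sum_congr rfl fun z _ => ?_
      rw [norm_mul, norm_mul, mul_pow, mul_pow, Complex.norm_real, Real.norm_eq_abs,
        abs_of_nonneg (Real.sqrt_nonneg _), Real.sq_sqrt h.om0.le]
      ring
    calc ∑ y, -(b' y).im * ‖∑ z ∈ W, G' y z * ((√om : ℂ) * v z)‖ ^ 2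
        ≤ ∑ y, -(b' y).im * ((W.card : ℝ) * ∑ z ∈ W, om * (‖G' y z‖ ^ 2 * ‖v z‖ ^ 2)) :=
          Finset.sum_le_sum fun y _ => mul_le_mul_of_nonneg_left (e1 y) (hn' y)
      _ = ∑ z ∈ W, (om * (W.card : ℝ) * (G' z z).im) * ‖v z‖ ^ 2 := by
          have e3 : ∀ y, -(b' y).im * ((W.card : ℝ) * ∑ z ∈ W, om * (‖G' y z‖ ^ 2 * ‖v z‖ ^ 2)) =
              ∑ z ∈ W, om * (W.card : ℝ) * ‖v z‖ ^ 2 * (‖G' z y‖ ^ 2 * -(b' y).im) := by
            intro y
            rw [Finset.mul_sum, Finset.mul_sum]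
            refine Finset.sum_congr rfl fun z _ => ?_
            rw [show G' y z = G' z y from hb'.symm y z]
            ring
          rw [Finset.sum_congr rfl fun y _ => e3 y, Finset.sum_comm]
          refine Finset.sum_congr rfl fun z _ => ?_
          rw [← Finset.mul_sum, ← hb'.ward z]
          ring
      _ ≤ ∑ z ∈ W, 1 * ‖v z‖ ^ 2 :=
          Finset.sum_le_sum fun z hz => mul_le_mul_of_nonneg_right (h.row z hz) (sq_nonneg _)
      _ = _ := by simp only [one_mul]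
  have h3 : ∑ z, ‖u z‖ ^ 2 + ∑ z ∈ W, ‖v z‖ ^ 2 = ∑ z, ‖v z‖ ^ 2 := by
    have e1 : ∑ z ∈ W, ‖v z‖ ^ 2 = ∑ z, if z ∈ W then ‖v z‖ ^ 2 else 0 := by
      rw [Finset.sum_ite_mem, Finset.univ_inter]
    rw [e1, ← Finset.sum_add_distrib]
    refine Finset.sum_congr rfl fun z _ => ?_
    by_cases hz : z ∈ W
    · simp [hu, hz]
    · simp [hu, hz]
  have h4 : ∀ y, -(b' y).im * ‖∑ z, G' y z * ((√(omW b' W om z) : ℂ) * v z)‖ ^ 2 ≤
      2 * (-(b' y).im * ‖∑ z, G' y z * ((√(-(b' z).im) : ℂ) * u z)‖ ^ 2) +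
        2 * (-(b' y).im * ‖∑ z ∈ W, G' y z * ((√om : ℂ) * v z)‖ ^ 2) := by
    intro y
    rw [hsplit y]
    set p := ∑ z, G' y z * ((√(-(b' z).im) : ℂ) * u z)
    set q := ∑ z ∈ W, G' y z * ((√om : ℂ) * v z)
    have e1 : ‖p + q‖ ^ 2 ≤ 2 * ‖p‖ ^ 2 + 2 * ‖q‖ ^ 2 := by
      have := pow_le_pow_left₀ (norm_nonneg _) (norm_add_le p q) 2
      nlinarith [sq_nonneg (‖p‖ - ‖q‖)]
    have e2 := mul_le_mul_of_nonneg_left e1 (hn' y)
    linarith
  refine (Finset.sum_le_sum fun y _ => h4 y).trans ?_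
  rw [Finset.sum_add_distrib, ← Finset.mul_sum, ← Finset.mul_sum]
  linarith

/-- Ward bound with the weight -/
theorem WtOK.wardW (h : WtOK H0 b' W om Y) (hb' : Diss H0 b') {y : ι} (hy : y ∈ Y) :
    ∑ z, omW b' W om z * ‖rsc H0 b' y z‖ ^ 2 ≤ 2 * (rsc H0 b' y y).im := by
  classical
  set G' := rsc H0 b' with hG'
  have h1 : ∀ z, omW b' W om z * ‖G' y z‖ ^ 2 ≤
      ‖G' y z‖ ^ 2 * -(b' z).im + if z ∈ W then om * ‖G' y z‖ ^ 2 else 0 := by
    intro z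
    by_cases hz : z ∈ W
    · rw [omW_in hz, if_pos hz]
      have := mul_nonneg (sq_nonneg ‖G' y z‖) (hb'.nn' z)
      linarith
    · rw [omW_out hz, if_neg hz]
      linarith
  have h2 : ∑ z ∈ W, om * ‖G' y z‖ ^ 2 ≤ (G' y y).im := by
    rcases W.eq_empty_or_nonempty with hW | hW
    · rw [hW, Finset.sum_empty]
      exact hb'.im_nn y
    · have hc : (0 : ℝ) < W.card := by exact_mod_cast hW.card_pos
      have e1 : ∀ z ∈ W, om * ‖G' y z‖ ^ 2 ≤ (G' y y).im / W.card := by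
        intro z hz
        rw [le_div_iff₀ hc]
        have := h.ent z hz y hy
        linarith
      refine (Finset.sum_le_sum e1).trans (le_of_eq ?_)
      rw [Finset.sum_const, nsmul_eq_mul]
      field_simp
  refine (Finset.sum_le_sum fun z _ => h1 z).trans ?_
  rw [Finset.sum_add_distrib, ← hb'.ward y, Finset.sum_ite_mem, Finset.univ_inter]
  linarith

/-- the source coming from outside: general bilinear bound -/
theorem Diss.out_leW (hb : Diss H0 b) (hb' : Diss H0 b') (hW : WtOK H0 b' W om Y)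
    (hw : AdmW H0 b w) {L Cb : ℝ} (hCb : 0 ≤ Cb) (B : Finset ι)
    (hout : ∀ z ∈ B, b' z = b z ∨ L ≤ w z)
    (hB : ∀ z ∈ B, ‖b' z - b z‖ ^ 2 ≤ Cb ^ 2 * (-(b z).im * omW b' W om z)) (x : ι) {y : ι}
    (hy : y ∈ Y) :
    ‖∑ z ∈ B, rsc H0 b x z * (b' z - b z) * rsc H0 b' z y‖ ≤
      Cb * (√(2 * ‖rsc H0 b x x‖) * Real.exp (w x - L) * √(2 * (rsc H0 b' y y).im)) := by
  have hn : ∀ z, 0 ≤ -(b z).im := hb.nn'
  have hn' : ∀ z, 0 ≤ omW b' W om z := hW.nn hb'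
  have h1 : ∀ z ∈ B, ‖rsc H0 b x z * (b' z - b z) * rsc H0 b' z y‖ ≤
      Cb * Real.exp (-L) * ((√(-(b z).im) * Real.exp (w z) * ‖rsc H0 b x z‖) *
        (√(omW b' W om z) * ‖rsc H0 b' y z‖)) := by
    intro z hz
    rw [norm_mul, norm_mul, hb'.symm z y]
    rcases hout z hz with h | h
    · rw [h, sub_self, norm_zero, mul_zero, zero_mul]
      positivity
    · have e1 : ‖b' z - b z‖ ≤ Cb * (√(-(b z).im) * √(omW b' W om z)) := by
        rw [← Real.sqrt_mul (hn z)]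
        have := Real.sqrt_le_sqrt (hB z hz)
        rwa [Real.sqrt_sq (norm_nonneg _), Real.sqrt_mul (sq_nonneg _), Real.sqrt_sq hCb] at this
      have e2 : 1 ≤ Real.exp (-L) * Real.exp (w z) := by
        rw [← Real.exp_add]
        exact Real.one_le_exp (by linarith)
      calc ‖rsc H0 b x z‖ * ‖b' z - b z‖ * ‖rsc H0 b' y z‖
          ≤ ‖rsc H0 b x z‖ * (Cb * (√(-(b z).im) * √(omW b' W om z))) * ‖rsc H0 b' y z‖ := by
            gcongr
        _ = Cb * ((√(-(b z).im) * ‖rsc H0 b x z‖) * (√(omW b' W om z) * ‖rsc H0 b' y z‖)) * 1 := by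
            ring
        _ ≤ Cb * ((√(-(b z).im) * ‖rsc H0 b x z‖) * (√(omW b' W om z) * ‖rsc H0 b' y z‖)) *
            (Real.exp (-L) * Real.exp (w z)) := by
            refine mul_le_mul_of_nonneg_left e2 (by positivity)
        _ = _ := by ring
  refine (norm_sum_le _ _).trans ((Finset.sum_le_sum h1).trans ?_)
  rw [← Finset.mul_sum]
  have h2 : ∑ z ∈ B, (√(-(b z).im) * Real.exp (w z) * ‖rsc H0 b x z‖) *
      (√(omW b' W om z) * ‖rsc H0 b' y z‖) ≤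
      √(2 * (Real.exp (2 * w x) * ‖rsc H0 b x x‖)) * √(2 * (rsc H0 b' y y).im) := by
    refine (Real.sum_mul_le_sqrt_mul_sqrt _ _ _).trans ?_
    refine mul_le_mul (Real.sqrt_le_sqrt ?_) (Real.sqrt_le_sqrt ?_) (Real.sqrt_nonneg _)
      (Real.sqrt_nonneg _)
    · refine le_trans ?_ (hb.agmon_row hw x)
      refine le_trans (Finset.sum_le_sum_of_subset_of_nonneg (Finset.subset_univ B)
        fun z _ _ => sq_nonneg _) (Finset.sum_le_sum fun z _ => le_of_eq ?_)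
      rw [mul_pow, mul_pow, Real.sq_sqrt (hn z)]
      have : Real.exp (2 * w z) = Real.exp (w z) ^ 2 := by
        rw [sq, ← Real.exp_add]; congr 1; ring
      rw [this]
      ring
    · refine le_trans ?_ (hW.wardW hb' hy)
      refine le_trans (Finset.sum_le_sum_of_subset_of_nonneg (Finset.subset_univ B)
        fun z _ _ => sq_nonneg _) (Finset.sum_le_sum fun z _ => le_of_eq ?_)
      rw [mul_pow, Real.sq_sqrt (hn' z)]
  have h3 : √(2 * (Real.exp (2 * w x) * ‖rsc H0 b x x‖)) =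
      Real.exp (w x) * √(2 * ‖rsc H0 b x x‖) := by
    have : 2 * (Real.exp (2 * w x) * ‖rsc H0 b x x‖) =
        Real.exp (w x) ^ 2 * (2 * ‖rsc H0 b x x‖) := by
      have : Real.exp (2 * w x) = Real.exp (w x) ^ 2 := by
        rw [sq, ← Real.exp_add]; congr 1; ring
      rw [this]; ring
    rw [this, Real.sqrt_mul (sq_nonneg _), Real.sqrt_sq (Real.exp_pos _).le]
  rw [h3] at h2
  calc Cb * Real.exp (-L) * ∑ z ∈ B, (√(-(b z).im) * Real.exp (w z) * ‖rsc H0 b x z‖) *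
      (√(omW b' W om z) * ‖rsc H0 b' y z‖)
      ≤ Cb * Real.exp (-L) * (Real.exp (w x) * √(2 * ‖rsc H0 b x x‖) *
        √(2 * (rsc H0 b' y y).im)) := mul_le_mul_of_nonneg_left h2 (by positivity)
    _ = _ := by
      rw [show w x - L = w x + -L by ring, Real.exp_add]
      ring

/-- comparison of two self-consistent media -/
theorem Diss.compareW (hb : Diss H0 b) (hb' : Diss H0 b') (hW : WtOK H0 b' W om Y)
    (hw : AdmW H0 b w) (A : Finset ι) (hAY : ∀ x ∈ A, x ∈ Y) {κ : ι → ℝ} (hκ : ∀ x ∈ A, 0 < κ x)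
    (hk : ∀ x ∈ A, κ x * (rsc H0 b x x).im ≤ -(b x).im)
    (hk' : ∀ x ∈ A, κ x * (rsc H0 b' x x).im ≤ -(b' x).im)
    (hdif : ∀ x ∈ A, b' x - b x = (κ x : ℂ) * (rsc H0 b x x - rsc H0 b' x x))
    {L Cb C1 c1 t l ε : ℝ} (hCb : 0 ≤ Cb) (hC0 : 0 ≤ C1)
    (hout : ∀ z, z ∉ A → b' z = b z ∨ L ≤ w z)
    (hB : ∀ z, z ∉ A → ‖b' z - b z‖ ^ 2 ≤ Cb ^ 2 * (-(b z).im * omW b' W om z))
    (hwA : ∀ x ∈ A, w x ≤ L) (ht : 0 ≤ t) (ht1 : t ≤ 1)
    (h3 : ∀ x ∈ A, ∑ y ∈ A, κ y * ((rsc H0 b y y).im * (rsc H0 b x y).re ^ 2) ≤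
      l ^ 2 * (rsc H0 b x x).im)
    (hC1 : ∀ x ∈ A, ‖rsc H0 b x x‖ ≤ C1) (hc0 : 0 < c1)
    (hc1 : ∀ x ∈ A, c1 ≤ (rsc H0 b x x).im) (hp' : ∀ x ∈ A, 0 < (rsc H0 b' x x).im)
    (hl : 0 ≤ l) (hε : 0 ≤ ε) (hle : l + ε < 1) (htε : 4 * t ^ 2 * C1 ≤ ε ^ 2 * c1) :
    (1 - l - ε) ^ 2 * ∑ x ∈ A, κ x * (Real.exp (-(2 * t * w x)) *
        ‖rsc H0 b x x - rsc H0 b' x x‖ ^ 2) ≤
      4 * C1 * Cb ^ 2 * Real.exp (-(2 * t * L)) * ∑ x ∈ A, κ x * (rsc H0 b' x x).im := by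
  set G := rsc H0 b with hG
  set G' := rsc H0 b' with hG'
  set f : ι → ℂ := fun x => ∑ z ∈ univ \ A, G x z * (b' z - b z) * G' z x with hf
  have hδ : ∀ x ∈ A, (fun x => G x x - G' x x) x =
      ∑ y ∈ A, G x y * G' x y * ((κ y : ℂ) * (fun x => G x x - G' x x) y) + f x := by
    intro x hx
    have h1 := Diss.sub_ent hb hb' x x
    simp only [← hG, ← hG'] at h1
    change G x x - G' x x = _
    rw [h1, hf, ← Finset.sum_sdiff (Finset.subset_univ A), add_comm]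
    congr 1
    refine Finset.sum_congr rfl fun y hy => ?_
    rw [hdif y hy]
    simp only [hG', rsc_symm hb.hH b' y x]
    ring
  have hfb : ∀ x ∈ A, ‖f x‖ ^ 2 ≤
      Cb ^ 2 * (2 * ‖G x x‖ * Real.exp (2 * (w x - L)) * (2 * (G' x x).im)) := by
    intro x hx
    have h1 := Diss.out_leW hb hb' hW hw hCb (univ \ A) (fun z hz => hout z (by simpa using hz))
      (fun z hz => hB z (by simpa using hz)) x (hAY x hx)
    have h2 := pow_le_pow_left₀ (norm_nonneg _) h1 2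
    have e1 : Real.exp (2 * (w x - L)) = Real.exp (w x - L) ^ 2 := by
      rw [sq, ← Real.exp_add]; congr 1; ring
    refine h2.trans (le_of_eq ?_)
    have e2 : 0 ≤ 2 * (rsc H0 b' x x).im := by have := hb'.im_nn x; positivity
    rw [mul_pow, mul_pow, mul_pow, Real.sq_sqrt (by positivity), Real.sq_sqrt e2, e1]
  have hac := Diss.accr hb hb' A (κ := κ) (ρ := fun x => (G x x).im) (ρ' := fun x => (G' x x).im)
    (φ := fun x => -(t * w x)) hκ (fun x hx => hc0.trans_le (hc1 x hx)) hp'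
    hl hε hle h3 (fun x _ => hb'.wardA A hk' x) ?_ (δ := fun x => G x x - G' x x) (f := f) hδ
  · have e1 : ∀ x, Real.exp (2 * -(t * w x)) = Real.exp (-(2 * t * w x)) := by
      intro x; congr 1; ring
    simp only [e1] at hac
    refine hac.trans ?_
    rw [Finset.mul_sum]
    refine Finset.sum_le_sum fun x hx => ?_
    have h1 := hfb x hx
    have h2 := hC1 x hx
    have h4 := hb'.im_nn x
    have h5 : Real.exp (-(2 * t * w x)) * Real.exp (2 * (w x - L)) ≤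
        Real.exp (-(2 * t * L)) := by
      rw [← Real.exp_add]
      apply Real.exp_le_exp.2
      nlinarith [hwA x hx, mul_nonneg (sub_nonneg.2 ht1) (sub_nonneg.2 (hwA x hx))]
    have h6 := hκ x hx
    calc κ x * (Real.exp (-(2 * t * w x)) * ‖f x‖ ^ 2)
        ≤ κ x * (Real.exp (-(2 * t * w x)) *
          (Cb ^ 2 * (2 * C1 * Real.exp (2 * (w x - L)) * (2 * (G' x x).im)))) := by
          refine mul_le_mul_of_nonneg_left (mul_le_mul_of_nonneg_left (h1.trans ?_)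
            (Real.exp_pos _).le) h6.le
          refine mul_le_mul_of_nonneg_left ?_ (sq_nonneg _)
          refine mul_le_mul_of_nonneg_right ?_ (by rw [hG']; positivity)
          exact mul_le_mul_of_nonneg_right (by linarith) (Real.exp_pos _).le
      _ = 4 * C1 * Cb ^ 2 * (κ x * (G' x x).im) *
          (Real.exp (-(2 * t * w x)) * Real.exp (2 * (w x - L))) := by ring
      _ ≤ 4 * C1 * Cb ^ 2 * (κ x * (G' x x).im) * Real.exp (-(2 * t * L)) :=
          mul_le_mul_of_nonneg_left h5 (by positivity)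
      _ = _ := by ring
  · intro x hx
    have h7 := hb.wgt hw A (κ := κ) (ρ := fun x => (G x x).im) hk ht ht1 htε (hC1 x hx) (hc1 x hx)
    refine le_trans (le_of_eq ?_) h7
    refine Finset.sum_congr rfl fun y _ => ?_
    have e1 : |(-(t * w x)) - (-(t * w y))| = |t * w x - t * w y| := by
      rw [show (-(t * w x)) - (-(t * w y)) = -(t * w x - t * w y) by ring, abs_neg]
    change κ y * ((G y y).im * (‖G x y‖ * (Real.exp |(-(t * w x)) - (-(t * w y))| - 1)) ^ 2) = _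
    rw [e1]

/-- the sum in the row and entry forms -/
theorem Diss.rel_sumW (hb : Diss H0 b) (hb' : Diss H0 b') (hW : WtOK H0 b' W om Y)
    (hw : AdmW H0 b w) {R t L : ℝ} (ht : 0 ≤ t) (ht1 : t ≤ 1)
    (hd : ∀ z, ‖b' z - b z‖ ^ 2 ≤
      R ^ 2 * Real.exp (2 * t * (w z - L)) * (-(b z).im * omW b' W om z)) (x : ι) :
    ∑ z, ‖((√(omW b' W om z))⁻¹ : ℂ) * (b' z - b z) * rsc H0 b x z‖ ^ 2 ≤
      2 * R ^ 2 * ‖rsc H0 b x x‖ * Real.exp (2 * t * (w x - L)) := by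
  set G := rsc H0 b with hG
  have hn' : ∀ z, 0 ≤ omW b' W om z := hW.nn hb'
  have hz0 : ∀ z, omW b' W om z = 0 → b' z - b z = 0 := by
    intro z hz
    have h1 := hd z
    rw [hz, mul_zero, mul_zero] at h1
    have h2 : ‖b' z - b z‖ ^ 2 = 0 := le_antisymm h1 (sq_nonneg _)
    exact norm_eq_zero.1 (pow_eq_zero_iff (by norm_num) |>.1 h2)
  have h4 : ∀ z, ‖((√(omW b' W om z))⁻¹ : ℂ) * (b' z - b z) * G x z‖ ^ 2 ≤
      R ^ 2 * Real.exp (-(2 * t * L)) *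
        (-(b z).im * (Real.exp (2 * (t * w z)) * ‖G x z‖ ^ 2)) := by
    intro z
    rcases (hn' z).eq_or_lt with h0 | h0
    · have e0 : (0 : ℝ) ^ 2 = 0 := by norm_num
      rw [hz0 z h0.symm, mul_zero, zero_mul, norm_zero, e0]
      have := hb.nn' z
      positivity
    have e1 : ‖((√(omW b' W om z))⁻¹ : ℂ) * (b' z - b z) * G x z‖ ^ 2 =
        (omW b' W om z)⁻¹ * (‖b' z - b z‖ ^ 2 * ‖G x z‖ ^ 2) := by
      rw [norm_mul, norm_mul, mul_pow, mul_pow, norm_inv, Complex.norm_real, Real.norm_eq_abs,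
        abs_of_nonneg (Real.sqrt_nonneg _), inv_pow, Real.sq_sqrt h0.le]
      ring
    rw [e1]
    have e2 : Real.exp (2 * t * (w z - L)) = Real.exp (-(2 * t * L)) * Real.exp (2 * (t * w z)) := by
      rw [← Real.exp_add]; congr 1; ring
    calc (omW b' W om z)⁻¹ * (‖b' z - b z‖ ^ 2 * ‖G x z‖ ^ 2)
        ≤ (omW b' W om z)⁻¹ * ((R ^ 2 * Real.exp (2 * t * (w z - L)) *
          (-(b z).im * omW b' W om z)) * ‖G x z‖ ^ 2) :=
          mul_le_mul_of_nonneg_left (mul_le_mul_of_nonneg_right (hd z) (sq_nonneg _))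
            (inv_nonneg.2 h0.le)
      _ = ((omW b' W om z)⁻¹ * omW b' W om z) * (R ^ 2 * Real.exp (2 * t * (w z - L)) *
          (-(b z).im * ‖G x z‖ ^ 2)) := by ring
      _ = R ^ 2 * Real.exp (2 * t * (w z - L)) * (-(b z).im * ‖G x z‖ ^ 2) := by
          rw [inv_mul_cancel₀ h0.ne', one_mul]
      _ = _ := by rw [e2]; ring
  refine (Finset.sum_le_sum fun z _ => h4 z).trans ?_
  rw [← Finset.mul_sum]
  have h5 := hb.agmon_row (hw.smul ht ht1) x
  have e3 : Real.exp (2 * t * (w x - L)) = Real.exp (-(2 * t * L)) * Real.exp (2 * (t * w x)) := by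
    rw [← Real.exp_add]; congr 1; ring
  calc R ^ 2 * Real.exp (-(2 * t * L)) *
        ∑ z, -(b z).im * (Real.exp (2 * (t * w z)) * ‖G x z‖ ^ 2)
      ≤ R ^ 2 * Real.exp (-(2 * t * L)) * (2 * (Real.exp (2 * (t * w x)) * ‖G x x‖)) :=
        mul_le_mul_of_nonneg_left h5 (by positivity)
    _ = _ := by rw [e3]; ring

/-- the difference of the entries -/
theorem Diss.difW (hb : Diss H0 b) (hb' : Diss H0 b') (hW : WtOK H0 b' W om Y)
    {R t L : ℝ}
    (hd : ∀ z, ‖b' z - b z‖ ^ 2 ≤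
      R ^ 2 * Real.exp (2 * t * (w z - L)) * (-(b z).im * omW b' W om z)) (x y : ι) :
    rsc H0 b x y - rsc H0 b' x y = ∑ z, rsc H0 b' y z *
      ((√(omW b' W om z) : ℂ) * (((√(omW b' W om z))⁻¹ : ℂ) * (b' z - b z) * rsc H0 b x z)) := by
  set G := rsc H0 b with hG
  set G' := rsc H0 b' with hG'
  have hn' : ∀ z, 0 ≤ omW b' W om z := hW.nn hb'
  have hz0 : ∀ z, omW b' W om z = 0 → b' z - b z = 0 := by
    intro z hz
    have h1 := hd z
    rw [hz, mul_zero, mul_zero] at h1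
    have h2 : ‖b' z - b z‖ ^ 2 = 0 := le_antisymm h1 (sq_nonneg _)
    exact norm_eq_zero.1 (pow_eq_zero_iff (by norm_num) |>.1 h2)
  have e1 := Diss.sub_ent hb hb' x y
  simp only [← hG, ← hG'] at e1
  rw [e1]
  refine Finset.sum_congr rfl fun z _ => ?_
  rw [show G' z y = G' y z from hb'.symm z y]
  rcases (hn' z).eq_or_lt with h0 | h0
  · rw [hz0 z h0.symm]
    simp
  · have e2 : (√(omW b' W om z) : ℂ) ≠ 0 := by
      have := Real.sqrt_pos.2 h0
      exact_mod_cast this.ne'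
    field_simp

/-- row form -/
theorem Diss.rel_rowW (hb : Diss H0 b) (hb' : Diss H0 b') (hW : WtOK H0 b' W om Y)
    (hw : AdmW H0 b w) {R t L : ℝ} (ht : 0 ≤ t) (ht1 : t ≤ 1)
    (hd : ∀ z, ‖b' z - b z‖ ^ 2 ≤
      R ^ 2 * Real.exp (2 * t * (w z - L)) * (-(b z).im * omW b' W om z)) (x : ι) :
    ∑ y, -(b' y).im * ‖rsc H0 b x y - rsc H0 b' x y‖ ^ 2 ≤
      4 * R ^ 2 * ‖rsc H0 b x x‖ * Real.exp (2 * t * (w x - L)) := by
  have h1 := hb.difW hb' hW hd x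
  have h2 := hW.rowW hb'
    (fun z => ((√(omW b' W om z))⁻¹ : ℂ) * (b' z - b z) * rsc H0 b x z)
  have h3 := hb.rel_sumW hb' hW hw ht ht1 hd x
  have h4 : ∑ y, -(b' y).im * ‖rsc H0 b x y - rsc H0 b' x y‖ ^ 2 ≤
      2 * ∑ z, ‖((√(omW b' W om z))⁻¹ : ℂ) * (b' z - b z) * rsc H0 b x z‖ ^ 2 := by
    refine le_trans (le_of_eq ?_) h2
    refine Finset.sum_congr rfl fun y _ => ?_
    rw [h1 y]
  refine h4.trans ?_
  calc 2 * ∑ z, ‖((√(omW b' W om z))⁻¹ : ℂ) * (b' z - b z) * rsc H0 b x z‖ ^ 2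
      ≤ 2 * (2 * R ^ 2 * ‖rsc H0 b x x‖ * Real.exp (2 * t * (w x - L))) :=
        mul_le_mul_of_nonneg_left h3 (by norm_num)
    _ = _ := by ring

/-- entry form -/
theorem Diss.rel_entW (hb : Diss H0 b) (hb' : Diss H0 b') (hW : WtOK H0 b' W om Y)
    (hw : AdmW H0 b w) {R t L : ℝ} (ht : 0 ≤ t) (ht1 : t ≤ 1)
    (hd : ∀ z, ‖b' z - b z‖ ^ 2 ≤
      R ^ 2 * Real.exp (2 * t * (w z - L)) * (-(b z).im * omW b' W om z)) (x : ι) {y : ι}
    (hy : y ∈ Y) :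
    ‖rsc H0 b x y - rsc H0 b' x y‖ ^ 2 ≤
      4 * R ^ 2 * ‖rsc H0 b x x‖ * Real.exp (2 * t * (w x - L)) * (rsc H0 b' y y).im := by
  have h0 := hb.difW hb' hW hd x y
  have hn' : ∀ z, 0 ≤ omW b' W om z := hW.nn hb'
  set p : ι → ℂ := fun z => ((√(omW b' W om z))⁻¹ : ℂ) * (b' z - b z) * rsc H0 b x z with hp
  have h1 : ‖rsc H0 b x y - rsc H0 b' x y‖ ≤
      ∑ z, ‖p z‖ * (√(omW b' W om z) * ‖rsc H0 b' y z‖) := by
    rw [h0]
    refine (norm_sum_le _ _).trans (Finset.sum_le_sum fun z _ => le_of_eq ?_)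
    rw [norm_mul, norm_mul, Complex.norm_real, Real.norm_eq_abs, abs_of_nonneg (Real.sqrt_nonneg _)]
    ring
  have h2 : ‖rsc H0 b x y - rsc H0 b' x y‖ ^ 2 ≤ (∑ z, ‖p z‖ ^ 2) *
      ∑ z, (√(omW b' W om z) * ‖rsc H0 b' y z‖) ^ 2 :=
    (pow_le_pow_left₀ (norm_nonneg _) h1 2).trans (Finset.sum_mul_sq_le_sq_mul_sq _ _ _)
  have h3 : ∑ z, (√(omW b' W om z) * ‖rsc H0 b' y z‖) ^ 2 ≤ 2 * (rsc H0 b' y y).im := by
    refine le_trans (le_of_eq ?_) (hW.wardW hb' hy)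
    refine Finset.sum_congr rfl fun z _ => ?_
    rw [mul_pow, Real.sq_sqrt (hn' z)]
  have h4 := hb.rel_sumW hb' hW hw ht ht1 hd x
  have h5 : 0 ≤ ∑ z, (√(omW b' W om z) * ‖rsc H0 b' y z‖) ^ 2 :=
    Finset.sum_nonneg fun z _ => sq_nonneg _
  have h6 := mul_le_mul h4 h3 h5
    (by positivity : 0 ≤ 2 * R ^ 2 * ‖rsc H0 b x x‖ * Real.exp (2 * t * (w x - L)))
  refine h2.trans (h6.trans (le_of_eq (by ring)))

/-- two self-consistent media with the same data near a point, both good near the point; the absorption of the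
second one may disappear on `W` -/
structure FLocW (H0 : Matrix ι ι ℂ) (b b' : ι → ℂ) (w κ : ι → ℝ) (A : Finset ι)
    (W : Finset ι) (om : ℝ) (Y : Set ι) (K C1 c1 t l ε L : ℝ) : Prop where
  hb : Diss H0 b
  hb' : Diss H0 b'
  hW : WtOK H0 b' W om Y
  hAY : ∀ x ∈ A, x ∈ Y
  hAW : ∀ x ∈ A, x ∉ W
  hw : AdmW H0 b w
  hwA : ∀ x ∈ A, w x ≤ L
  hcard : (A.card : ℝ) ≤ K
  hκ : ∀ x ∈ A, 1 / K ≤ κ x
  hκ1 : ∀ x ∈ A, κ x ≤ 1
  hk : ∀ x ∈ A, κ x * (rsc H0 b x x).im ≤ -(b x).im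
  hk' : ∀ x ∈ A, κ x * (rsc H0 b' x x).im ≤ -(b' x).im
  hdif : ∀ x ∈ A, b' x - b x = (κ x : ℂ) * (rsc H0 b x x - rsc H0 b' x x)
  hout : ∀ z, z ∉ A → b' z = b z ∨ L ≤ w z
  hB : ∀ z, z ∉ A → ‖b' z - b z‖ ^ 2 ≤ K ^ 2 * (-(b z).im * omW b' W om z)
  h3 : ∀ x ∈ A, ∑ y ∈ A, κ y * ((rsc H0 b y y).im * (rsc H0 b x y).re ^ 2) ≤
    l ^ 2 * (rsc H0 b x x).im
  hC1 : ∀ x ∈ A, ‖rsc H0 b x x‖ ≤ C1
  hc1 : ∀ x ∈ A, c1 ≤ (rsc H0 b x x).im
  hC1' : ∀ x ∈ A, (rsc H0 b' x x).im ≤ C1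
  hc1' : ∀ x ∈ A, c1 ≤ (rsc H0 b' x x).im
  ht : 0 ≤ t
  ht1 : t ≤ 1
  hl : 0 ≤ l
  hε : 0 ≤ ε
  htε : 4 * t ^ 2 * C1 ≤ ε ^ 2 * c1
  hK : 1 ≤ K
  hKl : 1 / K ≤ 1 - l - ε
  hKC : C1 ≤ K
  hKc : 1 / K ≤ c1

variable {κ : ι → ℝ} {A : Finset ι} {K C1 c1 t l ε L : ℝ}

/-- diagonal entries near the point -/
theorem FLocW.diag (h : FLocW H0 b b' w κ A W om Y K C1 c1 t l ε L) {x : ι} (hx : x ∈ A) :
    ‖rsc H0 b x x - rsc H0 b' x x‖ ^ 2 ≤ 4 * K ^ 8 * Real.exp (2 * t * (w x - L)) := by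
  have hK0 : 0 < K := by linarith [h.hK]
  have hiK : 0 < 1 / K := by positivity
  have hκ0 : ∀ z ∈ A, 0 < κ z := fun z hz => hiK.trans_le (h.hκ z hz)
  have hC0 : 0 ≤ C1 := (norm_nonneg _).trans (h.hC1 x hx)
  have hc0 : 0 < c1 := hiK.trans_le h.hKc
  have hcmp := Diss.compareW h.hb h.hb' h.hW h.hw A h.hAY hκ0 h.hk h.hk' h.hdif hK0.le hC0 h.hout
    h.hB h.hwA h.ht h.ht1 h.h3 h.hC1 hc0 h.hc1 (fun x hx => hc0.trans_le (h.hc1' x hx)) h.hl h.hε
    (by linarith [h.hKl]) h.htε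
  have hS : ∑ z ∈ A, κ z * (rsc H0 b' z z).im ≤ K * K := by
    calc ∑ z ∈ A, κ z * (rsc H0 b' z z).im ≤ ∑ z ∈ A, K := by
          refine Finset.sum_le_sum fun z hz => ?_
          have a1 := h.hb'.im_nn z
          calc κ z * (rsc H0 b' z z).im ≤ 1 * (rsc H0 b' z z).im :=
                mul_le_mul_of_nonneg_right (h.hκ1 z hz) a1
            _ ≤ K := by linarith [h.hC1' z hz, h.hKC]
      _ = (A.card : ℝ) * K := by rw [Finset.sum_const, nsmul_eq_mul]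
      _ ≤ K * K := mul_le_mul_of_nonneg_right h.hcard hK0.le
  have hterm : κ x * (Real.exp (-(2 * t * w x)) * ‖rsc H0 b x x - rsc H0 b' x x‖ ^ 2) ≤
      ∑ z ∈ A, κ z * (Real.exp (-(2 * t * w z)) * ‖rsc H0 b z z - rsc H0 b' z z‖ ^ 2) :=
    Finset.single_le_sum (f := fun z => κ z * (Real.exp (-(2 * t * w z)) *
      ‖rsc H0 b z z - rsc H0 b' z z‖ ^ 2)) (fun z hz => mul_nonneg (hκ0 z hz).le (by positivity)) hx
  set δ := ‖rsc H0 b x x - rsc H0 b' x x‖ ^ 2 with hδ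
  have hδ0 : 0 ≤ δ := by positivity
  have b1 : (1 / K) ^ 2 ≤ (1 - l - ε) ^ 2 := pow_le_pow_left₀ hiK.le h.hKl 2
  have b2 : (1 / K) ^ 2 * (1 / K * (Real.exp (-(2 * t * w x)) * δ)) ≤
      4 * K * K ^ 2 * Real.exp (-(2 * t * L)) * (K * K) := by
    calc (1 / K) ^ 2 * (1 / K * (Real.exp (-(2 * t * w x)) * δ))
        ≤ (1 - l - ε) ^ 2 * (κ x * (Real.exp (-(2 * t * w x)) * δ)) := by
          refine mul_le_mul b1 ?_ (by positivity) (sq_nonneg _)
          exact mul_le_mul_of_nonneg_right (h.hκ x hx) (by positivity)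
      _ ≤ (1 - l - ε) ^ 2 * ∑ z ∈ A, κ z * (Real.exp (-(2 * t * w z)) *
          ‖rsc H0 b z z - rsc H0 b' z z‖ ^ 2) := mul_le_mul_of_nonneg_left hterm (sq_nonneg _)
      _ ≤ 4 * C1 * K ^ 2 * Real.exp (-(2 * t * L)) * ∑ z ∈ A, κ z * (rsc H0 b' z z).im := hcmp
      _ ≤ 4 * K * K ^ 2 * Real.exp (-(2 * t * L)) * (K * K) := by
          refine mul_le_mul ?_ hS (Finset.sum_nonneg fun z hz => mul_nonneg (hκ0 z hz).le
            (h.hb'.im_nn z)) (by positivity)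
          refine mul_le_mul_of_nonneg_right ?_ (Real.exp_pos _).le
          refine mul_le_mul_of_nonneg_right ?_ (sq_nonneg _)
          linarith [h.hKC]
  have e1 : Real.exp (2 * t * (w x - L)) = Real.exp (2 * t * w x) * Real.exp (-(2 * t * L)) := by
    rw [← Real.exp_add]; congr 1; ring
  have e2 : Real.exp (2 * t * w x) * Real.exp (-(2 * t * w x)) = 1 := by
    rw [← Real.exp_add]; simp
  calc δ = K ^ 3 * Real.exp (2 * t * w x) *
        ((1 / K) ^ 2 * (1 / K * (Real.exp (-(2 * t * w x)) * δ))) := by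
        have : K ^ 3 * Real.exp (2 * t * w x) *
            ((1 / K) ^ 2 * (1 / K * (Real.exp (-(2 * t * w x)) * δ))) =
            (K ^ 3 * (1 / K) ^ 2 * (1 / K)) *
              (Real.exp (2 * t * w x) * Real.exp (-(2 * t * w x))) * δ := by ring
        rw [this, e2]
        have : K ^ 3 * (1 / K) ^ 2 * (1 / K) = 1 := by field_simp
        rw [this]
        ring
    _ ≤ K ^ 3 * Real.exp (2 * t * w x) * (4 * K * K ^ 2 * Real.exp (-(2 * t * L)) * (K * K)) :=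
        mul_le_mul_of_nonneg_left b2 (by positivity)
    _ = 4 * K ^ 8 * Real.exp (2 * t * (w x - L)) := by rw [e1]; ring

/-- relative difference of the diagonal data, all sites -/
theorem FLocW.rel (h : FLocW H0 b b' w κ A W om Y K C1 c1 t l ε L) (z : ι) :
    ‖b' z - b z‖ ^ 2 ≤
      (2 * K ^ 5) ^ 2 * Real.exp (2 * t * (w z - L)) * (-(b z).im * omW b' W om z) := by
  have hK0 : 0 < K := by linarith [h.hK]
  have hiK : 0 < 1 / K := by positivity
  have hn : 0 ≤ -(b z).im := h.hb.nn' z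
  have hn' : 0 ≤ omW b' W om z := h.hW.nn h.hb' z
  by_cases hz : z ∈ A
  · have h1 := h.diag hz
    have hκz : 0 < κ z := hiK.trans_le (h.hκ z hz)
    have ho : omW b' W om z = -(b' z).im := omW_out (h.hAW z hz)
    rw [ho] at hn' ⊢
    rw [h.hdif z hz, norm_mul, mul_pow, Complex.norm_real, Real.norm_eq_abs, sq_abs]
    have h2 : κ z * (1 / K) ≤ -(b z).im :=
      (mul_le_mul_of_nonneg_left (h.hKc.trans (h.hc1 z hz)) hκz.le).trans (h.hk z hz)
    have h3 : κ z * (1 / K) ≤ -(b' z).im :=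
      (mul_le_mul_of_nonneg_left (h.hKc.trans (h.hc1' z hz)) hκz.le).trans (h.hk' z hz)
    have h4 : κ z ^ 2 ≤ K ^ 2 * (-(b z).im * -(b' z).im) := by
      calc κ z ^ 2 = K ^ 2 * ((κ z * (1 / K)) * (κ z * (1 / K))) := by field_simp
        _ ≤ _ := by
          refine mul_le_mul_of_nonneg_left ?_ (sq_nonneg _)
          exact mul_le_mul h2 h3 (by positivity) hn
    calc κ z ^ 2 * ‖rsc H0 b z z - rsc H0 b' z z‖ ^ 2
        ≤ (K ^ 2 * (-(b z).im * -(b' z).im)) * (4 * K ^ 8 * Real.exp (2 * t * (w z - L))) :=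
          mul_le_mul h4 h1 (sq_nonneg _) (by positivity)
      _ = _ := by ring
  · rcases h.hout z hz with h1 | h1
    · rw [h1, sub_self, norm_zero]
      have e1 := (Real.exp_pos (2 * t * (w z - L))).le
      have e2 : (0 : ℝ) ^ 2 = 0 := by norm_num
      rw [e2]
      exact mul_nonneg (mul_nonneg (sq_nonneg _) e1) (mul_nonneg hn hn')
    · refine (h.hB z hz).trans ?_
      refine mul_le_mul_of_nonneg_right ?_ (by positivity)
      have e1 : 1 ≤ Real.exp (2 * t * (w z - L)) := by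
        apply Real.one_le_exp
        have := h.ht
        have : 0 ≤ w z - L := by linarith
        positivity
      have e2 : K ^ 2 ≤ (2 * K ^ 5) ^ 2 := by
        refine pow_le_pow_left₀ hK0.le ?_ 2
        have : K ≤ K ^ 5 := by
          calc K = K ^ 1 := (pow_one K).symm
            _ ≤ K ^ 5 := pow_le_pow_right₀ h.hK (by norm_num)
        linarith
      calc K ^ 2 ≤ (2 * K ^ 5) ^ 2 * 1 := by linarith
        _ ≤ _ := mul_le_mul_of_nonneg_left e1 (sq_nonneg _)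

/-- rows -/
theorem FLocW.row (h : FLocW H0 b b' w κ A W om Y K C1 c1 t l ε L) {x : ι}
    (hx : ‖rsc H0 b x x‖ ≤ K) :
    ∑ y, -(b' y).im * ‖rsc H0 b x y - rsc H0 b' x y‖ ^ 2 ≤
      16 * K ^ 11 * Real.exp (2 * t * (w x - L)) := by
  have hK0 : 0 < K := by linarith [h.hK]
  refine (Diss.rel_rowW h.hb h.hb' h.hW h.hw h.ht h.ht1 h.rel x).trans ?_
  refine mul_le_mul_of_nonneg_right ?_ (Real.exp_pos _).le
  calc 4 * (2 * K ^ 5) ^ 2 * ‖rsc H0 b x x‖ ≤ 4 * (2 * K ^ 5) ^ 2 * K :=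
        mul_le_mul_of_nonneg_left hx (by positivity)
    _ = 16 * K ^ 11 := by ring

/-- entries -/
theorem FLocW.ent (h : FLocW H0 b b' w κ A W om Y K C1 c1 t l ε L) {x y : ι}
    (hx : ‖rsc H0 b x x‖ ≤ K) (hyY : y ∈ Y) (hy : (rsc H0 b' y y).im ≤ K) :
    ‖rsc H0 b x y - rsc H0 b' x y‖ ≤ 4 * K ^ 6 * Real.exp (t * (w x - L)) := by
  have hK0 : 0 < K := by linarith [h.hK]
  have h1 := Diss.rel_entW h.hb h.hb' h.hW h.hw h.ht h.ht1 h.rel x hyY
  have e1 : Real.exp (2 * t * (w x - L)) = Real.exp (t * (w x - L)) ^ 2 := by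
    rw [sq, ← Real.exp_add]; congr 1; ring
  have h2 : ‖rsc H0 b x y - rsc H0 b' x y‖ ^ 2 ≤ (4 * K ^ 6 * Real.exp (t * (w x - L))) ^ 2 := by
    refine h1.trans ?_
    calc 4 * (2 * K ^ 5) ^ 2 * ‖rsc H0 b x x‖ * Real.exp (2 * t * (w x - L)) *
          (rsc H0 b' y y).im
        ≤ 4 * (2 * K ^ 5) ^ 2 * K * Real.exp (2 * t * (w x - L)) * K := by
          refine mul_le_mul ?_ hy (h.hb'.im_nn y) (by positivity)
          refine mul_le_mul_of_nonneg_right ?_ (Real.exp_pos _).le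
          exact mul_le_mul_of_nonneg_left hx (by positivity)
      _ = _ := by rw [e1]; ring
  exact (pow_le_pow_iff_left₀ (norm_nonneg _) (by positivity) (by norm_num)).1 h2

end Pool.Agent.ANM
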