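import Pool.Agent.ANM.Compare
import Pool.Agent.GSC.Cmp

/-! # ANM Local: locality of self-consistent media, both media good.

`G = rsc H0 b`, `G' = rsc H0 b'`, both self-consistent on `A` (the active sites with `w < L`), the same data off a set
where `w ≥ L`.  Both have `c1 ≤ Im G_xx`, `‖G_xx‖ ≤ C1` near the point.  `t ≤ 1` is a constant (depending on `C1 / c1`),
`K` collects polynomial losses (number of sites of `A`, inverse absorption).

* `rel_row`, `rel_ent`: if `‖b'_z - b_z‖² ≤ R² e^{2 t (w_z - L)} η_z η'_z` for all `z` then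
  `∑_y η'_y ‖G_xy - G'_xy‖² ≤ 2 R² ‖G_xx‖ e^{2 t (w_x - L)}` and
  `‖G_xy - G'_xy‖² ≤ 2 R² ‖G_xx‖ e^{2 t (w_x - L)} Im G'_yy` (no assumption on `G'`).
* `Loc`: the hypotheses; `loc_diag`, `loc_rel`, `loc_row`, `loc_ent`: the conclusions.
-/

open Matrix Finset

noncomputable section

namespace Pool.Agent.ANM

open Pool.Agent.Kin Pool.Agent.APS

variable {ι : Type} [Fintype ι] [DecidableEq ι] {H0 : Matrix ι ι ℂ} {b b' : ι → ℂ} {w : ι → ℝ}

theorem abs_sinh_mul_le {t s : ℝ} (ht : 0 ≤ t) (ht1 : t ≤ 1) :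
    |Real.sinh (t * s)| ≤ |Real.sinh s| := by
  rw [Real.abs_sinh, Real.abs_sinh]
  apply Real.sinh_le_sinh.2
  rw [abs_mul, abs_of_nonneg ht]
  nlinarith [abs_nonneg s]

omit [DecidableEq ι] in
theorem AdmW.smul (h : AdmW H0 b w) {t : ℝ} (ht : 0 ≤ t) (ht1 : t ≤ 1) :
    AdmW H0 b (fun x => t * w x) := by
  intro x
  refine le_trans (Finset.sum_le_sum fun y _ => ?_) (h x)
  refine mul_le_mul_of_nonneg_left ?_ (norm_nonneg _)
  rw [← mul_sub]
  exact abs_sinh_mul_le ht ht1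

omit [DecidableEq ι] in
theorem AdmW.congr (h : AdmW H0 b w) (h' : ∀ x, -(b x).im ≤ -(b' x).im) : AdmW H0 b' w :=
  fun x => (h x).trans (by have := h' x; linarith)

/-- row form: nothing is assumed on `G'` -/
theorem rel_row (hH : RealSym H0) (hb : ∀ x, (b x).im < 0) (hb' : ∀ x, (b' x).im < 0)
    (hw : AdmW H0 b w) {R t L : ℝ} (ht : 0 ≤ t) (ht1 : t ≤ 1)
    (hd : ∀ z, ‖b' z - b z‖ ^ 2 ≤
      R ^ 2 * Real.exp (2 * t * (w z - L)) * (-(b z).im * -(b' z).im)) (x : ι) :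
    ∑ y, -(b' y).im * ‖rsc H0 b x y - rsc H0 b' x y‖ ^ 2 ≤
      2 * R ^ 2 * ‖rsc H0 b x x‖ * Real.exp (2 * t * (w x - L)) := by
  set G := rsc H0 b with hG
  set G' := rsc H0 b' with hG'
  have hn' : ∀ z, 0 < -(b' z).im := fun z => by have := hb' z; linarith
  have h1 : ∀ y, G x y - G' x y = ∑ z, G' y z *
      ((√(-(b' z).im) : ℂ) * (((√(-(b' z).im))⁻¹ : ℂ) * (b' z - b z) * G x z)) := by
    intro y
    have e1 := rsc_sub_ent hH hb hb' x y
    simp only [← hG, ← hG'] at e1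
    rw [e1]
    refine Finset.sum_congr rfl fun z _ => ?_
    have e2 : (√(-(b' z).im) : ℂ) ≠ 0 := by
      have := Real.sqrt_pos.2 (hn' z)
      exact_mod_cast this.ne'
    rw [show G' z y = G' y z from rsc_symm hH b' z y]
    field_simp
  have h2 := GSC.wop hH hb' (w := fun z => -(b' z).im) (fun z => (hn' z).le) (fun z => le_refl _)
    (fun z => ((√(-(b' z).im))⁻¹ : ℂ) * (b' z - b z) * G x z)
  have h3 : ∑ y, -(b' y).im * ‖G x y - G' x y‖ ^ 2 ≤
      ∑ z, ‖((√(-(b' z).im))⁻¹ : ℂ) * (b' z - b z) * G x z‖ ^ 2 := by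
    refine le_trans (le_of_eq ?_) h2
    refine Finset.sum_congr rfl fun y _ => ?_
    rw [h1 y]
  refine h3.trans ?_
  have h4 : ∀ z, ‖((√(-(b' z).im))⁻¹ : ℂ) * (b' z - b z) * G x z‖ ^ 2 ≤
      R ^ 2 * Real.exp (-(2 * t * L)) *
        (-(b z).im * (Real.exp (2 * (t * w z)) * ‖G x z‖ ^ 2)) := by
    intro z
    have e1 : ‖((√(-(b' z).im))⁻¹ : ℂ) * (b' z - b z) * G x z‖ ^ 2 =
        (-(b' z).im)⁻¹ * (‖b' z - b z‖ ^ 2 * ‖G x z‖ ^ 2) := by
      rw [norm_mul, norm_mul, mul_pow, mul_pow, norm_inv, Complex.norm_real, Real.norm_eq_abs,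
        abs_of_nonneg (Real.sqrt_nonneg _), inv_pow, Real.sq_sqrt (hn' z).le]
      ring
    rw [e1]
    have e2 : Real.exp (2 * t * (w z - L)) = Real.exp (-(2 * t * L)) * Real.exp (2 * (t * w z)) := by
      rw [← Real.exp_add]; congr 1; ring
    calc (-(b' z).im)⁻¹ * (‖b' z - b z‖ ^ 2 * ‖G x z‖ ^ 2)
        ≤ (-(b' z).im)⁻¹ * ((R ^ 2 * Real.exp (2 * t * (w z - L)) * (-(b z).im * -(b' z).im)) *
          ‖G x z‖ ^ 2) :=
          mul_le_mul_of_nonneg_left (mul_le_mul_of_nonneg_right (hd z) (sq_nonneg _))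
            (inv_nonneg.2 (hn' z).le)
      _ = ((-(b' z).im)⁻¹ * -(b' z).im) * (R ^ 2 * Real.exp (2 * t * (w z - L)) *
          (-(b z).im * ‖G x z‖ ^ 2)) := by ring
      _ = R ^ 2 * Real.exp (2 * t * (w z - L)) * (-(b z).im * ‖G x z‖ ^ 2) := by
          rw [inv_mul_cancel₀ (hn' z).ne', one_mul]
      _ = _ := by rw [e2]; ring
  refine (Finset.sum_le_sum fun z _ => h4 z).trans ?_
  rw [← Finset.mul_sum]
  have h5 := agmon_row hH hb (hw.smul ht ht1) x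
  have e3 : Real.exp (2 * t * (w x - L)) = Real.exp (-(2 * t * L)) * Real.exp (2 * (t * w x)) := by
    rw [← Real.exp_add]; congr 1; ring
  calc R ^ 2 * Real.exp (-(2 * t * L)) *
        ∑ z, -(b z).im * (Real.exp (2 * (t * w z)) * ‖G x z‖ ^ 2)
      ≤ R ^ 2 * Real.exp (-(2 * t * L)) * (2 * (Real.exp (2 * (t * w x)) * ‖G x x‖)) :=
        mul_le_mul_of_nonneg_left h5 (by positivity)
    _ = _ := by rw [e3]; ring

/-- entry form: nothing is assumed on `G'` -/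
theorem rel_ent (hH : RealSym H0) (hb : ∀ x, (b x).im < 0) (hb' : ∀ x, (b' x).im < 0)
    (hw : AdmW H0 b w) {R t L : ℝ} (ht : 0 ≤ t) (ht1 : t ≤ 1)
    (hd : ∀ z, ‖b' z - b z‖ ^ 2 ≤
      R ^ 2 * Real.exp (2 * t * (w z - L)) * (-(b z).im * -(b' z).im)) (x y : ι) :
    ‖rsc H0 b x y - rsc H0 b' x y‖ ^ 2 ≤
      2 * R ^ 2 * ‖rsc H0 b x x‖ * Real.exp (2 * t * (w x - L)) * (rsc H0 b' y y).im := by
  set G := rsc H0 b with hG
  set G' := rsc H0 b' with hG'
  have hn : ∀ z, 0 < -(b z).im := fun z => by have := hb z; linarith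
  have hn' : ∀ z, 0 < -(b' z).im := fun z => by have := hb' z; linarith
  have e1 := rsc_sub_ent hH hb hb' x y
  simp only [← hG, ← hG'] at e1
  have h1 : ‖G x y - G' x y‖ ≤ ∑ z, (‖b' z - b z‖ * ‖G x z‖ / √(-(b' z).im)) *
      (√(-(b' z).im) * ‖G' y z‖) := by
    rw [e1]
    refine (norm_sum_le _ _).trans (Finset.sum_le_sum fun z _ => le_of_eq ?_)
    rw [norm_mul, norm_mul, show G' z y = G' y z from rsc_symm hH b' z y]
    have := (Real.sqrt_pos.2 (hn' z)).ne'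
    field_simp
  have h2 : ‖G x y - G' x y‖ ^ 2 ≤ (∑ z, (‖b' z - b z‖ * ‖G x z‖ / √(-(b' z).im)) ^ 2) *
      ∑ z, (√(-(b' z).im) * ‖G' y z‖) ^ 2 :=
    (pow_le_pow_left₀ (norm_nonneg _) h1 2).trans (Finset.sum_mul_sq_le_sq_mul_sq _ _ _)
  have h3 : ∑ z, (√(-(b' z).im) * ‖G' y z‖) ^ 2 = (G' y y).im := by
    rw [hG', rsc_ward hH hb' y]
    refine Finset.sum_congr rfl fun z _ => ?_
    rw [mul_pow, Real.sq_sqrt (hn' z).le]
    ring
  have h4 : ∀ z, (‖b' z - b z‖ * ‖G x z‖ / √(-(b' z).im)) ^ 2 ≤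
      R ^ 2 * Real.exp (-(2 * t * L)) *
        (-(b z).im * (Real.exp (2 * (t * w z)) * ‖G x z‖ ^ 2)) := by
    intro z
    rw [div_pow, mul_pow, Real.sq_sqrt (hn' z).le, div_le_iff₀ (hn' z)]
    have e2 : Real.exp (2 * t * (w z - L)) = Real.exp (-(2 * t * L)) * Real.exp (2 * (t * w z)) := by
      rw [← Real.exp_add]; congr 1; ring
    calc ‖b' z - b z‖ ^ 2 * ‖G x z‖ ^ 2
        ≤ (R ^ 2 * Real.exp (2 * t * (w z - L)) * (-(b z).im * -(b' z).im)) * ‖G x z‖ ^ 2 :=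
          mul_le_mul_of_nonneg_right (hd z) (sq_nonneg _)
      _ = _ := by rw [e2]; ring
  have h5 : ∑ z, (‖b' z - b z‖ * ‖G x z‖ / √(-(b' z).im)) ^ 2 ≤
      2 * R ^ 2 * ‖G x x‖ * Real.exp (2 * t * (w x - L)) := by
    refine (Finset.sum_le_sum fun z _ => h4 z).trans ?_
    rw [← Finset.mul_sum]
    have h6 := agmon_row hH hb (hw.smul ht ht1) x
    have e3 : Real.exp (2 * t * (w x - L)) =
        Real.exp (-(2 * t * L)) * Real.exp (2 * (t * w x)) := by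
      rw [← Real.exp_add]; congr 1; ring
    calc R ^ 2 * Real.exp (-(2 * t * L)) *
          ∑ z, -(b z).im * (Real.exp (2 * (t * w z)) * ‖G x z‖ ^ 2)
        ≤ R ^ 2 * Real.exp (-(2 * t * L)) * (2 * (Real.exp (2 * (t * w x)) * ‖G x x‖)) :=
          mul_le_mul_of_nonneg_left h6 (by positivity)
      _ = _ := by rw [e3]; ring
  rw [h3] at h2
  exact h2.trans (mul_le_mul_of_nonneg_right h5 (by rw [hG']; exact (rsc_im hH hb' y).le))

/-- two self-consistent media with the same data near a point, both good near the point -/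
structure Loc (H0 : Matrix ι ι ℂ) (b b' : ι → ℂ) (w κ : ι → ℝ) (A : Finset ι)
    (K C1 c1 t l ε L : ℝ) : Prop where
  hH : RealSym H0
  hb : ∀ x, (b x).im < 0
  hb' : ∀ x, (b' x).im < 0
  /-- the weight function -/
  hw : AdmW H0 b w
  hwA : ∀ x ∈ A, w x ≤ L
  hcard : (A.card : ℝ) ≤ K
  hκ : ∀ x ∈ A, 1 / K ≤ κ x
  hκ1 : ∀ x ∈ A, κ x ≤ 1
  /-- both media are self-consistent on `A` with the same data -/
  hk : ∀ x ∈ A, κ x * (rsc H0 b x x).im ≤ -(b x).im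
  hk' : ∀ x ∈ A, κ x * (rsc H0 b' x x).im ≤ -(b' x).im
  hdif : ∀ x ∈ A, b' x - b x = (κ x : ℂ) * (rsc H0 b x x - rsc H0 b' x x)
  /-- off `A` the data are the same or the site is far -/
  hout : ∀ z, z ∉ A → b' z = b z ∨ L ≤ w z
  hB : ∀ z, z ∉ A → ‖b' z - b z‖ ^ 2 ≤ K ^ 2 * (-(b z).im * -(b' z).im)
  /-- (H3) for the first medium -/
  h3 : ∀ x ∈ A, ∑ y ∈ A, κ y * ((rsc H0 b y y).im * (rsc H0 b x y).re ^ 2) ≤
    l ^ 2 * (rsc H0 b x x).im
  hC1 : ∀ x ∈ A, ‖rsc H0 b x x‖ ≤ C1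
  hc1 : ∀ x ∈ A, c1 ≤ (rsc H0 b x x).im
  hC1' : ∀ x ∈ A, (rsc H0 b' x x).im ≤ C1
  hc1' : ∀ x ∈ A, c1 ≤ (rsc H0 b' x x).im
  ht : 0 ≤ t
  ht1 : t ≤ 1
  hl : 0 ≤ l
  hε : 0 ≤ ε
  /-- `t` is a constant -/
  htε : 4 * t ^ 2 * C1 ≤ ε ^ 2 * c1
  hK : 1 ≤ K
  hKl : 1 / K ≤ 1 - l - ε
  hKC : C1 ≤ K
  hKc : 1 / K ≤ c1

variable {κ : ι → ℝ} {A : Finset ι} {K C1 c1 t l ε L : ℝ}

/-- diagonal entries near the point -/
theorem Loc.diag (h : Loc H0 b b' w κ A K C1 c1 t l ε L) {x : ι} (hx : x ∈ A) :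
    ‖rsc H0 b x x - rsc H0 b' x x‖ ^ 2 ≤ 2 * K ^ 8 * Real.exp (2 * t * (w x - L)) := by
  have hK0 : 0 < K := by linarith [h.hK]
  have hiK : 0 < 1 / K := by positivity
  have hκ0 : ∀ z ∈ A, 0 < κ z := fun z hz => hiK.trans_le (h.hκ z hz)
  have hC0 : 0 ≤ C1 := (norm_nonneg _).trans (h.hC1 x hx)
  have hcmp := compare h.hH h.hb h.hb' h.hw A hκ0 h.hk h.hk' h.hdif hK0.le hC0 h.hout h.hB h.hwA
    h.ht h.ht1 h.h3 h.hC1 h.hc1 h.hl h.hε (by linarith [h.hKl]) h.htε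
  have hS : ∑ z ∈ A, κ z * (rsc H0 b' z z).im ≤ K * K := by
    calc ∑ z ∈ A, κ z * (rsc H0 b' z z).im ≤ ∑ z ∈ A, K := by
          refine Finset.sum_le_sum fun z hz => ?_
          have a1 := (rsc_im h.hH h.hb' z).le
          calc κ z * (rsc H0 b' z z).im ≤ 1 * (rsc H0 b' z z).im :=
                mul_le_mul_of_nonneg_right (h.hκ1 z hz) a1
            _ ≤ K := by linarith [h.hC1' z hz, h.hKC]
      _ = (A.card : ℝ) * K := by rw [Finset.sum_const, nsmul_eq_mul]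
      _ ≤ K * K := mul_le_mul_of_nonneg_right h.hcard hK0.le
  have hterm : κ x * (Real.exp (-(2 * t * w x)) * ‖rsc H0 b x x - rsc H0 b' x x‖ ^ 2) ≤
      ∑ z ∈ A, κ z * (Real.exp (-(2 * t * w z)) * ‖rsc H0 b z z - rsc H0 b' z z‖ ^ 2) :=
    Finset.single_le_sum (f := fun z => κ z * (Real.exp (-(2 * t * w z)) *
      ‖rsc H0 b z z - rsc H0 b' z z‖ ^ 2)) (fun z hz => mul_nonneg (hκ0 z hz).le (by positivity)) hx
  set δ := ‖rsc H0 b x x - rsc H0 b' x x‖ ^ 2 with hδ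
  have hδ0 : 0 ≤ δ := by positivity
  have b1 : (1 / K) ^ 2 ≤ (1 - l - ε) ^ 2 := pow_le_pow_left₀ hiK.le h.hKl 2
  have b2 : (1 / K) ^ 2 * (1 / K * (Real.exp (-(2 * t * w x)) * δ)) ≤
      2 * K * K ^ 2 * Real.exp (-(2 * t * L)) * (K * K) := by
    calc (1 / K) ^ 2 * (1 / K * (Real.exp (-(2 * t * w x)) * δ))
        ≤ (1 - l - ε) ^ 2 * (κ x * (Real.exp (-(2 * t * w x)) * δ)) := by
          refine mul_le_mul b1 ?_ (by positivity) (sq_nonneg _)
          exact mul_le_mul_of_nonneg_right (h.hκ x hx) (by positivity)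
      _ ≤ (1 - l - ε) ^ 2 * ∑ z ∈ A, κ z * (Real.exp (-(2 * t * w z)) *
          ‖rsc H0 b z z - rsc H0 b' z z‖ ^ 2) := mul_le_mul_of_nonneg_left hterm (sq_nonneg _)
      _ ≤ 2 * C1 * K ^ 2 * Real.exp (-(2 * t * L)) * ∑ z ∈ A, κ z * (rsc H0 b' z z).im := hcmp
      _ ≤ 2 * K * K ^ 2 * Real.exp (-(2 * t * L)) * (K * K) := by
          refine mul_le_mul ?_ hS (Finset.sum_nonneg fun z hz => mul_nonneg (hκ0 z hz).le
            (rsc_im h.hH h.hb' z).le) (by positivity)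
          refine mul_le_mul_of_nonneg_right ?_ (Real.exp_pos _).le
          refine mul_le_mul_of_nonneg_right ?_ (sq_nonneg _)
          linarith [h.hKC]
  have e1 : Real.exp (2 * t * (w x - L)) = Real.exp (2 * t * w x) * Real.exp (-(2 * t * L)) := by
    rw [← Real.exp_add]; congr 1; ring
  have e2 : Real.exp (2 * t * w x) * Real.exp (-(2 * t * w x)) = 1 := by
    rw [← Real.exp_add]; simp
  calc δ = K ^ 3 * Real.exp (2 * t * w x) *
        ((1 / K) ^ 2 * (1 / K * (Real.exp (-(2 * t * w x)) * δ))) := by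
        have : K ^ 3 * Real.exp (2 * t * w x) *
            ((1 / K) ^ 2 * (1 / K * (Real.exp (-(2 * t * w x)) * δ))) =
            (K ^ 3 * (1 / K) ^ 2 * (1 / K)) *
              (Real.exp (2 * t * w x) * Real.exp (-(2 * t * w x))) * δ := by ring
        rw [this, e2]
        have : K ^ 3 * (1 / K) ^ 2 * (1 / K) = 1 := by field_simp
        rw [this]
        ring
    _ ≤ K ^ 3 * Real.exp (2 * t * w x) * (2 * K * K ^ 2 * Real.exp (-(2 * t * L)) * (K * K)) :=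
        mul_le_mul_of_nonneg_left b2 (by positivity)
    _ = 2 * K ^ 8 * Real.exp (2 * t * (w x - L)) := by rw [e1]; ring

/-- relative difference of the diagonal data, all sites -/
theorem Loc.rel (h : Loc H0 b b' w κ A K C1 c1 t l ε L) (z : ι) :
    ‖b' z - b z‖ ^ 2 ≤
      (2 * K ^ 5) ^ 2 * Real.exp (2 * t * (w z - L)) * (-(b z).im * -(b' z).im) := by
  have hK0 : 0 < K := by linarith [h.hK]
  have hiK : 0 < 1 / K := by positivity
  have hn : 0 < -(b z).im := by have := h.hb z; linarith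
  have hn' : 0 < -(b' z).im := by have := h.hb' z; linarith
  by_cases hz : z ∈ A
  · have h1 := h.diag hz
    have hκz : 0 < κ z := hiK.trans_le (h.hκ z hz)
    rw [h.hdif z hz, norm_mul, mul_pow, Complex.norm_real, Real.norm_eq_abs, sq_abs]
    have h2 : κ z * (1 / K) ≤ -(b z).im :=
      (mul_le_mul_of_nonneg_left (h.hKc.trans (h.hc1 z hz)) hκz.le).trans (h.hk z hz)
    have h3 : κ z * (1 / K) ≤ -(b' z).im :=
      (mul_le_mul_of_nonneg_left (h.hKc.trans (h.hc1' z hz)) hκz.le).trans (h.hk' z hz)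
    have h4 : κ z ^ 2 ≤ K ^ 2 * (-(b z).im * -(b' z).im) := by
      calc κ z ^ 2 = K ^ 2 * ((κ z * (1 / K)) * (κ z * (1 / K))) := by field_simp
        _ ≤ _ := by
          refine mul_le_mul_of_nonneg_left ?_ (sq_nonneg _)
          exact mul_le_mul h2 h3 (by positivity) hn.le
    calc κ z ^ 2 * ‖rsc H0 b z z - rsc H0 b' z z‖ ^ 2
        ≤ (K ^ 2 * (-(b z).im * -(b' z).im)) * (2 * K ^ 8 * Real.exp (2 * t * (w z - L))) :=
          mul_le_mul h4 h1 (sq_nonneg _) (by positivity)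
      _ = (2 * K ^ 10) * Real.exp (2 * t * (w z - L)) * (-(b z).im * -(b' z).im) := by ring
      _ ≤ _ := by
          refine mul_le_mul_of_nonneg_right ?_ (by positivity)
          refine mul_le_mul_of_nonneg_right ?_ (Real.exp_pos _).le
          rw [mul_pow, ← pow_mul]
          have : 0 ≤ K ^ 10 := by positivity
          norm_num
          linarith
  · rcases h.hout z hz with h1 | h1
    · rw [h1, sub_self, norm_zero]
      have e1 := (Real.exp_pos (2 * t * (w z - L))).le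
      have e2 : (0 : ℝ) ^ 2 = 0 := by norm_num
      rw [e2]
      rw [h1] at hn'
      exact mul_nonneg (mul_nonneg (sq_nonneg _) e1) (mul_nonneg hn.le hn.le)
    · refine (h.hB z hz).trans ?_
      refine mul_le_mul_of_nonneg_right ?_ (by positivity)
      have e1 : 1 ≤ Real.exp (2 * t * (w z - L)) := by
        apply Real.one_le_exp
        have := h.ht
        have : 0 ≤ w z - L := by linarith
        positivity
      have e2 : K ^ 2 ≤ (2 * K ^ 5) ^ 2 := by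
        refine pow_le_pow_left₀ hK0.le ?_ 2
        have : K ≤ K ^ 5 := by
          calc K = K ^ 1 := (pow_one K).symm
            _ ≤ K ^ 5 := pow_le_pow_right₀ h.hK (by norm_num)
        linarith
      calc K ^ 2 ≤ (2 * K ^ 5) ^ 2 * 1 := by linarith
        _ ≤ _ := mul_le_mul_of_nonneg_left e1 (sq_nonneg _)

/-- rows -/
theorem Loc.row (h : Loc H0 b b' w κ A K C1 c1 t l ε L) {x : ι} (hx : ‖rsc H0 b x x‖ ≤ K) :
    ∑ y, -(b' y).im * ‖rsc H0 b x y - rsc H0 b' x y‖ ^ 2 ≤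
      8 * K ^ 11 * Real.exp (2 * t * (w x - L)) := by
  have hK0 : 0 < K := by linarith [h.hK]
  refine (rel_row h.hH h.hb h.hb' h.hw h.ht h.ht1 h.rel x).trans ?_
  refine mul_le_mul_of_nonneg_right ?_ (Real.exp_pos _).le
  calc 2 * (2 * K ^ 5) ^ 2 * ‖rsc H0 b x x‖ ≤ 2 * (2 * K ^ 5) ^ 2 * K :=
        mul_le_mul_of_nonneg_left hx (by positivity)
    _ = 8 * K ^ 11 := by ring

/-- entries -/
theorem Loc.ent (h : Loc H0 b b' w κ A K C1 c1 t l ε L) {x y : ι} (hx : ‖rsc H0 b x x‖ ≤ K)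
    (hy : (rsc H0 b' y y).im ≤ K) :
    ‖rsc H0 b x y - rsc H0 b' x y‖ ≤ 4 * K ^ 6 * Real.exp (t * (w x - L)) := by
  have hK0 : 0 < K := by linarith [h.hK]
  have h1 := rel_ent h.hH h.hb h.hb' h.hw h.ht h.ht1 h.rel x y
  have e1 : Real.exp (2 * t * (w x - L)) = Real.exp (t * (w x - L)) ^ 2 := by
    rw [sq, ← Real.exp_add]; congr 1; ring
  have h2 : ‖rsc H0 b x y - rsc H0 b' x y‖ ^ 2 ≤ (4 * K ^ 6 * Real.exp (t * (w x - L))) ^ 2 := by
    refine h1.trans ?_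
    calc 2 * (2 * K ^ 5) ^ 2 * ‖rsc H0 b x x‖ * Real.exp (2 * t * (w x - L)) *
          (rsc H0 b' y y).im
        ≤ 2 * (2 * K ^ 5) ^ 2 * K * Real.exp (2 * t * (w x - L)) * K := by
          refine mul_le_mul ?_ hy (rsc_im h.hH h.hb' y).le (by positivity)
          refine mul_le_mul_of_nonneg_right ?_ (Real.exp_pos _).le
          exact mul_le_mul_of_nonneg_left hx (by positivity)
      _ = 8 * K ^ 12 * Real.exp (t * (w x - L)) ^ 2 := by rw [e1]; ring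
      _ ≤ 16 * K ^ 12 * Real.exp (t * (w x - L)) ^ 2 := by
          refine mul_le_mul_of_nonneg_right ?_ (sq_nonneg _)
          have : 0 ≤ K ^ 12 := by positivity
          linarith
      _ = _ := by ring
  exact (pow_le_pow_iff_left₀ (norm_nonneg _) (by positivity) (by norm_num)).1 h2

end Pool.Agent.ANM
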