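import Pool.Agent.ANM.FAccr
import Pool.Agent.ANM.Local

/-! # ANM FLocal: locality of self-consistent media on the full torus (read sites allowed).

`G = rsc H0 b`, `G' = rsc H0 b'`, `Diss H0 b`, `Diss H0 b'` (`Im b_x ≤ 0`, `= 0` on the read sites, both operators
invertible), both self-consistent on `A` (the active sites with `w < L`), the same data off a set where `w ≥ L` (in particular
the same read sites).  Both have `c1 ≤ Im G_xx`, `‖G_xx‖ ≤ C1` on `A`.  `t ≤ 1` is a constant (depending on `C1 / c1`),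
`K` collects polynomial losses (number of sites of `A`, inverse absorption).

* `Diss.rel_row`, `Diss.rel_ent`: if `‖b'_z - b_z‖² ≤ R² e^{2 t (w_z - L)} η_z η'_z` for all `z` then
  `∑_y η'_y ‖G_xy - G'_xy‖² ≤ 2 R² ‖G_xx‖ e^{2 t (w_x - L)}` and
  `‖G_xy - G'_xy‖² ≤ 2 R² ‖G_xx‖ e^{2 t (w_x - L)} Im G'_yy` (no assumption on `G'`).
* `FLoc`: the hypotheses; `FLoc.diag`, `FLoc.rel`, `FLoc.row`, `FLoc.ent`: the conclusions.
-/

open Matrix Finset

noncomputable section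

namespace Pool.Agent.ANM

open Pool.Agent.Kin Pool.Agent.APS

variable {ι : Type} [Fintype ι] [DecidableEq ι] {H0 : Matrix ι ι ℂ} {b b' : ι → ℂ} {w : ι → ℝ}

/-- the source coming from outside: general bilinear bound -/
theorem Diss.out_le (hb : Diss H0 b) (hb' : Diss H0 b')
    (hw : AdmW H0 b w) {L Cb : ℝ} (hCb : 0 ≤ Cb) (B : Finset ι)
    (hout : ∀ z ∈ B, b' z = b z ∨ L ≤ w z)
    (hB : ∀ z ∈ B, ‖b' z - b z‖ ^ 2 ≤ Cb ^ 2 * (-(b z).im * -(b' z).im)) (x y : ι) :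
    ‖∑ z ∈ B, rsc H0 b x z * (b' z - b z) * rsc H0 b' z y‖ ≤
      Cb * (√(2 * ‖rsc H0 b x x‖) * Real.exp (w x - L) * √((rsc H0 b' y y).im)) := by
  have hn : ∀ z, 0 ≤ -(b z).im := hb.nn'
  have hn' : ∀ z, 0 ≤ -(b' z).im := hb'.nn'
  have h1 : ∀ z ∈ B, ‖rsc H0 b x z * (b' z - b z) * rsc H0 b' z y‖ ≤
      Cb * Real.exp (-L) * ((√(-(b z).im) * Real.exp (w z) * ‖rsc H0 b x z‖) *
        (√(-(b' z).im) * ‖rsc H0 b' y z‖)) := by
    intro z hz
    rw [norm_mul, norm_mul, hb'.symm z y]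
    rcases hout z hz with h | h
    · rw [h, sub_self, norm_zero, mul_zero, zero_mul]
      positivity
    · have e1 : ‖b' z - b z‖ ≤ Cb * (√(-(b z).im) * √(-(b' z).im)) := by
        rw [← Real.sqrt_mul (hn z)]
        have := Real.sqrt_le_sqrt (hB z hz)
        rwa [Real.sqrt_sq (norm_nonneg _), Real.sqrt_mul (sq_nonneg _), Real.sqrt_sq hCb] at this
      have e2 : 1 ≤ Real.exp (-L) * Real.exp (w z) := by
        rw [← Real.exp_add]
        exact Real.one_le_exp (by linarith)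
      calc ‖rsc H0 b x z‖ * ‖b' z - b z‖ * ‖rsc H0 b' y z‖
          ≤ ‖rsc H0 b x z‖ * (Cb * (√(-(b z).im) * √(-(b' z).im))) * ‖rsc H0 b' y z‖ := by
            gcongr
        _ = Cb * ((√(-(b z).im) * ‖rsc H0 b x z‖) * (√(-(b' z).im) * ‖rsc H0 b' y z‖)) * 1 := by
            ring
        _ ≤ Cb * ((√(-(b z).im) * ‖rsc H0 b x z‖) * (√(-(b' z).im) * ‖rsc H0 b' y z‖)) *
            (Real.exp (-L) * Real.exp (w z)) := by
            refine mul_le_mul_of_nonneg_left e2 (by positivity)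
        _ = _ := by ring
  refine (norm_sum_le _ _).trans ((Finset.sum_le_sum h1).trans ?_)
  rw [← Finset.mul_sum]
  have h2 : ∑ z ∈ B, (√(-(b z).im) * Real.exp (w z) * ‖rsc H0 b x z‖) *
      (√(-(b' z).im) * ‖rsc H0 b' y z‖) ≤
      √(2 * (Real.exp (2 * w x) * ‖rsc H0 b x x‖)) * √((rsc H0 b' y y).im) := by
    refine (Real.sum_mul_le_sqrt_mul_sqrt _ _ _).trans ?_
    refine mul_le_mul (Real.sqrt_le_sqrt ?_) (Real.sqrt_le_sqrt ?_) (Real.sqrt_nonneg _)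
      (Real.sqrt_nonneg _)
    · refine le_trans ?_ (hb.agmon_row hw x)
      refine le_trans (Finset.sum_le_sum_of_subset_of_nonneg (Finset.subset_univ B)
        fun z _ _ => sq_nonneg _) (Finset.sum_le_sum fun z _ => le_of_eq ?_)
      rw [mul_pow, mul_pow, Real.sq_sqrt (hn z)]
      have : Real.exp (2 * w z) = Real.exp (w z) ^ 2 := by
        rw [sq, ← Real.exp_add]; congr 1; ring
      rw [this]
      ring
    · rw [hb'.ward y]
      refine le_trans (Finset.sum_le_sum_of_subset_of_nonneg (Finset.subset_univ B)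
        fun z _ _ => sq_nonneg _) (Finset.sum_le_sum fun z _ => le_of_eq ?_)
      rw [mul_pow, Real.sq_sqrt (hn' z)]
      ring
  have h3 : √(2 * (Real.exp (2 * w x) * ‖rsc H0 b x x‖)) =
      Real.exp (w x) * √(2 * ‖rsc H0 b x x‖) := by
    have : 2 * (Real.exp (2 * w x) * ‖rsc H0 b x x‖) =
        Real.exp (w x) ^ 2 * (2 * ‖rsc H0 b x x‖) := by
      have : Real.exp (2 * w x) = Real.exp (w x) ^ 2 := by
        rw [sq, ← Real.exp_add]; congr 1; ring
      rw [this]; ring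
    rw [this, Real.sqrt_mul (sq_nonneg _), Real.sqrt_sq (Real.exp_pos _).le]
  rw [h3] at h2
  calc Cb * Real.exp (-L) * ∑ z ∈ B, (√(-(b z).im) * Real.exp (w z) * ‖rsc H0 b x z‖) *
      (√(-(b' z).im) * ‖rsc H0 b' y z‖)
      ≤ Cb * Real.exp (-L) * (Real.exp (w x) * √(2 * ‖rsc H0 b x x‖) *
        √((rsc H0 b' y y).im)) := mul_le_mul_of_nonneg_left h2 (by positivity)
    _ = _ := by
      rw [show w x - L = w x + -L by ring, Real.exp_add]
      ring

/-- the effect of the weight in the accretivity estimate -/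
theorem Diss.wgt (hb : Diss H0 b) (hw : AdmW H0 b w) (A : Finset ι) {κ ρ : ι → ℝ} {t C1 c1 ε : ℝ}
    (hk : ∀ x ∈ A, κ x * ρ x ≤ -(b x).im) (ht : 0 ≤ t) (ht1 : t ≤ 1)
    (htε : 4 * t ^ 2 * C1 ≤ ε ^ 2 * c1) {x : ι} (hC1 : ‖rsc H0 b x x‖ ≤ C1) (hc1 : c1 ≤ ρ x) :
    ∑ y ∈ A, κ y * (ρ y * (‖rsc H0 b x y‖ * (Real.exp |t * w x - t * w y| - 1)) ^ 2) ≤
      ε ^ 2 * ρ x := by
  have h1 := hb.agmon_two hw x
  have h2 : ∑ y ∈ A, κ y * (ρ y * (‖rsc H0 b x y‖ * (Real.exp |t * w x - t * w y| - 1)) ^ 2) ≤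
      t ^ 2 * ∑ y, -(b y).im * (Real.exp (2 * |w x - w y|) * ‖rsc H0 b x y‖ ^ 2) := by
    rw [Finset.mul_sum]
    refine le_trans ?_ (Finset.sum_le_sum_of_subset_of_nonneg (Finset.subset_univ A)
      fun z _ _ => mul_nonneg (sq_nonneg _) (mul_nonneg (hb.nn' z) (by positivity)))
    refine Finset.sum_le_sum fun y hy => ?_
    have e1 : |t * w x - t * w y| = t * |w x - w y| := by
      rw [← mul_sub, abs_mul, abs_of_nonneg ht]
    have e2 : 0 ≤ Real.exp (t * |w x - w y|) - 1 := by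
      have := Real.one_le_exp (mul_nonneg ht (abs_nonneg (w x - w y)))
      linarith
    have e3 : (Real.exp (t * |w x - w y|) - 1) ^ 2 ≤ t ^ 2 * Real.exp (2 * |w x - w y|) := by
      have := pow_le_pow_left₀ e2 (exp_mul_sub_one_le (s := |w x - w y|) ht ht1) 2
      refine this.trans (le_of_eq ?_)
      rw [mul_pow, sq (Real.exp _), ← Real.exp_add]
      congr 2
      ring
    rw [e1, mul_pow]
    calc κ y * (ρ y * (‖rsc H0 b x y‖ ^ 2 * (Real.exp (t * |w x - w y|) - 1) ^ 2))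
        = (κ y * ρ y) * (‖rsc H0 b x y‖ ^ 2 * (Real.exp (t * |w x - w y|) - 1) ^ 2) := by ring
      _ ≤ -(b y).im * (‖rsc H0 b x y‖ ^ 2 * (Real.exp (t * |w x - w y|) - 1) ^ 2) :=
          mul_le_mul_of_nonneg_right (hk y hy) (by positivity)
      _ ≤ -(b y).im * (‖rsc H0 b x y‖ ^ 2 * (t ^ 2 * Real.exp (2 * |w x - w y|))) := by
          refine mul_le_mul_of_nonneg_left ?_ (hb.nn' y)
          exact mul_le_mul_of_nonneg_left e3 (sq_nonneg _)
      _ = _ := by ring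
  refine h2.trans ?_
  calc t ^ 2 * ∑ y, -(b y).im * (Real.exp (2 * |w x - w y|) * ‖rsc H0 b x y‖ ^ 2)
      ≤ t ^ 2 * (4 * ‖rsc H0 b x x‖) := mul_le_mul_of_nonneg_left h1 (sq_nonneg _)
    _ ≤ t ^ 2 * (4 * C1) := by
        refine mul_le_mul_of_nonneg_left ?_ (sq_nonneg _)
        linarith
    _ = 4 * t ^ 2 * C1 := by ring
    _ ≤ ε ^ 2 * c1 := htε
    _ ≤ _ := mul_le_mul_of_nonneg_left hc1 (sq_nonneg _)

/-- Ward for the second medium, restricted to `A` -/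
theorem Diss.wardA (hb : Diss H0 b) (A : Finset ι) {κ : ι → ℝ}
    (hk : ∀ x ∈ A, κ x * (rsc H0 b x x).im ≤ -(b x).im) (x : ι) :
    ∑ y ∈ A, κ y * ((rsc H0 b y y).im * ‖rsc H0 b x y‖ ^ 2) ≤ (rsc H0 b x x).im := by
  rw [hb.ward x]
  refine le_trans ?_ (Finset.sum_le_sum_of_subset_of_nonneg (Finset.subset_univ A)
    fun z _ _ => mul_nonneg (sq_nonneg _) (hb.nn' z))
  refine Finset.sum_le_sum fun y hy => ?_
  have h2 := mul_le_mul_of_nonneg_right (hk y hy) (sq_nonneg ‖rsc H0 b x y‖)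
  calc κ y * ((rsc H0 b y y).im * ‖rsc H0 b x y‖ ^ 2) =
        κ y * (rsc H0 b y y).im * ‖rsc H0 b x y‖ ^ 2 := by ring
    _ ≤ _ := by rw [mul_comm (‖rsc H0 b x y‖ ^ 2)]; exact h2

/-- comparison of two self-consistent media -/
theorem Diss.compare (hb : Diss H0 b) (hb' : Diss H0 b')
    (hw : AdmW H0 b w) (A : Finset ι) {κ : ι → ℝ} (hκ : ∀ x ∈ A, 0 < κ x)
    (hk : ∀ x ∈ A, κ x * (rsc H0 b x x).im ≤ -(b x).im)
    (hk' : ∀ x ∈ A, κ x * (rsc H0 b' x x).im ≤ -(b' x).im)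
    (hdif : ∀ x ∈ A, b' x - b x = (κ x : ℂ) * (rsc H0 b x x - rsc H0 b' x x))
    {L Cb C1 c1 t l ε : ℝ} (hCb : 0 ≤ Cb) (hC0 : 0 ≤ C1)
    (hout : ∀ z, z ∉ A → b' z = b z ∨ L ≤ w z)
    (hB : ∀ z, z ∉ A → ‖b' z - b z‖ ^ 2 ≤ Cb ^ 2 * (-(b z).im * -(b' z).im))
    (hwA : ∀ x ∈ A, w x ≤ L) (ht : 0 ≤ t) (ht1 : t ≤ 1)
    (h3 : ∀ x ∈ A, ∑ y ∈ A, κ y * ((rsc H0 b y y).im * (rsc H0 b x y).re ^ 2) ≤
      l ^ 2 * (rsc H0 b x x).im)
    (hC1 : ∀ x ∈ A, ‖rsc H0 b x x‖ ≤ C1) (hc0 : 0 < c1)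
    (hc1 : ∀ x ∈ A, c1 ≤ (rsc H0 b x x).im) (hp' : ∀ x ∈ A, 0 < (rsc H0 b' x x).im)
    (hl : 0 ≤ l) (hε : 0 ≤ ε) (hle : l + ε < 1) (htε : 4 * t ^ 2 * C1 ≤ ε ^ 2 * c1) :
    (1 - l - ε) ^ 2 * ∑ x ∈ A, κ x * (Real.exp (-(2 * t * w x)) *
        ‖rsc H0 b x x - rsc H0 b' x x‖ ^ 2) ≤
      2 * C1 * Cb ^ 2 * Real.exp (-(2 * t * L)) * ∑ x ∈ A, κ x * (rsc H0 b' x x).im := by
  set G := rsc H0 b with hG
  set G' := rsc H0 b' with hG'
  set f : ι → ℂ := fun x => ∑ z ∈ univ \ A, G x z * (b' z - b z) * G' z x with hf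
  have hδ : ∀ x ∈ A, (fun x => G x x - G' x x) x =
      ∑ y ∈ A, G x y * G' x y * ((κ y : ℂ) * (fun x => G x x - G' x x) y) + f x := by
    intro x hx
    have h1 := Diss.sub_ent hb hb' x x
    simp only [← hG, ← hG'] at h1
    change G x x - G' x x = _
    rw [h1, hf, ← Finset.sum_sdiff (Finset.subset_univ A), add_comm]
    congr 1
    refine Finset.sum_congr rfl fun y hy => ?_
    rw [hdif y hy]
    simp only [hG', rsc_symm hb.hH b' y x]
    ring
  have hfb : ∀ x, ‖f x‖ ^ 2 ≤ Cb ^ 2 * (2 * ‖G x x‖ * Real.exp (2 * (w x - L)) * (G' x x).im) := by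
    intro x
    have h1 := Diss.out_le hb hb' hw hCb (univ \ A) (fun z hz => hout z (by simpa using hz))
      (fun z hz => hB z (by simpa using hz)) x x
    have h2 := pow_le_pow_left₀ (norm_nonneg _) h1 2
    have e1 : Real.exp (2 * (w x - L)) = Real.exp (w x - L) ^ 2 := by
      rw [sq, ← Real.exp_add]; congr 1; ring
    refine h2.trans (le_of_eq ?_)
    rw [mul_pow, mul_pow, mul_pow, Real.sq_sqrt (by positivity), Real.sq_sqrt (hb'.im_nn x), e1]
  have hac := Diss.accr hb hb' A (κ := κ) (ρ := fun x => (G x x).im) (ρ' := fun x => (G' x x).im)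
    (φ := fun x => -(t * w x)) hκ (fun x hx => hc0.trans_le (hc1 x hx)) hp'
    hl hε hle h3 (fun x _ => hb'.wardA A hk' x) ?_ (δ := fun x => G x x - G' x x) (f := f) hδ
  · have e1 : ∀ x, Real.exp (2 * -(t * w x)) = Real.exp (-(2 * t * w x)) := by
      intro x; congr 1; ring
    simp only [e1] at hac
    refine hac.trans ?_
    rw [Finset.mul_sum]
    refine Finset.sum_le_sum fun x hx => ?_
    have h1 := hfb x
    have h2 := hC1 x hx
    have h4 := hb'.im_nn x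
    have h5 : Real.exp (-(2 * t * w x)) * Real.exp (2 * (w x - L)) ≤
        Real.exp (-(2 * t * L)) := by
      rw [← Real.exp_add]
      apply Real.exp_le_exp.2
      nlinarith [hwA x hx, mul_nonneg (sub_nonneg.2 ht1) (sub_nonneg.2 (hwA x hx))]
    have h6 := hκ x hx
    calc κ x * (Real.exp (-(2 * t * w x)) * ‖f x‖ ^ 2)
        ≤ κ x * (Real.exp (-(2 * t * w x)) *
          (Cb ^ 2 * (2 * C1 * Real.exp (2 * (w x - L)) * (G' x x).im))) := by
          refine mul_le_mul_of_nonneg_left (mul_le_mul_of_nonneg_left (h1.trans ?_)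
            (Real.exp_pos _).le) h6.le
          refine mul_le_mul_of_nonneg_left ?_ (sq_nonneg _)
          refine mul_le_mul_of_nonneg_right ?_ h4
          exact mul_le_mul_of_nonneg_right (by linarith) (Real.exp_pos _).le
      _ = 2 * C1 * Cb ^ 2 * (κ x * (G' x x).im) *
          (Real.exp (-(2 * t * w x)) * Real.exp (2 * (w x - L))) := by ring
      _ ≤ 2 * C1 * Cb ^ 2 * (κ x * (G' x x).im) * Real.exp (-(2 * t * L)) :=
          mul_le_mul_of_nonneg_left h5 (by positivity)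
      _ = _ := by ring
  · intro x hx
    have h7 := hb.wgt hw A (κ := κ) (ρ := fun x => (G x x).im) hk ht ht1 htε (hC1 x hx) (hc1 x hx)
    refine le_trans (le_of_eq ?_) h7
    refine Finset.sum_congr rfl fun y _ => ?_
    have e1 : |(-(t * w x)) - (-(t * w y))| = |t * w x - t * w y| := by
      rw [show (-(t * w x)) - (-(t * w y)) = -(t * w x - t * w y) by ring, abs_neg]
    change κ y * ((G y y).im * (‖G x y‖ * (Real.exp |(-(t * w x)) - (-(t * w y))| - 1)) ^ 2) = _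
    rw [e1]

/-- row form: nothing is assumed on `G'` -/
theorem Diss.rel_row (hb : Diss H0 b) (hb' : Diss H0 b')
    (hw : AdmW H0 b w) {R t L : ℝ} (ht : 0 ≤ t) (ht1 : t ≤ 1)
    (hd : ∀ z, ‖b' z - b z‖ ^ 2 ≤
      R ^ 2 * Real.exp (2 * t * (w z - L)) * (-(b z).im * -(b' z).im)) (x : ι) :
    ∑ y, -(b' y).im * ‖rsc H0 b x y - rsc H0 b' x y‖ ^ 2 ≤
      2 * R ^ 2 * ‖rsc H0 b x x‖ * Real.exp (2 * t * (w x - L)) := by
  set G := rsc H0 b with hG
  set G' := rsc H0 b' with hG'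
  have hn' : ∀ z, 0 ≤ -(b' z).im := hb'.nn'
  have hz0 : ∀ z, -(b' z).im = 0 → b' z - b z = 0 := by
    intro z hz
    have h1 := hd z
    rw [hz, mul_zero, mul_zero] at h1
    have h2 : ‖b' z - b z‖ ^ 2 = 0 := le_antisymm h1 (sq_nonneg _)
    exact norm_eq_zero.1 (pow_eq_zero_iff (by norm_num) |>.1 h2)
  have h1 : ∀ y, G x y - G' x y = ∑ z, G' y z *
      ((√(-(b' z).im) : ℂ) * (((√(-(b' z).im))⁻¹ : ℂ) * (b' z - b z) * G x z)) := by
    intro y
    have e1 := Diss.sub_ent hb hb' x y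
    simp only [← hG, ← hG'] at e1
    rw [e1]
    refine Finset.sum_congr rfl fun z _ => ?_
    rw [show G' z y = G' y z from hb'.symm z y]
    rcases (hn' z).eq_or_lt with h0 | h0
    · rw [hz0 z h0.symm]
      simp
    · have e2 : (√(-(b' z).im) : ℂ) ≠ 0 := by
        have := Real.sqrt_pos.2 h0
        exact_mod_cast this.ne'
      field_simp
  have h2 := hb'.wop (w := fun z => -(b' z).im) hn' (fun z => le_refl _)
    (fun z => ((√(-(b' z).im))⁻¹ : ℂ) * (b' z - b z) * G x z)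
  have h3 : ∑ y, -(b' y).im * ‖G x y - G' x y‖ ^ 2 ≤
      ∑ z, ‖((√(-(b' z).im))⁻¹ : ℂ) * (b' z - b z) * G x z‖ ^ 2 := by
    refine le_trans (le_of_eq ?_) h2
    refine Finset.sum_congr rfl fun y _ => ?_
    rw [h1 y]
  refine h3.trans ?_
  have h4 : ∀ z, ‖((√(-(b' z).im))⁻¹ : ℂ) * (b' z - b z) * G x z‖ ^ 2 ≤
      R ^ 2 * Real.exp (-(2 * t * L)) *
        (-(b z).im * (Real.exp (2 * (t * w z)) * ‖G x z‖ ^ 2)) := by
    intro z
    rcases (hn' z).eq_or_lt with h0 | h0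
    · have e0 : (0 : ℝ) ^ 2 = 0 := by norm_num
      rw [hz0 z h0.symm, mul_zero, zero_mul, norm_zero, e0]
      have := hb.nn' z
      positivity
    have e1 : ‖((√(-(b' z).im))⁻¹ : ℂ) * (b' z - b z) * G x z‖ ^ 2 =
        (-(b' z).im)⁻¹ * (‖b' z - b z‖ ^ 2 * ‖G x z‖ ^ 2) := by
      rw [norm_mul, norm_mul, mul_pow, mul_pow, norm_inv, Complex.norm_real, Real.norm_eq_abs,
        abs_of_nonneg (Real.sqrt_nonneg _), inv_pow, Real.sq_sqrt h0.le]
      ring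
    rw [e1]
    have e2 : Real.exp (2 * t * (w z - L)) = Real.exp (-(2 * t * L)) * Real.exp (2 * (t * w z)) := by
      rw [← Real.exp_add]; congr 1; ring
    calc (-(b' z).im)⁻¹ * (‖b' z - b z‖ ^ 2 * ‖G x z‖ ^ 2)
        ≤ (-(b' z).im)⁻¹ * ((R ^ 2 * Real.exp (2 * t * (w z - L)) * (-(b z).im * -(b' z).im)) *
          ‖G x z‖ ^ 2) :=
          mul_le_mul_of_nonneg_left (mul_le_mul_of_nonneg_right (hd z) (sq_nonneg _))
            (inv_nonneg.2 h0.le)
      _ = ((-(b' z).im)⁻¹ * -(b' z).im) * (R ^ 2 * Real.exp (2 * t * (w z - L)) *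
          (-(b z).im * ‖G x z‖ ^ 2)) := by ring
      _ = R ^ 2 * Real.exp (2 * t * (w z - L)) * (-(b z).im * ‖G x z‖ ^ 2) := by
          rw [inv_mul_cancel₀ h0.ne', one_mul]
      _ = _ := by rw [e2]; ring
  refine (Finset.sum_le_sum fun z _ => h4 z).trans ?_
  rw [← Finset.mul_sum]
  have h5 := hb.agmon_row (hw.smul ht ht1) x
  have e3 : Real.exp (2 * t * (w x - L)) = Real.exp (-(2 * t * L)) * Real.exp (2 * (t * w x)) := by
    rw [← Real.exp_add]; congr 1; ring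
  calc R ^ 2 * Real.exp (-(2 * t * L)) *
        ∑ z, -(b z).im * (Real.exp (2 * (t * w z)) * ‖G x z‖ ^ 2)
      ≤ R ^ 2 * Real.exp (-(2 * t * L)) * (2 * (Real.exp (2 * (t * w x)) * ‖G x x‖)) :=
        mul_le_mul_of_nonneg_left h5 (by positivity)
    _ = _ := by rw [e3]; ring

/-- entry form: nothing is assumed on `G'` -/
theorem Diss.rel_ent (hb : Diss H0 b) (hb' : Diss H0 b')
    (hw : AdmW H0 b w) {R t L : ℝ} (ht : 0 ≤ t) (ht1 : t ≤ 1)
    (hd : ∀ z, ‖b' z - b z‖ ^ 2 ≤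
      R ^ 2 * Real.exp (2 * t * (w z - L)) * (-(b z).im * -(b' z).im)) (x y : ι) :
    ‖rsc H0 b x y - rsc H0 b' x y‖ ^ 2 ≤
      2 * R ^ 2 * ‖rsc H0 b x x‖ * Real.exp (2 * t * (w x - L)) * (rsc H0 b' y y).im := by
  set G := rsc H0 b with hG
  set G' := rsc H0 b' with hG'
  have hn : ∀ z, 0 ≤ -(b z).im := hb.nn'
  have hn' : ∀ z, 0 ≤ -(b' z).im := hb'.nn'
  have hz0 : ∀ z, -(b' z).im = 0 → ‖b' z - b z‖ = 0 := by
    intro z hz
    have h1 := hd z
    rw [hz, mul_zero, mul_zero] at h1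
    have h2 : ‖b' z - b z‖ ^ 2 = 0 := le_antisymm h1 (sq_nonneg _)
    exact pow_eq_zero_iff (by norm_num) |>.1 h2
  have e1 := Diss.sub_ent hb hb' x y
  simp only [← hG, ← hG'] at e1
  have h1 : ‖G x y - G' x y‖ ≤ ∑ z, (‖b' z - b z‖ * ‖G x z‖ / √(-(b' z).im)) *
      (√(-(b' z).im) * ‖G' y z‖) := by
    rw [e1]
    refine (norm_sum_le _ _).trans (Finset.sum_le_sum fun z _ => le_of_eq ?_)
    rw [norm_mul, norm_mul, show G' z y = G' y z from hb'.symm z y]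
    rcases (hn' z).eq_or_lt with h0 | h0
    · rw [hz0 z h0.symm]
      simp
    · have := (Real.sqrt_pos.2 h0).ne'
      field_simp
  have h2 : ‖G x y - G' x y‖ ^ 2 ≤ (∑ z, (‖b' z - b z‖ * ‖G x z‖ / √(-(b' z).im)) ^ 2) *
      ∑ z, (√(-(b' z).im) * ‖G' y z‖) ^ 2 :=
    (pow_le_pow_left₀ (norm_nonneg _) h1 2).trans (Finset.sum_mul_sq_le_sq_mul_sq _ _ _)
  have h3 : ∑ z, (√(-(b' z).im) * ‖G' y z‖) ^ 2 = (G' y y).im := by
    rw [hG', hb'.ward y]
    refine Finset.sum_congr rfl fun z _ => ?_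
    rw [mul_pow, Real.sq_sqrt (hn' z)]
    ring
  have h4 : ∀ z, (‖b' z - b z‖ * ‖G x z‖ / √(-(b' z).im)) ^ 2 ≤
      R ^ 2 * Real.exp (-(2 * t * L)) *
        (-(b z).im * (Real.exp (2 * (t * w z)) * ‖G x z‖ ^ 2)) := by
    intro z
    rcases (hn' z).eq_or_lt with h0 | h0
    · have e0 : (0 : ℝ) ^ 2 = 0 := by norm_num
      rw [hz0 z h0.symm, zero_mul, zero_div, e0]
      have := hn z
      positivity
    rw [div_pow, mul_pow, Real.sq_sqrt h0.le, div_le_iff₀ h0]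
    have e2 : Real.exp (2 * t * (w z - L)) = Real.exp (-(2 * t * L)) * Real.exp (2 * (t * w z)) := by
      rw [← Real.exp_add]; congr 1; ring
    calc ‖b' z - b z‖ ^ 2 * ‖G x z‖ ^ 2
        ≤ (R ^ 2 * Real.exp (2 * t * (w z - L)) * (-(b z).im * -(b' z).im)) * ‖G x z‖ ^ 2 :=
          mul_le_mul_of_nonneg_right (hd z) (sq_nonneg _)
      _ = _ := by rw [e2]; ring
  have h5 : ∑ z, (‖b' z - b z‖ * ‖G x z‖ / √(-(b' z).im)) ^ 2 ≤
      2 * R ^ 2 * ‖G x x‖ * Real.exp (2 * t * (w x - L)) := by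
    refine (Finset.sum_le_sum fun z _ => h4 z).trans ?_
    rw [← Finset.mul_sum]
    have h6 := hb.agmon_row (hw.smul ht ht1) x
    have e3 : Real.exp (2 * t * (w x - L)) =
        Real.exp (-(2 * t * L)) * Real.exp (2 * (t * w x)) := by
      rw [← Real.exp_add]; congr 1; ring
    calc R ^ 2 * Real.exp (-(2 * t * L)) *
          ∑ z, -(b z).im * (Real.exp (2 * (t * w z)) * ‖G x z‖ ^ 2)
        ≤ R ^ 2 * Real.exp (-(2 * t * L)) * (2 * (Real.exp (2 * (t * w x)) * ‖G x x‖)) :=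
          mul_le_mul_of_nonneg_left h6 (by positivity)
      _ = _ := by rw [e3]; ring
  rw [h3] at h2
  exact h2.trans (mul_le_mul_of_nonneg_right h5 (by rw [hG']; exact hb'.im_nn y))

/-- two self-consistent media with the same data near a point, both good near the point -/
structure FLoc (H0 : Matrix ι ι ℂ) (b b' : ι → ℂ) (w κ : ι → ℝ) (A : Finset ι)
    (K C1 c1 t l ε L : ℝ) : Prop where
  hb : Diss H0 b
  hb' : Diss H0 b'
  /-- the weight function -/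
  hw : AdmW H0 b w
  hwA : ∀ x ∈ A, w x ≤ L
  hcard : (A.card : ℝ) ≤ K
  hκ : ∀ x ∈ A, 1 / K ≤ κ x
  hκ1 : ∀ x ∈ A, κ x ≤ 1
  /-- both media are self-consistent on `A` with the same data -/
  hk : ∀ x ∈ A, κ x * (rsc H0 b x x).im ≤ -(b x).im
  hk' : ∀ x ∈ A, κ x * (rsc H0 b' x x).im ≤ -(b' x).im
  hdif : ∀ x ∈ A, b' x - b x = (κ x : ℂ) * (rsc H0 b x x - rsc H0 b' x x)
  /-- off `A` the data are the same or the site is far -/
  hout : ∀ z, z ∉ A → b' z = b z ∨ L ≤ w z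
  hB : ∀ z, z ∉ A → ‖b' z - b z‖ ^ 2 ≤ K ^ 2 * (-(b z).im * -(b' z).im)
  /-- (H3) for the first medium -/
  h3 : ∀ x ∈ A, ∑ y ∈ A, κ y * ((rsc H0 b y y).im * (rsc H0 b x y).re ^ 2) ≤
    l ^ 2 * (rsc H0 b x x).im
  hC1 : ∀ x ∈ A, ‖rsc H0 b x x‖ ≤ C1
  hc1 : ∀ x ∈ A, c1 ≤ (rsc H0 b x x).im
  hC1' : ∀ x ∈ A, (rsc H0 b' x x).im ≤ C1
  hc1' : ∀ x ∈ A, c1 ≤ (rsc H0 b' x x).im
  ht : 0 ≤ t
  ht1 : t ≤ 1
  hl : 0 ≤ l
  hε : 0 ≤ ε
  /-- `t` is a constant -/
  htε : 4 * t ^ 2 * C1 ≤ ε ^ 2 * c1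
  hK : 1 ≤ K
  hKl : 1 / K ≤ 1 - l - ε
  hKC : C1 ≤ K
  hKc : 1 / K ≤ c1

variable {κ : ι → ℝ} {A : Finset ι} {K C1 c1 t l ε L : ℝ}

/-- diagonal entries near the point -/
theorem FLoc.diag (h : FLoc H0 b b' w κ A K C1 c1 t l ε L) {x : ι} (hx : x ∈ A) :
    ‖rsc H0 b x x - rsc H0 b' x x‖ ^ 2 ≤ 2 * K ^ 8 * Real.exp (2 * t * (w x - L)) := by
  have hK0 : 0 < K := by linarith [h.hK]
  have hiK : 0 < 1 / K := by positivity
  have hκ0 : ∀ z ∈ A, 0 < κ z := fun z hz => hiK.trans_le (h.hκ z hz)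
  have hC0 : 0 ≤ C1 := (norm_nonneg _).trans (h.hC1 x hx)
  have hc0 : 0 < c1 := hiK.trans_le h.hKc
  have hcmp := Diss.compare h.hb h.hb' h.hw A hκ0 h.hk h.hk' h.hdif hK0.le hC0 h.hout h.hB h.hwA
    h.ht h.ht1 h.h3 h.hC1 hc0 h.hc1 (fun x hx => hc0.trans_le (h.hc1' x hx)) h.hl h.hε
    (by linarith [h.hKl]) h.htε
  have hS : ∑ z ∈ A, κ z * (rsc H0 b' z z).im ≤ K * K := by
    calc ∑ z ∈ A, κ z * (rsc H0 b' z z).im ≤ ∑ z ∈ A, K := by
          refine Finset.sum_le_sum fun z hz => ?_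
          have a1 := h.hb'.im_nn z
          calc κ z * (rsc H0 b' z z).im ≤ 1 * (rsc H0 b' z z).im :=
                mul_le_mul_of_nonneg_right (h.hκ1 z hz) a1
            _ ≤ K := by linarith [h.hC1' z hz, h.hKC]
      _ = (A.card : ℝ) * K := by rw [Finset.sum_const, nsmul_eq_mul]
      _ ≤ K * K := mul_le_mul_of_nonneg_right h.hcard hK0.le
  have hterm : κ x * (Real.exp (-(2 * t * w x)) * ‖rsc H0 b x x - rsc H0 b' x x‖ ^ 2) ≤
      ∑ z ∈ A, κ z * (Real.exp (-(2 * t * w z)) * ‖rsc H0 b z z - rsc H0 b' z z‖ ^ 2) :=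
    Finset.single_le_sum (f := fun z => κ z * (Real.exp (-(2 * t * w z)) *
      ‖rsc H0 b z z - rsc H0 b' z z‖ ^ 2)) (fun z hz => mul_nonneg (hκ0 z hz).le (by positivity)) hx
  set δ := ‖rsc H0 b x x - rsc H0 b' x x‖ ^ 2 with hδ
  have hδ0 : 0 ≤ δ := by positivity
  have b1 : (1 / K) ^ 2 ≤ (1 - l - ε) ^ 2 := pow_le_pow_left₀ hiK.le h.hKl 2
  have b2 : (1 / K) ^ 2 * (1 / K * (Real.exp (-(2 * t * w x)) * δ)) ≤
      2 * K * K ^ 2 * Real.exp (-(2 * t * L)) * (K * K) := by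
    calc (1 / K) ^ 2 * (1 / K * (Real.exp (-(2 * t * w x)) * δ))
        ≤ (1 - l - ε) ^ 2 * (κ x * (Real.exp (-(2 * t * w x)) * δ)) := by
          refine mul_le_mul b1 ?_ (by positivity) (sq_nonneg _)
          exact mul_le_mul_of_nonneg_right (h.hκ x hx) (by positivity)
      _ ≤ (1 - l - ε) ^ 2 * ∑ z ∈ A, κ z * (Real.exp (-(2 * t * w z)) *
          ‖rsc H0 b z z - rsc H0 b' z z‖ ^ 2) := mul_le_mul_of_nonneg_left hterm (sq_nonneg _)
      _ ≤ 2 * C1 * K ^ 2 * Real.exp (-(2 * t * L)) * ∑ z ∈ A, κ z * (rsc H0 b' z z).im := hcmp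
      _ ≤ 2 * K * K ^ 2 * Real.exp (-(2 * t * L)) * (K * K) := by
          refine mul_le_mul ?_ hS (Finset.sum_nonneg fun z hz => mul_nonneg (hκ0 z hz).le
            (h.hb'.im_nn z)) (by positivity)
          refine mul_le_mul_of_nonneg_right ?_ (Real.exp_pos _).le
          refine mul_le_mul_of_nonneg_right ?_ (sq_nonneg _)
          linarith [h.hKC]
  have e1 : Real.exp (2 * t * (w x - L)) = Real.exp (2 * t * w x) * Real.exp (-(2 * t * L)) := by
    rw [← Real.exp_add]; congr 1; ring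
  have e2 : Real.exp (2 * t * w x) * Real.exp (-(2 * t * w x)) = 1 := by
    rw [← Real.exp_add]; simp
  calc δ = K ^ 3 * Real.exp (2 * t * w x) *
        ((1 / K) ^ 2 * (1 / K * (Real.exp (-(2 * t * w x)) * δ))) := by
        have : K ^ 3 * Real.exp (2 * t * w x) *
            ((1 / K) ^ 2 * (1 / K * (Real.exp (-(2 * t * w x)) * δ))) =
            (K ^ 3 * (1 / K) ^ 2 * (1 / K)) *
              (Real.exp (2 * t * w x) * Real.exp (-(2 * t * w x))) * δ := by ring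
        rw [this, e2]
        have : K ^ 3 * (1 / K) ^ 2 * (1 / K) = 1 := by field_simp
        rw [this]
        ring
    _ ≤ K ^ 3 * Real.exp (2 * t * w x) * (2 * K * K ^ 2 * Real.exp (-(2 * t * L)) * (K * K)) :=
        mul_le_mul_of_nonneg_left b2 (by positivity)
    _ = 2 * K ^ 8 * Real.exp (2 * t * (w x - L)) := by rw [e1]; ring

/-- relative difference of the diagonal data, all sites -/
theorem FLoc.rel (h : FLoc H0 b b' w κ A K C1 c1 t l ε L) (z : ι) :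
    ‖b' z - b z‖ ^ 2 ≤
      (2 * K ^ 5) ^ 2 * Real.exp (2 * t * (w z - L)) * (-(b z).im * -(b' z).im) := by
  have hK0 : 0 < K := by linarith [h.hK]
  have hiK : 0 < 1 / K := by positivity
  have hn : 0 ≤ -(b z).im := h.hb.nn' z
  have hn' : 0 ≤ -(b' z).im := h.hb'.nn' z
  by_cases hz : z ∈ A
  · have h1 := h.diag hz
    have hκz : 0 < κ z := hiK.trans_le (h.hκ z hz)
    rw [h.hdif z hz, norm_mul, mul_pow, Complex.norm_real, Real.norm_eq_abs, sq_abs]
    have h2 : κ z * (1 / K) ≤ -(b z).im :=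
      (mul_le_mul_of_nonneg_left (h.hKc.trans (h.hc1 z hz)) hκz.le).trans (h.hk z hz)
    have h3 : κ z * (1 / K) ≤ -(b' z).im :=
      (mul_le_mul_of_nonneg_left (h.hKc.trans (h.hc1' z hz)) hκz.le).trans (h.hk' z hz)
    have h4 : κ z ^ 2 ≤ K ^ 2 * (-(b z).im * -(b' z).im) := by
      calc κ z ^ 2 = K ^ 2 * ((κ z * (1 / K)) * (κ z * (1 / K))) := by field_simp
        _ ≤ _ := by
          refine mul_le_mul_of_nonneg_left ?_ (sq_nonneg _)
          exact mul_le_mul h2 h3 (by positivity) hn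
    calc κ z ^ 2 * ‖rsc H0 b z z - rsc H0 b' z z‖ ^ 2
        ≤ (K ^ 2 * (-(b z).im * -(b' z).im)) * (2 * K ^ 8 * Real.exp (2 * t * (w z - L))) :=
          mul_le_mul h4 h1 (sq_nonneg _) (by positivity)
      _ = (2 * K ^ 10) * Real.exp (2 * t * (w z - L)) * (-(b z).im * -(b' z).im) := by ring
      _ ≤ _ := by
          refine mul_le_mul_of_nonneg_right ?_ (by positivity)
          refine mul_le_mul_of_nonneg_right ?_ (Real.exp_pos _).le
          rw [mul_pow, ← pow_mul]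
          have : 0 ≤ K ^ 10 := by positivity
          norm_num
          linarith
  · rcases h.hout z hz with h1 | h1
    · rw [h1, sub_self, norm_zero]
      have e1 := (Real.exp_pos (2 * t * (w z - L))).le
      have e2 : (0 : ℝ) ^ 2 = 0 := by norm_num
      rw [e2]
      exact mul_nonneg (mul_nonneg (sq_nonneg _) e1) (mul_nonneg hn hn)
    · refine (h.hB z hz).trans ?_
      refine mul_le_mul_of_nonneg_right ?_ (by positivity)
      have e1 : 1 ≤ Real.exp (2 * t * (w z - L)) := by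
        apply Real.one_le_exp
        have := h.ht
        have : 0 ≤ w z - L := by linarith
        positivity
      have e2 : K ^ 2 ≤ (2 * K ^ 5) ^ 2 := by
        refine pow_le_pow_left₀ hK0.le ?_ 2
        have : K ≤ K ^ 5 := by
          calc K = K ^ 1 := (pow_one K).symm
            _ ≤ K ^ 5 := pow_le_pow_right₀ h.hK (by norm_num)
        linarith
      calc K ^ 2 ≤ (2 * K ^ 5) ^ 2 * 1 := by linarith
        _ ≤ _ := mul_le_mul_of_nonneg_left e1 (sq_nonneg _)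

/-- rows -/
theorem FLoc.row (h : FLoc H0 b b' w κ A K C1 c1 t l ε L) {x : ι} (hx : ‖rsc H0 b x x‖ ≤ K) :
    ∑ y, -(b' y).im * ‖rsc H0 b x y - rsc H0 b' x y‖ ^ 2 ≤
      8 * K ^ 11 * Real.exp (2 * t * (w x - L)) := by
  have hK0 : 0 < K := by linarith [h.hK]
  refine (Diss.rel_row h.hb h.hb' h.hw h.ht h.ht1 h.rel x).trans ?_
  refine mul_le_mul_of_nonneg_right ?_ (Real.exp_pos _).le
  calc 2 * (2 * K ^ 5) ^ 2 * ‖rsc H0 b x x‖ ≤ 2 * (2 * K ^ 5) ^ 2 * K :=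
        mul_le_mul_of_nonneg_left hx (by positivity)
    _ = 8 * K ^ 11 := by ring

/-- entries -/
theorem FLoc.ent (h : FLoc H0 b b' w κ A K C1 c1 t l ε L) {x y : ι} (hx : ‖rsc H0 b x x‖ ≤ K)
    (hy : (rsc H0 b' y y).im ≤ K) :
    ‖rsc H0 b x y - rsc H0 b' x y‖ ≤ 4 * K ^ 6 * Real.exp (t * (w x - L)) := by
  have hK0 : 0 < K := by linarith [h.hK]
  have h1 := Diss.rel_ent h.hb h.hb' h.hw h.ht h.ht1 h.rel x y
  have e1 : Real.exp (2 * t * (w x - L)) = Real.exp (t * (w x - L)) ^ 2 := by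
    rw [sq, ← Real.exp_add]; congr 1; ring
  have h2 : ‖rsc H0 b x y - rsc H0 b' x y‖ ^ 2 ≤ (4 * K ^ 6 * Real.exp (t * (w x - L))) ^ 2 := by
    refine h1.trans ?_
    calc 2 * (2 * K ^ 5) ^ 2 * ‖rsc H0 b x x‖ * Real.exp (2 * t * (w x - L)) *
          (rsc H0 b' y y).im
        ≤ 2 * (2 * K ^ 5) ^ 2 * K * Real.exp (2 * t * (w x - L)) * K := by
          refine mul_le_mul ?_ hy (h.hb'.im_nn y) (by positivity)
          refine mul_le_mul_of_nonneg_right ?_ (Real.exp_pos _).le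
          exact mul_le_mul_of_nonneg_left hx (by positivity)
      _ = 8 * K ^ 12 * Real.exp (t * (w x - L)) ^ 2 := by rw [e1]; ring
      _ ≤ 16 * K ^ 12 * Real.exp (t * (w x - L)) ^ 2 := by
          refine mul_le_mul_of_nonneg_right ?_ (sq_nonneg _)
          have : 0 ≤ K ^ 12 := by positivity
          linarith
      _ = _ := by ring
  exact (pow_le_pow_iff_left₀ (norm_nonneg _) (by positivity) (by norm_num)).1 h2

end Pool.Agent.ANM
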