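import Mathlib

/-!
# ANM / GeoChain: walks through sparse holes

Abstract geometry of the locality layer (MP_28b024): `X` is a set with an integer valued distance
`d`, `D k` (`k : ι`) are the pieces of the holes, `gen k` the generation of a piece. A chain is a
sequence of paid steps (of length at most one) and of jumps from a point near a piece to another
point near the same piece. If the pieces of the generation `i` have diameter at most `ρ i` and every
ball of radius `L i` meets at most `J` of them, and if `L i` is large compared with `ρ i`, then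
`d x y` is at most twice the number of paid steps plus a constant.
-/

set_option autoImplicit false

namespace Pool.Agent.ANM

variable {X ι : Type*}

/-- Integer valued distances. -/
structure NMet (d : X → X → ℕ) : Prop where
  self : ∀ x, d x x = 0
  symm : ∀ x y, d x y = d y x
  tri : ∀ x y z, d x z ≤ d x y + d y z

/-- `x` is at distance at most one from the set `A`. -/
def Near (d : X → X → ℕ) (A : Set X) (x : X) : Prop := ∃ y ∈ A, d x y ≤ 1

/-- Sparse families of pieces: the pieces of the generation `i` have diameter at most `ρ i`, and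
every ball of radius `L i` meets at most `J` of them. -/
structure Sparse (d : X → X → ℕ) (D : ι → Set X) (gen : ι → ℕ) (g J : ℕ) (ρ L : ℕ → ℕ) : Prop where
  gen_lt : ∀ k, gen k < g
  diam : ∀ k, ∀ x ∈ D k, ∀ y ∈ D k, d x y ≤ ρ (gen k)
  count : ∀ (i : ℕ) (x : X) (s : Finset ι),
    (∀ k ∈ s, gen k = i ∧ ∃ y ∈ D k, d x y ≤ L i) → s.card ≤ J
  large : ∀ i < g, 2 ^ (i + 2) * (J + 1) * (ρ i + 2) ≤ L i

/-- Chains: `none` is a paid step, `some k` a jump between two points near the piece `k`. -/
def Ch (d : X → X → ℕ) (D : ι → Set X) : X → X → List (Option ι) → Prop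
  | x, y, [] => x = y
  | x, y, none :: l => ∃ z, d x z ≤ 1 ∧ Ch d D z y l
  | x, y, some k :: l => ∃ z, Near d (D k) x ∧ Near d (D k) z ∧ Ch d D z y l

/-- The length of a chain. -/
def TT (gen : ι → ℕ) (ρ : ℕ → ℕ) : List (Option ι) → ℕ
  | [] => 0
  | none :: l => 1 + TT gen ρ l
  | some k :: l => (ρ (gen k) + 2) + TT gen ρ l

/-- The number of paid steps. -/
def paid : List (Option ι) → ℕ
  | [] => 0
  | none :: l => 1 + paid l
  | some _ :: l => paid l

/-- The number of jumps of generation `i`. -/
def cnt (gen : ι → ℕ) (i : ℕ) : List (Option ι) → ℕ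
  | [] => 0
  | none :: l => cnt gen i l
  | some k :: l => (if gen k = i then 1 else 0) + cnt gen i l

/-- The list of the pieces of a chain. -/
def pcs : List (Option ι) → List ι
  | [] => []
  | none :: l => pcs l
  | some k :: l => k :: pcs l

variable {d : X → X → ℕ} {D : ι → Set X} {gen : ι → ℕ} {g J : ℕ} {ρ L : ℕ → ℕ}

lemma TT_append (l l' : List (Option ι)) : TT gen ρ (l ++ l') = TT gen ρ l + TT gen ρ l' := by
  induction l with
  | nil => simp [TT]
  | cons a l ih => cases a <;> simp [TT, ih] <;> ring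

lemma paid_append (l l' : List (Option ι)) : paid (l ++ l') = paid l + paid l' := by
  induction l with
  | nil => simp [paid]
  | cons a l ih => cases a <;> simp [paid, ih]; ring

lemma cnt_append (i : ℕ) (l l' : List (Option ι)) :
    cnt gen i (l ++ l') = cnt gen i l + cnt gen i l' := by
  induction l with
  | nil => simp [cnt]
  | cons a l ih => cases a <;> simp [cnt, ih]; ring

lemma pcs_append (l l' : List (Option ι)) : pcs (l ++ l') = pcs l ++ pcs l' := by
  induction l with
  | nil => simp [pcs]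
  | cons a l ih => cases a <;> simp [pcs, ih]

lemma Ch_append (x y : X) (l l' : List (Option ι)) :
    Ch d D x y (l ++ l') ↔ ∃ z, Ch d D x z l ∧ Ch d D z y l' := by
  induction l generalizing x with
  | nil => simp [Ch]
  | cons a l ih =>
    cases a with
    | none =>
      simp only [List.cons_append, Ch, ih]
      constructor
      · rintro ⟨z, h, w, h1, h2⟩
        exact ⟨w, ⟨z, h, h1⟩, h2⟩
      · rintro ⟨w, ⟨z, h, h1⟩, h2⟩
        exact ⟨z, h, w, h1, h2⟩
    | some k =>
      simp only [List.cons_append, Ch, ih]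
      constructor
      · rintro ⟨z, h, h', w, h1, h2⟩
        exact ⟨w, ⟨z, h, h', h1⟩, h2⟩
      · rintro ⟨w, ⟨z, h, h', h1⟩, h2⟩
        exact ⟨z, h, h', w, h1, h2⟩

lemma Near_dist (hd : NMet d) (h : Sparse d D gen g J ρ L) {k : ι} {x y : X}
    (hx : Near d (D k) x) (hy : Near d (D k) y) : d x y ≤ ρ (gen k) + 2 := by
  obtain ⟨a, ha, hxa⟩ := hx
  obtain ⟨b, hb, hyb⟩ := hy
  have h1 := hd.tri x a y
  have h2 := hd.tri a b y
  have h3 := h.diam k a ha b hb
  have h4 := hd.symm b y
  omega

/-- The length bounds the distance. -/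
lemma Ch_dist (hd : NMet d) (h : Sparse d D gen g J ρ L) {x y : X} {l : List (Option ι)}
    (hl : Ch d D x y l) : d x y ≤ TT gen ρ l := by
  induction l generalizing x with
  | nil => simp only [Ch] at hl; subst hl; simp [TT, hd.self]
  | cons a l ih =>
    cases a with
    | none =>
      obtain ⟨z, h1, h2⟩ := hl
      have := ih h2
      have := hd.tri x z y
      simp only [TT]
      omega
    | some k =>
      obtain ⟨z, h1, h1', h2⟩ := hl
      have := ih h2
      have := hd.tri x z y
      have := Near_dist hd h h1 h1'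
      simp only [TT]
      omega

/-- Points near the pieces of a chain. -/
lemma Ch_piece {x y : X} {l : List (Option ι)} (hl : Ch d D x y l) {k : ι} (hk : k ∈ pcs l) :
    ∃ l1 l2 z, l = l1 ++ some k :: l2 ∧ Ch d D x z l1 ∧ Near d (D k) z := by
  induction l generalizing x with
  | nil => simp [pcs] at hk
  | cons a l ih =>
    cases a with
    | none =>
      obtain ⟨z, h1, h2⟩ := hl
      obtain ⟨l1, l2, w, h3, h4, h5⟩ := ih h2 hk
      exact ⟨none :: l1, l2, w, by rw [h3]; rfl, ⟨z, h1, h4⟩, h5⟩
    | some k' =>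
      obtain ⟨z, h1, h1', h2⟩ := hl
      simp only [pcs, List.mem_cons] at hk
      rcases hk with rfl | hk
      · exact ⟨[], l, x, rfl, rfl, h1⟩
      · obtain ⟨l1, l2, w, h3, h4, h5⟩ := ih h2 hk
        exact ⟨some k' :: l1, l2, w, by rw [h3]; rfl, ⟨z, h1, h1', h4⟩, h5⟩

lemma cnt_le_card [DecidableEq ι] (i : ℕ) (l : List (Option ι)) (hn : (pcs l).Nodup) :
    cnt gen i l = ((pcs l).toFinset.filter fun k => gen k = i).card := by
  induction l with
  | nil => simp [cnt, pcs]
  | cons a l ih =>
    cases a with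
    | none => simpa [cnt, pcs] using ih hn
    | some k =>
      simp only [pcs, List.nodup_cons] at hn
      have h1 := ih hn.2
      simp only [cnt, pcs, List.toFinset_cons]
      rw [Finset.filter_insert]
      by_cases hk : gen k = i
      · rw [if_pos hk, if_pos hk, Finset.card_insert_of_notMem, h1]
        · ring
        · simp [hn.1]
      · rw [if_neg hk, if_neg hk, h1]
        ring

/-- A chain with more than `J` jumps of generation `i` is long. -/
lemma span (hd : NMet d) (h : Sparse d D gen g J ρ L) {x y : X} {l : List (Option ι)}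
    (hl : Ch d D x y l) (hn : (pcs l).Nodup) {i : ℕ} (hi : J + 1 ≤ cnt gen i l) :
    L i ≤ TT gen ρ l := by
  classical
  by_contra hc
  push Not at hc
  rw [cnt_le_card i l hn] at hi
  have := h.count i x ((pcs l).toFinset.filter fun k => gen k = i) ?_
  · omega
  · intro k hk
    rw [Finset.mem_filter, List.mem_toFinset] at hk
    refine ⟨hk.2, ?_⟩
    obtain ⟨l1, l2, z, h1, h2, ⟨w, hw, hzw⟩⟩ := Ch_piece hl hk.1
    refine ⟨w, hw, ?_⟩
    have h3 := Ch_dist hd h h2
    have h4 := hd.tri x z w
    have h5 : TT gen ρ l = TT gen ρ l1 + ((ρ (gen k) + 2) + TT gen ρ l2) := by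
      rw [h1, TT_append]; rfl
    omega

lemma split_cnt (i n : ℕ) (l : List (Option ι)) (h : n ≤ cnt gen i l) :
    ∃ l1 l2, l = l1 ++ l2 ∧ cnt gen i l1 = n := by
  induction l generalizing n with
  | nil =>
    simp only [cnt, Nat.le_zero] at h
    exact ⟨[], [], rfl, by simp [cnt, h]⟩
  | cons a l ih =>
    rcases Nat.eq_zero_or_pos n with rfl | hn
    · exact ⟨[], a :: l, rfl, by simp [cnt]⟩
    cases a with
    | none =>
      obtain ⟨l1, l2, h1, h2⟩ := ih n (by simpa [cnt] using h)
      exact ⟨none :: l1, l2, by rw [h1]; rfl, by simpa [cnt] using h2⟩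
    | some k =>
      by_cases hk : gen k = i
      · simp only [cnt, if_pos hk] at h
        obtain ⟨l1, l2, h1, h2⟩ := ih (n - 1) (by omega)
        refine ⟨some k :: l1, l2, by rw [h1]; rfl, ?_⟩
        simp only [cnt, if_pos hk, h2]
        omega
      · simp only [cnt, if_neg hk] at h
        obtain ⟨l1, l2, h1, h2⟩ := ih n (by omega)
        refine ⟨some k :: l1, l2, by rw [h1]; rfl, ?_⟩
        simp only [cnt, if_neg hk, h2]
        omega

lemma cnt_mul (hd : NMet d) (h : Sparse d D gen g J ρ L) (i n : ℕ) {x y : X}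
    {l : List (Option ι)} (hl : Ch d D x y l) (hn : (pcs l).Nodup)
    (hc : n * (J + 1) ≤ cnt gen i l) : n * L i ≤ TT gen ρ l := by
  induction n generalizing x l with
  | zero => simp
  | succ n ih =>
    have hc' : (n + 1) * (J + 1) = n * (J + 1) + (J + 1) := by ring
    obtain ⟨l1, l2, h1, h2⟩ := split_cnt (gen := gen) i (J + 1) l (by omega)
    subst h1
    rw [Ch_append] at hl
    obtain ⟨z, h3, h4⟩ := hl
    rw [pcs_append, List.nodup_append] at hn
    rw [cnt_append] at hc
    have h5 := span hd h h3 hn.1 (i := i) (by omega)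
    have h6 := ih h4 hn.2.1 (by omega)
    rw [TT_append]
    have : (n + 1) * L i = n * L i + L i := by ring
    omega

lemma cnt_bd (hd : NMet d) (h : Sparse d D gen g J ρ L) (i : ℕ) {x y : X}
    {l : List (Option ι)} (hl : Ch d D x y l) (hn : (pcs l).Nodup) :
    cnt gen i l * L i ≤ (J + 1) * (TT gen ρ l + L i) := by
  have h1 := cnt_mul hd h i (cnt gen i l / (J + 1)) hl hn (Nat.div_mul_le_self _ _)
  have h2 : cnt gen i l ≤ (cnt gen i l / (J + 1) + 1) * (J + 1) := by
    have := Nat.lt_succ_iff.1 (Nat.lt_succ_of_le (Nat.lt_mul_div_succ (cnt gen i l)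
      (Nat.succ_pos J)).le)
    calc cnt gen i l ≤ (J + 1) * (cnt gen i l / (J + 1) + 1) := this
      _ = _ := by ring
  calc cnt gen i l * L i ≤ (cnt gen i l / (J + 1) + 1) * (J + 1) * L i :=
        Nat.mul_le_mul_right _ h2
    _ = (J + 1) * (cnt gen i l / (J + 1) * L i + L i) := by ring
    _ ≤ _ := by gcongr

lemma TT_eq (h : Sparse d D gen g J ρ L) (l : List (Option ι)) :
    TT gen ρ l = paid l + ∑ i ∈ Finset.range g, cnt gen i l * (ρ i + 2) := by
  induction l with
  | nil => simp [TT, paid, cnt]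
  | cons a l ih =>
    cases a with
    | none => simp only [TT, paid, cnt, ih]; ring
    | some k =>
      simp only [TT, paid, cnt, ih]
      have : ∑ i ∈ Finset.range g, ((if gen k = i then 1 else 0) + cnt gen i l) * (ρ i + 2) =
          (ρ (gen k) + 2) + ∑ i ∈ Finset.range g, cnt gen i l * (ρ i + 2) := by
        simp only [add_mul, Finset.sum_add_distrib, ite_mul, one_mul, zero_mul]
        congr 1
        rw [Finset.sum_eq_single (gen k)]
        · simp
        · intro b _ hb
          rw [if_neg (Ne.symm hb)]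
        · intro hk
          exact absurd (Finset.mem_range.2 (h.gen_lt k)) hk
      rw [this]
      ring

/-- The additive constant. -/
def cst (g J : ℕ) (ρ : ℕ → ℕ) : ℕ := 2 * (J + 1) * ∑ i ∈ Finset.range g, (ρ i + 2)

lemma TT_bd (hd : NMet d) (h : Sparse d D gen g J ρ L) {x y : X}
    {l : List (Option ι)} (hl : Ch d D x y l) (hn : (pcs l).Nodup) :
    TT gen ρ l ≤ 2 * paid l + cst g J ρ := by
  have h1 := TT_eq h l
  have hL : ∀ i ∈ Finset.range g, (cnt gen i l * (ρ i + 2) : ℝ) ≤
      (J + 1) * (ρ i + 2) + (TT gen ρ l : ℝ) / 2 ^ (i + 2) := by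
    intro i hi
    have hi' := Finset.mem_range.1 hi
    have h2 := cnt_bd hd h i hl hn
    have h3 := h.large i hi'
    have h2' : ((cnt gen i l : ℝ)) * L i ≤ (J + 1) * (TT gen ρ l + L i) := by exact_mod_cast h2
    have h3' : (2 : ℝ) ^ (i + 2) * (J + 1) * (ρ i + 2) ≤ L i := by exact_mod_cast h3
    have hLpos : (0 : ℝ) < L i := by
      have : (0 : ℝ) < 2 ^ (i + 2) * (J + 1) * (ρ i + 2) := by positivity
      linarith
    have h2p : (0 : ℝ) < 2 ^ (i + 2) := by positivity
    have h4 : (cnt gen i l : ℝ) ≤ (J + 1) + (J + 1) * TT gen ρ l / L i := by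
      rw [← sub_nonneg]
      have : (J + 1 : ℝ) + (J + 1) * TT gen ρ l / L i - cnt gen i l =
          ((J + 1) * (TT gen ρ l + L i) - cnt gen i l * L i) / L i := by
        field_simp
        ring
      rw [this]
      exact div_nonneg (by linarith) hLpos.le
    have h5 : (J + 1 : ℝ) * TT gen ρ l / L i * (ρ i + 2) ≤ (TT gen ρ l : ℝ) / 2 ^ (i + 2) := by
      rw [div_mul_eq_mul_div, div_le_div_iff₀ hLpos h2p]
      have h0 : (0 : ℝ) ≤ TT gen ρ l := by positivity
      calc (J + 1 : ℝ) * TT gen ρ l * (ρ i + 2) * 2 ^ (i + 2) =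
            TT gen ρ l * (2 ^ (i + 2) * (J + 1) * (ρ i + 2)) := by ring
        _ ≤ TT gen ρ l * L i := by gcongr
    calc (cnt gen i l * (ρ i + 2) : ℝ) ≤ ((J + 1) + (J + 1) * TT gen ρ l / L i) * (ρ i + 2) := by
          gcongr
      _ ≤ _ := by rw [add_mul]; linarith
  have hg : ∑ i ∈ Finset.range g, (TT gen ρ l : ℝ) / 2 ^ (i + 2) ≤ (TT gen ρ l : ℝ) / 2 := by
    have h0 : (0 : ℝ) ≤ TT gen ρ l := by positivity
    have : ∑ i ∈ Finset.range g, (1 : ℝ) / 2 ^ (i + 2) ≤ 1 / 2 := by
      have h6 : ∀ n : ℕ, ∑ i ∈ Finset.range n, (1 : ℝ) / 2 ^ (i + 2) = 1 / 2 - 1 / 2 ^ (n + 1) := by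
        intro n
        induction n with
        | zero => norm_num
        | succ n ih => rw [Finset.sum_range_succ, ih]; field_simp; ring
      rw [h6]
      have : (0 : ℝ) < 1 / 2 ^ (g + 1) := by positivity
      linarith
    calc ∑ i ∈ Finset.range g, (TT gen ρ l : ℝ) / 2 ^ (i + 2) =
          TT gen ρ l * ∑ i ∈ Finset.range g, (1 : ℝ) / 2 ^ (i + 2) := by
            rw [Finset.mul_sum]
            exact Finset.sum_congr rfl fun i _ => by ring
      _ ≤ TT gen ρ l * (1 / 2) := by gcongr
      _ = _ := by ring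
  have h7 : (TT gen ρ l : ℝ) ≤ paid l + ((J + 1) * ∑ i ∈ Finset.range g, ((ρ i : ℝ) + 2) +
      (TT gen ρ l : ℝ) / 2) := by
    have h1' : (TT gen ρ l : ℝ) = paid l + ∑ i ∈ Finset.range g, (cnt gen i l * (ρ i + 2) : ℝ) := by
      exact_mod_cast h1
    rw [h1']
    have h8 := Finset.sum_le_sum hL
    rw [Finset.sum_add_distrib, ← Finset.mul_sum] at h8
    rw [← h1']
    linarith
  have h9 : (TT gen ρ l : ℝ) ≤ 2 * paid l + (cst g J ρ : ℕ) := by
    unfold cst
    push_cast
    linarith
  exact_mod_cast h9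

/-- Shortening a chain which uses a piece twice. -/
lemma shortcut {x y : X} {k : ι} {l1 l2 l3 : List (Option ι)}
    (h : Ch d D x y (l1 ++ some k :: (l2 ++ some k :: l3))) :
    Ch d D x y (l1 ++ some k :: l3) := by
  rw [Ch_append] at h ⊢
  obtain ⟨z, h1, w, h2, h3, h4⟩ := h
  rw [Ch_append] at h4
  obtain ⟨a, h5, b, h6, h7, h8⟩ := h4
  exact ⟨z, h1, b, h2, h7, h8⟩

lemma pcs_split {k : ι} {l : List (Option ι)} (hk : k ∈ pcs l) :
    ∃ l1 l2, l = l1 ++ some k :: l2 := by
  induction l with
  | nil => simp [pcs] at hk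
  | cons a l ih =>
    cases a with
    | none =>
      obtain ⟨l1, l2, h⟩ := ih hk
      exact ⟨none :: l1, l2, by rw [h]; rfl⟩
    | some k' =>
      simp only [pcs, List.mem_cons] at hk
      rcases hk with rfl | hk
      · exact ⟨[], l, rfl⟩
      · obtain ⟨l1, l2, h⟩ := ih hk
        exact ⟨some k' :: l1, l2, by rw [h]; rfl⟩

lemma not_nodup_split {l : List (Option ι)} (hn : ¬ (pcs l).Nodup) :
    ∃ k l1 l2 l3, l = l1 ++ some k :: (l2 ++ some k :: l3) := by
  induction l with
  | nil => simp [pcs] at hn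
  | cons a l ih =>
    cases a with
    | none =>
      obtain ⟨k, l1, l2, l3, h⟩ := ih hn
      exact ⟨k, none :: l1, l2, l3, by rw [h]; rfl⟩
    | some k' =>
      simp only [pcs, List.nodup_cons, not_and_or, not_not] at hn
      rcases hn with hn | hn
      · obtain ⟨l2, l3, h⟩ := pcs_split hn
        exact ⟨k', [], l2, l3, by rw [h]; rfl⟩
      · obtain ⟨k, l1, l2, l3, h⟩ := ih hn
        exact ⟨k, some k' :: l1, l2, l3, by rw [h]; rfl⟩

lemma exists_nodup {x y : X} {l : List (Option ι)} (hl : Ch d D x y l) :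
    ∃ l', Ch d D x y l' ∧ (pcs l').Nodup ∧ paid l' ≤ paid l := by
  induction hm : l.length using Nat.strong_induction_on generalizing l with
  | _ m ih =>
    by_cases hn : (pcs l).Nodup
    · exact ⟨l, hl, hn, le_rfl⟩
    · obtain ⟨k, l1, l2, l3, h⟩ := not_nodup_split hn
      subst h
      obtain ⟨l', h1, h2, h3⟩ := ih (l1 ++ some k :: l3).length (by
        rw [← hm]; simp) (shortcut hl) rfl
      refine ⟨l', h1, h2, h3.trans ?_⟩
      simp only [paid_append, paid]
      omega

/-- The main estimate: the distance is at most twice the number of paid steps plus a constant. -/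
theorem Ch_paid (hd : NMet d) (h : Sparse d D gen g J ρ L) {x y : X} {l : List (Option ι)}
    (hl : Ch d D x y l) : d x y ≤ 2 * paid l + cst g J ρ := by
  obtain ⟨l', h1, h2, h3⟩ := exists_nodup hl
  have h4 := Ch_dist hd h h1
  have h5 := TT_bd hd h h1 h2
  omega

end Pool.Agent.ANM
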