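import Pool.Agent.ANM.GeoSurf
import Pool.Agent.ANL.Prob

/-!
# ANM / GeoLeak: the domains of the leak theorem

The domains `DF i` (`i ≤ N + 1`) are the sets `Dn` of `Pool/Agent/ANM/GeoSurf.lean` as finite sets.
`lgeo`: they satisfy the geometric hypotheses `LGeo` of the leak theorem (`Pool/Agent/ANL/Prob.lean`).
Further facts: boundary sites do not belong to holes (`bdy_DF_hole`), sites of different boundaries are
far apart (`bdy_DF_dist`), transversals have separated elements (`tr_dist`), everything is contained in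
a neighbourhood of `F` (`DF_near`, `bdy_DF_near`).
-/

set_option autoImplicit false

namespace Pool.Agent.ANM

open Finset Pool.Agent.Kin Pool.Agent.ANL

variable {ι κ : Type} [Fintype ι] {d : ι → ι → ℕ} {D : κ → Set ι} {gen : κ → ℕ}
  {g J : ℕ} {ρ L : ℕ → ℕ}

open Classical in
/-- The domains as finite sets. -/
noncomputable def DF (d : ι → ι → ℕ) (D : κ → Set ι) (Δ : ℕ) (F : Finset ι) (i : ℕ) : Finset ι :=
  univ.filter fun x => x ∈ Dn d D Δ (F : Set ι) i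

lemma mem_DF {Δ : ℕ} {F : Finset ι} {i : ℕ} {x : ι} :
    x ∈ DF d D Δ F i ↔ x ∈ Dn d D Δ (F : Set ι) i := by
  classical
  simp [DF]

/-- The domains increase. -/
lemma DF_mono (hd : NMet d) (Δ : ℕ) (F : Finset ι) {i j : ℕ} (h : i ≤ j) :
    DF d D Δ F i ⊆ DF d D Δ F j := fun _ hx => mem_DF.2 (Dn_mono hd Δ _ h (mem_DF.1 hx))

lemma subset_DF (hd : NMet d) (Δ : ℕ) (F : Finset ι) (i : ℕ) : F ⊆ DF d D Δ F i :=
  fun _ hx => mem_DF.2 (subset_Dn hd Δ _ i (mem_coe.2 hx))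

theorem DF_near (hd : NMet d) (h : Sparse d D gen g J ρ L) {Δ : ℕ} {F : Finset ι} {i : ℕ} {x : ι}
    (hx : x ∈ DF d D Δ F i) : ∃ y ∈ F, d y x ≤ i * (Δ + cst g J ρ) + cst g J ρ := by
  obtain ⟨y, hy, h1⟩ := Dn_subset hd h Δ _ i (mem_DF.1 hx)
  exact ⟨y, mem_coe.1 hy, h1⟩

variable [DecidableEq ι]

/-- The boundary as a set. -/
lemma mem_bdy_DF {H : Matrix ι ι ℂ} {Δ : ℕ} {F : Finset ι} {i : ℕ} {x : ι}
    (hx : x ∈ bdy H (DF d D Δ F i)) :
    x ∈ bdyS (fun x y => H x y ≠ 0) (Dn d D Δ (F : Set ι) i) := by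
  classical
  unfold Pool.Agent.ANL.bdy at hx
  rw [mem_filter] at hx
  obtain ⟨_, y, h1, h2⟩ := hx
  rw [mem_DF, mem_DF] at h2
  by_cases hxi : x ∈ Dn d D Δ (F : Set ι) i
  · exact Or.inl ⟨hxi, y, h2.1 hxi, h1⟩
  · exact Or.inr ⟨hxi, y, not_not.1 fun h => hxi (h2.2 h), h1⟩

/-- Boundary sites do not belong to holes. -/
theorem bdy_DF_hole (hd : NMet d) {H : Matrix ι ι ℂ} (hH : ∀ x y, H x y ≠ 0 → d x y ≤ 1) {Δ : ℕ}
    {F : Finset ι} {i : ℕ} {x : ι} (hx : x ∈ bdy H (DF d D Δ F i)) (k : κ) : x ∉ D k :=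
  bdy_Dn hd hH Δ _ i (mem_bdy_DF hx) k

/-- Sites of different boundaries are far apart. -/
theorem bdy_DF_dist (hd : NMet d) (hg : Geo d) {H : Matrix ι ι ℂ}
    (hH : ∀ x y, H x y ≠ 0 → d x y ≤ 1) {Δ : ℕ} {F : Finset ι} {i j : ℕ} (hij : i < j) {x y : ι}
    (hx : x ∈ bdy H (DF d D Δ F i)) (hy : y ∈ bdy H (DF d D Δ F j)) :
    (j - i) * Δ < d x y + 3 :=
  bdy_dist hd hg hH Δ _ hij (mem_bdy_DF hx) (mem_bdy_DF hy)

theorem bdy_DF_near (hd : NMet d) (h : Sparse d D gen g J ρ L) {H : Matrix ι ι ℂ}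
    (hH : ∀ x y, H x y ≠ 0 → d x y ≤ 1) {Δ : ℕ} {F : Finset ι} {i : ℕ} {x : ι}
    (hx : x ∈ bdy H (DF d D Δ F i)) :
    ∃ y ∈ F, d y x ≤ i * (Δ + cst g J ρ) + cst g J ρ + 1 := by
  obtain ⟨y, hy, h1⟩ := bdy_subset hd h hH Δ _ i (mem_bdy_DF hx)
  exact ⟨y, mem_coe.1 hy, h1⟩

/-- A site of the boundary number `i` with `j < i` does not belong to the domain number `j`. -/
theorem bdy_DF_notMem (hd : NMet d) {H : Matrix ι ι ℂ}
    (hH : ∀ x y, H x y ≠ 0 → d x y ≤ 1) {Δ : ℕ} (hΔ : 2 ≤ Δ) {F : Finset ι} {i j : ℕ}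
    (hij : j < i) {x : ι} (hx : x ∈ bdy H (DF d D Δ F i)) : x ∉ DF d D Δ F j := by
  intro hj
  obtain ⟨n, rfl⟩ : ∃ n, i = n + 1 := ⟨i - 1, by omega⟩
  have h1 := DF_mono (D := D) hd Δ F (show j ≤ n by omega) hj
  have h2 := bdy_far hd hH Δ _ n (mem_bdy_DF hx) (mem_DF.1 h1)
  rw [hd.self] at h2
  omega

/-- Cardinality of the boundaries. -/
theorem bdy_DF_card (hd : NMet d) (h : Sparse d D gen g J ρ L) {H : Matrix ι ι ℂ}
    (hH : ∀ x y, H x y ≠ 0 → d x y ≤ 1) {Δ : ℕ} {F : Finset ι} {i n V : ℕ}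
    (hi : i ≤ n) (hV : ∀ x, (univ.filter fun y => d x y ≤ n * (Δ + cst g J ρ) + cst g J ρ + 1).card
      ≤ V) : (bdy H (DF d D Δ F i)).card ≤ F.card * V := by
  classical
  refine card_nb (n * (Δ + cst g J ρ) + cst g J ρ + 1) V F (fun x _ => hV x) _ ?_
  intro x hx
  obtain ⟨y, hy, h1⟩ := bdy_DF_near hd h hH (mem_coe.1 hx)
  have h2 : i * (Δ + cst g J ρ) ≤ n * (Δ + cst g J ρ) := Nat.mul_le_mul_right _ hi
  exact ⟨y, mem_coe.2 hy, by omega⟩

/-- The geometric hypotheses of the leak theorem. -/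
theorem lgeo (hd : NMet d) (h : Sparse d D gen g J ρ L) {H : Matrix ι ι ℂ}
    (hH : ∀ x y, H x y ≠ 0 → d x y ≤ 1) (hs : RealSym H) {h0 : ℝ} (hop : HopLe H h0)
    (h01 : 1 ≤ h0) {Δ : ℕ} (hΔ : 2 ≤ Δ) {F : Finset ι} {N V : ℕ} (hN : 1 ≤ N)
    (hV : ∀ x, (univ.filter fun y => d x y ≤ (N + 1) * (Δ + cst g J ρ) + cst g J ρ + 1).card
      ≤ V) :
    LGeo H F (DF d D Δ F 0) (fun i : Fin N => DF d D Δ F (i + 1)) h0 (F.card * V) where
  sym := hs
  hop := hop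
  h01 := h01
  N1 := hN
  F0 := subset_DF hd Δ F 0
  FD i := subset_DF hd Δ F _
  out i := by
    rw [Finset.disjoint_left]
    intro x hx
    exact bdy_DF_notMem hd hH hΔ (Nat.succ_pos _) hx
  dis i j hij := by
    rw [Finset.disjoint_left]
    intro x hx hx'
    -- the boundary with the larger index does not meet the smaller domain or its neighbours
    have key : ∀ a b : ℕ, a < b → x ∈ bdy H (DF d D Δ F a) → x ∈ bdy H (DF d D Δ F b) → False := by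
      intro a b hab h1 h2
      obtain ⟨n, rfl⟩ : ∃ n, b = n + 1 := ⟨b - 1, by omega⟩
      have h3 : x ∉ DF d D Δ F n := bdy_DF_notMem hd hH hΔ (Nat.lt_succ_self n) h2
      have h4 : x ∉ DF d D Δ F a := fun h => h3 (DF_mono hd Δ F (by omega) h)
      rcases mem_bdy_DF h1 with ⟨h5, _⟩ | ⟨_, y, hy, hxy⟩
      · exact h4 (mem_DF.2 h5)
      · have h6 := Dn_mono (D := D) hd Δ (F : Set ι) (show a ≤ n by omega) hy
        have h7 := bdy_far hd hH Δ _ n (mem_bdy_DF h2) h6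
        have h8 := hH x y hxy
        rw [hd.symm] at h8
        -- `Δ ≤ 2`, use the point `x` itself
        rcases mem_bdy_DF h2 with ⟨_, z, hz, hxz⟩ | ⟨h9, _⟩
        · apply hz
          apply subset_sw
          exact ⟨y, h6, by have := hd.tri y x z; have := hH x z hxz; omega⟩
        · exact h9 (subset_sw _ ⟨y, h6, by omega⟩)
    rcases lt_or_gt_of_ne (fun e => hij (Fin.ext e) : (i : ℕ) ≠ j) with hlt | hlt
    · exact key _ _ (by omega) hx hx'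
    · exact key _ _ (by omega) hx' hx
  card i := bdy_DF_card hd h hH (by omega) hV

/-- The elements of a transversal are far apart. -/
theorem tr_dist (hd : NMet d) (hg : Geo d) {H : Matrix ι ι ℂ}
    (hH : ∀ x y, H x y ≠ 0 → d x y ≤ 1) {Δ : ℕ} {F : Finset ι} {N : ℕ} {s : Finset ι}
    (hs : IsTr H (fun i : Fin N => DF d D Δ F (i + 1)) s) {x y : ι} (hx : x ∈ s) (hy : y ∈ s)
    (hxy : x ≠ y) : Δ < d x y + 3 := by
  obtain ⟨f, h1, rfl⟩ := hs
  obtain ⟨i, _, rfl⟩ := mem_image.1 hx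
  obtain ⟨j, _, rfl⟩ := mem_image.1 hy
  have hij : (i : ℕ) ≠ j := fun e => hxy (by rw [Fin.ext e])
  rcases lt_or_gt_of_ne hij with h | h
  · have h2 := bdy_DF_dist hd hg hH (i := i + 1) (j := j + 1) (by omega) (h1 i) (h1 j)
    have h3 : 1 * Δ ≤ ((j : ℕ) + 1 - (i + 1)) * Δ := Nat.mul_le_mul_right _ (by omega)
    omega
  · have h2 := bdy_DF_dist hd hg hH (i := j + 1) (j := i + 1) (by omega) (h1 j) (h1 i)
    have h3 : 1 * Δ ≤ ((i : ℕ) + 1 - (j + 1)) * Δ := Nat.mul_le_mul_right _ (by omega)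
    have h4 := hd.symm (f i) (f j)
    omega

end Pool.Agent.ANM
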