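import Pool.Agent.ANM.GeoGen

/-!
# ANM / GeoMix: two kinds of holes

If the pieces `D1` have the chain property `CP d D1 a c` and the pieces `D2` are `Sparse` with a
margin (`a * L' i + c ≤ L i`), then both families together have the chain property. Proof: the
number `pm x y` of paid steps of the best chain through `D1` is a distance, `d ≤ a * pm + c`, the
family `D2` is sparse for `pm`, and `Ch_paid` is applied to `pm`.
-/

set_option autoImplicit false

namespace Pool.Agent.ANM

variable {X ι κ : Type*} {d : X → X → ℕ} {D : ι → Set X} {E : κ → Set X} {gen : κ → ℕ} {g J : ℕ}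
  {ρ L L' : ℕ → ℕ} {a c : ℕ}

/-- The number of paid steps from `x` to `y`. -/
noncomputable def pm (d : X → X → ℕ) (D : ι → Set X) (x y : X) : ℕ :=
  sInf {n | ∃ l, Ch d D x y l ∧ paid l = n}

lemma pm_le {x y : X} {l : List (Option ι)} (h : Ch d D x y l) : pm d D x y ≤ paid l :=
  Nat.sInf_le ⟨l, h, rfl⟩

lemma pm_spec (hg : Geo d) (hs : Sep d) (x y : X) :
    ∃ l, Ch d D x y l ∧ paid l = pm d D x y := by
  have hne : {n | ∃ l, Ch d D x y l ∧ paid l = n}.Nonempty := by
    obtain ⟨l, hl⟩ := exists_Ch (D := D) hg hs x y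
    exact ⟨paid l, l, hl, rfl⟩
  obtain ⟨l, h1, h2⟩ := Nat.sInf_mem hne
  exact ⟨l, h1, h2⟩

lemma Ch_reverse (hd : NMet d) {x y : X} {l : List (Option ι)} (h : Ch d D x y l) :
    Ch d D y x l.reverse := by
  induction l generalizing x with
  | nil => exact Eq.symm h
  | cons o l ih =>
    rw [List.reverse_cons]
    cases o with
    | none =>
      obtain ⟨z, h1, h2⟩ := h
      exact Ch_snoc_none (ih h2) (by rw [hd.symm]; exact h1)
    | some k =>
      obtain ⟨z, h1, h2, h3⟩ := h
      exact Ch_snoc_some (ih h3) h2 h1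

lemma paid_reverse (l : List (Option ι)) : paid l.reverse = paid l := by
  induction l with
  | nil => rfl
  | cons o l ih =>
    rw [List.reverse_cons, paid_append, ih]
    cases o <;> simp [paid]; ring

lemma exists_unit (hg : Geo d) (hs : Sep d) (n : ℕ) (x y : X) (h : d x y ≤ n) :
    ∃ l, Ch d D x y l ∧ paid l ≤ n := by
  induction n generalizing x with
  | zero => exact ⟨[], hs x y (by omega), le_rfl⟩
  | succ n ih =>
    obtain ⟨z, h1, h2⟩ := hg x y 1 n (by omega)
    obtain ⟨l, h3, h4⟩ := ih z h2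
    exact ⟨none :: l, ⟨z, h1, h3⟩, by simp only [paid]; omega⟩

lemma pm_le_d (hg : Geo d) (hs : Sep d) (x y : X) : pm d D x y ≤ d x y := by
  obtain ⟨l, h1, h2⟩ := exists_unit (D := D) hg hs (d x y) x y le_rfl
  exact (pm_le h1).trans h2

lemma d_le_pm (hg : Geo d) (hs : Sep d) (h : CP d D a c) (x y : X) :
    d x y ≤ a * pm d D x y + c := by
  obtain ⟨l, h1, h2⟩ := pm_spec (D := D) hg hs x y
  rw [← h2]
  exact h x y l h1

lemma pm_met (hd : NMet d) (hg : Geo d) (hs : Sep d) : NMet (pm d D) where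
  self x := Nat.le_zero.1 ((pm_le (l := []) rfl).trans (by simp [paid]))
  symm x y := by
    have key : ∀ x y, pm d D x y ≤ pm d D y x := by
      intro x y
      obtain ⟨l, h1, h2⟩ := pm_spec (D := D) hg hs y x
      rw [← h2, ← paid_reverse]
      exact pm_le (Ch_reverse hd h1)
    exact le_antisymm (key x y) (key y x)
  tri x y z := by
    obtain ⟨l, h1, h2⟩ := pm_spec (D := D) hg hs x y
    obtain ⟨l', h3, h4⟩ := pm_spec (D := D) hg hs y z
    rw [← h2, ← h4, ← paid_append]
    exact pm_le ((Ch_append x z l l').2 ⟨y, h1, h3⟩)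

/-- `D2` is sparse for the distance `pm`. -/
lemma Sparse.pm (hg : Geo d) (hs : Sep d) (h : CP d D a c) (h2 : Sparse d E gen g J ρ L)
    (hL : ∀ i < g, a * L' i + c ≤ L i)
    (hL' : ∀ i < g, 2 ^ (i + 2) * (J + 1) * (ρ i + 2) ≤ L' i) :
    Sparse (pm d D) E gen g J ρ L' where
  gen_lt := h2.gen_lt
  diam k x hx y hy := (pm_le_d hg hs x y).trans (h2.diam k x hx y hy)
  count i x s hsk := by
    refine h2.count i x s fun k hk => ?_
    obtain ⟨h3, y, hy, h4⟩ := hsk k hk
    refine ⟨h3, y, hy, ?_⟩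
    have h5 := d_le_pm hg hs h x y
    have h6 := hL i (by rw [← h3]; exact h2.gen_lt k)
    have h7 : a * Pool.Agent.ANM.pm d D x y ≤ a * L' i := Nat.mul_le_mul_left _ h4
    omega
  large := hL'

lemma mix_conv (hd : NMet d) (hg : Geo d) (hs : Sep d) {x y : X} {l : List (Option (ι ⊕ κ))}
    (hl : Ch d (Sum.elim D E) x y l) (x' : X) (hx : pm d D x' x = 0) :
    ∃ y' l', pm d D y' y = 0 ∧ Ch (pm d D) E x' y' l' ∧ paid l' ≤ paid l := by
  have hm := pm_met (D := D) hd hg hs
  induction l generalizing x x' with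
  | nil =>
    simp only [Ch] at hl
    subst hl
    exact ⟨x', [], hx, rfl, le_rfl⟩
  | cons o l ih =>
    cases o with
    | none =>
      obtain ⟨z, h1, h2⟩ := hl
      obtain ⟨y', l', h3, h4, h5⟩ := ih h2 z (hm.self z)
      have h6 := hm.tri x' x z
      have h7 := pm_le_d (D := D) hg hs x z
      exact ⟨y', none :: l', h3, ⟨z, by omega, h4⟩, by simp only [paid]; omega⟩
    | some k =>
      cases k with
      | inl k =>
        obtain ⟨z, h1, h2, h3⟩ := hl
        have h4 : pm d D x z ≤ 0 := pm_le (l := [some k]) ⟨z, h1, h2, rfl⟩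
        have h5 := hm.tri x' x z
        obtain ⟨y', l', h6, h7, h8⟩ := ih h3 x' (by omega)
        exact ⟨y', l', h6, h7, by simpa [paid] using h8⟩
      | inr k =>
        obtain ⟨z, ⟨u, hu, h1⟩, ⟨v, hv, h2⟩, h3⟩ := hl
        obtain ⟨y', l', h6, h7, h8⟩ := ih h3 z (hm.self z)
        have h9 := hm.tri x' x u
        have h10 := pm_le_d (D := D) hg hs x u
        have h11 := pm_le_d (D := D) hg hs z v
        exact ⟨y', some k :: l', h6, ⟨z, ⟨u, hu, by omega⟩, ⟨v, hv, by omega⟩, h7⟩,
          by simpa [paid] using h8⟩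

/-- MIXTURE of a family with the chain property and of a sparse family. -/
theorem cp_mix (hd : NMet d) (hg : Geo d) (hs : Sep d) (h : CP d D a c)
    (h2 : Sparse d E gen g J ρ L) (hL : ∀ i < g, a * L' i + c ≤ L i)
    (hL' : ∀ i < g, 2 ^ (i + 2) * (J + 1) * (ρ i + 2) ≤ L' i) :
    CP d (Sum.elim D E) (2 * a) (a * cst g J ρ + c) := by
  intro x y l hl
  have hm := pm_met (D := D) hd hg hs
  obtain ⟨y', l', h3, h4, h5⟩ := mix_conv hd hg hs hl x (hm.self x)
  have h6 := Ch_paid hm (Sparse.pm hg hs h h2 hL hL') h4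
  have h7 := d_le_pm hg hs h x y
  have h8 := hm.tri x y' y
  have h9 : a * pm d D x y ≤ a * (2 * paid l + cst g J ρ) := Nat.mul_le_mul_left _ (by omega)
  have h10 : a * (2 * paid l + cst g J ρ) = 2 * a * paid l + a * cst g J ρ := by ring
  omega

end Pool.Agent.ANM
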