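import Pool.Agent.ANM.GeoPhi

/-!
# ANM / GeoSurf: surfaces which avoid the holes

`sw S` is the set of the points which can be reached from `S` by jumps through pieces: it contains
the closed neighbourhood of every piece whose closed neighbourhood it meets. `Dn S Δ i` are the
domains of the leak theorem: their boundary sites do not belong to holes, boundaries with different
indices are far apart, and the domains are contained in small neighbourhoods of `S`.
-/

set_option autoImplicit false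

namespace Pool.Agent.ANM

variable {X ι : Type*} {d : X → X → ℕ} {D : ι → Set X} {gen : ι → ℕ} {g J : ℕ} {ρ L : ℕ → ℕ}

/-- The closure of a set under jumps through pieces. -/
def sw (d : X → X → ℕ) (D : ι → Set X) (S : Set X) : Set X :=
  {y | ∃ x ∈ S, ∃ l, Ch d D x y l ∧ paid l = 0}

/-- The neighbourhood of radius `r`. -/
def nb (d : X → X → ℕ) (r : ℕ) (S : Set X) : Set X := {y | ∃ x ∈ S, d x y ≤ r}

/-- The domains. -/
def Dn (d : X → X → ℕ) (D : ι → Set X) (Δ : ℕ) (S : Set X) : ℕ → Set X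
  | 0 => sw d D S
  | i + 1 => sw d D (nb d Δ (Dn d D Δ S i))

/-- The sites of `A` and of its complement with a neighbour on the other side. -/
def bdyS (adj : X → X → Prop) (A : Set X) : Set X :=
  {x | (x ∈ A ∧ ∃ y, y ∉ A ∧ adj x y) ∨ (x ∉ A ∧ ∃ y ∈ A, adj x y)}

lemma subset_sw (S : Set X) : S ⊆ sw d D S := fun x hx => ⟨x, hx, [], rfl, rfl⟩

lemma sw_near {S : Set X} {k : ι} {y z : X} (hy : y ∈ sw d D S) (h1 : Near d (D k) y)
    (h2 : Near d (D k) z) : z ∈ sw d D S := by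
  obtain ⟨x, hx, l, hl, hp⟩ := hy
  refine ⟨x, hx, l ++ [some k], Ch_snoc_some hl h1 h2, ?_⟩
  rw [paid_append, hp]
  rfl

lemma sw_mono {S S' : Set X} (h : S ⊆ S') : sw d D S ⊆ sw d D S' := by
  rintro y ⟨x, hx, l, hl⟩
  exact ⟨x, h hx, l, hl⟩

lemma sw_dist (hd : NMet d) (h : Sparse d D gen g J ρ L) {S : Set X} {y : X}
    (hy : y ∈ sw d D S) : ∃ x ∈ S, d x y ≤ cst g J ρ := by
  obtain ⟨x, hx, l, hl, hp⟩ := hy
  have := Ch_paid hd h hl
  exact ⟨x, hx, by omega⟩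

lemma sw_subset_nb (hd : NMet d) (h : Sparse d D gen g J ρ L) (S : Set X) :
    sw d D S ⊆ nb d (cst g J ρ) S := fun _ hy => sw_dist hd h hy

/-- The smallest set with this property. -/
lemma sw_min {S B : Set X} (hS : S ⊆ B)
    (hB : ∀ k y z, y ∈ B → Near d (D k) y → Near d (D k) z → z ∈ B) : sw d D S ⊆ B := by
  rintro y ⟨x, hx, l, hl, hp⟩
  have key : ∀ (l : List (Option ι)) (x : X), x ∈ B → Ch d D x y l → paid l = 0 → y ∈ B := by
    intro l
    induction l with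
    | nil => intro x hx hl _; simp only [Ch] at hl; exact hl ▸ hx
    | cons a l ih =>
      intro x hx hl hp
      cases a with
      | none => simp [paid] at hp
      | some k =>
        obtain ⟨z, h1, h2, h3⟩ := hl
        exact ih z (hB k x z hx h1 h2) h3 hp
  exact key l x (hS hx) hl hp

/-- The boundary sites of a closed set do not belong to the holes. -/
theorem bdy_sw (hd : NMet d) {adj : X → X → Prop} (ha : ∀ x y, adj x y → d x y ≤ 1) (S : Set X)
    {x : X} (hx : x ∈ bdyS adj (sw d D S)) (k : ι) : x ∉ D k := by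
  intro hk
  have hxk : Near d (D k) x := ⟨x, hk, by rw [hd.self]; omega⟩
  rcases hx with ⟨h1, y, h2, h3⟩ | ⟨h1, y, h2, h3⟩
  · exact h2 (sw_near h1 hxk ⟨x, hk, by rw [hd.symm]; exact ha x y h3⟩)
  · exact h1 (sw_near h2 ⟨x, hk, by rw [hd.symm]; exact ha x y h3⟩ hxk)

theorem bdy_Dn (hd : NMet d) {adj : X → X → Prop} (ha : ∀ x y, adj x y → d x y ≤ 1) (Δ : ℕ)
    (S : Set X) (i : ℕ) {x : X} (hx : x ∈ bdyS adj (Dn d D Δ S i)) (k : ι) : x ∉ D k := by
  cases i with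
  | zero => exact bdy_sw hd ha _ hx k
  | succ i => exact bdy_sw hd ha _ hx k

lemma subset_nb (hd : NMet d) (r : ℕ) (S : Set X) : S ⊆ nb d r S :=
  fun x hx => ⟨x, hx, by rw [hd.self]; omega⟩

lemma Dn_succ (hd : NMet d) (Δ : ℕ) (S : Set X) (i : ℕ) : Dn d D Δ S i ⊆ Dn d D Δ S (i + 1) :=
  (subset_nb hd Δ _).trans (subset_sw _)

lemma Dn_mono (hd : NMet d) (Δ : ℕ) (S : Set X) {i j : ℕ} (h : i ≤ j) :
    Dn d D Δ S i ⊆ Dn d D Δ S j := by
  induction h with
  | refl => exact subset_rfl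
  | step _ ih => exact ih.trans (Dn_succ hd Δ S _)

lemma subset_Dn (hd : NMet d) (Δ : ℕ) (S : Set X) (i : ℕ) : S ⊆ Dn d D Δ S i :=
  (subset_sw S).trans (Dn_mono hd Δ S (Nat.zero_le i))

/-- Larger domains contain large neighbourhoods of smaller ones. -/
theorem nb_Dn (hg : Geo d) (Δ : ℕ) (S : Set X) (i n : ℕ) :
    nb d (n * Δ) (Dn d D Δ S i) ⊆ Dn d D Δ S (i + n) ∨ n = 0 := by
  induction n with
  | zero => exact Or.inr rfl
  | succ n ih =>
    left
    rintro y ⟨x, hx, hxy⟩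
    obtain ⟨z, h1, h2⟩ := hg x y (n * Δ) Δ (by rw [Nat.succ_mul] at hxy; exact hxy)
    apply subset_sw
    rcases ih with ih | rfl
    · exact ⟨z, ih ⟨x, hx, h1⟩, h2⟩
    · refine ⟨x, hx, ?_⟩
      simpa using hxy

/-- Boundaries with different indices are far apart. -/
theorem bdy_dist (hd : NMet d) (hg : Geo d) {adj : X → X → Prop}
    (ha : ∀ x y, adj x y → d x y ≤ 1) (Δ : ℕ) (S : Set X) {i j : ℕ} (hij : i < j) {x y : X}
    (hx : x ∈ bdyS adj (Dn d D Δ S i)) (hy : y ∈ bdyS adj (Dn d D Δ S j)) :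
    (j - i) * Δ < d x y + 3 := by
  have h1 : ∃ a ∈ Dn d D Δ S i, d a x ≤ 1 := by
    rcases hx with ⟨h, _⟩ | ⟨_, a, h, h'⟩
    · exact ⟨x, h, by rw [hd.self]; omega⟩
    · exact ⟨a, h, by rw [hd.symm]; exact ha x a h'⟩
  have h2 : ∃ b, b ∉ Dn d D Δ S j ∧ d y b ≤ 1 := by
    rcases hy with ⟨_, b, h, h'⟩ | ⟨h, _⟩
    · exact ⟨b, h, ha y b h'⟩
    · exact ⟨y, h, by rw [hd.self]; omega⟩
  obtain ⟨a, ha1, ha2⟩ := h1
  obtain ⟨b, hb1, hb2⟩ := h2
  by_contra hc
  push Not at hc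
  have h3 := hd.tri a x b
  have h4 := hd.tri x y b
  rcases nb_Dn (D := D) hg Δ S i (j - i) with h5 | h5
  · apply hb1
    have h6 := h5 ⟨a, ha1, (by omega : d a b ≤ (j - i) * Δ)⟩
    have h7 : i + (j - i) = j := by omega
    rwa [h7] at h6
  · omega

/-- The domains are contained in neighbourhoods of `S`. -/
theorem Dn_subset (hd : NMet d) (h : Sparse d D gen g J ρ L) (Δ : ℕ) (S : Set X) (i : ℕ) :
    Dn d D Δ S i ⊆ nb d (i * (Δ + cst g J ρ) + cst g J ρ) S := by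
  induction i with
  | zero => simpa [Dn] using sw_subset_nb hd h S
  | succ i ih =>
    intro y hy
    obtain ⟨x, hx, hxy⟩ := sw_dist hd h hy
    obtain ⟨z, hz, hzx⟩ := hx
    obtain ⟨w, hw, hwz⟩ := ih hz
    refine ⟨w, hw, ?_⟩
    have h1 := hd.tri w z y
    have h2 := hd.tri z x y
    have h3 : (i + 1) * (Δ + cst g J ρ) = i * (Δ + cst g J ρ) + (Δ + cst g J ρ) := by ring
    omega

/-- The boundaries are contained in neighbourhoods of `S`. -/
theorem bdy_subset (hd : NMet d) (h : Sparse d D gen g J ρ L) {adj : X → X → Prop}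
    (ha : ∀ x y, adj x y → d x y ≤ 1) (Δ : ℕ) (S : Set X) (i : ℕ) :
    bdyS adj (Dn d D Δ S i) ⊆ nb d (i * (Δ + cst g J ρ) + cst g J ρ + 1) S := by
  intro x hx
  have h1 : ∃ a ∈ Dn d D Δ S i, d a x ≤ 1 := by
    rcases hx with ⟨h, _⟩ | ⟨_, a, h, h'⟩
    · exact ⟨x, h, by rw [hd.self]; omega⟩
    · exact ⟨a, h, by rw [hd.symm]; exact ha x a h'⟩
  obtain ⟨a, ha1, ha2⟩ := h1
  obtain ⟨w, hw, hwa⟩ := Dn_subset hd h Δ S i ha1
  have := hd.tri w a x
  exact ⟨w, hw, by omega⟩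

/-- Points of the boundary number `i + 1` are far from `S`. -/
theorem bdy_far (hd : NMet d) {adj : X → X → Prop}
    (ha : ∀ x y, adj x y → d x y ≤ 1) (Δ : ℕ) (S : Set X) (i : ℕ) {x y : X}
    (hx : x ∈ bdyS adj (Dn d D Δ S (i + 1))) (hy : y ∈ Dn d D Δ S i) : Δ ≤ d y x + 1 := by
  have h2 : ∃ b, b ∉ Dn d D Δ S (i + 1) ∧ d x b ≤ 1 := by
    rcases hx with ⟨_, b, h, h'⟩ | ⟨h, _⟩
    · exact ⟨b, h, ha x b h'⟩
    · exact ⟨x, h, by rw [hd.self]; omega⟩
  obtain ⟨b, hb1, hb2⟩ := h2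
  by_contra hc
  push Not at hc
  have h3 := hd.tri y x b
  exact hb1 (subset_sw _ ⟨y, hy, by omega⟩)

/-- Cardinality of a neighbourhood of a finite set. -/
theorem card_nb [Fintype X] [DecidableEq X] (r V : ℕ)
    (S : Finset X) (hV : ∀ x ∈ S, ((Finset.univ.filter fun y => d x y ≤ r).card) ≤ V)
    (T : Finset X) (hT : ↑T ⊆ nb d r (↑S : Set X)) : T.card ≤ S.card * V := by
  have h1 : T ⊆ S.biUnion fun x => Finset.univ.filter fun y => d x y ≤ r := by
    intro y hy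
    obtain ⟨x, hx, hxy⟩ := hT (Finset.mem_coe.2 hy)
    rw [Finset.mem_biUnion]
    exact ⟨x, Finset.mem_coe.1 hx, by simp [hxy]⟩
  calc T.card ≤ (S.biUnion fun x => Finset.univ.filter fun y => d x y ≤ r).card :=
        Finset.card_le_card h1
    _ ≤ ∑ x ∈ S, (Finset.univ.filter fun y => d x y ≤ r).card := Finset.card_biUnion_le
    _ ≤ ∑ _x ∈ S, V := Finset.sum_le_sum hV
    _ = _ := by simp

end Pool.Agent.ANM
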