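import Pool.Agent.ANM.Local

/-! # ANM Refr: exponential decay of the effect of a re-freezing.

`G1 = rsc H0 b1` is a frozen medium (self-energies `κ_x gt_x` with given numbers `gt_x`), `G2 = rsc H0 b2` is
self-consistent: `b2_x - b1_x = -κ_x (G2_xx - gt_x)` on `A`, `b2 = b1` off `A`.  The source is `s_x = G1_xx - gt_x`.

* `Refr.l2`: `(1 - l - ε)² ∑_A κ e^{2 t w} |G2_xx - gt_x|² ≤ ∑_A κ e^{2 t w} |s_x|²`.
* `Refr.diag`: `|G2_xx - gt_x|² ≤ K³ e^{-2 t w_x} S`, `S` a bound of the right side of `l2`.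
* `Refr.row`, `Refr.ent`: the same decay for the rows and the entries of `G1 - G2`.
-/

open Matrix Finset

noncomputable section

namespace Pool.Agent.ANM

open Pool.Agent.Kin Pool.Agent.APS

variable {ι : Type} [Fintype ι] [DecidableEq ι] {H0 : Matrix ι ι ℂ} {b1 b2 : ι → ℂ} {w : ι → ℝ}

/-- a frozen medium `b1` and its re-freezing `b2` -/
structure Refr (H0 : Matrix ι ι ℂ) (b1 b2 gt : ι → ℂ) (w κ ρ : ι → ℝ) (A : Finset ι)
    (K C1 c1 t l ε : ℝ) : Prop where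
  hH : RealSym H0
  hb : ∀ x, (b1 x).im < 0
  hb' : ∀ x, (b2 x).im < 0
  hw : AdmW H0 b1 w
  hκ : ∀ x ∈ A, 1 / K ≤ κ x
  /-- the frozen medium; `ρ_x` is for example `Im gt_x` -/
  hk : ∀ x ∈ A, κ x * ρ x ≤ -(b1 x).im
  /-- the self-consistent medium -/
  hk' : ∀ x ∈ A, κ x * (rsc H0 b2 x x).im ≤ -(b2 x).im
  hdif : ∀ x ∈ A, b2 x - b1 x = -((κ x : ℂ) * (rsc H0 b2 x x - gt x))
  hout : ∀ z, z ∉ A → b2 z = b1 z
  /-- (H3) for the frozen medium -/
  h3 : ∀ x ∈ A, ∑ y ∈ A, κ y * (ρ y * (rsc H0 b1 x y).re ^ 2) ≤ l ^ 2 * ρ x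
  hC1 : ∀ x ∈ A, ‖rsc H0 b1 x x‖ ≤ C1
  hc1 : ∀ x ∈ A, c1 ≤ ρ x
  hc1' : ∀ x ∈ A, c1 ≤ (rsc H0 b2 x x).im
  ht : 0 ≤ t
  ht1 : t ≤ 1
  hl : 0 ≤ l
  hε : 0 ≤ ε
  htε : 4 * t ^ 2 * C1 ≤ ε ^ 2 * c1
  hK : 1 ≤ K
  hKl : 1 / K ≤ 1 - l - ε
  hKc : 1 / K ≤ c1

variable {gt : ι → ℂ} {κ ρ : ι → ℝ} {A : Finset ι} {K C1 c1 t l ε : ℝ}

/-- weighted `l²` bound -/
theorem Refr.l2 (h : Refr H0 b1 b2 gt w κ ρ A K C1 c1 t l ε) :
    (1 - l - ε) ^ 2 * ∑ x ∈ A, κ x * (Real.exp (2 * (t * w x)) *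
        ‖rsc H0 b2 x x - gt x‖ ^ 2) ≤
      ∑ x ∈ A, κ x * (Real.exp (2 * (t * w x)) * ‖rsc H0 b1 x x - gt x‖ ^ 2) := by
  have hK0 : 0 < K := by linarith [h.hK]
  have hiK : 0 < 1 / K := by positivity
  have hH := h.hH
  have hb := h.hb
  have hb' := h.hb'
  set G := rsc H0 b1 with hG
  set G' := rsc H0 b2 with hG'
  refine accr hH hb hb' A (κ := κ) (ρ := ρ) (ρ' := fun x => (G' x x).im)
    (φ := fun x => t * w x) (fun x hx => hiK.trans_le (h.hκ x hx))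
    (fun x hx => (hiK.trans_le h.hKc).trans_le (h.hc1 x hx)) (fun x _ => rsc_im hH hb' x)
    h.hl h.hε (by linarith [h.hKl]) h.h3 ?_ ?_
    (δ := fun x => G' x x - gt x) (f := fun x => G x x - gt x) ?_
  · intro x hx
    have h1 := rsc_ward hH hb' x
    rw [← hG'] at h1
    change _ ≤ (G' x x).im
    rw [h1]
    refine le_trans ?_ (Finset.sum_le_sum_of_subset_of_nonneg (Finset.subset_univ A)
      fun z _ _ => mul_nonneg (sq_nonneg _) (by have := hb' z; linarith))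
    refine Finset.sum_le_sum fun y hy => ?_
    have h2 := mul_le_mul_of_nonneg_right (h.hk' y hy) (sq_nonneg ‖G' x y‖)
    calc κ y * ((G' y y).im * ‖G' x y‖ ^ 2) = κ y * (G' y y).im * ‖G' x y‖ ^ 2 := by ring
      _ ≤ _ := by rw [mul_comm (‖G' x y‖ ^ 2)]; exact h2
  · intro x hx
    have h1 := agmon_two hH hb h.hw x
    have h2 : ∑ y ∈ A, κ y * (ρ y * (‖G x y‖ * (Real.exp |t * w x - t * w y| - 1)) ^ 2) ≤
        t ^ 2 * ∑ y, -(b1 y).im * (Real.exp (2 * |w x - w y|) * ‖G x y‖ ^ 2) := by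
      rw [Finset.mul_sum]
      refine le_trans ?_ (Finset.sum_le_sum_of_subset_of_nonneg (Finset.subset_univ A)
        fun z _ _ => mul_nonneg (sq_nonneg _) (mul_nonneg (by have := hb z; linarith)
          (by positivity)))
      refine Finset.sum_le_sum fun y hy => ?_
      have e1 : |t * w x - t * w y| = t * |w x - w y| := by
        rw [← mul_sub, abs_mul, abs_of_nonneg h.ht]
      have e2 : 0 ≤ Real.exp (t * |w x - w y|) - 1 := by
        have := Real.one_le_exp (mul_nonneg h.ht (abs_nonneg (w x - w y)))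
        linarith
      have e3 : (Real.exp (t * |w x - w y|) - 1) ^ 2 ≤ t ^ 2 * Real.exp (2 * |w x - w y|) := by
        have := pow_le_pow_left₀ e2 (exp_mul_sub_one_le (s := |w x - w y|) h.ht h.ht1) 2
        refine this.trans (le_of_eq ?_)
        rw [mul_pow, sq (Real.exp _), ← Real.exp_add]
        congr 2
        ring
      rw [e1, mul_pow]
      calc κ y * (ρ y * (‖G x y‖ ^ 2 * (Real.exp (t * |w x - w y|) - 1) ^ 2))
          = (κ y * ρ y) * (‖G x y‖ ^ 2 * (Real.exp (t * |w x - w y|) - 1) ^ 2) := by ring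
        _ ≤ -(b1 y).im * (‖G x y‖ ^ 2 * (Real.exp (t * |w x - w y|) - 1) ^ 2) :=
            mul_le_mul_of_nonneg_right (h.hk y hy) (by positivity)
        _ ≤ -(b1 y).im * (‖G x y‖ ^ 2 * (t ^ 2 * Real.exp (2 * |w x - w y|))) := by
            refine mul_le_mul_of_nonneg_left ?_ (by have := hb y; linarith)
            exact mul_le_mul_of_nonneg_left e3 (sq_nonneg _)
        _ = _ := by ring
    refine h2.trans ?_
    calc t ^ 2 * ∑ y, -(b1 y).im * (Real.exp (2 * |w x - w y|) * ‖G x y‖ ^ 2)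
        ≤ t ^ 2 * (4 * ‖G x x‖) := mul_le_mul_of_nonneg_left h1 (sq_nonneg _)
      _ ≤ t ^ 2 * (4 * C1) := by
          refine mul_le_mul_of_nonneg_left ?_ (sq_nonneg _)
          linarith [h.hC1 x hx]
      _ = 4 * t ^ 2 * C1 := by ring
      _ ≤ ε ^ 2 * c1 := h.htε
      _ ≤ _ := mul_le_mul_of_nonneg_left (h.hc1 x hx) (sq_nonneg _)
  · intro x hx
    have h1 := rsc_sub_ent hH hb' hb x x
    simp only [← hG, ← hG'] at h1
    have h2 : ∑ z, G' x z * (b1 z - b2 z) * G z x =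
        ∑ y ∈ A, G x y * G' x y * ((κ y : ℂ) * (G' y y - gt y)) := by
      rw [← Finset.sum_subset (Finset.subset_univ A)]
      · refine Finset.sum_congr rfl fun y hy => ?_
        have h3 := h.hdif y hy
        rw [show b1 y - b2 y = (κ y : ℂ) * (G' y y - gt y) by
          rw [← neg_sub (b2 y), h3, neg_neg], show G y x = G x y from rsc_symm hH b1 y x]
        ring
      · intro z _ hz
        rw [h.hout z hz, sub_self, mul_zero, zero_mul]
    rw [h2] at h1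
    change G' x x - gt x = _ + (G x x - gt x)
    rw [← h1]
    ring

/-- diagonal entries -/
theorem Refr.diag (h : Refr H0 b1 b2 gt w κ ρ A K C1 c1 t l ε) {S : ℝ}
    (hS : ∑ x ∈ A, κ x * (Real.exp (2 * (t * w x)) * ‖rsc H0 b1 x x - gt x‖ ^ 2) ≤ S)
    {x : ι} (hx : x ∈ A) :
    ‖rsc H0 b2 x x - gt x‖ ^ 2 ≤ K ^ 3 * S * Real.exp (-(2 * (t * w x))) := by
  have hK0 : 0 < K := by linarith [h.hK]
  have hiK : 0 < 1 / K := by positivity
  have h1 := h.l2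
  have h2 : κ x * (Real.exp (2 * (t * w x)) * ‖rsc H0 b2 x x - gt x‖ ^ 2) ≤
      ∑ x ∈ A, κ x * (Real.exp (2 * (t * w x)) * ‖rsc H0 b2 x x - gt x‖ ^ 2) :=
    Finset.single_le_sum (f := fun z => κ z * (Real.exp (2 * (t * w z)) *
      ‖rsc H0 b2 z z - gt z‖ ^ 2)) (fun z hz => mul_nonneg (hiK.le.trans (h.hκ z hz))
      (by positivity)) hx
  set δ := ‖rsc H0 b2 x x - gt x‖ ^ 2 with hδ
  have hδ0 : 0 ≤ δ := by positivity
  have b1' : (1 / K) ^ 2 ≤ (1 - l - ε) ^ 2 := pow_le_pow_left₀ hiK.le h.hKl 2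
  have b2' : (1 / K) ^ 2 * (1 / K * (Real.exp (2 * (t * w x)) * δ)) ≤ S := by
    calc (1 / K) ^ 2 * (1 / K * (Real.exp (2 * (t * w x)) * δ))
        ≤ (1 - l - ε) ^ 2 * (κ x * (Real.exp (2 * (t * w x)) * δ)) := by
          refine mul_le_mul b1' ?_ (by positivity) (sq_nonneg _)
          exact mul_le_mul_of_nonneg_right (h.hκ x hx) (by positivity)
      _ ≤ _ := mul_le_mul_of_nonneg_left h2 (sq_nonneg _)
      _ ≤ _ := h1
      _ ≤ S := hS
  have e2 : Real.exp (-(2 * (t * w x))) * Real.exp (2 * (t * w x)) = 1 := by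
    rw [← Real.exp_add]; simp
  calc δ = K ^ 3 * Real.exp (-(2 * (t * w x))) *
        ((1 / K) ^ 2 * (1 / K * (Real.exp (2 * (t * w x)) * δ))) := by
        have : K ^ 3 * Real.exp (-(2 * (t * w x))) *
            ((1 / K) ^ 2 * (1 / K * (Real.exp (2 * (t * w x)) * δ))) =
            (K ^ 3 * (1 / K) ^ 2 * (1 / K)) *
              (Real.exp (-(2 * (t * w x))) * Real.exp (2 * (t * w x))) * δ := by ring
        rw [this, e2]
        have : K ^ 3 * (1 / K) ^ 2 * (1 / K) = 1 := by field_simp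
        rw [this]
        ring
    _ ≤ K ^ 3 * Real.exp (-(2 * (t * w x))) * S := mul_le_mul_of_nonneg_left b2' (by positivity)
    _ = _ := by ring

/-- relative difference of the diagonal data -/
theorem Refr.rel (h : Refr H0 b1 b2 gt w κ ρ A K C1 c1 t l ε) {S : ℝ}
    (hS : ∑ x ∈ A, κ x * (Real.exp (2 * (t * w x)) * ‖rsc H0 b1 x x - gt x‖ ^ 2) ≤ S ^ 2)
    (z : ι) : ‖b2 z - b1 z‖ ^ 2 ≤
      (K ^ 3 * S) ^ 2 * Real.exp (2 * t * (-w z - 0)) * (-(b1 z).im * -(b2 z).im) := by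
  have hK0 : 0 < K := by linarith [h.hK]
  have hiK : 0 < 1 / K := by positivity
  have hn : 0 < -(b1 z).im := by have := h.hb z; linarith
  have hn' : 0 < -(b2 z).im := by have := h.hb' z; linarith
  by_cases hz : z ∈ A
  · have h1 := h.diag hS hz
    have hκz : 0 < κ z := hiK.trans_le (h.hκ z hz)
    rw [h.hdif z hz, norm_neg, norm_mul, mul_pow, Complex.norm_real, Real.norm_eq_abs, sq_abs]
    have h2 : κ z * (1 / K) ≤ -(b1 z).im :=
      (mul_le_mul_of_nonneg_left (h.hKc.trans (h.hc1 z hz)) hκz.le).trans (h.hk z hz)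
    have h3 : κ z * (1 / K) ≤ -(b2 z).im :=
      (mul_le_mul_of_nonneg_left (h.hKc.trans (h.hc1' z hz)) hκz.le).trans (h.hk' z hz)
    have h4 : κ z ^ 2 ≤ K ^ 2 * (-(b1 z).im * -(b2 z).im) := by
      calc κ z ^ 2 = K ^ 2 * ((κ z * (1 / K)) * (κ z * (1 / K))) := by field_simp
        _ ≤ _ := by
          refine mul_le_mul_of_nonneg_left ?_ (sq_nonneg _)
          exact mul_le_mul h2 h3 (by positivity) hn.le
    have e1 : Real.exp (2 * t * (-w z - 0)) = Real.exp (-(2 * (t * w z))) := by congr 1; ring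
    calc κ z ^ 2 * ‖rsc H0 b2 z z - gt z‖ ^ 2
        ≤ (K ^ 2 * (-(b1 z).im * -(b2 z).im)) * (K ^ 3 * S ^ 2 * Real.exp (-(2 * (t * w z)))) :=
          mul_le_mul h4 h1 (sq_nonneg _) (by positivity)
      _ = (K ^ 5 * S ^ 2) * Real.exp (-(2 * (t * w z))) * (-(b1 z).im * -(b2 z).im) := by ring
      _ ≤ _ := by
          rw [e1]
          refine mul_le_mul_of_nonneg_right ?_ (by positivity)
          refine mul_le_mul_of_nonneg_right ?_ (Real.exp_pos _).le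
          rw [mul_pow, ← pow_mul]
          refine mul_le_mul_of_nonneg_right ?_ (sq_nonneg _)
          exact pow_le_pow_right₀ h.hK (by norm_num)
  · rw [h.hout z hz, sub_self, norm_zero]
    rw [h.hout z hz] at hn'
    have e2 : (0 : ℝ) ^ 2 = 0 := by norm_num
    rw [e2]
    exact mul_nonneg (mul_nonneg (sq_nonneg _) (Real.exp_pos _).le) (mul_nonneg hn.le hn.le)

/-- rows -/
theorem Refr.row (h : Refr H0 b1 b2 gt w κ ρ A K C1 c1 t l ε) {S : ℝ}
    (hS : ∑ x ∈ A, κ x * (Real.exp (2 * (t * w x)) * ‖rsc H0 b1 x x - gt x‖ ^ 2) ≤ S ^ 2)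
    (x : ι) :
    ∑ y, -(b2 y).im * ‖rsc H0 b1 x y - rsc H0 b2 x y‖ ^ 2 ≤
      2 * (K ^ 3 * S) ^ 2 * ‖rsc H0 b1 x x‖ * Real.exp (-(2 * (t * w x))) := by
  refine (rel_row h.hH h.hb h.hb' h.hw.neg h.ht h.ht1 (h.rel hS) x).trans (le_of_eq ?_)
  congr 2
  ring

/-- entries -/
theorem Refr.ent (h : Refr H0 b1 b2 gt w κ ρ A K C1 c1 t l ε) {S : ℝ}
    (hS : ∑ x ∈ A, κ x * (Real.exp (2 * (t * w x)) * ‖rsc H0 b1 x x - gt x‖ ^ 2) ≤ S ^ 2)
    (x y : ι) :
    ‖rsc H0 b1 x y - rsc H0 b2 x y‖ ^ 2 ≤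
      2 * (K ^ 3 * S) ^ 2 * ‖rsc H0 b1 x x‖ * Real.exp (-(2 * (t * w x))) *
        (rsc H0 b2 y y).im := by
  refine (rel_ent h.hH h.hb h.hb' h.hw.neg h.ht h.ht1 (h.rel hS) x y).trans (le_of_eq ?_)
  congr 3
  ring

end Pool.Agent.ANM
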