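import Pool.Agent.ANM.SupBw

/-! # ANM SBnum: choice of the parameters of the weighted sup norm bound.

`K` = a large number (`K ≥ 1/κ`).  `16 l al ≤ 1`, `16 al ≤ ε²` (`al = 0` if `m = ι`), `ε` = constant of (H3),
`l` with `(8/ε)(3 d + 3) log K ≤ l ≤ K`, `th = c1/(16 C0 l)`, `E = 4 C0/c1 + 1`, `r = 2 l log E + log 8`,
`A = K^(3 d + 1)`: all numerical conditions of `SBw` hold if the volume of the balls `{w ≤ r}` is at most
`(4 r M + 2 c + 1)^d`, `M ≤ K^2`, `c ≤ K`, and `K` is large: `SBN.sbw`.  Existence of `l`: `SBN.exists_l`.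
-/

open Matrix Finset

noncomputable section

namespace Pool.Agent.ANM

open Pool.Agent.Kin Pool.Agent.APS Pool.Agent.GSC

/-- the exponential factor -/
lemma q_pow_le {ε : ℝ} (h1 : ε ≤ 8) (l : ℕ) :
    (1 - ε / 8) ^ l ≤ Real.exp (-(ε / 8 * l)) := by
  have h2 : 1 - ε / 8 ≤ Real.exp (-(ε / 8)) := by
    have := Real.add_one_le_exp (-(ε / 8))
    linarith
  calc (1 - ε / 8) ^ l ≤ Real.exp (-(ε / 8)) ^ l := pow_le_pow_left₀ (by linarith) h2 l
    _ = Real.exp (-(ε / 8 * l)) := by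
        rw [← Real.exp_nat_mul]
        congr 1
        ring

/-- the numerical conditions -/
structure SBN (d : ℕ) (ε c1 C1 C0 C2 K Mv c : ℝ) (l : ℕ) : Prop where
  e0 : 0 < ε
  e1 : ε ≤ 1
  c10 : 0 < c1
  c1C : c1 ≤ C0
  C10 : 0 ≤ C1
  C20 : 0 ≤ C2
  K16 : 16 ≤ K
  KC : 8 * √(4 * C2 * C0 / c1) * C1 ≤ c1 * K
  KE : Real.log (4 * C0 / c1 + 1) ≤ K
  M0 : 0 ≤ Mv
  MK : Mv ≤ K ^ 2
  c0 : 0 ≤ c
  cK : c ≤ K
  l1 : 8 / ε * ((3 * d + 3) * Real.log K) ≤ l
  l2 : (l : ℝ) ≤ K

namespace SBN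

variable {d : ℕ} {ε c1 C1 C0 C2 K Mv c : ℝ} {l : ℕ} (h : SBN d ε c1 C1 C0 C2 K Mv c l)
include h

theorem logK : 2 ≤ Real.log K := by
  have h1 : Real.log (16 : ℝ) ≤ Real.log K := Real.log_le_log (by norm_num) h.K16
  have h2 : Real.log (16 : ℝ) = 4 * Real.log 2 := by
    rw [show (16 : ℝ) = 2 ^ 4 by norm_num, Real.log_pow]
    norm_num
  have h3 := Real.log_two_gt_d9
  linarith

theorem l48 : 48 / ε ≤ l := by
  have h1 := h.logK
  refine le_trans ?_ h.l1
  have h2 : (6 : ℝ) ≤ (3 * d + 3) * Real.log K := by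
    have : (0 : ℝ) ≤ 3 * d * Real.log K := by positivity
    nlinarith
  calc 48 / ε = 8 / ε * 6 := by ring
    _ ≤ _ := mul_le_mul_of_nonneg_left h2 (div_nonneg (by norm_num) h.e0.le)

theorem l48' : 48 ≤ (l : ℝ) := by
  refine le_trans ?_ h.l48
  rw [le_div_iff₀ h.e0]
  nlinarith [h.e1]

theorem rbd : 2 * l * Real.log (4 * C0 / c1 + 1) + Real.log 8 ≤ 3 * K ^ 2 := by
  have h1 := h.KE
  have h2 := h.l2
  have h3 := h.K16
  have hl := h.l48'
  have hE : 0 ≤ Real.log (4 * C0 / c1 + 1) := by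
    apply Real.log_nonneg
    have : 0 ≤ 4 * C0 / c1 := div_nonneg (by linarith [h.c10, h.c1C]) h.c10.le
    linarith
  have h4 : Real.log (8 : ℝ) ≤ 3 := by
    rw [show (8 : ℝ) = 2 ^ 3 by norm_num, Real.log_pow]
    have := Real.log_two_lt_d9
    norm_num
    linarith
  have h5 : (l : ℝ) * Real.log (4 * C0 / c1 + 1) ≤ K * K :=
    mul_le_mul h2 h1 hE (by linarith)
  nlinarith

/-- final choice: all hypotheses of `SBw` -/
theorem sbw {ι : Type} [Fintype ι] [DecidableEq ι] {H0 : Matrix ι ι ℂ} {b : ι → ℂ}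
    {kap m : ι → ℝ} {w : ι → ι → ℝ} {al : ℝ} (al0 : 0 ≤ al) (al1 : 16 * l * al ≤ 1)
    (al2 : 16 * al ≤ ε ^ 2) (sym : RealSym H0) (neg : ∀ x, (b x).im < 0)
    (kap0 : ∀ x, 0 ≤ kap x) (kap1 : ∀ x, kap x ≤ 1) (mlo : ∀ x, c1 ≤ m x) (mup : ∀ x, m x ≤ C1)
    (abs : ∀ x, kap x * m x ≤ -(b x).im) (imd : ∀ x, (rsc H0 b x x).im ≤ (1 + al) * m x)
    (dia : ∀ x, ‖rsc H0 b x x‖ ≤ C0) (ent : ∀ x y, ‖rsc H0 b x y‖ ^ 2 ≤ C2)
    (H3 : ∀ x, ∑ y, kap y * m y * (rsc H0 b x y).re ^ 2 ≤ (1 - ε) * m x)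
    (adm : ∀ x0, AdmW H0 b (w x0)) (ww : ∀ x, w x x = 0)
    (vol : ∀ x (r : ℝ), 0 ≤ r → ((univ.filter (fun y => w x y ≤ r)).card : ℝ) ≤
      (2 * (2 * (r * Mv) + c) + 1) ^ d) :
    SBw H0 b kap m w al ε c1 C1 C0 C2 (1 - ε / 4) (1 - ε / 8) (4 * C0 / c1 + 1) (K ^ (3 * d + 1))
      (2 * l * Real.log (4 * C0 / c1 + 1) + Real.log 8) (c1 / (16 * C0 * l)) l := by
  have hc1 := h.c10
  have hC0 : 0 < C0 := h.c10.trans_le h.c1C
  have he0 := h.e0
  have he1 := h.e1
  have hl := h.l48'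
  have hl0 : (0 : ℝ) < l := by linarith
  have hK := h.K16
  have hK0 : 0 < K := by linarith
  have hE0 : 0 < 4 * C0 / c1 := by positivity
  have hE : 0 ≤ Real.log (4 * C0 / c1 + 1) := Real.log_nonneg (by linarith)
  have hlog8 : 0 ≤ Real.log (8 : ℝ) := Real.log_nonneg (by norm_num)
  exact {
    sym := sym
    neg := neg
    kap0 := kap0
    c10 := hc1
    mlo := mlo
    mup := mup
    abs := abs
    imd := imd
    C00 := hC0.le
    dia := dia
    ent := ent
    H3 := H3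
    adm := adm
    ww := ww
    A0 := by positivity
    vol := by
      intro x
      have h1 : ∑ y ∈ univ.filter (fun y => w x y ≤
          2 * l * Real.log (4 * C0 / c1 + 1) + Real.log 8), kap y ≤
          ((univ.filter (fun y => w x y ≤
            2 * l * Real.log (4 * C0 / c1 + 1) + Real.log 8)).card : ℝ) := by
        calc _ ≤ ∑ y ∈ univ.filter (fun y => w x y ≤
              2 * l * Real.log (4 * C0 / c1 + 1) + Real.log 8), (1 : ℝ) :=
              Finset.sum_le_sum fun y _ => kap1 y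
          _ = _ := by rw [Finset.sum_const, nsmul_eq_mul, mul_one]
      have h2 := vol x (2 * l * Real.log (4 * C0 / c1 + 1) + Real.log 8) (by positivity)
      refine h1.trans (h2.trans ?_)
      have h3 := h.rbd
      have h4 := h.MK
      have h5 := h.cK
      have h6 := h.M0
      have h7 := h.c0
      have h8 : (2 * l * Real.log (4 * C0 / c1 + 1) + Real.log 8) * Mv ≤ 3 * K ^ 2 * K ^ 2 :=
        mul_le_mul h3 h4 h6 (by positivity)
      have h9 : 2 * (2 * ((2 * l * Real.log (4 * C0 / c1 + 1) + Real.log 8) * Mv) + c) + 1 ≤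
          K ^ 6 := by
        have e1 : (256 : ℝ) ≤ K ^ 2 := by nlinarith
        have e2 : 256 * K ^ 4 ≤ K ^ 6 := by
          calc 256 * K ^ 4 ≤ K ^ 2 * K ^ 4 := mul_le_mul_of_nonneg_right e1 (by positivity)
            _ = K ^ 6 := by ring
        have e3 : K ≤ K ^ 4 := by
          calc K = K ^ 1 := (pow_one K).symm
            _ ≤ K ^ 4 := pow_le_pow_right₀ (by linarith) (by norm_num)
        have e4 : 1 ≤ K ^ 4 := one_le_pow₀ (by linarith)
        nlinarith
      calc (2 * (2 * ((2 * l * Real.log (4 * C0 / c1 + 1) + Real.log 8) * Mv) + c) + 1) ^ d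
          ≤ (K ^ 6) ^ d := pow_le_pow_left₀ (by positivity) h9 d
        _ = K ^ (6 * d) := by rw [← pow_mul]
        _ ≤ K ^ ((3 * d + 1) * 2) := pow_le_pow_right₀ (by linarith) (by omega)
        _ = (K ^ (3 * d + 1)) ^ 2 := by rw [← pow_mul]
    al0 := al0
    th0 := by positivity
    th1 := by
      rw [div_le_one (by positivity)]
      have := h.c1C
      nlinarith
    al1 := by
      have e1 : al + 4 * (c1 / (16 * C0 * l)) * C0 / c1 ≤ 5 / (16 * l) := by
        have e3 : 4 * (c1 / (16 * C0 * l)) * C0 / c1 = 4 / (16 * l) := by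
          field_simp
        have e4 : al ≤ 1 / (16 * l) := by
          rw [le_div_iff₀ (by positivity)]
          linarith
        rw [e3]
        calc al + 4 / (16 * (l : ℝ)) ≤ 1 / (16 * l) + 4 / (16 * l) := by linarith
          _ = 5 / (16 * l) := by ring
      have e2 : 1 + (al + 4 * (c1 / (16 * C0 * l)) * C0 / c1) ≤ Real.exp (5 / (16 * l)) := by
        have := Real.add_one_le_exp (5 / (16 * (l : ℝ)))
        linarith
      calc (1 + (al + 4 * (c1 / (16 * C0 * l)) * C0 / c1)) ^ (2 * l) ≤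
            Real.exp (5 / (16 * l)) ^ (2 * l) :=
            pow_le_pow_left₀ (by positivity) e2 _
        _ = Real.exp (5 / 8) := by
            rw [← Real.exp_nat_mul]
            congr 1
            push_cast
            field_simp
            norm_num
        _ ≤ 2 := by
            have e3 : Real.exp (5 / 8) ≤ Real.exp (Real.log 2) := by
              apply Real.exp_le_exp.2
              have := Real.log_two_gt_d9
              linarith
            rwa [Real.exp_log (by norm_num)] at e3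
    l4 := by
      have : (4 : ℝ) ≤ (l : ℝ) := by linarith
      exact_mod_cast this
    q00 := by linarith
    qq := by
      have e1 : al ≤ 1 := by nlinarith
      have e2 : al ^ 2 ≤ al := by nlinarith
      nlinarith
    qw := by
      have e1 : 2 * (c1 / (16 * C0 * l)) * C0 / c1 = 1 / (8 * l) := by
        field_simp
        ring
      rw [e1]
      have e2 : 1 / (8 * (l : ℝ)) ≤ ε / 8 := by
        rw [div_le_div_iff₀ (by positivity) (by norm_num)]
        have e3 := h.l48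
        rw [div_le_iff₀ he0] at e3
        nlinarith
      linarith
    q1 := by linarith
    E1 := by linarith
    E2 := by
      rw [add_mul, div_mul_cancel₀ _ hc1.ne']
      linarith
    n1 := by
      have e1 := q_pow_le (ε := ε) (by linarith) l
      have e2 : Real.exp (-(ε / 8 * l)) ≤ (K ^ (3 * d + 3))⁻¹ := by
        have e3 : ((3 * d + 3 : ℕ) : ℝ) * Real.log K ≤ ε / 8 * l := by
          have e4 := mul_le_mul_of_nonneg_left h.l1 (show 0 ≤ ε / 8 by linarith)
          have e5 : ε / 8 * (8 / ε * ((3 * d + 3) * Real.log K)) = (3 * d + 3) * Real.log K := by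
            field_simp
          rw [e5] at e4
          push_cast
          exact e4
        rw [Real.exp_neg]
        refine inv_anti₀ (by positivity) ?_
        calc K ^ (3 * d + 3) = Real.exp (((3 * d + 3 : ℕ) : ℝ) * Real.log K) := by
              rw [Real.exp_nat_mul, Real.exp_log hK0]
          _ ≤ _ := Real.exp_le_exp.2 e3
      have e3 := h.KC
      have e4 : 0 ≤ √(4 * C2 * C0 / c1) * C1 := mul_nonneg (Real.sqrt_nonneg _) h.C10
      have e5 : (1 - ε / 8) ^ l * K ^ (3 * d + 1) ≤ (K ^ 2)⁻¹ := by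
        calc (1 - ε / 8) ^ l * K ^ (3 * d + 1) ≤ (K ^ (3 * d + 3))⁻¹ * K ^ (3 * d + 1) :=
              mul_le_mul_of_nonneg_right (e1.trans e2) (by positivity)
          _ = (K ^ 2)⁻¹ := by
              rw [show 3 * d + 3 = (3 * d + 1) + 2 by ring, pow_add]
              field_simp
      calc √(4 * C2 * C0 / c1) * (1 - ε / 8) ^ l * C1 * K ^ (3 * d + 1)
          = (√(4 * C2 * C0 / c1) * C1) * ((1 - ε / 8) ^ l * K ^ (3 * d + 1)) := by ring
        _ ≤ (√(4 * C2 * C0 / c1) * C1) * (K ^ 2)⁻¹ := mul_le_mul_of_nonneg_left e5 e4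
        _ ≤ c1 * K / 8 * (K ^ 2)⁻¹ := by
            refine mul_le_mul_of_nonneg_right ?_ (by positivity)
            linarith
        _ = c1 / 8 * K⁻¹ := by
            field_simp
        _ ≤ c1 / 8 * 1 := by
            refine mul_le_mul_of_nonneg_left ?_ (by positivity)
            exact inv_le_one_of_one_le₀ (by linarith)
        _ = _ := mul_one _
    n2 := by
      have hE1 : 0 < 4 * C0 / c1 + 1 := by linarith
      have e1 : Real.exp (-(2 * l * Real.log (4 * C0 / c1 + 1) + Real.log 8)) *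
          (4 * C0 / c1 + 1) ^ (2 * l) = 1 / 8 := by
        have e2 : (4 * C0 / c1 + 1) ^ (2 * l) =
            Real.exp (2 * l * Real.log (4 * C0 / c1 + 1)) := by
          rw [show (2 * (l : ℝ)) = ((2 * l : ℕ) : ℝ) by push_cast; ring, Real.exp_nat_mul,
            Real.exp_log hE1]
        rw [e2, ← Real.exp_add]
        have e3 : -(2 * l * Real.log (4 * C0 / c1 + 1) + Real.log 8) +
            2 * l * Real.log (4 * C0 / c1 + 1) = -Real.log 8 := by ring
        rw [e3, Real.exp_neg, Real.exp_log (by norm_num)]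
        norm_num
      rw [e1] }

end SBN

/-- existence of `l` -/
theorem SBN.exists_l {d : ℕ} {ε c1 C1 C0 C2 K Mv c : ℝ} (e0 : 0 < ε) (e1 : ε ≤ 1) (c10 : 0 < c1)
    (c1C : c1 ≤ C0) (C10 : 0 ≤ C1) (C20 : 0 ≤ C2) (K16 : 16 ≤ K)
    (KC : 8 * √(4 * C2 * C0 / c1) * C1 ≤ c1 * K) (KE : Real.log (4 * C0 / c1 + 1) ≤ K)
    (M0 : 0 ≤ Mv) (MK : Mv ≤ K ^ 2) (c0 : 0 ≤ c) (cK : c ≤ K)
    (hl : 8 / ε * ((3 * d + 3) * Real.log K) + 1 ≤ K) :
    ∃ l : ℕ, SBN d ε c1 C1 C0 C2 K Mv c l ∧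
      (l : ℝ) ≤ 8 / ε * ((3 * d + 3) * Real.log K) + 1 := by
  have h0 : 0 ≤ 8 / ε * ((3 * d + 3) * Real.log K) := by
    have : 0 ≤ Real.log K := Real.log_nonneg (by linarith)
    positivity
  refine ⟨⌈8 / ε * ((3 * d + 3) * Real.log K)⌉₊, ?_, (Nat.ceil_lt_add_one h0).le⟩
  exact ⟨e0, e1, c10, c1C, C10, C20, K16, KC, KE, M0, MK, c0, cK, Nat.le_ceil _,
    (Nat.ceil_lt_add_one h0).le.trans hl⟩

end Pool.Agent.ANM
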