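import Pool.Agent.ANM.Agmon
import Pool.Agent.GSC.PSchur

/-! # ANM SupB: the sup norm bound of `(1 - R κ)⁻¹` for a resolvent.

`G = (H0 + diag b)⁻¹`, `κ_y m_y ≤ -Im b_y`, `Im G_xx ≤ (1+α) m_x`, `c1 ≤ m ≤ C1`, `|G_xx| ≤ C0`, `|G_xy|² ≤ C2`,
(H3) `∑_y κ_y m_y (Re G_xy)² ≤ (1-ε) m_x`, for every `x0` an admissible weight `w^(x0)` (`AdmW`),
`w^(x0)(x0) = 0`, `∑_{w^(x0)(y) ≤ r} κ_y ≤ A²`.  Then `SupB H0 κ b (4 l C1/c1)` if
`(1+α)^(2l) ≤ 2`, `4 ≤ l`, `1 - ε/2 + (2α+α²)/4 ≤ q²`, `√(C2 C0/c1) q^l C1 A ≤ c1/8`, `e^{-2r} E^{2l} ≤ 1/8`,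
`E ≥ 1, 4 C0/c1`.
-/

open Matrix Finset

noncomputable section

namespace Pool.Agent.ANM

open Pool.Agent.Kin Pool.Agent.APS Pool.Agent.GSC

variable {ι : Type} [Fintype ι] [DecidableEq ι] {H0 : Matrix ι ι ℂ} {b : ι → ℂ}

/-- hypotheses of the sup norm bound -/
structure SB (H0 : Matrix ι ι ℂ) (b : ι → ℂ) (kap m : ι → ℝ) (w : ι → ι → ℝ)
    (al ep c1 C1 C0 C2 q E A r : ℝ) (l : ℕ) : Prop where
  sym : RealSym H0
  neg : ∀ x, (b x).im < 0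
  kap0 : ∀ x, 0 ≤ kap x
  c10 : 0 < c1
  mlo : ∀ x, c1 ≤ m x
  mup : ∀ x, m x ≤ C1
  abs : ∀ x, kap x * m x ≤ -(b x).im
  imd : ∀ x, (rsc H0 b x x).im ≤ (1 + al) * m x
  dia : ∀ x, ‖rsc H0 b x x‖ ≤ C0
  ent : ∀ x y, ‖rsc H0 b x y‖ ^ 2 ≤ C2
  H3 : ∀ x, ∑ y, kap y * m y * (rsc H0 b x y).re ^ 2 ≤ (1 - ep) * m x
  adm : ∀ x0, AdmW H0 b (w x0)
  ww : ∀ x, w x x = 0
  A0 : 0 ≤ A
  vol : ∀ x, ∑ y ∈ univ.filter (fun y => w x y ≤ r), kap y ≤ A ^ 2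
  al0 : 0 ≤ al
  al1 : (1 + al) ^ (2 * l) ≤ 2
  l4 : 4 ≤ l
  q0 : 0 ≤ q
  q1 : q ≤ 1
  qq : 1 - ep / 2 + (2 * al + al ^ 2) / 4 ≤ q ^ 2
  E1 : 1 ≤ E
  E2 : 4 * C0 ≤ E * c1
  n1 : √(C2 * C0 / c1) * q ^ l * C1 * A ≤ c1 / 8
  n2 : Real.exp (-(2 * r)) * E ^ (2 * l) ≤ 1 / 8

variable {kap m : ι → ℝ} {w : ι → ι → ℝ} {al ep c1 C1 C0 C2 q E A r : ℝ} {l : ℕ}

namespace SB

variable (h : SB H0 b kap m w al ep c1 C1 C0 C2 q E A r l)
include h

theorem C0n (x : ι) : 0 ≤ C0 := (norm_nonneg _).trans (h.dia x)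

theorem row (x : ι) : ∑ y, kap y * m y * ‖rsc H0 b x y‖ ^ 2 ≤ (rsc H0 b x x).im := by
  rw [rsc_ward h.sym h.neg]
  refine Finset.sum_le_sum fun y _ => ?_
  rw [mul_comm (‖rsc H0 b x y‖ ^ 2)]
  exact mul_le_mul_of_nonneg_right (h.abs y) (sq_nonneg _)

theorem toPA : PA (GSC.TT (rsc H0 b) kap) m kap w al c1 C1 q (√(C2 * C0 / c1)) 2 E A r l where
  al0 := h.al0
  al1 := h.al1
  c10 := h.c10
  mlo := h.mlo
  mup := h.mup
  kap0 := h.kap0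
  row := by
    intro x
    refine le_trans (le_of_eq ?_) ((h.row x).trans (h.imd x))
    refine Finset.sum_congr rfl fun y _ => ?_
    unfold GSC.TT
    rw [norm_mul, norm_pow, Complex.norm_real, Real.norm_of_nonneg (h.kap0 y)]
    ring
  q0 := h.q0
  q1 := h.q1
  l2 := by
    intro u
    have hm : ∀ x, 0 < m x := fun x => h.c10.trans_le (h.mlo x)
    refine (BB_l2 (fun x y => rsc_symm h.sym b x y) h.kap0 hm h.al0
      (fun x => (h.row x).trans (h.imd x)) h.H3 (im_psd h.sym h.neg) u).trans ?_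
    refine mul_le_mul_of_nonneg_right h.qq ?_
    exact Finset.sum_nonneg fun x _ => mul_nonneg (h.kap0 x) (sq_nonneg _)
  Cp0 := Real.sqrt_nonneg _
  pt := by
    intro u x
    have hc1 := h.c10
    have hC0 := h.C0n x
    have hC2 : 0 ≤ C2 := (sq_nonneg _).trans (h.ent x x)
    rw [Real.sq_sqrt (by positivity)]
    have e1 : ‖(GSC.TT (rsc H0 b) kap *ᵥ u) x‖ ≤
        ∑ y, (√(kap y) * ‖rsc H0 b x y‖ ^ 2) * (√(kap y) * ‖u y‖) := by
      refine (norm_sum_le _ _).trans (Finset.sum_le_sum fun y _ => ?_)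
      unfold GSC.TT
      rw [norm_mul, norm_mul, norm_pow, Complex.norm_real, Real.norm_of_nonneg (h.kap0 y)]
      have e2 := Real.mul_self_sqrt (h.kap0 y)
      calc ‖rsc H0 b x y‖ ^ 2 * kap y * ‖u y‖ =
          ‖rsc H0 b x y‖ ^ 2 * (√(kap y) * √(kap y)) * ‖u y‖ := by rw [e2]
        _ ≤ _ := le_of_eq (by ring)
    have e3 : (∑ y, (√(kap y) * ‖rsc H0 b x y‖ ^ 2) * (√(kap y) * ‖u y‖)) ^ 2 ≤
        (∑ y, (√(kap y) * ‖rsc H0 b x y‖ ^ 2) ^ 2) * ∑ y, (√(kap y) * ‖u y‖) ^ 2 :=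
      Finset.sum_mul_sq_le_sq_mul_sq _ _ _
    have e4 : ∑ y, (√(kap y) * ‖rsc H0 b x y‖ ^ 2) ^ 2 ≤ C2 * C0 / c1 := by
      have e5 : ∑ y, (√(kap y) * ‖rsc H0 b x y‖ ^ 2) ^ 2 ≤
          ∑ y, C2 / c1 * (kap y * m y * ‖rsc H0 b x y‖ ^ 2) := by
        refine Finset.sum_le_sum fun y _ => ?_
        rw [mul_pow, Real.sq_sqrt (h.kap0 y)]
        have e6 := h.ent x y
        have e7 := h.mlo y
        have e8 := h.kap0 y
        have e9 : 1 ≤ m y / c1 := (one_le_div hc1).2 e7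
        calc kap y * (‖rsc H0 b x y‖ ^ 2) ^ 2
            = kap y * ‖rsc H0 b x y‖ ^ 2 * ‖rsc H0 b x y‖ ^ 2 := by ring
          _ ≤ kap y * ‖rsc H0 b x y‖ ^ 2 * C2 :=
              mul_le_mul_of_nonneg_left e6 (by positivity)
          _ = kap y * ‖rsc H0 b x y‖ ^ 2 * C2 * 1 := by ring
          _ ≤ kap y * ‖rsc H0 b x y‖ ^ 2 * C2 * (m y / c1) :=
              mul_le_mul_of_nonneg_left e9 (by positivity)
          _ = _ := by ring
      refine e5.trans ?_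
      rw [← Finset.mul_sum]
      have e6 : ∑ y, kap y * m y * ‖rsc H0 b x y‖ ^ 2 ≤ C0 :=
        (h.row x).trans (((le_abs_self _).trans (Complex.abs_im_le_norm _)).trans (h.dia x))
      calc C2 / c1 * ∑ y, kap y * m y * ‖rsc H0 b x y‖ ^ 2 ≤ C2 / c1 * C0 :=
            mul_le_mul_of_nonneg_left e6 (by positivity)
        _ = _ := by ring
    have e10 : ∑ y, (√(kap y) * ‖u y‖) ^ 2 = ∑ y, kap y * ‖u y‖ ^ 2 := by
      refine Finset.sum_congr rfl fun y _ => ?_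
      rw [mul_pow, Real.sq_sqrt (h.kap0 y)]
    have e11 : 0 ≤ ∑ y, kap y * ‖u y‖ ^ 2 :=
      Finset.sum_nonneg fun x _ => mul_nonneg (h.kap0 x) (sq_nonneg _)
    calc ‖(GSC.TT (rsc H0 b) kap *ᵥ u) x‖ ^ 2
        ≤ (∑ y, (√(kap y) * ‖rsc H0 b x y‖ ^ 2) * (√(kap y) * ‖u y‖)) ^ 2 :=
          pow_le_pow_left₀ (norm_nonneg _) e1 2
      _ ≤ _ := e3
      _ ≤ _ := by
          rw [e10]
          exact mul_le_mul_of_nonneg_right e4 e11
  mu0 := by norm_num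
  E1 := h.E1
  ww := h.ww
  ex := by
    intro x0 x
    have e1 := agmon_two h.sym h.neg (h.adm x0) x
    have e2 : ∑ y, ‖GSC.TT (rsc H0 b) kap x y‖ * (m y * Real.exp (2 * (w x0 y - w x0 x))) ≤
        ∑ y, -(b y).im * (Real.exp (2 * |w x0 x - w x0 y|) * ‖rsc H0 b x y‖ ^ 2) := by
      refine Finset.sum_le_sum fun y _ => ?_
      unfold GSC.TT
      rw [norm_mul, norm_pow, Complex.norm_real, Real.norm_of_nonneg (h.kap0 y)]
      have e3 : Real.exp (2 * (w x0 y - w x0 x)) ≤ Real.exp (2 * |w x0 x - w x0 y|) := by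
        apply Real.exp_le_exp.2
        have := le_abs_self (w x0 y - w x0 x)
        rw [abs_sub_comm] at this
        linarith
      have hm : 0 ≤ m y := h.c10.le.trans (h.mlo y)
      have hk := h.kap0 y
      calc ‖rsc H0 b x y‖ ^ 2 * kap y * (m y * Real.exp (2 * (w x0 y - w x0 x)))
          = (kap y * m y) * Real.exp (2 * (w x0 y - w x0 x)) * ‖rsc H0 b x y‖ ^ 2 := by ring
        _ ≤ (kap y * m y) * Real.exp (2 * |w x0 x - w x0 y|) * ‖rsc H0 b x y‖ ^ 2 := by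
            gcongr
        _ ≤ -(b y).im * Real.exp (2 * |w x0 x - w x0 y|) * ‖rsc H0 b x y‖ ^ 2 := by
            have := h.abs y
            gcongr
        _ = _ := by ring
    refine e2.trans (e1.trans ?_)
    have e3 := h.dia x
    have e4 := h.E2
    have e5 := h.mlo x
    have e6 : E * c1 ≤ E * m x := mul_le_mul_of_nonneg_left e5 (by linarith [h.E1])
    linarith
  A0 := h.A0
  vol := h.vol
  l4 := h.l4
  n1 := h.n1
  n2 := h.n2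

/-- THE SUP NORM BOUND OF `(1 - R κ)⁻¹` -/
theorem supB : SupB H0 kap b (4 * l * C1 / c1) := by
  intro u v hv x
  refine h.toPA.main (fun x => ?_) x
  have e1 : (GSC.TT (rsc H0 b) kap *ᵥ u) x = ∑ y, rsc H0 b x y ^ 2 * ((kap y : ℂ) * u y) := by
    refine Finset.sum_congr rfl fun y _ => ?_
    unfold GSC.TT
    ring
  rw [e1]
  exact hv x

end SB

end Pool.Agent.ANM
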