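import Pool.Agent.ANM.SupB
import Pool.Agent.GSC.Obs

/-! # ANM SupBw: the WEIGHTED sup norm bound of `(1 - R κ)⁻¹`.

Same hypotheses as `SB` (ANM/SupB.lean), with a number `th ≥ 0`; conclusion, for EVERY admissible weight `f`
(`AdmW H0 b f`) and `om = exp(- th f)`:
`(∀ x, |u_x - ∑ R_xy κ_y u_y| ≤ v om_x) → (∀ x, |u_x| ≤ (4 l C1 / c1) v om_x)`.
(`th` of the order `1/l`, `l ~ log(1/κ)`.)  The case `f = 0` is the unweighted bound.

Proof: `T^φ_xy = e^{φ_x} R_xy κ_y e^{-φ_y}`, `φ = th f`, satisfies the hypotheses of `GSC.PA`: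
row sums `≤ (1 + al + 4 th C0/c1) m_x` by `e^{th t} ≤ 1 + th e^t`; `ℓ²` norm of `(T^φ - T)/2` by the Schur test
`≤ 2 th C0/c1`; exponential moments by `e^{2|Δw|}`, `e^{2|Δf|}` and the arithmetic mean.
-/

open Matrix Finset

noncomputable section

namespace Pool.Agent.ANM

open Pool.Agent.Kin Pool.Agent.APS Pool.Agent.GSC

variable {ι : Type} [Fintype ι] [DecidableEq ι] {H0 : Matrix ι ι ℂ} {b : ι → ℂ}

/-- hypotheses of the weighted sup norm bound -/
structure SBw (H0 : Matrix ι ι ℂ) (b : ι → ℂ) (kap m : ι → ℝ) (w : ι → ι → ℝ)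
    (al ep c1 C1 C0 C2 q0 q E A r th : ℝ) (l : ℕ) : Prop where
  sym : RealSym H0
  neg : ∀ x, (b x).im < 0
  kap0 : ∀ x, 0 ≤ kap x
  c10 : 0 < c1
  mlo : ∀ x, c1 ≤ m x
  mup : ∀ x, m x ≤ C1
  abs : ∀ x, kap x * m x ≤ -(b x).im
  imd : ∀ x, (rsc H0 b x x).im ≤ (1 + al) * m x
  C00 : 0 ≤ C0
  dia : ∀ x, ‖rsc H0 b x x‖ ≤ C0
  ent : ∀ x y, ‖rsc H0 b x y‖ ^ 2 ≤ C2
  H3 : ∀ x, ∑ y, kap y * m y * (rsc H0 b x y).re ^ 2 ≤ (1 - ep) * m x
  adm : ∀ x0, AdmW H0 b (w x0)
  ww : ∀ x, w x x = 0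
  A0 : 0 ≤ A
  vol : ∀ x, ∑ y ∈ univ.filter (fun y => w x y ≤ r), kap y ≤ A ^ 2
  al0 : 0 ≤ al
  th0 : 0 ≤ th
  th1 : th ≤ 1
  al1 : (1 + (al + 4 * th * C0 / c1)) ^ (2 * l) ≤ 2
  l4 : 4 ≤ l
  q00 : 0 ≤ q0
  qq : 1 - ep / 2 + (2 * al + al ^ 2) / 4 ≤ q0 ^ 2
  qw : q0 + 2 * th * C0 / c1 ≤ q
  q1 : q ≤ 1
  E1 : 1 ≤ E
  E2 : 4 * C0 ≤ E * c1
  n1 : √(4 * C2 * C0 / c1) * q ^ l * C1 * A ≤ c1 / 8
  n2 : Real.exp (-r) * E ^ (2 * l) ≤ 1 / 8

/-- convexity of the exponential: `e^{θ t} ≤ 1 + θ e^t` for `0 ≤ θ ≤ 1`, `t ≥ 0` -/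
lemma exp_th {θ t : ℝ} (h0 : 0 ≤ θ) (h1 : θ ≤ 1) : Real.exp (θ * t) ≤ 1 + θ * Real.exp t := by
  have h2 := convexOn_exp.2 (Set.mem_univ 0) (Set.mem_univ t) (by linarith : 0 ≤ 1 - θ) h0
    (by ring)
  simp only [smul_eq_mul, mul_zero, zero_add, Real.exp_zero, mul_one] at h2
  linarith

omit [DecidableEq ι] in
/-- Schur test -/
lemma schur {kap m : ι → ℝ} {K : ι → ι → ℝ} {β : ℝ} (hK : ∀ x y, K x y = K y x)
    (hK0 : ∀ x y, 0 ≤ K x y) (hk : ∀ x, 0 ≤ kap x) (hm : ∀ x, 0 < m x) (hβ : 0 ≤ β)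
    (ha : ∀ x, ∑ y, kap y * m y * K x y ≤ β * m x) (v : ι → ℝ) :
    ∑ x, kap x * (∑ y, K x y * kap y * v y) ^ 2 ≤ β ^ 2 * ∑ x, kap x * v x ^ 2 := by
  have h1 : ∀ x, (∑ y, K x y * kap y * v y) ^ 2 ≤
      β * m x * ∑ y, K x y * kap y * (v y ^ 2 / m y) := by
    intro x
    have e2 : (∑ y, K x y * kap y * v y) ^ 2 ≤
        (∑ y, kap y * m y * K x y) * ∑ y, K x y * kap y * (v y ^ 2 / m y) := by
      refine Finset.sum_sq_le_sum_mul_sum_of_sq_le_mul _ (fun y _ => ?_) (fun y _ => ?_)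
        (fun y _ => ?_)
      · exact mul_nonneg (mul_nonneg (hk y) (hm y).le) (hK0 _ _)
      · exact mul_nonneg (mul_nonneg (hK0 _ _) (hk y)) (div_nonneg (sq_nonneg _) (hm y).le)
      · have := (hm y).ne'
        apply le_of_eq
        field_simp
    have e3 : 0 ≤ ∑ y, K x y * kap y * (v y ^ 2 / m y) :=
      Finset.sum_nonneg fun y _ =>
        mul_nonneg (mul_nonneg (hK0 _ _) (hk y)) (div_nonneg (sq_nonneg _) (hm y).le)
    exact e2.trans (mul_le_mul_of_nonneg_right (ha x) e3)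
  calc ∑ x, kap x * (∑ y, K x y * kap y * v y) ^ 2
      ≤ ∑ x, kap x * (β * m x * ∑ y, K x y * kap y * (v y ^ 2 / m y)) :=
        Finset.sum_le_sum fun x _ => mul_le_mul_of_nonneg_left (h1 x) (hk x)
    _ = ∑ x, ∑ y, (kap x * m x * K y x) * (β * (kap y * (v y ^ 2 / m y))) := by
        refine Finset.sum_congr rfl fun x _ => ?_
        rw [Finset.mul_sum, Finset.mul_sum]
        refine Finset.sum_congr rfl fun y _ => ?_
        rw [hK y x]
        ring
    _ = ∑ y, (∑ x, kap x * m x * K y x) * (β * (kap y * (v y ^ 2 / m y))) := by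
        rw [Finset.sum_comm]
        refine Finset.sum_congr rfl fun y _ => ?_
        rw [Finset.sum_mul]
    _ ≤ ∑ y, β * m y * (β * (kap y * (v y ^ 2 / m y))) := by
        refine Finset.sum_le_sum fun y _ => mul_le_mul_of_nonneg_right (ha y) ?_
        exact mul_nonneg hβ (mul_nonneg (hk y) (div_nonneg (sq_nonneg _) (hm y).le))
    _ = _ := by
        rw [Finset.mul_sum]
        refine Finset.sum_congr rfl fun y _ => ?_
        have := (hm y).ne'
        field_simp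

/-- conjugated matrix -/
def TW (T : Matrix ι ι ℂ) (f : ι → ℝ) (th : ℝ) : Matrix ι ι ℂ :=
  fun x y => T x y * (Real.exp (th * (f x - f y)) : ℂ)

variable {kap m : ι → ℝ} {w : ι → ι → ℝ} {al ep c1 C1 C0 C2 q0 q E A r th : ℝ} {l : ℕ}

namespace SBw

variable (h : SBw H0 b kap m w al ep c1 C1 C0 C2 q0 q E A r th l)
include h

theorem m0 (x : ι) : 0 < m x := h.c10.trans_le (h.mlo x)

theorem row (x : ι) : ∑ y, kap y * m y * ‖rsc H0 b x y‖ ^ 2 ≤ (rsc H0 b x x).im := by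
  rw [rsc_ward h.sym h.neg]
  refine Finset.sum_le_sum fun y _ => ?_
  rw [mul_comm (‖rsc H0 b x y‖ ^ 2)]
  exact mul_le_mul_of_nonneg_right (h.abs y) (sq_nonneg _)

/-- exponential moments -/
theorem expm {f : ι → ℝ} (hf : AdmW H0 b f) (x : ι) :
    ∑ y, kap y * m y * ‖rsc H0 b x y‖ ^ 2 * Real.exp (2 * |f x - f y|) ≤ 4 * C0 := by
  have e1 := agmon_two h.sym h.neg hf x
  refine le_trans (Finset.sum_le_sum fun y _ => ?_) (e1.trans (by linarith [h.dia x]))
  calc kap y * m y * ‖rsc H0 b x y‖ ^ 2 * Real.exp (2 * |f x - f y|)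
      = (kap y * m y) * (Real.exp (2 * |f x - f y|) * ‖rsc H0 b x y‖ ^ 2) := by ring
    _ ≤ _ := mul_le_mul_of_nonneg_right (h.abs y) (by positivity)

theorem expm1 {f : ι → ℝ} (hf : AdmW H0 b f) (x : ι) :
    ∑ y, kap y * m y * ‖rsc H0 b x y‖ ^ 2 * Real.exp (|f x - f y|) ≤ 4 * C0 := by
  refine le_trans (Finset.sum_le_sum fun y _ => ?_) (h.expm hf x)
  have hk := h.kap0 y
  have hm := (h.m0 y).le
  refine mul_le_mul_of_nonneg_left (Real.exp_le_exp.2 ?_) (by positivity)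
  linarith [abs_nonneg (f x - f y)]

/-- the kernel of the difference, Schur bound -/
theorem dif_row {f : ι → ℝ} (hf : AdmW H0 b f) (x : ι) :
    ∑ y, kap y * m y * (‖rsc H0 b x y‖ ^ 2 * (th * Real.exp (|f x - f y|))) ≤
      (4 * th * C0 / c1) * m x := by
  have hc1 := h.c10
  have hth := h.th0
  have hC0 := h.C00
  have e1 := mul_le_mul_of_nonneg_left (h.expm1 hf x) hth
  rw [Finset.mul_sum] at e1
  have e2 : ∑ y, kap y * m y * (‖rsc H0 b x y‖ ^ 2 * (th * Real.exp (|f x - f y|))) =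
      ∑ y, th * (kap y * m y * ‖rsc H0 b x y‖ ^ 2 * Real.exp (|f x - f y|)) :=
    Finset.sum_congr rfl fun y _ => by ring
  rw [e2]
  refine e1.trans ?_
  rw [div_mul_eq_mul_div, le_div_iff₀ hc1]
  have e3 := h.mlo x
  calc th * (4 * C0) * c1 = 4 * th * C0 * c1 := by ring
    _ ≤ 4 * th * C0 * m x := mul_le_mul_of_nonneg_left e3 (by positivity)

theorem rowW {f : ι → ℝ} (hf : AdmW H0 b f) (x : ι) :
    ∑ y, kap y * m y * ‖rsc H0 b x y‖ ^ 2 * Real.exp (th * (f x - f y)) ≤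
      (1 + (al + 4 * th * C0 / c1)) * m x := by
  have e1 : ∑ y, kap y * m y * ‖rsc H0 b x y‖ ^ 2 * Real.exp (th * (f x - f y)) ≤
      ∑ y, (kap y * m y * ‖rsc H0 b x y‖ ^ 2 +
        kap y * m y * (‖rsc H0 b x y‖ ^ 2 * (th * Real.exp (|f x - f y|)))) := by
    refine Finset.sum_le_sum fun y _ => ?_
    have hk := h.kap0 y
    have hm := (h.m0 y).le
    have e2 : Real.exp (th * (f x - f y)) ≤ 1 + th * Real.exp (|f x - f y|) := by
      refine le_trans (Real.exp_le_exp.2 ?_) (exp_th h.th0 h.th1)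
      exact mul_le_mul_of_nonneg_left (le_abs_self _) h.th0
    calc kap y * m y * ‖rsc H0 b x y‖ ^ 2 * Real.exp (th * (f x - f y))
        ≤ kap y * m y * ‖rsc H0 b x y‖ ^ 2 * (1 + th * Real.exp (|f x - f y|)) :=
          mul_le_mul_of_nonneg_left e2 (by positivity)
      _ = _ := by ring
  rw [Finset.sum_add_distrib] at e1
  have e3 := (h.row x).trans (h.imd x)
  have e4 := h.dif_row hf x
  linarith

theorem TT_norm (x y : ι) : ‖GSC.TT (rsc H0 b) kap x y‖ = ‖rsc H0 b x y‖ ^ 2 * kap y := by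
  unfold GSC.TT
  rw [norm_mul, norm_pow, Complex.norm_real, Real.norm_of_nonneg (h.kap0 y)]

theorem TW_norm (f : ι → ℝ) (x y : ι) : ‖TW (GSC.TT (rsc H0 b) kap) f th x y‖ =
    ‖rsc H0 b x y‖ ^ 2 * kap y * Real.exp (th * (f x - f y)) := by
  unfold TW
  rw [norm_mul, h.TT_norm, Complex.norm_real, Real.norm_of_nonneg (Real.exp_nonneg _)]

/-- the `ℓ²` norm of the difference -/
theorem dif_l2 {f : ι → ℝ} (hf : AdmW H0 b f) (u : ι → ℂ) :
    ∑ x, kap x * ‖(TW (GSC.TT (rsc H0 b) kap) f th *ᵥ u) x - (GSC.TT (rsc H0 b) kap *ᵥ u) x‖ ^ 2 ≤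
      (4 * th * C0 / c1) ^ 2 * ∑ x, kap x * ‖u x‖ ^ 2 := by
  have hc1 := h.c10
  have hth := h.th0
  have hC0 := h.C00
  have e1 := schur (kap := kap) (m := m)
    (K := fun x y => ‖rsc H0 b x y‖ ^ 2 * (th * Real.exp (|f x - f y|)))
    (β := 4 * th * C0 / c1) (fun x y => by rw [rsc_symm h.sym b x y, abs_sub_comm])
    (fun x y => by positivity) h.kap0 h.m0 (by positivity) (h.dif_row hf)
    (fun y => ‖u y‖)
  refine le_trans (Finset.sum_le_sum fun x _ => ?_) e1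
  refine mul_le_mul_of_nonneg_left ?_ (h.kap0 x)
  refine pow_le_pow_left₀ (norm_nonneg _) ?_ 2
  have e2 : (TW (GSC.TT (rsc H0 b) kap) f th *ᵥ u) x - (GSC.TT (rsc H0 b) kap *ᵥ u) x =
      ∑ y, (GSC.TT (rsc H0 b) kap x y * ((Real.exp (th * (f x - f y)) - 1 : ℝ) : ℂ)) * u y := by
    show ∑ y, _ - ∑ y, _ = _
    rw [← Finset.sum_sub_distrib]
    refine Finset.sum_congr rfl fun y _ => ?_
    unfold TW
    push_cast
    ring
  rw [e2]
  refine (norm_sum_le _ _).trans (Finset.sum_le_sum fun y _ => ?_)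
  rw [norm_mul, norm_mul, h.TT_norm, Complex.norm_real, Real.norm_eq_abs]
  have e3 : |Real.exp (th * (f x - f y)) - 1| ≤ th * Real.exp (|f x - f y|) := by
    have e4 : Real.exp (th * |f x - f y|) ≤ 1 + th * Real.exp (|f x - f y|) :=
      exp_th h.th0 h.th1
    have e5 : Real.exp (th * (f x - f y)) ≤ Real.exp (th * |f x - f y|) :=
      Real.exp_le_exp.2 (mul_le_mul_of_nonneg_left (le_abs_self _) hth)
    have e6 : Real.exp (-(th * |f x - f y|)) ≤ Real.exp (th * (f x - f y)) := by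
      refine Real.exp_le_exp.2 ?_
      have := mul_le_mul_of_nonneg_left (neg_abs_le (f x - f y)) hth
      linarith
    have e7 : 2 - Real.exp (th * |f x - f y|) ≤ Real.exp (-(th * |f x - f y|)) := by
      rw [Real.exp_neg]
      have e8 := Real.exp_pos (th * |f x - f y|)
      rw [← one_div, le_div_iff₀ e8]
      nlinarith [sq_nonneg (Real.exp (th * |f x - f y|) - 1)]
    rw [abs_le]
    constructor <;> linarith
  calc ‖rsc H0 b x y‖ ^ 2 * kap y * |Real.exp (th * (f x - f y)) - 1| * ‖u y‖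
      ≤ ‖rsc H0 b x y‖ ^ 2 * kap y * (th * Real.exp (|f x - f y|)) * ‖u y‖ := by
        have := h.kap0 y
        gcongr
    _ = _ := by ring

/-- Minkowski for the averaged matrix -/
theorem BW_l2 {f : ι → ℝ} (hf : AdmW H0 b f) (u : ι → ℂ) :
    ∑ x, kap x * ‖(BB (TW (GSC.TT (rsc H0 b) kap) f th) *ᵥ u) x‖ ^ 2 ≤
      q ^ 2 * ∑ x, kap x * ‖u x‖ ^ 2 := by
  have hc1 := h.c10
  have hth := h.th0
  have hC0 := h.C00
  have hq0 := h.q00
  set S := ∑ x, kap x * ‖u x‖ ^ 2 with hS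
  have hS0 : 0 ≤ S := Finset.sum_nonneg fun x _ => mul_nonneg (h.kap0 x) (sq_nonneg _)
  set D : ι → ℂ := fun x => (1 / 2 : ℂ) *
    ((TW (GSC.TT (rsc H0 b) kap) f th *ᵥ u) x - (GSC.TT (rsc H0 b) kap *ᵥ u) x) with hD
  have e1 : ∀ x, (BB (TW (GSC.TT (rsc H0 b) kap) f th) *ᵥ u) x =
      (BB (GSC.TT (rsc H0 b) kap) *ᵥ u) x + D x := by
    intro x
    rw [PA.BB_apply, PA.BB_apply, hD]
    ring
  have e2 : ∑ x, kap x * ‖(BB (GSC.TT (rsc H0 b) kap) *ᵥ u) x‖ ^ 2 ≤ q0 ^ 2 * S := by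
    refine (BB_l2 (fun x y => rsc_symm h.sym b x y) h.kap0 h.m0 h.al0
      (fun x => (h.row x).trans (h.imd x)) h.H3 (im_psd h.sym h.neg) u).trans ?_
    exact mul_le_mul_of_nonneg_right h.qq hS0
  have e3 : ∑ x, kap x * ‖D x‖ ^ 2 ≤ (2 * th * C0 / c1) ^ 2 * S := by
    have e4 := h.dif_l2 hf u
    have e5 : ∑ x, kap x * ‖D x‖ ^ 2 = 1 / 4 * ∑ x, kap x *
        ‖(TW (GSC.TT (rsc H0 b) kap) f th *ᵥ u) x - (GSC.TT (rsc H0 b) kap *ᵥ u) x‖ ^ 2 := by
      rw [Finset.mul_sum]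
      refine Finset.sum_congr rfl fun x _ => ?_
      rw [hD]
      simp only []
      rw [norm_mul, mul_pow]
      have e6 : ‖(1 / 2 : ℂ)‖ ^ 2 = 1 / 4 := by norm_num
      rw [e6]
      ring
    rw [e5]
    calc _ ≤ 1 / 4 * ((4 * th * C0 / c1) ^ 2 * S) := mul_le_mul_of_nonneg_left e4 (by norm_num)
      _ = _ := by ring
  have e4 := mink2 (s := Finset.univ) (w := kap) (fun i _ => h.kap0 i)
    (fun x => (BB (GSC.TT (rsc H0 b) kap) *ᵥ u) x) D
  have e5 : √(∑ x, kap x * ‖(BB (GSC.TT (rsc H0 b) kap) *ᵥ u) x‖ ^ 2) ≤ q0 * √S := by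
    rw [Real.sqrt_le_left (by positivity), mul_pow, Real.sq_sqrt hS0]
    exact e2
  have e6 : √(∑ x, kap x * ‖D x‖ ^ 2) ≤ 2 * th * C0 / c1 * √S := by
    rw [Real.sqrt_le_left (by positivity), mul_pow, Real.sq_sqrt hS0]
    exact e3
  have e7 : √(∑ x, kap x * ‖(BB (TW (GSC.TT (rsc H0 b) kap) f th) *ᵥ u) x‖ ^ 2) ≤ q * √S := by
    rw [Finset.sum_congr rfl fun x _ => by rw [e1 x]]
    refine e4.trans ((add_le_add e5 e6).trans ?_)
    rw [← add_mul]
    exact mul_le_mul_of_nonneg_right h.qw (Real.sqrt_nonneg _)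
  have hq : 0 ≤ q := le_trans (by positivity) h.qw
  rw [Real.sqrt_le_left (by positivity), mul_pow, Real.sq_sqrt hS0] at e7
  exact e7

/-- the hypotheses of the abstract bound for the conjugated matrix -/
theorem toPA {f : ι → ℝ} (hf : AdmW H0 b f) :
    PA (TW (GSC.TT (rsc H0 b) kap) f th) m kap w (al + 4 * th * C0 / c1) c1 C1 q
      (√(4 * C2 * C0 / c1)) 1 E A r l where
  al0 := by
    have hc1 := h.c10
    have hth := h.th0
    have hC0 := h.C00
    have := h.al0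
    positivity
  al1 := h.al1
  c10 := h.c10
  mlo := h.mlo
  mup := h.mup
  kap0 := h.kap0
  row := by
    intro x
    refine le_trans (le_of_eq ?_) (h.rowW hf x)
    refine Finset.sum_congr rfl fun y _ => ?_
    rw [h.TW_norm]
    ring
  q0 := by
    have hc1 := h.c10
    have hth := h.th0
    have hC0 := h.C00
    have := h.q00
    exact le_trans (by positivity) h.qw
  q1 := h.q1
  l2 := h.BW_l2 hf
  Cp0 := Real.sqrt_nonneg _
  pt := by
    intro u x
    have hc1 := h.c10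
    have hC0 := h.C00
    have hth := h.th0
    have hC2 : 0 ≤ C2 := (sq_nonneg _).trans (h.ent x x)
    rw [Real.sq_sqrt (by positivity)]
    have e1 : ‖(TW (GSC.TT (rsc H0 b) kap) f th *ᵥ u) x‖ ≤
        ∑ y, (√(kap y) * (‖rsc H0 b x y‖ ^ 2 * Real.exp (th * (f x - f y)))) *
          (√(kap y) * ‖u y‖) := by
      refine (norm_sum_le _ _).trans (Finset.sum_le_sum fun y _ => ?_)
      rw [norm_mul, h.TW_norm]
      have e2 := Real.mul_self_sqrt (h.kap0 y)
      calc ‖rsc H0 b x y‖ ^ 2 * kap y * Real.exp (th * (f x - f y)) * ‖u y‖ =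
          ‖rsc H0 b x y‖ ^ 2 * (√(kap y) * √(kap y)) * Real.exp (th * (f x - f y)) * ‖u y‖ := by
            rw [e2]
        _ ≤ _ := le_of_eq (by ring)
    have e3 : (∑ y, (√(kap y) * (‖rsc H0 b x y‖ ^ 2 * Real.exp (th * (f x - f y)))) *
        (√(kap y) * ‖u y‖)) ^ 2 ≤
        (∑ y, (√(kap y) * (‖rsc H0 b x y‖ ^ 2 * Real.exp (th * (f x - f y)))) ^ 2) *
          ∑ y, (√(kap y) * ‖u y‖) ^ 2 :=
      Finset.sum_mul_sq_le_sq_mul_sq _ _ _
    have e4 : ∑ y, (√(kap y) * (‖rsc H0 b x y‖ ^ 2 * Real.exp (th * (f x - f y)))) ^ 2 ≤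
        4 * C2 * C0 / c1 := by
      have e5 : ∑ y, (√(kap y) * (‖rsc H0 b x y‖ ^ 2 * Real.exp (th * (f x - f y)))) ^ 2 ≤
          ∑ y, C2 / c1 * (kap y * m y * ‖rsc H0 b x y‖ ^ 2 * Real.exp (2 * |f x - f y|)) := by
        refine Finset.sum_le_sum fun y _ => ?_
        rw [mul_pow, Real.sq_sqrt (h.kap0 y), mul_pow]
        have e6 := h.ent x y
        have e7 := h.mlo y
        have e8 := h.kap0 y
        have e9 : 1 ≤ m y / c1 := (one_le_div hc1).2 e7
        have e10 : Real.exp (th * (f x - f y)) ^ 2 ≤ Real.exp (2 * |f x - f y|) := by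
          rw [← Real.exp_nat_mul]
          refine Real.exp_le_exp.2 ?_
          push_cast
          have e11 : th * (f x - f y) ≤ 1 * |f x - f y| :=
            (mul_le_mul_of_nonneg_left (le_abs_self _) hth).trans
              (mul_le_mul_of_nonneg_right h.th1 (abs_nonneg _))
          linarith
        calc kap y * ((‖rsc H0 b x y‖ ^ 2) ^ 2 * Real.exp (th * (f x - f y)) ^ 2)
            ≤ kap y * ((‖rsc H0 b x y‖ ^ 2) ^ 2 * Real.exp (2 * |f x - f y|)) := by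
              gcongr
          _ = kap y * ‖rsc H0 b x y‖ ^ 2 * Real.exp (2 * |f x - f y|) * ‖rsc H0 b x y‖ ^ 2 := by
              ring
          _ ≤ kap y * ‖rsc H0 b x y‖ ^ 2 * Real.exp (2 * |f x - f y|) * C2 :=
              mul_le_mul_of_nonneg_left e6 (by positivity)
          _ = kap y * ‖rsc H0 b x y‖ ^ 2 * Real.exp (2 * |f x - f y|) * C2 * 1 := by ring
          _ ≤ kap y * ‖rsc H0 b x y‖ ^ 2 * Real.exp (2 * |f x - f y|) * C2 * (m y / c1) :=
              mul_le_mul_of_nonneg_left e9 (by positivity)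
          _ = _ := by ring
      refine e5.trans ?_
      rw [← Finset.mul_sum]
      calc C2 / c1 * ∑ y, kap y * m y * ‖rsc H0 b x y‖ ^ 2 * Real.exp (2 * |f x - f y|)
          ≤ C2 / c1 * (4 * C0) := mul_le_mul_of_nonneg_left (h.expm hf x) (by positivity)
        _ = _ := by ring
    have e10 : ∑ y, (√(kap y) * ‖u y‖) ^ 2 = ∑ y, kap y * ‖u y‖ ^ 2 := by
      refine Finset.sum_congr rfl fun y _ => ?_
      rw [mul_pow, Real.sq_sqrt (h.kap0 y)]
    have e11 : 0 ≤ ∑ y, kap y * ‖u y‖ ^ 2 :=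
      Finset.sum_nonneg fun x _ => mul_nonneg (h.kap0 x) (sq_nonneg _)
    refine (pow_le_pow_left₀ (norm_nonneg _) e1 2).trans (e3.trans ?_)
    rw [e10]
    exact mul_le_mul_of_nonneg_right e4 e11
  mu0 := by norm_num
  E1 := h.E1
  ww := h.ww
  ex := by
    intro x0 x
    have hth := h.th0
    have e1 := h.expm (h.adm x0) x
    have e2 := h.expm hf x
    have e3 : ∑ y, ‖TW (GSC.TT (rsc H0 b) kap) f th x y‖ *
        (m y * Real.exp (1 * (w x0 y - w x0 x))) ≤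
        ∑ y, (1 / 2 * (kap y * m y * ‖rsc H0 b x y‖ ^ 2 * Real.exp (2 * |w x0 x - w x0 y|)) +
          1 / 2 * (kap y * m y * ‖rsc H0 b x y‖ ^ 2 * Real.exp (2 * |f x - f y|))) := by
      refine Finset.sum_le_sum fun y _ => ?_
      rw [h.TW_norm]
      have hm : 0 ≤ m y := (h.m0 y).le
      have hk := h.kap0 y
      have e4 : Real.exp (th * (f x - f y)) * Real.exp (1 * (w x0 y - w x0 x)) ≤
          1 / 2 * Real.exp (2 * |w x0 x - w x0 y|) + 1 / 2 * Real.exp (2 * |f x - f y|) := by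
        have e5 : Real.exp (th * (f x - f y)) ≤ Real.exp (|f x - f y|) := by
          refine Real.exp_le_exp.2 ?_
          have e11 : th * (f x - f y) ≤ 1 * |f x - f y| :=
            (mul_le_mul_of_nonneg_left (le_abs_self _) hth).trans
              (mul_le_mul_of_nonneg_right h.th1 (abs_nonneg _))
          linarith
        have e6 : Real.exp (1 * (w x0 y - w x0 x)) ≤ Real.exp (|w x0 x - w x0 y|) := by
          refine Real.exp_le_exp.2 ?_
          have := le_abs_self (w x0 y - w x0 x)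
          rw [abs_sub_comm] at this
          linarith
        have e7 : Real.exp (2 * |w x0 x - w x0 y|) = Real.exp (|w x0 x - w x0 y|) ^ 2 := by
          rw [← Real.exp_nat_mul]
          push_cast
          rfl
        have e8 : Real.exp (2 * |f x - f y|) = Real.exp (|f x - f y|) ^ 2 := by
          rw [← Real.exp_nat_mul]
          push_cast
          rfl
        rw [e7, e8]
        have e9 := mul_le_mul e5 e6 (Real.exp_nonneg _) (Real.exp_nonneg _)
        nlinarith [sq_nonneg (Real.exp (|w x0 x - w x0 y|) - Real.exp (|f x - f y|))]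
      have e12 : 0 ≤ kap y * m y * ‖rsc H0 b x y‖ ^ 2 := by positivity
      have e13 := mul_le_mul_of_nonneg_left e4 e12
      calc ‖rsc H0 b x y‖ ^ 2 * kap y * Real.exp (th * (f x - f y)) *
            (m y * Real.exp (1 * (w x0 y - w x0 x)))
          = kap y * m y * ‖rsc H0 b x y‖ ^ 2 * (Real.exp (th * (f x - f y)) *
              Real.exp (1 * (w x0 y - w x0 x))) := by ring
        _ ≤ _ := e13
        _ = _ := by ring
    rw [Finset.sum_add_distrib, ← Finset.mul_sum, ← Finset.mul_sum] at e3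
    have e5 := h.mlo x
    have e6 : E * c1 ≤ E * m x := mul_le_mul_of_nonneg_left e5 (by linarith [h.E1])
    have e7 := h.E2
    linarith
  A0 := h.A0
  vol := h.vol
  l4 := h.l4
  n1 := h.n1
  n2 := by
    rw [one_mul]
    exact h.n2

/-- THE WEIGHTED SUP NORM BOUND OF `(1 - R κ)⁻¹` -/
theorem supW {f : ι → ℝ} (hf : AdmW H0 b f) (u : ι → ℂ) (v : ℝ)
    (hv : ∀ x, ‖u x - ∑ y, rsc H0 b x y ^ 2 * ((kap y : ℂ) * u y)‖ ≤ v * Real.exp (-(th * f x)))
    (x : ι) : ‖u x‖ ≤ 4 * l * C1 / c1 * v * Real.exp (-(th * f x)) := by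
  set g : ι → ℂ := fun y => (Real.exp (th * f y) : ℂ) * u y with hg
  have hgn : ∀ y, ‖g y‖ = Real.exp (th * f y) * ‖u y‖ := by
    intro y
    rw [hg]
    simp only []
    rw [norm_mul, Complex.norm_real, Real.norm_of_nonneg (Real.exp_nonneg _)]
  have h1 : ∀ x, ‖g x - (TW (GSC.TT (rsc H0 b) kap) f th *ᵥ g) x‖ ≤ v := by
    intro x
    have e1 : g x - (TW (GSC.TT (rsc H0 b) kap) f th *ᵥ g) x =
        (Real.exp (th * f x) : ℂ) * (u x - ∑ y, rsc H0 b x y ^ 2 * ((kap y : ℂ) * u y)) := by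
      have e2 : (TW (GSC.TT (rsc H0 b) kap) f th *ᵥ g) x =
          (Real.exp (th * f x) : ℂ) * ∑ y, rsc H0 b x y ^ 2 * ((kap y : ℂ) * u y) := by
        rw [Finset.mul_sum]
        refine Finset.sum_congr rfl fun y _ => ?_
        unfold TW GSC.TT
        rw [hg]
        simp only []
        have e3 : (Real.exp (th * (f x - f y)) : ℂ) * (Real.exp (th * f y) : ℂ) =
            (Real.exp (th * f x) : ℂ) := by
          rw [← Complex.ofReal_mul, ← Real.exp_add]
          congr 2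
          ring
        rw [← e3]
        ring
      rw [e2]
      ring
    rw [e1, norm_mul, Complex.norm_real, Real.norm_of_nonneg (Real.exp_nonneg _)]
    calc _ ≤ Real.exp (th * f x) * (v * Real.exp (-(th * f x))) :=
          mul_le_mul_of_nonneg_left (hv x) (Real.exp_nonneg _)
      _ = v * (Real.exp (th * f x) * Real.exp (-(th * f x))) := by ring
      _ = v := by
          rw [← Real.exp_add, add_neg_cancel, Real.exp_zero, mul_one]
  have h2 := (h.toPA hf).main h1 x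
  rw [hgn] at h2
  have h3 : ‖u x‖ = Real.exp (th * f x) * ‖u x‖ * Real.exp (-(th * f x)) := by
    rw [mul_right_comm, ← Real.exp_add, add_neg_cancel, Real.exp_zero, one_mul]
  rw [h3]
  exact mul_le_mul_of_nonneg_right h2 (Real.exp_nonneg _)

/-- the unweighted bound -/
theorem supB : SupB H0 kap b (4 * l * C1 / c1) := by
  intro u v hv x
  have hf : AdmW H0 b (fun _ => (0 : ℝ)) := by
    intro x
    have := h.neg x
    simp only [sub_self, Real.sinh_zero, abs_zero, mul_zero, Finset.sum_const_zero]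
    linarith
  have h1 := h.supW hf u v (fun x => by simpa using hv x) x
  simpa using h1

end SBw

end Pool.Agent.ANM
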